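import Pool.Agent.VCM.Clusters

/-! S15495: shared definitions for sections 2, 3.6, 5, 6. -/

open FirstOrder FirstOrder.Language
open scoped Pointwise

namespace Pool.Agent.VCM

variable {L : FirstOrder.Language.{0, 0}} {N : Type} [L.Structure N]

namespace VC

variable (V : VC L N)

/-- the cluster relation (the same as `V.Clu`) -/
def cl (C D : Set N) : Prop := Relation.EqvGen V.Blk C D

/-- the filter of sets near `W` -/
def nearF (W : Set N) : Filter N where
  sets := {X | ∃ E : Set (Set N), E.Finite ∧ (∀ D ∈ E, V.Ball D ∧ ¬ V.cl W D) ∧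
    {x | ∀ D ∈ E, (x ∈ D ↔ W ⊆ D)} ⊆ X}
  univ_sets := ⟨∅, Set.finite_empty, by simp, Set.subset_univ _⟩
  sets_of_superset := by
    rintro X Y ⟨E, h1, h2, h3⟩ hXY
    exact ⟨E, h1, h2, h3.trans hXY⟩
  inter_sets := by
    rintro X Y ⟨E, h1, h2, h3⟩ ⟨E', h1', h2', h3'⟩
    refine ⟨E ∪ E', h1.union h1', ?_, ?_⟩
    · rintro D (h | h)
      exacts [h2 D h, h2' D h]
    · intro x hx
      exact ⟨h3 fun D hD => hx D (Or.inl hD), h3' fun D hD => hx D (Or.inr hD)⟩

end VC

/-- `f` is constant on the atoms of the set of balls `E` -/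
def AtomConst {N β : Type} (E : Set (Set N)) (f : N → β) : Prop :=
  ∀ x y, (∀ D ∈ E, (x ∈ D ↔ y ∈ D)) → f x = f y

/-- a `k`-system over `α`-tuples, parameter points are `p`-tuples: `T a` is a set of at most `k` subsets of
`Fin p → N`; the patterns on finitely many points are `∅`-definable. -/
structure Sys (L : FirstOrder.Language.{0, 0}) (N : Type) [L.Structure N] (α : Type) (p k : ℕ) where
  T : (α → N) → Set (Set (Fin p → N))
  fin : ∀ a, (T a).Finite
  card : ∀ a, (T a).ncard ≤ k
  dfn : ∀ (n : ℕ) (η : Fin n → Prop), Dfn L (fun v : α ⊕ (Fin n × Fin p) → N =>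
      ∃ w ∈ T (fun i => v (Sum.inl i)), ∀ j, ((fun i => v (Sum.inr (j, i))) ∈ w ↔ η j))

/-- the set of patterns of `T a` on the points `s j` -/
def Sys.pat {α : Type} {p k : ℕ} (S : Sys L N α p k) {J : Type} (a : α → N) (s : J → Fin p → N) :
    Set (J → Prop) := (fun (w : Set (Fin p → N)) j => s j ∈ w) '' S.T a

/-- the tuple `(a,x)` -/
def ext {α : Type} (a : α → N) (x : N) : α ⊕ Unit → N := Sum.elim a (fun _ => x)

/-- the parameters in `a` and in `s` -/
def supp {α J : Type} {p : ℕ} (a : α → N) (s : J → Fin p → N) : Set N :=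
  Set.range a ∪ {y | ∃ j i, y = s j i}

/-- a definable family of sets of definable subsets of `N` -/
structure BFam (L : FirstOrder.Language.{0, 0}) (N : Type) [L.Structure N] (α : Type) (p : ℕ) where
  ι : Type
  fin : Finite ι
  δ : ι → Fm L
  R : ι → ((α ⊕ Fin p) ⊕ ℕ → N) → Prop
  dfn : ∀ i, Dfn L (R i)

/-- the members of the family at `(a,b)` -/
def BFam.E {α : Type} {p : ℕ} (B : BFam L N α p) (a : α → N) (b : Fin p → N) : Set (Set N) :=
  {D | ∃ i w, B.R i (Sum.elim (Sum.elim a b) w) ∧ D = fib (B.δ i) w}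

end Pool.Agent.VCM
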