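import Pool.Agent.VCM.Sys

/-! S15495, 5.6: uniform Theorem O from the owner theorem, by compactness. -/

open FirstOrder FirstOrder.Language
open scoped Pointwise

namespace Pool.Agent.VCM

variable {L : FirstOrder.Language.{0, 0}} {N : Type} [L.Structure N]

/-- the conclusion of Theorem O for the system `S` and `n`-tuples of parameter points -/
def VC.OConc (V : VC L N) {α : Type} {p k : ℕ} (S : Sys L N (α ⊕ Unit) p k) (n : ℕ) : Prop :=
  ∃ (B : BFam L N α p) (K : ℕ), (∀ a b, (B.E a b).Finite ∧ (B.E a b).ncard ≤ K ∧ ∀ D ∈ B.E a b, V.Ball D) ∧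
    ∀ (a : α → N) (s : Fin n → Fin p → N) (u v : N), (∀ j, ∀ D ∈ B.E a (s j), (u ∈ D ↔ v ∈ D)) →
      S.pat (ext a u) s = S.pat (ext a v) s

namespace OUni

/-- definable families of algebraic balls -/
structure AFam (V : VC L N) (κ : Type) where
  δ : Fm L
  R : (κ ⊕ ℕ → N) → Prop
  K : ℕ
  dfn : Dfn L R
  fin : ∀ c', {D : Set N | ∃ u, R (Sum.elim c' u) ∧ D = fib δ u}.Finite ∧
        {D : Set N | ∃ u, R (Sum.elim c' u) ∧ D = fib δ u}.ncard ≤ K
  acl : ∀ c' w', R (Sum.elim c' w') → fib δ w' ∈ V.acl (Set.range c')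

/-- the statement of `VC.acl_dfn` -/
def AclDfn (V : VC L N) (κ : Type) : Prop :=
  ∀ {c : κ → N} {δ : Fm L} {w : ℕ → N} (_ : fib δ w ∈ V.acl (Set.range c)),
    ∃ (R : (κ ⊕ ℕ → N) → Prop) (K : ℕ), Dfn L R ∧ R (Sum.elim c w) ∧
      (∀ c', {D : Set N | ∃ u, R (Sum.elim c' u) ∧ D = fib δ u}.Finite ∧
        {D : Set N | ∃ u, R (Sum.elim c' u) ∧ D = fib δ u}.ncard ≤ K) ∧
      ∀ c' w', R (Sum.elim c' w') → fib δ w' ∈ V.acl (Set.range c')

theorem mem_pat {α : Type} {p k : ℕ} (S : Sys L N α p k) {J : Type} (a : α → N)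
    (s : J → Fin p → N) (η : J → Prop) :
    η ∈ S.pat a s ↔ ∃ w ∈ S.T a, ∀ j, (s j ∈ w ↔ η j) := by
  unfold Sys.pat
  constructor
  · rintro ⟨w, hw, rfl⟩
    exact ⟨w, hw, fun j => Iff.rfl⟩
  · rintro ⟨w, hw, h⟩
    exact ⟨w, hw, funext fun j => propext (h j)⟩

theorem main {V : VC L N} (Λ : Levels L N) {α : Type} [Finite α] {p k : ℕ}
    (hacl : AclDfn V (α ⊕ Fin p)) (S : Sys L N (α ⊕ Unit) p k)
    (n : ℕ) (howner : ∀ (a : α → N) (s : Fin n → Fin p → N) (u v : N),
      (∀ j, ∀ W ∈ V.acl (Set.range a ∪ Set.range (s j)), (u ∈ W ↔ v ∈ W)) →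
      S.pat (ext a u) s = S.pat (ext a v) s) : V.OConc S n := by
  classical
  have hne : Nonempty N := Λ.nonempty
  let κ := (α ⊕ (Fin n × Fin p)) ⊕ Bool
  -- the relations
  let ρ : Option (AFam V (α ⊕ Fin p)) → (κ → N) → Prop := fun o x =>
    match o with
    | none => S.pat (ext (fun i => x (Sum.inl (Sum.inl i))) (x (Sum.inr false)))
        (fun j i => x (Sum.inl (Sum.inr (j, i)))) ≠
        S.pat (ext (fun i => x (Sum.inl (Sum.inl i))) (x (Sum.inr true)))
        (fun j i => x (Sum.inl (Sum.inr (j, i))))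
    | some q => ∀ j : Fin n, ∀ w : ℕ → N,
        q.R (Sum.elim (Sum.elim (fun i => x (Sum.inl (Sum.inl i)))
          (fun i => x (Sum.inl (Sum.inr (j, i))))) w) →
        (x (Sum.inr false) ∈ fib q.δ w ↔ x (Sum.inr true) ∈ fib q.δ w)
  have hρ : ∀ o, DfnO L (Λ.S 0) (ρ o) := by
    rintro (_ | q)
    · refine DfnO.of_dfn0 ?_
      have h1 : ∀ (b : Bool) (η : Fin n → Prop), Dfn L (fun x : κ → N =>
          η ∈ S.pat (ext (fun i => x (Sum.inl (Sum.inl i))) (x (Sum.inr b)))
            (fun j i => x (Sum.inl (Sum.inr (j, i))))) := by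
        intro b η
        have h2 := Dfn.comp (α := κ) (S.dfn n η)
          (Sum.elim (Sum.elim (fun i => Sum.inl (Sum.inl i)) (fun _ => Sum.inr b))
            (fun q => Sum.inl (Sum.inr q)))
          (fun x => Sum.elim (ext (fun i => x (Sum.inl (Sum.inl i))) (x (Sum.inr b)))
            (fun q => x (Sum.inl (Sum.inr q))))
          (by
            intro v c
            rcases c with (c | c) | c <;> rfl)
        refine h2.of_iff fun x => ?_
        rw [mem_pat]
        rfl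
      have h3 : Dfn L (fun x : κ → N => ¬ ∀ η : Fin n → Prop,
          (η ∈ S.pat (ext (fun i => x (Sum.inl (Sum.inl i))) (x (Sum.inr false)))
            (fun j i => x (Sum.inl (Sum.inr (j, i)))) ↔
          η ∈ S.pat (ext (fun i => x (Sum.inl (Sum.inl i))) (x (Sum.inr true)))
            (fun j i => x (Sum.inl (Sum.inr (j, i)))))) :=
        (Dfn.finiteAll fun η => (h1 false η).iff (h1 true η)).not
      refine h3.of_iff fun x => ?_
      show _ ↔ ¬ _ = _
      rw [Set.ext_iff]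
    · refine DfnO.of_dfn0 ?_
      refine Dfn.finiteAll fun j => ?_
      refine Dfn.allT (κ := ℕ) (R := fun (x : κ → N) (w : ℕ → N) =>
        q.R (Sum.elim (Sum.elim (fun i => x (Sum.inl (Sum.inl i)))
          (fun i => x (Sum.inl (Sum.inr (j, i))))) w) →
        (x (Sum.inr false) ∈ fib q.δ w ↔ x (Sum.inr true) ∈ fib q.δ w)) ?_
      refine Dfn.imp ?_ (Dfn.iff ?_ ?_)
      · exact Dfn.comp q.dfn
          (Sum.elim (Sum.elim (fun i => Sum.inl (Sum.inl (Sum.inl i)))
            (fun i => Sum.inl (Sum.inl (Sum.inr (j, i))))) (fun t => Sum.inr t)) _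
          (by
            intro v c
            rcases c with (c | c) | c <;> rfl)
      · exact dfn_mem q.δ (Sum.inl (Sum.inr false)) (fun t => Sum.inr t) _ _ (fun v => rfl)
          (fun v t => rfl)
      · exact dfn_mem q.δ (Sum.inl (Sum.inr true)) (fun t => Sum.inr t) _ _ (fun v => rfl)
          (fun v t => rfl)
  -- compactness
  have key : ∃ F : Finset (AFam V (α ⊕ Fin p)), ∀ (a : α → N) (s : Fin n → Fin p → N) (u v : N),
      (∀ q ∈ F, ∀ j, ∀ w : ℕ → N, q.R (Sum.elim (Sum.elim a (s j)) w) →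
        (u ∈ fib q.δ w ↔ v ∈ fib q.δ w)) → S.pat (ext a u) s = S.pat (ext a v) s := by
    by_contra hcon
    push Not at hcon
    obtain ⟨f, hf⟩ := Countable.exists_injective_nat κ
    obtain ⟨x, -, hx⟩ := Λ.sat_rel 0 (κ := κ)
      (fun c => (⟨Λ.ne.some, Λ.ne.some_mem⟩, f c))
      (fun c c' h => hf (Prod.mk.inj h).2) ρ hρ (by
        intro F
        obtain ⟨a, s, u, v, h1, h2⟩ := hcon F.eraseNone
        refine ⟨Sum.elim (Sum.elim a (fun q => s q.1 q.2)) (fun b => if b then v else u), ?_⟩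
        rintro (_ | q) hq
        · exact h2
        · intro j w hw
          exact h1 q (Finset.mem_eraseNone.2 hq) j w hw)
    refine hx none (howner _ _ _ _ ?_)
    intro j W hW
    obtain ⟨θ, w, rfl⟩ := hW.1.1
    have hW' : fib θ w ∈ V.acl (Set.range (Sum.elim (fun i => x (Sum.inl (Sum.inl i)))
        (fun i => x (Sum.inl (Sum.inr (j, i)))))) := by
      rw [Set.Sum.elim_range]
      exact hW
    obtain ⟨R, K, h1, h2, h3, h4⟩ := hacl hW'
    exact hx (some ⟨θ, R, K, h1, h3, h4⟩) j w h2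
  obtain ⟨F, hF⟩ := key
  let B : BFam L N α p :=
    { ι := {q // q ∈ F}
      fin := inferInstance
      δ := fun i => i.1.δ
      R := fun i => i.1.R
      dfn := fun i => i.1.dfn }
  refine ⟨B, ∑ q ∈ F, q.K, ?_, ?_⟩
  · intro a b
    have hsub : B.E a b = ⋃ q ∈ F, {D : Set N | ∃ u, q.R (Sum.elim (Sum.elim a b) u) ∧
        D = fib q.δ u} := by
      ext D
      simp only [Set.mem_iUnion, Set.mem_ofPred_eq]
      constructor
      · rintro ⟨i, w, h1, h2⟩
        exact ⟨i.1, i.2, w, h1, h2⟩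
      · rintro ⟨q, hq, w, h1, h2⟩
        exact ⟨⟨q, hq⟩, w, h1, h2⟩
    refine ⟨?_, ?_, ?_⟩
    · rw [hsub]
      exact Set.Finite.biUnion F.finite_toSet fun q _ => (q.fin _).1
    · rw [hsub]
      refine (Finset.set_ncard_biUnion_le F _).trans ?_
      exact Finset.sum_le_sum fun q _ => (q.fin _).2
    · rintro D ⟨i, w, h1, rfl⟩
      exact (i.1.acl _ _ h1).1
  · intro a s u v h
    refine hF a s u v fun q hq j w hw => ?_
    exact h j (fib q.δ w) ⟨⟨q, hq⟩, w, hw, rfl⟩

end OUni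

end Pool.Agent.VCM
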