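import Mathlib

/-! Formulas have finitely many variables; existential quantification over infinite tuples. -/

open FirstOrder FirstOrder.Language

namespace Pool.Agent.VCM

variable {L : FirstOrder.Language.{0, 0}}

theorem fin_supp {α : Type} (φ : L.Formula α) :
    ∃ (F : Finset α) (ψ : L.Formula F), ∀ (N : Type) [L.Structure N] (v : α → N),
      φ.Realize v ↔ ψ.Realize (fun a : F => v a) := by
  classical
  refine ⟨BoundedFormula.freeVarFinset φ, BoundedFormula.restrictFreeVar φ id, ?_⟩
  intro N _ v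
  exact (BoundedFormula.realize_restrictFreeVar (φ := φ) (f := id) (v := fun a => v a) (v' := v)
    (fun _ => rfl)).symm

/-- existential quantification over an arbitrary tuple of variables -/
theorem exists_ex {α κ : Type} (φ : L.Formula (α ⊕ κ)) :
    ∃ ψ : L.Formula α, ∀ (N : Type) [L.Structure N] [Nonempty N] (v : α → N),
      ψ.Realize v ↔ ∃ x : κ → N, φ.Realize (Sum.elim v x) := by
  classical
  obtain ⟨F, ψ, hψ⟩ := fin_supp φ
  let K := {k : κ // Sum.inr k ∈ F}
  have hK : Finite K := by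
    apply Finite.of_injective (fun k : K => (⟨Sum.inr k.1, k.2⟩ : F))
    rintro ⟨a, ha⟩ ⟨b, hb⟩ h
    simp only [Subtype.mk.injEq, Sum.inr.injEq] at h
    subst h; rfl
  let g : F → α ⊕ K := fun a => match a with
    | ⟨Sum.inl a, _⟩ => Sum.inl a
    | ⟨Sum.inr k, h⟩ => Sum.inr ⟨k, h⟩
  refine ⟨(ψ.relabel g).iExs K, ?_⟩
  intro N _ _ v
  rw [Formula.realize_iExs]
  have key : ∀ x : κ → N, (fun a : F => Sum.elim v x (a : α ⊕ κ)) =
      (Sum.elim v (fun k : K => x k.1)) ∘ g := by
    intro x
    funext a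
    rcases a with ⟨a | k, h⟩ <;> rfl
  constructor
  · rintro ⟨y, hy⟩
    rw [Formula.realize_relabel] at hy
    refine ⟨fun k => if h : Sum.inr k ∈ F then y ⟨k, h⟩ else Classical.arbitrary N, ?_⟩
    rw [hψ, key]
    convert hy using 2
    funext k
    rcases k with k | k
    · rfl
    · simp only [Sum.elim_inr]
      rw [dif_pos k.2]
  · rintro ⟨x, hx⟩
    refine ⟨fun k => x k.1, ?_⟩
    rw [Formula.realize_relabel, ← key, ← hψ]
    exact hx

/-- universal quantification over an arbitrary tuple of variables -/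
theorem exists_all {α κ : Type} (φ : L.Formula (α ⊕ κ)) :
    ∃ ψ : L.Formula α, ∀ (N : Type) [L.Structure N] [Nonempty N] (v : α → N),
      ψ.Realize v ↔ ∀ x : κ → N, φ.Realize (Sum.elim v x) := by
  obtain ⟨ψ, hψ⟩ := exists_ex φ.not
  refine ⟨ψ.not, ?_⟩
  intro N _ _ v
  rw [Formula.realize_not, hψ]
  simp only [Formula.realize_not]
  push Not
  rfl

/-- a finite conjunction -/
theorem exists_conj {α : Type} (T : Finset (L.Formula α)) :
    ∃ ψ : L.Formula α, ∀ (N : Type) [L.Structure N] (v : α → N),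
      ψ.Realize v ↔ ∀ φ ∈ T, φ.Realize v := by
  classical
  induction T using Finset.induction_on with
  | empty => exact ⟨⊤, fun N _ v => by simp⟩
  | insert φ T _ ih =>
    obtain ⟨ψ, hψ⟩ := ih
    refine ⟨φ ⊓ ψ, fun N _ v => ?_⟩
    rw [Formula.realize_inf, hψ]
    simp

/-- descent of realisability along an elementary embedding, for arbitrary tuples of variables -/
theorem descend {A B κ : Type} [L.Structure A] [L.Structure B] [Nonempty A] (f : A ↪ₑ[L] B)
    {α : Type} (v : α → A) (χ : L.Formula (α ⊕ κ)) (x : κ → B)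
    (h : χ.Realize (Sum.elim (fun a => f (v a)) x)) :
    ∃ x' : κ → A, χ.Realize (Sum.elim v x') := by
  obtain ⟨ψ, hψ⟩ := exists_ex χ
  haveI : Nonempty B := ⟨f (Classical.arbitrary A)⟩
  rw [← hψ, ← f.map_formula]
  exact (hψ B _).2 ⟨x, h⟩

end Pool.Agent.VCM
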