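import Pool.Agent.VCM.Chain
import Pool.Agent.VCM.FinSupp

/-! The monster model: an elementary extension `N` of `M` with levels `S 0 ⊆ S 1 ⊆ …` such that
every finitely satisfiable set of formulas over `S n` in `S n × ℕ` many variables is realised in
`S (n+1)`. -/

open FirstOrder FirstOrder.Language

namespace Pool.Agent.VCM

/-- A structure with levels. -/
structure Levels (L : FirstOrder.Language.{0, 0}) (N : Type) [L.Structure N] where
  S : ℕ → Set N
  mono : Monotone S
  cover : ∀ x, ∃ n, x ∈ S n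
  ne : (S 0).Nonempty
  /-- every `S n` is an elementary substructure (Tarski-Vaught form, arbitrary tuples) -/
  elem : ∀ (n : ℕ) (κ : Type) (φ : L.Formula (S n ⊕ κ)) (x : κ → N),
    φ.Realize (Sum.elim (fun a => (a : N)) x) →
      ∃ y : κ → N, (∀ k, y k ∈ S n) ∧ φ.Realize (Sum.elim (fun a => (a : N)) y)
  /-- saturation -/
  sat : ∀ (n : ℕ) (T : Set (L.Formula (S n ⊕ (S n × ℕ)))),
    (∀ T₀ : Finset (L.Formula (S n ⊕ (S n × ℕ))), ↑T₀ ⊆ T →
      ∃ x : S n × ℕ → N, ∀ φ ∈ T₀, φ.Realize (Sum.elim (fun x => (x : N)) x)) →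
    ∃ x : S n × ℕ → N, (∀ k, x k ∈ S (n + 1)) ∧
      ∀ φ ∈ T, φ.Realize (Sum.elim (fun x => (x : N)) x)

section

variable (L : FirstOrder.Language.{0, 0})

structure Str where
  C : Type
  [str : L.Structure C]
  [ne : Nonempty C]

attribute [instance] Str.str Str.ne

variable {L}

noncomputable def nextC (X : Str L) : Type := (exists_step L X.C).choose

noncomputable instance nextStr (X : Str L) : L.Structure (nextC X) :=
  (exists_step L X.C).choose_spec.choose

noncomputable def nextE (X : Str L) : X.C ↪ₑ[L] nextC X :=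
  (exists_step L X.C).choose_spec.choose_spec.choose

theorem nextSat (X : Str L) (T : Set (Fml L X.C)) (h : FinSat L X.C T) :
    ∃ x : X.C × ℕ → nextC X, ∀ φ ∈ T, φ.Realize (Sum.elim (nextE X) x) :=
  (exists_step L X.C).choose_spec.choose_spec.choose_spec T h

noncomputable def nextStr' (X : Str L) : Str L where
  C := nextC X
  str := nextStr X
  ne := ⟨nextE X X.ne.some⟩

noncomputable def seqX (X : Str L) : ℕ → Str L
  | 0 => X
  | n + 1 => nextStr' (seqX X n)

noncomputable def seqE (X : Str L) (n : ℕ) : (seqX X n).C ↪ₑ[L] (seqX X (n + 1)).C :=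
  nextE (seqX X n)

end

theorem exists_monster (L : FirstOrder.Language.{0, 0}) (M : Type) [L.Structure M] [Nonempty M] :
    ∃ (N : Type) (_ : L.Structure N) (f : M ↪ₑ[L] N) (Λ : Levels L N), Set.range f ⊆ Λ.S 0 := by
  classical
  let X : Str L := ⟨M⟩
  let G : ℕ → Type := fun n => (seqX X n).C
  let e : ∀ n, G n ↪ₑ[L] G (n + 1) := seqE X
  let ι : ∀ n, G n ↪ₑ[L] Lim G e := toLimE G e
  have hι : ∀ n x, ι (n + 1) (e n x) = ι n x := toLim_succ G e
  have hmono : Monotone (fun n => Set.range (ι n)) := by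
    apply monotone_nat_of_le_succ
    rintro n _ ⟨x, rfl⟩
    exact ⟨e n x, hι n x⟩
  refine ⟨Lim G e, inferInstance, ι 0, ⟨fun n => Set.range (ι n), hmono, ?_, ?_, ?_, ?_⟩, ?_⟩
  · intro z
    obtain ⟨i, x, rfl⟩ := toLim_cover G e z
    exact ⟨i, x, rfl⟩
  · exact ⟨ι 0 (Classical.arbitrary M), _, rfl⟩
  · -- Tarski-Vaught
    intro n κ φ x hx
    let r : Set.range (ι n) → G n := fun x => x.2.choose
    have hr : ∀ x, ι n (r x) = x := fun x => x.2.choose_spec
    haveI : Nonempty (G n) := (seqX X n).ne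
    obtain ⟨y, hy⟩ := descend (ι n) r φ x (by
      convert hx using 2
      funext a
      exact hr a)
    refine ⟨fun k => ι n (y k), fun k => ⟨_, rfl⟩, ?_⟩
    rw [← (ι n).map_formula] at hy
    convert hy using 1
    funext k
    rcases k with k | k
    · exact (hr k).symm
    · rfl
  · -- saturation
    intro n T hT
    let r : Set.range (ι n) → G n := fun x => x.2.choose
    have hr : ∀ x, ι n (r x) = x := fun x => x.2.choose_spec
    let s : G n → Set.range (ι n) := fun x => ⟨ι n x, x, rfl⟩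
    have hrs : ∀ x, r (s x) = x := fun x => (ι n).injective (hr (s x))
    have hsr : ∀ x, s (r x) = x := fun x => Subtype.ext (hr x)
    let ρ : Set.range (ι n) ⊕ (Set.range (ι n) × ℕ) → G n ⊕ (G n × ℕ) :=
      Sum.map r (Prod.map r id)
    let T' : Set (Fml L (G n)) := (fun φ => φ.relabel ρ) '' T
    have hfs : FinSat L (G n) T' := by
      intro T₀ hT₀
      -- choose preimages
      have hch : ∀ φ : Fml L (G n), ∃ ψ, φ ∈ T₀ → (ψ ∈ T ∧ ψ.relabel ρ = φ) := by
        intro φ
        by_cases hφ : φ ∈ T₀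
        · obtain ⟨ψ, hψ, e⟩ := hT₀ hφ
          exact ⟨ψ, fun _ => ⟨hψ, e⟩⟩
        · exact ⟨⊥, fun h => absurd h hφ⟩
      choose pre hpre using hch
      obtain ⟨x, hx⟩ := hT (T₀.image pre) (by
        intro ψ hψ
        simp only [Finset.coe_image, Set.mem_image, Finset.mem_coe] at hψ
        obtain ⟨φ, hφ, rfl⟩ := hψ
        exact (hpre φ hφ).1)
      obtain ⟨χ, hχ⟩ := exists_conj T₀
      haveI : Nonempty (G n) := (seqX X n).ne
      obtain ⟨x', hx'⟩ := descend (ι n) (id : G n → G n) χ (fun k => x (s k.1, k.2)) (by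
        rw [hχ]
        intro φ hφ
        obtain ⟨h1, h2⟩ := hpre φ hφ
        rw [← h2, Formula.realize_relabel]
        have h3 := hx (pre φ) (Finset.mem_image_of_mem _ hφ)
        convert h3 using 1
        funext k
        rcases k with k | k
        · exact hr k
        · show x (s (r k.1), k.2) = x k
          rw [hsr])
      refine ⟨x', fun φ hφ => ?_⟩
      exact (hχ (G n) _).1 hx' φ hφ
    obtain ⟨x, hx⟩ := nextSat (seqX X n) T' hfs
    refine ⟨fun k => ι (n + 1) (x (r k.1, k.2)), fun k => ⟨_, rfl⟩, fun φ hφ => ?_⟩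
    have h1 : (φ.relabel ρ).Realize (Sum.elim (e n) x : _ → G (n + 1)) :=
      hx (φ.relabel ρ) ⟨φ, hφ, rfl⟩
    rw [← (ι (n + 1)).map_formula, Formula.realize_relabel] at h1
    convert h1 using 1
    funext k
    rcases k with k | k
    · show (k : Lim G e) = ι (n + 1) (e n (r k))
      rw [hι, hr]
    · rfl
  · exact fun _ h => h

end Pool.Agent.VCM
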