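import Pool.Agent.VCM.Sys
import Pool.Agent.VCM.Monster

/-! S15495: the final translation. -/

open FirstOrder FirstOrder.Language
open scoped Pointwise

namespace Pool.Agent.VCM

section fam

variable {L : FirstOrder.Language.{0, 0}} {N : Type} [L.Structure N]

/-- the formula with parameter variables indexed by `ℕ` -/
def toFm {k : ℕ} (ψ : L.Formula (Fin 1 ⊕ Fin k)) : Fm L :=
  ψ.relabel (Sum.map (fun _ => ()) (fun i : Fin k => (i : ℕ)))

theorem fib_toFm {k : ℕ} (ψ : L.Formula (Fin 1 ⊕ Fin k)) (w : ℕ → N) :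
    fib (toFm ψ) w = {a : N | ψ.Realize (Sum.elim (fun _ => a) (fun i : Fin k => w i))} := by
  ext x
  rw [mem_fib, toFm, Formula.realize_relabel]
  show _ ↔ ψ.Realize (Sum.elim (fun _ => x) (fun i : Fin k => w i))
  apply iff_of_eq
  congr 1
  funext i
  rcases i with i | i <;> rfl

/-- extension of a finite tuple to an infinite one -/
theorem exists_tuple [Nonempty N] {k : ℕ} (b : Fin k → N) : ∃ w : ℕ → N, ∀ i : Fin k, w i = b i := by
  refine ⟨fun j => if h : j < k then b ⟨j, h⟩ else Classical.arbitrary N, fun i => ?_⟩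
  show (if h : (i : ℕ) < k then b ⟨i, h⟩ else Classical.arbitrary N) = b i
  rw [dif_pos i.2]

/-- the family of the statement generates a VC-structure -/
theorem exists_VC [Nonempty N] (Ψ : Set (Σ k : ℕ, L.Formula (Fin 1 ⊕ Fin k)))
    (h1 : ∀ ψ₁ ∈ Ψ, ∀ ψ₂ ∈ Ψ, ∀ (b₁ : Fin ψ₁.1 → N) (b₂ : Fin ψ₂.1 → N),
          {a : N | ψ₁.2.Realize (Sum.elim (fun _ => a) b₁)} ⊆
              {a : N | ψ₂.2.Realize (Sum.elim (fun _ => a) b₂)} ∨
            {a : N | ψ₂.2.Realize (Sum.elim (fun _ => a) b₂)} ⊆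
              {a : N | ψ₁.2.Realize (Sum.elim (fun _ => a) b₁)} ∨
            Disjoint {a : N | ψ₁.2.Realize (Sum.elim (fun _ => a) b₁)}
              {a : N | ψ₂.2.Realize (Sum.elim (fun _ => a) b₂)})
    (h2 : ∀ (k : ℕ) (φ : L.Formula (Fin 1 ⊕ Fin k)) (c : Fin k → N),
          {a : N | φ.Realize (Sum.elim (fun _ => a) c)} ∈
            BooleanSubalgebra.closure
              {S : Set N | ∃ ψ ∈ Ψ, ∃ b : Fin ψ.1 → N,
                S = {a : N | ψ.2.Realize (Sum.elim (fun _ => a) b)}}) :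
    Nonempty (VC L N) := by
  classical
  refine ⟨⟨{δ | δ = ⊤ ∨ ∃ ψ ∈ Ψ, δ = toFm ψ.2}, Or.inl rfl, ?_, ?_⟩⟩
  · have ht : ∀ w : ℕ → N, fib (⊤ : Fm L) w = Set.univ := fun w => by
      ext x; simp [mem_fib]
    rintro δ (rfl | ⟨ψ, hψ, rfl⟩) δ' (rfl | ⟨ψ', hψ', rfl⟩) w w'
    · left; rw [ht, ht]
    · right; left; rw [ht]; exact Set.subset_univ _
    · left; rw [ht]; exact Set.subset_univ _
    · rw [fib_toFm, fib_toFm]
      exact h1 ψ hψ ψ' hψ' _ _
  · intro θ w
    obtain ⟨F, ψ, hψ⟩ := fin_supp θ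
    -- a bound for the indices
    obtain ⟨K, hK⟩ : ∃ K : ℕ, ∀ i, (Sum.inr i : Unit ⊕ ℕ) ∈ F → i < K := by
      let G : Finset ℕ := F.preimage Sum.inr (Sum.inr_injective.injOn)
      refine ⟨G.sup id + 1, fun i hi => ?_⟩
      have : i ∈ G := by simpa [G] using hi
      exact Nat.lt_succ_of_le (Finset.le_sup (f := id) this)
    let g : F → Fin 1 ⊕ Fin K := fun a => match a with
      | ⟨Sum.inl _, _⟩ => Sum.inl 0
      | ⟨Sum.inr i, h⟩ => Sum.inr ⟨i, hK i h⟩
    have e : fib θ w = {a : N | (ψ.relabel g).Realize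
        (Sum.elim (fun _ => a) (fun i : Fin K => w i))} := by
      ext x
      rw [mem_fib, hψ]
      show _ ↔ (ψ.relabel g).Realize _
      rw [Formula.realize_relabel]
      apply iff_of_eq
      congr 1
      funext a
      rcases a with ⟨a | k, h⟩ <;> rfl
    rw [e]
    refine BooleanSubalgebra.closure_mono ?_ (h2 K (ψ.relabel g) (fun i : Fin K => w i))
    rintro S ⟨χ, hχ, b, rfl⟩
    obtain ⟨w', hw'⟩ := exists_tuple b
    refine ⟨toFm χ.2, Or.inr ⟨χ, hχ, rfl⟩, w', ?_⟩
    rw [fib_toFm]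
    have : (fun i : Fin χ.1 => w' i) = b := funext hw'
    rw [this]

/-- the system of a formula -/
noncomputable def formSys {m k : ℕ} (φ : L.Formula (Fin m ⊕ Fin k)) : Sys L N (Fin m ⊕ Empty) k 1 where
  T a := {{b : Fin k → N | φ.Realize (Sum.elim (fun i => a (Sum.inl i)) b)}}
  fin a := Set.finite_singleton _
  card a := by rw [Set.ncard_singleton]
  dfn n η := by
    have h : ∀ j : Fin n, Dfn L (fun v : (Fin m ⊕ Empty) ⊕ (Fin n × Fin k) → N =>
        (φ.Realize (Sum.elim (fun i => v (Sum.inl (Sum.inl i))) (fun i => v (Sum.inr (j, i)))) ↔ η j)) := by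
      intro j
      refine Dfn.iff ?_ (Dfn.const (η j))
      refine Dfn.real φ (Sum.elim (fun i => Sum.inl (Sum.inl i)) (fun i => Sum.inr (j, i))) _ ?_
      intro v b
      rcases b with b | b <;> rfl
    refine (Dfn.finiteAll h).of_iff fun v => ?_
    simp only [Set.mem_singleton_iff, exists_eq_left, Set.mem_ofPred_eq]

end fam

theorem final
    (hcount : ∀ (L : FirstOrder.Language.{0,0}) (N : Type) [L.Structure N] [Nonempty N] (V : VC L N) (_ : Levels L N)
      (p d : ℕ) (β : Type) [Finite β] (k : ℕ) (S : Sys L N (Fin d ⊕ β) p k),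
      ∃ C : ℕ, ∀ (e : β → N) (B : Finset (Fin p → N)),
        {t : Set (Set (Fin p → N)) | ∃ x : Fin d → N, t = (fun w => w ∩ ↑B) '' S.T (Sum.elim x e)}.ncard
          ≤ C * (B.card + 1) ^ d) :
  ∀ (L : FirstOrder.Language.{0,0}) (M : Type) [L.Structure M],
    (∃ Ψ : Set (Σ k : ℕ, L.Formula (Fin 1 ⊕ Fin k)),
      ∀ (N : Type) [L.Structure N], L.completeTheory N = L.completeTheory M →
        (∀ ψ₁ ∈ Ψ, ∀ ψ₂ ∈ Ψ, ∀ (b₁ : Fin ψ₁.1 → N) (b₂ : Fin ψ₂.1 → N),
          {a : N | ψ₁.2.Realize (Sum.elim (fun _ => a) b₁)} ⊆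
              {a : N | ψ₂.2.Realize (Sum.elim (fun _ => a) b₂)} ∨
            {a : N | ψ₂.2.Realize (Sum.elim (fun _ => a) b₂)} ⊆
              {a : N | ψ₁.2.Realize (Sum.elim (fun _ => a) b₁)} ∨
            Disjoint {a : N | ψ₁.2.Realize (Sum.elim (fun _ => a) b₁)}
              {a : N | ψ₂.2.Realize (Sum.elim (fun _ => a) b₂)}) ∧
        (∀ (k : ℕ) (φ : L.Formula (Fin 1 ⊕ Fin k)) (c : Fin k → N),
          {a : N | φ.Realize (Sum.elim (fun _ => a) c)} ∈
            BooleanSubalgebra.closure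
              {S : Set N | ∃ ψ ∈ Ψ, ∃ b : Fin ψ.1 → N,
                S = {a : N | ψ.2.Realize (Sum.elim (fun _ => a) b)}})) →
    ∀ (m k : ℕ) (φ : L.Formula (Fin m ⊕ Fin k)) (r : ℝ), (m : ℝ) < r →
      ∃ C : ℝ, ∀ B : Finset (Fin k → M),
        (({S : Finset (Fin k → M) | S ⊆ B ∧
            ∃ a : Fin m → M, ∀ b ∈ B, (b ∈ S ↔ φ.Realize (Sum.elim a b))}.ncard : ℕ) : ℝ)
          ≤ C * ((B.card : ℝ) + 1) ^ r := by
  classical
  intro L M _ hM m k φ r hr
  rcases isEmpty_or_nonempty M with hempty | hne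
  · -- the empty structure
    refine ⟨2, fun B => ?_⟩
    have hsub : Subsingleton (Fin k → M) := inferInstance
    have hfin : {S : Finset (Fin k → M) | S ⊆ B ∧
        ∃ a : Fin m → M, ∀ b ∈ B, (b ∈ S ↔ φ.Realize (Sum.elim a b))} ⊆ ↑(B.powerset) := by
      rintro S ⟨hS, -⟩
      simpa using hS
    have h1 := Set.ncard_le_ncard hfin (Finset.finite_toSet _)
    rw [Set.ncard_coe_finset, Finset.card_powerset] at h1
    have h2 : B.card ≤ 1 := Finset.card_le_one.2 fun a _ b _ => Subsingleton.elim a b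
    have h3 : 2 ^ B.card ≤ 2 ^ 1 := Nat.pow_le_pow_right (by norm_num) h2
    have h4 : (({S : Finset (Fin k → M) | S ⊆ B ∧
            ∃ a : Fin m → M, ∀ b ∈ B, (b ∈ S ↔ φ.Realize (Sum.elim a b))}.ncard : ℕ) : ℝ) ≤ 2 := by
      exact_mod_cast h1.trans (by simpa using h3)
    have hr0 : 0 ≤ r := le_trans (Nat.cast_nonneg m) hr.le
    have h5 : (1 : ℝ) ≤ ((B.card : ℝ) + 1) ^ r :=
      Real.one_le_rpow (by linarith [Nat.cast_nonneg (α := ℝ) B.card]) hr0
    linarith
  · obtain ⟨Ψ, hΨ⟩ := hM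
    obtain ⟨N, iN, f, Λ, -⟩ := exists_monster L M
    have hth : L.completeTheory N = L.completeTheory M := (f.elementarilyEquivalent).symm
    obtain ⟨g1, g2⟩ := hΨ N hth
    have : Nonempty N := ⟨f hne.some⟩
    obtain ⟨V⟩ := exists_VC Ψ g1 g2
    obtain ⟨C, hC⟩ := hcount L N V Λ k m Empty 1 (formSys φ)
    refine ⟨C, fun B => ?_⟩
    -- transfer
    let F : (Fin k → M) → (Fin k → N) := fun b i => f (b i)
    have hF : Function.Injective F := fun b b' h => funext fun i => f.injective (congrFun h i)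
    have key : ∀ (a : Fin m → M) (b : Fin k → M),
        φ.Realize (Sum.elim (fun i => f (a i)) (F b)) ↔ φ.Realize (Sum.elim a b) := by
      intro a b
      rw [← f.map_formula]
      apply iff_of_eq
      congr 1
      funext i
      rcases i with i | i <;> rfl
    have h1 := hC (fun e => e.elim) (B.image F)
    rw [Finset.card_image_of_injective _ hF] at h1
    have h2 : {S : Finset (Fin k → M) | S ⊆ B ∧
            ∃ a : Fin m → M, ∀ b ∈ B, (b ∈ S ↔ φ.Realize (Sum.elim a b))}.ncard ≤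
        {t : Set (Set (Fin k → N)) | ∃ x : Fin m → N,
          t = (fun w => w ∩ ↑(B.image F)) '' (formSys φ).T (Sum.elim x (fun e : Empty => e.elim))}.ncard := by
      refine Set.ncard_le_ncard_of_injOn (fun S => {(↑(S.image F) : Set (Fin k → N))}) ?_ ?_ ?_
      · rintro S ⟨hS, a, ha⟩
        refine ⟨fun i => f (a i), ?_⟩
        simp only [formSys, Set.image_singleton, Sum.elim_inl]
        congr 1
        ext y
        simp only [Finset.coe_image, Set.mem_image, Finset.mem_coe, Set.mem_inter_iff,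
          Set.mem_ofPred_eq]
        constructor
        · rintro ⟨b, hb, rfl⟩
          exact ⟨(key a b).2 ((ha b (hS hb)).1 hb), b, hS hb, rfl⟩
        · rintro ⟨hy, b, hb, rfl⟩
          exact ⟨b, (ha b hb).2 ((key a b).1 hy), rfl⟩
      · intro S _ S' _ h
        have h' : (↑(S.image F) : Set (Fin k → N)) = ↑(S'.image F) := Set.singleton_injective h
        exact Finset.image_injective hF (Finset.coe_injective h')
      · apply ((Finset.finite_toSet (B.image F).powerset).image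
          (fun X : Finset (Fin k → N) => ({(↑X : Set (Fin k → N))} : Set (Set (Fin k → N))))).subset
        rintro t ⟨x, rfl⟩
        simp only [formSys, Set.image_singleton, Sum.elim_inl]
        refine ⟨(B.image F).filter (fun b => φ.Realize (Sum.elim x b)), ?_, ?_⟩
        · simp only [Finset.coe_powerset, Set.mem_preimage, Set.mem_powerset_iff]
          intro b hb
          simp only [Finset.coe_filter, Set.mem_ofPred_eq] at hb
          exact hb.1
        · show ({_} : Set (Set (Fin k → N))) = {_}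
          rw [Set.singleton_eq_singleton_iff]
          ext b
          simp only [Finset.coe_filter, Set.mem_ofPred_eq, Set.mem_inter_iff, Finset.mem_coe]
          exact and_comm
    have h3 : (({S : Finset (Fin k → M) | S ⊆ B ∧
            ∃ a : Fin m → M, ∀ b ∈ B, (b ∈ S ↔ φ.Realize (Sum.elim a b))}.ncard : ℕ) : ℝ) ≤
        (C : ℝ) * ((B.card : ℝ) + 1) ^ m := by
      exact_mod_cast h2.trans h1
    refine h3.trans (mul_le_mul_of_nonneg_left ?_ (Nat.cast_nonneg C))
    rw [← Real.rpow_natCast]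
    exact Real.rpow_le_rpow_of_exponent_le (by linarith [Nat.cast_nonneg (α := ℝ) B.card]) hr.le

end Pool.Agent.VCM
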