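import Pool.Agent.VCM.ThmO
import Pool.Agent.VCM.Cnt.Step
import Pool.Agent.VCM.Final

/-! S15495: assembly. -/

open FirstOrder FirstOrder.Language
open scoped Pointwise

namespace Pool.Agent.VCM

variable {L : FirstOrder.Language.{0, 0}} {N : Type} [L.Structure N]

/-- the counting theorem for all monster models -/
theorem count_all [Nonempty N] (V : VC L N) (Λ : Levels L N) (p d : ℕ) (β : Type) [Finite β] (k : ℕ)
    (S : Sys L N (Fin d ⊕ β) p k) :
      ∃ C : ℕ, ∀ (e : β → N) (B : Finset (Fin p → N)),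
        {t : Set (Set (Fin p → N)) | ∃ x : Fin d → N, t = (fun w => w ∩ ↑B) '' S.T (Sum.elim x e)}.ncard
          ≤ C * (B.card + 1) ^ d :=
  VC.count (V := V) (fun _ _ _ S' _ hn => thmO V Λ S' hn) d S

end Pool.Agent.VCM
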