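import Pool.Agent.VCM.Sat

/-! Section 1.3: algebraic closure of a (bounded) set of parameters, the groups `Fix`. -/

open FirstOrder FirstOrder.Language
open scoped Pointwise

namespace Pool.Agent.VCM

variable {L : FirstOrder.Language.{0, 0}} {N : Type} [L.Structure N]

/-- the pointwise stabiliser -/
abbrev GA (L : FirstOrder.Language.{0, 0}) {N : Type} [L.Structure N] (A : Set N) :
    Subgroup (AutG L N) := fixingSubgroup (AutG L N) A

theorem mem_GA {A : Set N} {g : AutG L N} : g ∈ GA L A ↔ ∀ a ∈ A, g • a = a :=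
  mem_fixingSubgroup_iff _

namespace VC

variable (V : VC L N)

/-- balls algebraic over `A` -/
def acl (A : Set N) : Set (Set N) :=
  {W | V.Ball W ∧ (MulAction.orbit (GA L A) W).Finite}

/-- the automorphisms fixing `A` and all algebraic balls -/
def Fix (A : Set N) : Subgroup (AutG L N) where
  carrier := {g | (∀ a ∈ A, g • a = a) ∧ ∀ W ∈ V.acl A, g • W = W}
  one_mem' := ⟨fun a _ => one_smul _ a, fun W _ => one_smul _ W⟩
  mul_mem' := by
    rintro a b ⟨ha1, ha2⟩ ⟨hb1, hb2⟩
    exact ⟨fun x hx => by rw [mul_smul, hb1 x hx, ha1 x hx],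
      fun W hW => by rw [mul_smul, hb2 W hW, ha2 W hW]⟩
  inv_mem' := by
    rintro a ⟨ha1, ha2⟩
    exact ⟨fun x hx => inv_smul_eq_iff.2 (ha1 x hx).symm,
      fun W hW => inv_smul_eq_iff.2 (ha2 W hW).symm⟩

variable {V}

theorem mem_Fix {A : Set N} {g : AutG L N} :
    g ∈ V.Fix A ↔ (∀ a ∈ A, g • a = a) ∧ ∀ W ∈ V.acl A, g • W = W := Iff.rfl

theorem Fix_le_GA (A : Set N) : V.Fix A ≤ GA L A := fun _ hg => mem_GA.2 hg.1

theorem acl_ball {A : Set N} {W : Set N} (h : W ∈ V.acl A) : V.Ball W := h.1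

theorem orbit_finite_mono {G X : Type*} [Group G] [MulAction G X] {H K : Subgroup G} (h : H ≤ K)
    {x : X} (hx : (MulAction.orbit K x).Finite) : (MulAction.orbit H x).Finite := by
  apply hx.subset
  rintro _ ⟨g, rfl⟩
  exact ⟨⟨g, h g.2⟩, rfl⟩

theorem acl_mono {A B : Set N} (h : A ⊆ B) : V.acl A ⊆ V.acl B := by
  rintro W ⟨hW, hfin⟩
  refine ⟨hW, orbit_finite_mono (fun g hg => ?_) hfin⟩
  exact mem_GA.2 fun a ha => mem_GA.1 hg a (h ha)

theorem Fix_anti {A B : Set N} (h : A ⊆ B) : V.Fix B ≤ V.Fix A := fun _ hg =>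
  ⟨fun a ha => hg.1 a (h ha), fun W hW => hg.2 W (acl_mono h hW)⟩

/-- `acl (g A) = g acl A` -/
theorem smul_mem_acl {A : Set N} {W : Set N} (g : AutG L N) :
    g • W ∈ V.acl (g • A) ↔ W ∈ V.acl A := by
  have key : ∀ (g : AutG L N) (A W : Set N), W ∈ V.acl A → g • W ∈ V.acl (g • A) := by
    rintro g A W ⟨h1, h2⟩
    refine ⟨h1.smul g, ?_⟩
    apply (h2.image (fun X => g • X)).subset
    rintro _ ⟨k, rfl⟩
    have hk := mem_GA.1 k.2
    refine ⟨(g⁻¹ * (k : AutG L N) * g) • W, ⟨⟨g⁻¹ * k * g, ?_⟩, rfl⟩, ?_⟩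
    · refine mem_GA.2 fun a ha => ?_
      rw [mul_smul, mul_smul, hk _ (Set.smul_mem_smul_set ha), inv_smul_smul]
    · show g • ((g⁻¹ * (k : AutG L N) * g) • W) = (k : AutG L N) • (g • W)
      rw [smul_smul, smul_smul]
      congr 1
      group
  refine ⟨fun h => ?_, key g A W⟩
  have := key g⁻¹ _ _ h
  rwa [inv_smul_smul, inv_smul_smul] at this

theorem acl_smul (A : Set N) (g : AutG L N) : V.acl (g • A) = (fun W => g • W) '' V.acl A := by
  ext W
  constructor
  · intro h
    refine ⟨g⁻¹ • W, ?_, smul_inv_smul g W⟩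
    rw [← smul_mem_acl g, smul_inv_smul]; exact h
  · rintro ⟨W', h, rfl⟩
    exact (smul_mem_acl g).2 h

end VC

namespace Levels

variable (Λ : Levels L N)

/-- `W` is a definable set with a code in level `n` -/
def Coded (n : ℕ) (W : Set N) : Prop := ∃ (θ : Fm L) (w : ℕ → N), Λ.InS n w ∧ W = fib θ w

theorem Coded.mono {Λ : Levels L N} {n m : ℕ} {W : Set N} (h : Λ.Coded n W) (hnm : n ≤ m) :
    Λ.Coded m W := by
  obtain ⟨θ, w, h1, h2⟩ := h
  exact ⟨θ, w, h1.mono hnm, h2⟩

theorem exists_coded {W : Set N} (h : IsDef L W) : ∃ n, Λ.Coded n W := by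
  obtain ⟨θ, w, rfl⟩ := h
  obtain ⟨n, w', h1, h2⟩ := Λ.exists_level θ w
  exact ⟨n, θ, w', h1, h2.symm⟩

/-- finitely many definable sets are coded in one level -/
theorem exists_coded_finset {I : Type} (F : Finset I) (W : I → Set N)
    (h : ∀ i ∈ F, IsDef L (W i)) : ∃ n, ∀ i ∈ F, Λ.Coded n (W i) := by
  classical
  induction F using Finset.induction_on with
  | empty => exact ⟨0, by simp⟩
  | insert a F _ ih =>
    obtain ⟨n, hn⟩ := ih fun i hi => h i (Finset.mem_insert_of_mem hi)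
    obtain ⟨m, hm⟩ := Λ.exists_coded (h a (Finset.mem_insert_self _ _))
    refine ⟨max n m, fun i hi => ?_⟩
    rcases Finset.mem_insert.1 hi with rfl | hi
    · exact hm.mono (le_max_right _ _)
    · exact (hn i hi).mono (le_max_left _ _)

theorem exists_coded_finite {S : Set (Set N)} (hS : S.Finite) (h : ∀ W ∈ S, IsDef L W) :
    ∃ n, ∀ W ∈ S, Λ.Coded n W := by
  obtain ⟨n, hn⟩ := Λ.exists_coded_finset hS.toFinset id (fun i hi => h i (by simpa using hi))
  exact ⟨n, fun W hW => hn W (by simpa using hW)⟩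

/-- limits and equality of coded sets -/
theorem IsLim.smul_eq_iff {Λ : Levels L N} {J : Type} {U : Ultrafilter J} {f : J → AutG L N}
    {n : ℕ} {σ : AutG L N} (h : Λ.IsLim U f n σ) {W W' : Set N} (hW : Λ.Coded n W)
    (hW' : Λ.Coded n W') : σ • W = W' ↔ ∀ᶠ j in (U : Filter J), f j • W = W' := by
  have hne : Nonempty N := Λ.nonempty
  obtain ⟨θ, w, hw, rfl⟩ := hW
  obtain ⟨θ', w', hw', rfl⟩ := hW'
  have := h.dfn2' (dfn_eq θ θ') hw hw'
  simp only [fib_smul] at this
  exact this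

theorem IsLim.smul_subset_iff {Λ : Levels L N} {J : Type} {U : Ultrafilter J} {f : J → AutG L N}
    {n : ℕ} {σ : AutG L N} (h : Λ.IsLim U f n σ) {W W' : Set N} (hW : Λ.Coded n W)
    (hW' : Λ.Coded n W') : σ • W ⊆ W' ↔ ∀ᶠ j in (U : Filter J), f j • W ⊆ W' := by
  have hne : Nonempty N := Λ.nonempty
  obtain ⟨θ, w, hw, rfl⟩ := hW
  obtain ⟨θ', w', hw', rfl⟩ := hW'
  have := h.dfn2' (dfn_subset θ θ') hw hw'
  simp only [fib_smul] at this
  exact this

theorem IsLim.smul_ssubset_iff {Λ : Levels L N} {J : Type} {U : Ultrafilter J} {f : J → AutG L N}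
    {n : ℕ} {σ : AutG L N} (h : Λ.IsLim U f n σ) {W W' : Set N} (hW : Λ.Coded n W)
    (hW' : Λ.Coded n W') : σ • W ⊂ W' ↔ ∀ᶠ j in (U : Filter J), f j • W ⊂ W' := by
  have hne : Nonempty N := Λ.nonempty
  obtain ⟨θ, w, hw, rfl⟩ := hW
  obtain ⟨θ', w', hw', rfl⟩ := hW'
  have := h.dfn2' (dfn_ssubset θ θ') hw hw'
  simp only [fib_smul] at this
  exact this

theorem IsLim.smul_disjoint_iff {Λ : Levels L N} {J : Type} {U : Ultrafilter J} {f : J → AutG L N}
    {n : ℕ} {σ : AutG L N} (h : Λ.IsLim U f n σ) {W W' : Set N} (hW : Λ.Coded n W)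
    (hW' : Λ.Coded n W') :
    Disjoint (σ • W) W' ↔ ∀ᶠ j in (U : Filter J), Disjoint (f j • W) W' := by
  have hne : Nonempty N := Λ.nonempty
  obtain ⟨θ, w, hw, rfl⟩ := hW
  obtain ⟨θ', w', hw', rfl⟩ := hW'
  have := h.dfn2' (dfn_disjoint θ θ') hw hw'
  simp only [fib_smul] at this
  exact this

theorem IsLim.smul_point_iff {Λ : Levels L N} {J : Type} {U : Ultrafilter J} {f : J → AutG L N}
    {n : ℕ} {σ : AutG L N} (h : Λ.IsLim U f n σ) {a b : N} (ha : a ∈ Λ.S n) (hb : b ∈ Λ.S n) :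
    σ • a = b ↔ ∀ᶠ j in (U : Filter J), f j • a = b := by
  have := h.dfn (Dfn.eq (L := L) (Sum.inr () : Unit ⊕ Unit) (Sum.inl ())) (w := fun _ => b)
    (w' := fun _ => a) (fun _ => hb) (fun _ => ha)
  exact this

/-- automorphisms fixing the level `n` pointwise fix the sets coded in it -/
theorem smul_coded {n : ℕ} {W : Set N} (h : Λ.Coded n W) {τ : AutG L N}
    (hτ : ∀ x ∈ Λ.S n, (τ : Equiv.Perm N) x = x) : τ • W = W := by
  obtain ⟨θ, w, hw, rfl⟩ := h
  rw [← fib_smul]
  congr 1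
  funext i
  exact hτ _ (hw i)

/-- 1.3 (a): algebraic balls are coded in any level containing the parameters -/
theorem acl_coded {V : VC L N} {A : Set N} {n : ℕ} (hA : A ⊆ Λ.S n) {W : Set N}
    (h : W ∈ V.acl A) : Λ.Coded n W := by
  classical
  have hne : Nonempty N := Λ.nonempty
  obtain ⟨hb, hfin⟩ := h
  obtain ⟨m', hm'⟩ := Λ.exists_coded hb.1
  obtain ⟨m, hnm, hm⟩ : ∃ m, n ≤ m ∧ Λ.Coded m W :=
    ⟨max n m', le_max_left _ _, hm'.mono (le_max_right _ _)⟩
  obtain ⟨θ, w₀, hw₀, rfl⟩ := hm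
  let O := MulAction.orbit (GA L A) (fib θ w₀)
  let k := hfin.toFinset.card
  -- the relations
  let I := {φ : L.Formula (A ⊕ ℕ) // φ.Realize (Sum.elim (fun a : A => (a : N)) w₀)}
  -- step 1: finitely many formulas already bound the number of conjugates
  have step1 : ∃ F : Finset I, ¬ ∃ x : Fin (k + 1) × ℕ → N,
      (∀ φ ∈ F, ∀ j, φ.1.Realize (Sum.elim (fun a : A => (a : N)) fun i => x (j, i))) ∧
      ∀ i j, i ≠ j → fib θ (fun t => x (i, t)) ≠ fib θ (fun t => x (j, t)) := by
    by_contra hcon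
    push Not at hcon
    obtain ⟨x, hx1, hx2⟩ := Λ.sat_rel m (κ := Fin (k + 1) × ℕ)
      (I := I ⊕ Unit) (fun p => (⟨Λ.ne.some, Λ.mono (Nat.zero_le m) Λ.ne.some_mem⟩,
        Nat.pair p.1 p.2)) (by
        intro p q h
        have := Nat.pair_eq_pair.1 (Prod.mk.inj h).2
        exact Prod.ext (Fin.ext this.1) this.2)
      (fun i x => Sum.elim
        (fun φ : I => ∀ j, φ.1.Realize (Sum.elim (fun a : A => (a : N)) fun i => x (j, i)))
        (fun _ => ∀ i j, i ≠ j → fib θ (fun t => x (i, t)) ≠ fib θ (fun t => x (j, t))) i)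
      (by
        rintro (φ | u)
        · have h1 : Dfn L (fun v : A ⊕ (Fin (k + 1) × ℕ) → N => ∀ j : Fin (k + 1),
              φ.1.Realize (Sum.elim (fun a : A => v (Sum.inl a)) fun i => v (Sum.inr (j, i)))) := by
            refine Dfn.finiteAll fun j => ?_
            exact Dfn.real φ.1 (Sum.elim (fun a => Sum.inl a) (fun i => Sum.inr (j, i))) _
              (by intro v b; rcases b with b | b <;> rfl)
          exact DfnO.of_dfn h1 (fun a : A => (a : N)) (fun a => Λ.mono hnm (hA a.2))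
        · have h1 : Dfn L (fun v : Fin (k + 1) × ℕ → N => ∀ i j : Fin (k + 1), i ≠ j →
              fib θ (fun t => v (i, t)) ≠ fib θ (fun t => v (j, t))) := by
            refine Dfn.finiteAll fun i => Dfn.finiteAll fun j => Dfn.imp (Dfn.const _) (Dfn.not ?_)
            exact Dfn.comp (dfn_eq θ θ) (Sum.elim (fun t => (i, t)) (fun t => (j, t)))
              (fun v => Sum.elim (fun t => v (i, t)) (fun t => v (j, t)))
              (by intro v b; rcases b with b | b <;> rfl)
          exact DfnO.of_dfn0 h1)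
      (by
        intro F
        obtain ⟨x, hx1, hx2⟩ := hcon (F.preimage Sum.inl Sum.inl_injective.injOn)
        refine ⟨x, ?_⟩
        rintro (φ | u) hi
        · exact hx1 φ (by simpa using hi)
        · exact hx2)
    -- conjugates
    have hg : ∀ j : Fin (k + 1), ∃ g : AutG L N, (∀ a ∈ A, g • a = a) ∧
        ∀ i, g • w₀ i = x (j, i) := by
      intro j
      obtain ⟨g, hg⟩ := Λ.hom (n := m + 1) (ι := A ⊕ ℕ)
        (Sum.elim (fun a : A => (a : N)) w₀) (Sum.elim (fun a : A => (a : N)) fun i => x (j, i))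
        (by
          rintro (a | i)
          · exact Λ.mono (by omega) (hA a.2)
          · exact Λ.mono (by omega) (hw₀ i))
        (by
          rintro (a | i)
          · exact Λ.mono (by omega) (hA a.2)
          · exact hx1 _)
        (by
          intro φ
          constructor
          · intro h
            exact hx2 (Sum.inl ⟨φ, h⟩) j
          · intro h
            by_contra hcon
            have := hx2 (Sum.inl ⟨φ.not, by rw [Formula.realize_not]; exact hcon⟩) j
            rw [Formula.realize_not] at this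
            exact this h)
      exact ⟨g, fun a ha => hg (Sum.inl ⟨a, ha⟩), fun i => hg (Sum.inr i)⟩
    choose g hg1 hg2 using hg
    have hinj : Function.Injective (fun j : Fin (k + 1) => g j • fib θ w₀) := by
      intro i j hij
      by_contra hne
      apply hx2 (Sum.inr ()) i j hne
      have e : ∀ j, fib θ (fun t => x (j, t)) = g j • fib θ w₀ := by
        intro j
        rw [← fib_smul]
        congr 1
        funext t
        exact (hg2 j t).symm
      rw [e, e]; exact hij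
    have hsub : Finset.univ.image (fun j : Fin (k + 1) => g j • fib θ w₀) ⊆ hfin.toFinset := by
      intro W hW
      rw [Finset.mem_image] at hW
      obtain ⟨j, -, rfl⟩ := hW
      rw [Set.Finite.mem_toFinset]
      exact ⟨⟨g j, mem_GA.2 (hg1 j)⟩, rfl⟩
    have := Finset.card_le_card hsub
    rw [Finset.card_image_of_injective _ hinj, Finset.card_univ, Fintype.card_fin] at this
    omega
  obtain ⟨F, hF⟩ := step1
  let P : (ℕ → N) → Prop := fun w => ∀ φ ∈ F, φ.1.Realize (Sum.elim (fun a : A => (a : N)) w)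
  have hP₀ : P w₀ := fun φ _ => φ.2
  have hPdef : DfnO L (Λ.S n) P := by
    refine DfnO.finsetAll F fun φ _ => ?_
    exact DfnO.of_dfn (Dfn.formula φ.1) (fun a : A => (a : N)) (fun a => hA a.2)
  -- the set of fibres is finite
  have hfinP : {W | ∃ w, P w ∧ W = fib θ w}.Finite := by
    by_contra hinf
    obtain ⟨T, hT1, hT2⟩ := (show {W | ∃ w, P w ∧ W = fib θ w}.Infinite from hinf).exists_subset_card_eq (k + 1)
    apply hF
    have e : Fin (k + 1) ≃ T := (finCongr hT2.symm).trans T.equivFin.symm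
    have hc : ∀ j, ∃ w, P w ∧ (e j : Set N) = fib θ w := fun j => hT1 (e j).2
    choose y hy1 hy2 using hc
    refine ⟨fun p => y p.1 p.2, fun φ hφ j => hy1 j φ hφ, fun i j hij => ?_⟩
    show fib θ (y i) ≠ fib θ (y j)
    rw [← hy2, ← hy2]
    intro hcon
    exact hij (e.injective (Subtype.ext hcon))
  -- choose representatives
  let T := hfinP.toFinset
  have hrep : ∀ W : T, ∃ w, P w ∧ (W : Set N) = fib θ w := by
    intro W
    have := W.2
    rw [Set.Finite.mem_toFinset] at this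
    exact this
  choose r hr1 hr2 using hrep
  let κ := T × ℕ
  -- the statement the `x_W` represent all fibres
  let ρ : (κ → N) → Prop := fun x => ∀ y : ℕ → N, P y → ∃ W : T, fib θ y = fib θ (fun t => x (W, t))
  have hρ : DfnO L (Λ.S n) ρ := by
    refine DfnO.allT (ρ := fun (x : κ → N) (y : ℕ → N) => P y → ∃ W : T, fib θ y =
      fib θ (fun t => x (W, t))) ?_
    refine DfnO.imp ?_ ?_
    · exact DfnO.comp hPdef (fun i => Sum.inr i) _ (fun _ _ => rfl)
    · refine DfnO.of_dfn0 (Dfn.finiteEx fun W => ?_)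
      exact Dfn.comp (dfn_eq θ θ) (Sum.elim (fun t => Sum.inr t) (fun t => Sum.inl (W, t)))
        (fun v => Sum.elim (fun t => v (Sum.inr t)) (fun t => v (Sum.inl (W, t))))
        (by intro v b; rcases b with b | b <;> rfl)
  obtain ⟨y, hy1, hy2⟩ := Λ.elem_rel n ρ hρ (fun p => r p.1 p.2) (by
    intro y hy
    have hmem : fib θ y ∈ T := by
      rw [Set.Finite.mem_toFinset]; exact ⟨y, hy, rfl⟩
    exact ⟨⟨fib θ y, hmem⟩, hr2 ⟨fib θ y, hmem⟩⟩)
  obtain ⟨W, hW⟩ := hy2 w₀ hP₀
  exact ⟨θ, fun t => y (W, t), fun t => hy1 _, hW⟩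

end Levels

end Pool.Agent.VCM
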