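import Mathlib

/-! MP_e0833a_lc (S15495): abstract context for the machine. -/

namespace Pool.VCM

open Set Pointwise

/-- basic context: points `N`, group `G`, balls, algebraic closure (balls algebraic over a set of points),
levels `lv n` (elementary submodels), cluster relation. -/
structure Ctx0 (N G : Type) [Group G] [MulAction G N] where
  Ball : Set (Set N)
  acl : Set N → Set (Set N)
  lv : ℕ → Set N
  cl : Set N → Set N → Prop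
  ball_smul : ∀ (g : G) {W : Set N}, W ∈ Ball → g • W ∈ Ball
  ball_ne : ∀ {W : Set N}, W ∈ Ball → W.Nonempty
  lam : ∀ {W W' : Set N}, W ∈ Ball → W' ∈ Ball → W ⊆ W' ∨ W' ⊆ W ∨ Disjoint W W'
  acl_ball : ∀ {c : Set N} {W : Set N}, W ∈ acl c → W ∈ Ball
  acl_mono : ∀ {c c' : Set N}, c ⊆ c' → acl c ⊆ acl c'
  acl_smul : ∀ (g : G) {c : Set N} {W : Set N}, W ∈ acl c → g • W ∈ acl (g • c)
  acl_univ : ∀ c : Set N, univ ∈ acl c
  ball_acl : ∀ {W : Set N}, W ∈ Ball → ∃ d : Set N, d.Finite ∧ W ∈ acl d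
  lv_mono : Monotone lv
  lv_cov : ∀ x, ∃ n, x ∈ lv n
  lb_fix : ∀ {n : ℕ} {g : G}, (∀ x ∈ lv n, g • x = x) →
    ∀ {c : Set N} {W : Set N}, c.Finite → c ⊆ lv n → W ∈ acl c → g • W = W
  cl_equiv : Equivalence cl
  cl_acl : ∀ {c : Set N} {W W' : Set N}, cl W W' → (W ∈ acl c ↔ W' ∈ acl c)
  cl_smul : ∀ (g : G) {W W' : Set N}, cl W W' → cl (g • W) (g • W')

variable {N G : Type} [Group G] [MulAction G N]

namespace Ctx0

variable (C : Ctx0 N G)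

/-- balls with codes in the `n`-th level -/
def LB (n : ℕ) : Set (Set N) := {W | ∃ c : Set N, c.Finite ∧ c ⊆ C.lv n ∧ W ∈ C.acl c}

/-- `Fix c`: elements fixing `c` pointwise and all balls algebraic over `c` -/
def Fix (c : Set N) : Set G := {g | (∀ x ∈ c, g • x = x) ∧ ∀ W ∈ C.acl c, g • W = W}

/-- the `acl c`-balls properly containing `W` -/
def QQ (c : Set N) (W : Set N) : Set (Set N) := {Q | Q ∈ C.acl c ∧ W ⊂ Q}

/-- the cell of `W` over `c` -/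
def cell (c : Set N) (W : Set N) : Set (Set N) := {W' | W' ∈ C.Ball ∧ W' ∉ C.acl c ∧ C.QQ c W' = C.QQ c W}

/-- base `c` is type 1 for `(c,c')` at `W` -/
def T1 (c c' : Set N) (W : Set N) : Prop := ∀ Q' ∈ C.QQ c' W, ∃ Q ∈ C.QQ c W, Q ⊆ Q'

/-- `s` is generic over level `n` for base `c`, the cell of `W₀` and `Vin`. -/
structure IsGen (c : Set N) (W₀ : Set N) (Vin : Set (Set N)) (n : ℕ) (s : G) : Prop where
  fix : s ∈ C.Fix c
  small : ∀ X ∈ Vin, X ∈ C.LB n → ∀ Y ∈ C.cell c W₀, Y ∈ C.LB n → s • Y ⊂ X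
  disj : ∀ X ∈ C.cell c W₀, X ∉ Vin → X ∈ C.LB n → ∀ Y ∈ C.cell c W₀, Y ∈ C.LB n → Disjoint (s • Y) X
  indep : ∀ Z ∈ C.LB n, Z ∉ C.acl c → s • Z ∉ C.LB n

/-- the conclusion of the Moving Lemma for the cell of `W₀` over `c`. -/
structure IsVin (c : Set N) (W₀ : Set N) (Vin : Set (Set N)) : Prop where
  sub : Vin ⊆ C.cell c W₀
  up : ∀ X ∈ Vin, ∀ Y ∈ C.cell c W₀, X ⊆ Y → Y ∈ Vin
  dir : Vin.Nonempty → ∀ S : Set (Set N), S.Finite → S ⊆ C.cell c W₀ → ∃ D ∈ Vin, ∀ Y ∈ S, Y ⊆ D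
  gen : ∃ σ : ℕ → G, (∀ n, c ⊆ C.lv n → C.IsGen c W₀ Vin n (σ n)) ∧
    ∀ n m, c ⊆ C.lv n → n ≤ m → ∃ τ : G, (∀ x ∈ C.lv n, τ • x = x) ∧ ∀ x ∈ C.lv n, τ • σ n • x = σ m • x

end Ctx0

/-- the full context: existence of generic and of independent elements. -/
structure Ctx (N G : Type) [Group G] [MulAction G N] extends Ctx0 N G where
  vin : ∀ {c : Set N}, c.Finite → ∀ {W₀ : Set N}, W₀ ∈ Ball → W₀ ∉ acl c →
    ∃ Vin : Set (Set N), toCtx0.IsVin c W₀ Vin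
  ind : ∀ {c : Set N}, c.Finite → ∀ n, c ⊆ lv n →
    ∃ κ : G, κ ∈ toCtx0.Fix c ∧ ∀ Z ∈ toCtx0.LB n, Z ∉ acl c → κ • Z ∉ toCtx0.LB n

end Pool.VCM
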