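import Pool.Agent.VCM.Clusters
import Pool.Agent.VCM.Ctx

/-! The abstract context of the machine, instantiated: the part without the Moving Lemma. -/

open FirstOrder FirstOrder.Language
open scoped Pointwise

namespace Pool.Agent.VCM

variable {L : FirstOrder.Language.{0, 0}} {N : Type} [L.Structure N]

theorem orbit_finite_of_stab {G X : Type*} [Group G] [MulAction G X] (K : Subgroup G) {x y : X}
    (hx : (MulAction.orbit K x).Finite)
    (hy : {z : X | ∃ k ∈ K, k • x = x ∧ z = k • y}.Finite) : (MulAction.orbit K y).Finite := by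
  classical
  let gz : X → G := fun z => if h : ∃ k ∈ K, k • x = z then h.choose else 1
  have hgz : ∀ z, (∃ k ∈ K, k • x = z) → gz z ∈ K ∧ gz z • x = z := by
    intro z h
    have : gz z = h.choose := dif_pos h
    rw [this]; exact h.choose_spec
  have hfin : (⋃ z ∈ MulAction.orbit K x, (fun w : X => gz z • w) ''
      {z : X | ∃ k ∈ K, k • x = x ∧ z = k • y}).Finite := hx.biUnion fun z _ => hy.image _
  apply hfin.subset
  rintro _ ⟨g, rfl⟩
  have hg : ∃ k ∈ K, k • x = (g : G) • x := ⟨g, g.2, rfl⟩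
  obtain ⟨h1, h2⟩ := hgz _ hg
  simp only [Set.mem_iUnion]
  refine ⟨(g : G) • x, ⟨g, rfl⟩, (gz ((g : G) • x))⁻¹ • (g : G) • y,
    ⟨(gz ((g : G) • x))⁻¹ * g, K.mul_mem (K.inv_mem h1) g.2, ?_, ?_⟩, ?_⟩
  · rw [mul_smul, inv_smul_eq_iff]; exact h2.symm
  · rw [mul_smul]
  · exact smul_inv_smul _ _

namespace VC

variable {V : VC L N}

/-- 2.2 for arbitrary sets of parameters, one step -/
theorem blk_acl' {A : Set N} {C C₁ : Set N} (h : V.Blk C C₁) :
    C ∈ V.acl A ↔ C₁ ∈ V.acl A := by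
  classical
  constructor
  · rintro ⟨hCb, hC⟩
    obtain ⟨-, P, hP, h1, h2⟩ := h
    refine ⟨hP.1 _ h1, orbit_finite_of_stab (GA L A) hC ?_⟩
    apply (VC.blocks_finite P.card C hCb).subset
    rintro _ ⟨g, -, hgC, rfl⟩
    refine ⟨P.image (fun X => g • X), ?_, Finset.mem_image_of_mem _ h1, Finset.card_image_le⟩
    have := hP.smul g
    rwa [hgC] at this
  · rintro ⟨hC₁b, hC₁⟩
    have hss := h.ssubset
    obtain ⟨hCb, P, hP, h1, h2⟩ := h
    refine ⟨hCb, orbit_finite_of_stab (GA L A) hC₁ ?_⟩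
    by_contra hinf
    obtain ⟨T, hT1, hT2⟩ := (show {z : Set N | ∃ k ∈ GA L A, k • C₁ = C₁ ∧ z = k • C}.Infinite from
      hinf).exists_subset_card_eq (2 ^ P.card + 1)
    -- all members contain `C₁`
    have hTC : ∀ Y ∈ T, V.Ball Y ∧ C₁ ⊆ Y := by
      intro Y hY
      obtain ⟨g, -, h3, rfl⟩ := hT1 hY
      refine ⟨hCb.smul _, ?_⟩
      show C₁ ⊆ g • C
      rw [← h3]
      exact Set.smul_set_mono hss.1
    obtain ⟨c, hc⟩ := hC₁b.nonempty
    have hTne : T.Nonempty := by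
      rw [← Finset.card_pos, hT2]; positivity
    obtain ⟨X, hX, hXmax⟩ : ∃ X ∈ T, ∀ Y ∈ T, Y ⊆ X := by
      obtain ⟨X, hX⟩ := T.exists_maximal hTne
      refine ⟨X, hX.prop, fun Y hY => ?_⟩
      rcases (hTC Y hY).1.cmp (hTC X hX.prop).1 ((hTC Y hY).2 hc) ((hTC X hX.prop).2 hc) with h | h
      · exact h
      · exact hX.le_of_ge hY h
    obtain ⟨g, -, hgC₁, rfl⟩ := hT1 hX
    let P' := P.image (fun X => g • X)
    have hP' : V.Part (g • C) P' := hP.smul _
    have h1' : C₁ ∈ P' := by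
      rw [← hgC₁]
      exact Finset.mem_image_of_mem _ h1
    have hinj : Set.InjOn (fun Y : Set N => P'.filter (fun B => B ⊆ Y)) T := by
      have key : ∀ Y ∈ T, Y = ⋃₀ ((P'.filter (fun B => B ⊆ Y) : Finset (Set N)) : Set (Set N)) := by
        intro Y hY
        apply Set.Subset.antisymm
        · intro y hy
          have hyX : y ∈ g • C := hXmax Y hY hy
          rw [hP'.2.2] at hyX
          obtain ⟨B, hB, hyB⟩ := hyX
          refine ⟨B, Finset.mem_coe.2 (Finset.mem_filter.2 ⟨hB, ?_⟩), hyB⟩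
          rcases (hP'.1 B hB).cmp (hTC Y hY).1 hyB hy with h | h
          · exact h
          · have : B = C₁ := by
              by_contra hne
              exact Set.disjoint_left.1 (hP'.2.1 B hB C₁ h1' hne) (h ((hTC Y hY).2 hc)) hc
            rw [this]; exact (hTC Y hY).2
        · apply Set.sUnion_subset
          intro B hB
          exact (Finset.mem_filter.1 hB).2
      intro Y hY Z hZ hYZ
      rw [key Y hY, key Z hZ]
      exact congrArg (fun T : Finset (Set N) => ⋃₀ (T : Set (Set N))) hYZ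
    have h5 : T.card ≤ P'.powerset.card := by
      apply Finset.card_le_card_of_injOn _ _ hinj
      intro Y _
      simp only [Finset.coe_powerset, Set.mem_preimage, Set.mem_powerset_iff, Finset.coe_subset]
      exact Finset.filter_subset _ _
    rw [hT2, Finset.card_powerset] at h5
    have h6 : 2 ^ P'.card ≤ 2 ^ P.card := Nat.pow_le_pow_right (by norm_num) Finset.card_image_le
    omega

/-- 2.2 for arbitrary sets of parameters -/
theorem clu_acl' {A : Set N} {C C' : Set N} (h : V.Clu C C') : C ∈ V.acl A ↔ C' ∈ V.acl A := by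
  induction h with
  | rel x y h => exact blk_acl' h
  | refl x => exact Iff.rfl
  | symm x y _ ih => exact ih.symm
  | trans x y z _ _ ih1 ih2 => exact ih1.trans ih2

theorem univ_mem_acl [Nonempty N] (A : Set N) : (Set.univ : Set N) ∈ V.acl A := by
  refine ⟨ball_univ, ?_⟩
  apply (Set.finite_singleton Set.univ).subset
  rintro _ ⟨g, rfl⟩
  show (g : AutG L N) • (Set.univ : Set N) = Set.univ
  exact Set.smul_set_univ

/-- a fibre depends on finitely many parameters -/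
theorem exists_finite_range [Nonempty N] (θ : Fm L) (w : ℕ → N) :
    ∃ w' : ℕ → N, (Set.range w').Finite ∧ fib θ w' = fib θ w ∧
      ∀ i, w' i = w 0 ∨ w' i = w i := by
  classical
  obtain ⟨F, ψ, hψ⟩ := fin_supp θ
  let K : Finset ℕ := F.preimage Sum.inr (Sum.inr_injective.injOn)
  refine ⟨fun i => if i ∈ K then w i else w 0, ?_, ?_, ?_⟩
  · apply ((K.finite_toSet.image w).insert (w 0)).subset
    rintro _ ⟨i, rfl⟩
    beta_reduce
    split_ifs with h
    · exact Or.inr ⟨i, h, rfl⟩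
    · exact Or.inl rfl
  · ext x
    rw [mem_fib, mem_fib, hψ, hψ]
    apply iff_of_eq
    congr 1
    funext a
    rcases a with ⟨a | k, h⟩
    · rfl
    · have hk : k ∈ K := by simpa [K] using h
      show (if k ∈ K then w k else w 0) = w k
      rw [if_pos hk]
  · intro i
    beta_reduce
    split_ifs with h
    · exact Or.inr rfl
    · exact Or.inl rfl

theorem mem_acl_range {θ : Fm L} {w : ℕ → N} (hb : V.Ball (fib θ w)) :
    fib θ w ∈ V.acl (Set.range w) := by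
  refine ⟨hb, ?_⟩
  apply (Set.finite_singleton (fib θ w)).subset
  rintro _ ⟨g, rfl⟩
  show (g : AutG L N) • fib θ w = fib θ w
  rw [← fib_smul]
  congr 1
  funext i
  exact mem_GA.1 g.2 _ ⟨i, rfl⟩

end VC

namespace Levels

variable (Λ : Levels L N) {V : VC L N}

/-- balls coded in level `n` are algebraic over a finite subset of the level -/
theorem coded_acl {n : ℕ} {W : Set N} (hb : V.Ball W) (h : Λ.Coded n W) :
    ∃ c : Set N, c.Finite ∧ c ⊆ Λ.S n ∧ W ∈ V.acl c := by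
  have hne : Nonempty N := Λ.nonempty
  obtain ⟨θ, w, hw, rfl⟩ := h
  obtain ⟨w', h1, h2, h3⟩ := VC.exists_finite_range θ w
  refine ⟨Set.range w', h1, ?_, ?_⟩
  · rintro _ ⟨i, rfl⟩
    rcases h3 i with h | h
    · rw [h]; exact hw 0
    · rw [h]; exact hw i
  · rw [← h2]
    exact VC.mem_acl_range (by rw [h2]; exact hb)

variable (V)

/-- the context of the machine, without the Moving Lemma -/
def ctx0 : Pool.VCM.Ctx0 N (AutG L N) where
  Ball := {W | V.Ball W}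
  acl := V.acl
  lv := Λ.S
  cl := V.Clu
  ball_smul := fun g _ h => VC.Ball.smul h g
  ball_ne := fun h => VC.Ball.nonempty h
  lam := fun h h' => VC.Ball.lam h h'
  acl_ball := fun h => h.1
  acl_mono := fun h => VC.acl_mono h
  acl_smul := fun g _ _ h => (VC.smul_mem_acl g).2 h
  acl_univ := fun c => by
    have hne : Nonempty N := Λ.nonempty
    exact VC.univ_mem_acl c
  ball_acl := fun {W} h => by
    obtain ⟨n, hn⟩ := Λ.exists_coded h.1
    obtain ⟨c, h1, -, h2⟩ := Λ.coded_acl h hn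
    exact ⟨c, h1, h2⟩
  lv_mono := Λ.mono
  lv_cov := Λ.cover
  lb_fix := fun {n g} hg c W _ hc hW => Λ.smul_coded (Λ.acl_coded hc hW) hg
  cl_equiv := Relation.EqvGen.is_equivalence _
  cl_acl := fun h => VC.clu_acl' h
  cl_smul := fun g _ _ h => h.smul g

variable {V}

theorem ctx0_Ball {W : Set N} : W ∈ (Λ.ctx0 V).Ball ↔ V.Ball W := Iff.rfl
theorem ctx0_acl (c : Set N) : (Λ.ctx0 V).acl c = V.acl c := rfl
theorem ctx0_lv (n : ℕ) : (Λ.ctx0 V).lv n = Λ.S n := rfl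
theorem ctx0_cl : (Λ.ctx0 V).cl = V.Clu := rfl
theorem mem_ctx0_Fix {c : Set N} {g : AutG L N} : g ∈ (Λ.ctx0 V).Fix c ↔ g ∈ V.Fix c := Iff.rfl

theorem mem_ctx0_LB {n : ℕ} {W : Set N} :
    W ∈ (Λ.ctx0 V).LB n ↔ V.Ball W ∧ Λ.Coded n W := by
  constructor
  · rintro ⟨c, -, hc, hW⟩
    exact ⟨hW.1, Λ.acl_coded hc hW⟩
  · rintro ⟨hb, hc⟩
    exact Λ.coded_acl hb hc

/-- independent elements -/
theorem ctx0_ind {c : Set N} (n : ℕ) (hcn : c ⊆ Λ.S n) :
    ∃ κ : AutG L N, κ ∈ (Λ.ctx0 V).Fix c ∧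
      ∀ Z ∈ (Λ.ctx0 V).LB n, Z ∉ V.acl c → κ • Z ∉ (Λ.ctx0 V).LB n := by
  classical
  -- index: finite sets of pairs
  let J := Finset (Set N × Set N)
  have hJ : ∀ j : J, ∃ g ∈ V.Fix c, ∀ p ∈ j, V.Ball p.1 → p.1 ∉ V.acl c → g • p.1 ≠ p.2 := by
    intro j
    obtain ⟨g, hg⟩ := neumann (H := V.Fix c) (j.filter fun p => V.Ball p.1 ∧ p.1 ∉ V.acl c)
      (fun p : Set N × Set N => p.1) (fun p => {p.2}) (fun p _ => Set.finite_singleton _)
      (fun p hp => Λ.orbit_Fix_infinite hcn (Finset.mem_filter.1 hp).2.1 (Finset.mem_filter.1 hp).2.2)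
    refine ⟨g, g.2, fun p hp hb hn hcon => ?_⟩
    exact hg p (Finset.mem_filter.2 ⟨hp, hb, hn⟩) hcon
  choose f hf1 hf2 using hJ
  obtain ⟨σ, hσ⟩ := Λ.exists_lim (Ultrafilter.of (Filter.atTop : Filter J)) f n
  refine ⟨σ, hσ.mem_Fix' hcn hf1, fun Z hZ hZc hcon => ?_⟩
  rw [mem_ctx0_LB] at hZ hcon
  have h1 := (hσ.smul_eq_iff hZ.2 hcon.2).1 rfl
  have h2 : ∀ᶠ j : J in Filter.atTop, (Z, σ • Z) ∈ j := by
    filter_upwards [Filter.eventually_ge_atTop ({(Z, σ • Z)} : J)] with i hi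
    exact hi (Finset.mem_singleton_self _)
  have h3 := (Ultrafilter.of_le (Filter.atTop : Filter J)) h2
  have h4 : ∀ᶠ j in ((Ultrafilter.of (Filter.atTop : Filter J) : Ultrafilter J) : Filter J), False := by
    filter_upwards [h1, h3] with j hj1 hj2
    exact hf2 j _ hj2 hZ.1 hZc hj1
  exact h4.exists.elim fun _ h => h

/-- the statement of the Moving Lemma 3.3 (helper18) -/
def Moving (V : VC L N) (A W₀ : Set N) : Prop :=
  ∃ Vin : Set (Set N), Vin ⊆ (Λ.ctx0 V).cell A W₀ ∧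
    (∀ X ∈ Vin, ∀ Y ∈ (Λ.ctx0 V).cell A W₀, X ⊆ Y → Y ∈ Vin) ∧
    (Vin.Nonempty → ∀ S : Set (Set N), S.Finite → S ⊆ (Λ.ctx0 V).cell A W₀ →
      ∃ D ∈ Vin, ∀ Y ∈ S, Y ⊆ D) ∧
    ∀ (F : Finset (Set N)) (Z : Finset (Set N × Set N)),
      (∀ p ∈ Z, V.Ball p.1 ∧ p.1 ∉ V.acl A) → ∃ g ∈ V.Fix A,
        (∀ Y ∈ F, Y ∈ (Λ.ctx0 V).cell A W₀ → ∀ X ∈ F, X ∈ (Λ.ctx0 V).cell A W₀ →
          (X ∈ Vin → g • Y ⊂ X) ∧ (X ∉ Vin → Disjoint (g • Y) X)) ∧ ∀ p ∈ Z, g • p.1 ≠ p.2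

/-- 3.4: from the Moving Lemma to generic elements -/
theorem isVin_of_moving {A W₀ : Set N} (h : Λ.Moving V A W₀) :
    ∃ Vin : Set (Set N), (Λ.ctx0 V).IsVin A W₀ Vin := by
  classical
  obtain ⟨Vin, h1, h2, h3, h4⟩ := h
  refine ⟨Vin, h1, h2, h3, ?_⟩
  let J := Finset (Set N) × Finset (Set N × Set N)
  have hJ : ∀ j : J, ∃ g ∈ V.Fix A,
        (∀ Y ∈ j.1, Y ∈ (Λ.ctx0 V).cell A W₀ → ∀ X ∈ j.1, X ∈ (Λ.ctx0 V).cell A W₀ →
          (X ∈ Vin → g • Y ⊂ X) ∧ (X ∉ Vin → Disjoint (g • Y) X)) ∧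
          ∀ p ∈ j.2, V.Ball p.1 → p.1 ∉ V.acl A → g • p.1 ≠ p.2 := by
    intro j
    obtain ⟨g, hg1, hg2, hg3⟩ := h4 j.1 (j.2.filter fun p => V.Ball p.1 ∧ p.1 ∉ V.acl A)
      (fun p hp => (Finset.mem_filter.1 hp).2)
    exact ⟨g, hg1, hg2, fun p hp hb hn => hg3 p (Finset.mem_filter.2 ⟨hp, hb, hn⟩)⟩
  choose f hf1 hf2 hf3 using hJ
  let U : Ultrafilter J := Ultrafilter.of Filter.atTop
  have hU : ∀ j₀ : J, ∀ᶠ j in (U : Filter J), j₀ ≤ j := fun j₀ =>
    (Ultrafilter.of_le (Filter.atTop : Filter J)) (Filter.eventually_ge_atTop j₀)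
  have hlim := fun n => Λ.exists_lim U f n
  choose σ hσ using hlim
  refine ⟨σ, fun n hn => ?_, fun n m hn hnm => ?_⟩
  · refine ⟨(hσ n).mem_Fix' hn hf1, ?_, ?_, ?_⟩
    · intro X hX hXn Y hY hYn
      rw [mem_ctx0_LB] at hXn hYn
      rw [(hσ n).smul_ssubset_iff hYn.2 hXn.2]
      filter_upwards [hU ({X, Y}, ∅)] with j hj
      have hXj : X ∈ j.1 := hj.1 (by simp)
      have hYj : Y ∈ j.1 := hj.1 (by simp)
      exact (hf2 j Y hYj hY X hXj (h1 hX)).1 hX
    · intro X hX hXV hXn Y hY hYn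
      rw [mem_ctx0_LB] at hXn hYn
      rw [(hσ n).smul_disjoint_iff hYn.2 hXn.2]
      filter_upwards [hU ({X, Y}, ∅)] with j hj
      have hXj : X ∈ j.1 := hj.1 (by simp)
      have hYj : Y ∈ j.1 := hj.1 (by simp)
      exact (hf2 j Y hYj hY X hXj hX).2 hXV
    · intro Z hZ hZc hcon
      rw [mem_ctx0_LB] at hZ hcon
      have e1 := ((hσ n).smul_eq_iff hZ.2 hcon.2).1 rfl
      have e4 : ∀ᶠ j in (U : Filter J), False := by
        filter_upwards [e1, hU (∅, {(Z, σ n • Z)})] with j hj1 hj2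
        exact hf3 j (Z, σ n • Z) (hj2.2 (by simp)) hZ.1 hZc hj1
      exact e4.exists.elim fun _ h => h
  · obtain ⟨τ, hτ1, hτ2⟩ := Λ.lim_conj hnm (hσ n) (hσ m)
    exact ⟨τ, hτ1, hτ2⟩

/-- the full context, given the Moving Lemma -/
def ctx (hmov : ∀ {A : Set N}, A.Finite → ∀ {W₀ : Set N}, V.Ball W₀ → W₀ ∉ V.acl A →
    Λ.Moving V A W₀) : Pool.VCM.Ctx N (AutG L N) where
  toCtx0 := Λ.ctx0 V
  vin := fun hc _ hW hW' => Λ.isVin_of_moving (hmov hc hW hW')
  ind := fun _ n hcn => Λ.ctx0_ind n hcn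

end Levels

end Pool.Agent.VCM
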