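import Pool.Agent.VCM.Sys
import Pool.Agent.VCM.CtxInst0

/-! S15495: section 2 in the language of `Sys.lean` (`cl`, `nearF`). -/

open FirstOrder FirstOrder.Language
open scoped Pointwise

namespace Pool.Agent.VCM

variable {L : FirstOrder.Language.{0, 0}} {N : Type} [L.Structure N]

namespace VC

variable {V : VC L N}

theorem cl_iff_Clu {C D : Set N} : V.cl C D ↔ V.Clu C D := Iff.rfl

theorem cl_refl (C : Set N) : V.cl C C := Clu.refl C
theorem cl_symm {C D : Set N} (h : V.cl C D) : V.cl D C := Clu.symm h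
theorem cl_trans {C D E : Set N} (h : V.cl C D) (h' : V.cl D E) : V.cl C E := Clu.trans h h'

theorem cl_ball {C D : Set N} (h : V.cl C D) : V.Ball C ↔ V.Ball D := Clu.ball_iff h

theorem cl_smul (g : AutG L N) {C D : Set N} (h : V.cl C D) : V.cl (g • C) (g • D) := Clu.smul h g

theorem cl_smul_iff (g : AutG L N) {C D : Set N} : V.cl (g • C) (g • D) ↔ V.cl C D :=
  Clu.smul_iff g

/-- 2.1 -/
theorem cl_ssub {W E C : Set N} (_hW : V.Ball W) (hE : V.Ball E) (hn : ¬ V.cl W E) (h : V.cl W C) :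
    W ⊂ E ↔ C ⊂ E := Clu.lt_iff h hE hn

theorem ssub_iff_of_not_cl {W E : Set N} (hn : ¬ V.cl W E) : W ⊂ E ↔ W ⊆ E := by
  refine ⟨fun h => h.1, fun h => h.ssubset_of_ne ?_⟩
  rintro rfl
  exact hn (cl_refl _)

theorem cl_sub {W E C : Set N} (hW : V.Ball W) (hE : V.Ball E) (hn : ¬ V.cl W E) (h : V.cl W C) :
    W ⊆ E ↔ C ⊆ E := by
  rw [← ssub_iff_of_not_cl hn, cl_ssub hW hE hn h]
  exact ssub_iff_of_not_cl fun h' => hn (cl_trans h h')

/-- 2.2 -/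
theorem cl_acl {A : Set N} {C D : Set N} (h : V.cl C D) : C ∈ V.acl A ↔ D ∈ V.acl A :=
  clu_acl' h

/-- 2.3 -/
theorem NC_set {W Cp : Set N} (hW : V.Ball W) (hCp : V.Ball Cp) (h : V.cl W Cp ∨ W ⊂ Cp)
    {S T : Set (Set N)} (hS : S.Finite) (hT : T.Finite) (hSc : ∀ C ∈ S, V.cl W C)
    (hTc : ∀ D ∈ T, V.Ball D ∧ ¬ V.cl W D ∧ ¬ W ⊆ D) (hn : ¬ Cp ⊆ ⋃₀ S) : ¬ Cp ⊆ ⋃₀ S ∪ ⋃₀ T := by
  classical
  obtain ⟨x, hx, h1, h2⟩ := NC hW hCp h hS.toFinset hT.toFinset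
    (fun X hX => hSc X (hS.mem_toFinset.1 hX)) (fun X hX => hTc X (hT.mem_toFinset.1 hX))
    (by rw [hS.coe_toFinset]; exact hn)
  intro hcon
  rcases hcon hx with ⟨X, hX, hxX⟩ | ⟨X, hX, hxX⟩
  · exact h1 X (hS.mem_toFinset.2 hX) hxX
  · exact h2 X (hT.mem_toFinset.2 hX) hxX

/-- 2.4 -/
theorem NC_set' {W Cp : Set N} (hW : V.Ball W) (hCp : V.Ball Cp) (h : W ⊂ Cp) (hn : ¬ V.cl W Cp)
    {S : Set (Set N)} (hS : S.Finite) (hSc : ∀ C ∈ S, V.cl W C) : ¬ Cp ⊆ ⋃₀ S := by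
  have := not_cover_clu hW hCp hn h hS.toFinset (fun X hX => hSc X (hS.mem_toFinset.1 hX))
  rwa [hS.coe_toFinset] at this

theorem mem_nearF {W X : Set N} : X ∈ V.nearF W ↔ ∃ E : Set (Set N), E.Finite ∧
    (∀ D ∈ E, V.Ball D ∧ ¬ V.cl W D) ∧ {x | ∀ D ∈ E, (x ∈ D ↔ W ⊆ D)} ⊆ X := Iff.rfl

theorem nearF_neBot {W : Set N} (hW : V.Ball W) : (V.nearF W).NeBot := by
  classical
  rw [Filter.neBot_iff, Ne, ← Filter.empty_mem_iff_bot]
  rintro ⟨E, hE, h1, h2⟩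
  have hT : {D | D ∈ E ∧ ¬ W ⊆ D}.Finite := hE.subset fun D hD => hD.1
  have := NC_set hW hW (Or.inl (cl_refl W)) (S := ∅) (T := {D | D ∈ E ∧ ¬ W ⊆ D}) Set.finite_empty
    hT (by simp) (fun D hD => ⟨(h1 D hD.1).1, (h1 D hD.1).2, hD.2⟩)
    (by
      rw [Set.sUnion_empty, Set.subset_empty_iff]
      exact hW.nonempty.ne_empty)
  rw [Set.sUnion_empty, Set.empty_union] at this
  obtain ⟨x, hx, hx'⟩ := Set.not_subset.1 this
  apply h2 (a := x)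
  intro D hD
  by_cases hWD : W ⊆ D
  · exact ⟨fun _ => hWD, fun _ => hWD hx⟩
  · refine ⟨fun hxD => absurd ?_ hx', fun h => absurd h hWD⟩
    exact ⟨D, ⟨hD, hWD⟩, hxD⟩

theorem nearF_le_of_cl {W W' : Set N} (hW : V.Ball W) (h : V.cl W W') : V.nearF W' ≤ V.nearF W := by
  rintro X ⟨E, hE, h1, h2⟩
  refine ⟨E, hE, fun D hD => ⟨(h1 D hD).1, fun h' => (h1 D hD).2 (cl_trans h h')⟩, ?_⟩
  refine Set.Subset.trans ?_ h2
  intro x hx D hD
  rw [hx D hD, cl_sub hW (h1 D hD).1 (h1 D hD).2 h]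

theorem nearF_cl {W W' : Set N} (hW : V.Ball W) (h : V.cl W W') : V.nearF W = V.nearF W' :=
  le_antisymm (nearF_le_of_cl ((cl_ball h).1 hW) (cl_symm h)) (nearF_le_of_cl hW h)

theorem nearF_smul (g : AutG L N) {W X : Set N} (h : X ∈ V.nearF W) : g • X ∈ V.nearF (g • W) := by
  obtain ⟨E, hE, h1, h2⟩ := h
  refine ⟨(fun D : Set N => g • D) '' E, hE.image _, ?_, ?_⟩
  · rintro _ ⟨D, hD, rfl⟩
    exact ⟨(h1 D hD).1.smul g, fun h => (h1 D hD).2 ((cl_smul_iff g).1 h)⟩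
  · intro x hx
    rw [Set.mem_smul_set_iff_inv_smul_mem]
    apply h2
    intro D hD
    have := hx (g • D) ⟨D, hD, rfl⟩
    rw [Set.mem_smul_set_iff_inv_smul_mem, Set.smul_set_subset_smul_set_iff] at this
    exact this

theorem nearF_smul_eq (g : AutG L N) (W : Set N) :
    V.nearF (g • W) = (V.nearF W).map (fun x => g • x) := by
  ext X
  rw [Filter.mem_map]
  have e : (fun x : N => g • x) ⁻¹' X = g⁻¹ • X := Set.preimage_smul g X
  rw [e]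
  constructor
  · intro h
    have := nearF_smul g⁻¹ h
    rwa [inv_smul_smul] at this
  · intro h
    have := nearF_smul g h
    rwa [smul_inv_smul] at this

/-- on the near filter a set of balls is eventually constant -/
theorem eventually_nearF {W D : Set N} (hD : V.Ball D) (hn : ¬ V.cl W D) :
    ∀ᶠ x in V.nearF W, (x ∈ D ↔ W ⊆ D) := by
  refine ⟨{D}, Set.finite_singleton D, ?_, ?_⟩
  · rintro _ rfl
    exact ⟨hD, hn⟩
  · intro x hx
    exact hx D rfl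

/-- 2.6 Dropping Lemma -/
theorem dropping_nearF [Nonempty N] {β : Type*} {f : N → β} {E : Set (Set N)} (hEf : E.Finite)
    (hEb : ∀ D ∈ E, V.Ball D) (hE : ∀ x y, (∀ D ∈ E, (x ∈ D ↔ y ∈ D)) → f x = f y)
    {W : Set N} (hW : V.Ball W) {b : β} (hn : ∀ᶠ x in V.nearF W, f x = b) :
    ∀ x y, (∀ D ∈ {D | D ∈ E ∧ ¬ V.cl W D}, (x ∈ D ↔ y ∈ D)) → f x = f y := by
  classical
  obtain ⟨E₀, hE₀, h1, h2⟩ := hn
  obtain ⟨w, hw⟩ := hW.nonempty
  set U : Set (Set N) := E₀ ∪ {D | D ∈ E ∧ ¬ V.cl W D} with hU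
  have hUf : U.Finite := hE₀.union (hEf.subset fun D hD => hD.1)
  have hUb : ∀ D ∈ U, V.Ball D ∧ ¬ V.cl W D := by
    rintro D (hD | hD)
    · exact h1 D hD
    · exact ⟨hEb D hD.1, hD.2⟩
  have hUp : {D | D ∈ U ∧ W ⊆ D}.Finite := hUf.subset fun D hD => hD.1
  have hUm : {D | D ∈ U ∧ ¬ W ⊆ D}.Finite := hUf.subset fun D hD => hD.1
  have key : ∀ z, (∀ X ∈ E, ¬ V.cl W X → (z ∈ X ↔ W ⊆ X)) → f z = b := by
    intro z hz
    have hCCf : {X | X ∈ E ∧ V.cl W X ∧ z ∈ X}.Finite := hEf.subset fun D hD => hD.1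
    have hEif : {X | X ∈ E ∧ V.cl W X ∧ z ∉ X}.Finite := hEf.subset fun D hD => hD.1
    have hchoose : ∃ C, V.Ball C ∧ (V.cl W C ∨ W ⊂ C) ∧
        ¬ C ⊆ ⋃₀ {X | X ∈ E ∧ V.cl W X ∧ z ∉ X} ∧
        (∀ X ∈ E, V.cl W X → z ∈ X → C ⊆ X) ∧ (∀ X ∈ U, W ⊆ X → C ⊆ X) := by
      by_cases hex : ∃ X ∈ E, V.cl W X ∧ z ∈ X
      · have hne : hCCf.toFinset.Nonempty := by
          obtain ⟨X, hX, hzX⟩ := hex
          exact ⟨X, hCCf.mem_toFinset.2 ⟨hX, hzX⟩⟩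
        obtain ⟨C, hC⟩ := hCCf.toFinset.exists_minimal hne
        obtain ⟨hCE, hCW, hzC⟩ := hCCf.mem_toFinset.1 hC.prop
        refine ⟨C, hEb C hCE, Or.inl hCW, ?_, ?_, ?_⟩
        · intro hcov
          obtain ⟨X, hX, hzX⟩ := hcov hzC
          exact hX.2.2 hzX
        · intro X hX hXW hzX
          rcases (hEb C hCE).cmp (hEb X hX) hzC hzX with h | h
          · exact h
          · exact hC.le_of_le (hCCf.mem_toFinset.2 ⟨hX, hXW, hzX⟩) h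
        · intro X hX hWX
          exact (cl_sub hW (hUb X hX).1 (hUb X hX).2 hCW).1 hWX
      · push Not at hex
        by_cases hUe : hUp.toFinset.Nonempty
        · obtain ⟨C, hC⟩ := hUp.toFinset.exists_minimal hUe
          obtain ⟨hCU, hWC⟩ := hUp.mem_toFinset.1 hC.prop
          obtain ⟨hC1, hC2⟩ := hUb C hCU
          have hC3 : W ⊂ C := (ssub_iff_of_not_cl hC2).2 hWC
          refine ⟨C, hC1, Or.inr hC3, NC_set' hW hC1 hC3 hC2 hEif fun X hX => hX.2.1,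
            fun X hX hXW hzX => absurd hzX (hex X hX hXW), ?_⟩
          intro X hX hWX
          rcases hC1.cmp (hUb X hX).1 (hWC hw) (hWX hw) with h | h
          · exact h
          · exact hC.le_of_le (hUp.mem_toFinset.2 ⟨hX, hWX⟩) h
        · have hUe' : ∀ X ∈ U, ¬ W ⊆ X := fun X hX hWX =>
            hUe ⟨X, hUp.mem_toFinset.2 ⟨hX, hWX⟩⟩
          refine ⟨Set.univ, ball_univ, ?_, ?_, fun X hX hXW hzX => absurd hzX (hex X hX hXW),
            fun X hX hWX => absurd hWX (hUe' X hX)⟩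
          · by_cases hu : V.cl W Set.univ
            · exact Or.inl hu
            · exact Or.inr ((ssub_iff_of_not_cl hu).2 (Set.subset_univ _))
          · intro hcov
            obtain ⟨X, hX, hzX⟩ := hcov (Set.mem_univ z)
            exact hX.2.2 hzX
    obtain ⟨C, hC1, hC2, hC3, hC4, hC5⟩ := hchoose
    have hNC := NC_set hW hC1 hC2 hEif hUm (fun X hX => hX.2.1)
      (fun D hD => ⟨(hUb D hD.1).1, (hUb D hD.1).2, hD.2⟩) hC3
    obtain ⟨y, hyC, hy⟩ := Set.not_subset.1 hNC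
    have hyU : ∀ D ∈ U, (y ∈ D ↔ W ⊆ D) := by
      intro D hD
      by_cases hWD : W ⊆ D
      · exact ⟨fun _ => hWD, fun _ => hC5 D hD hWD hyC⟩
      · exact ⟨fun hyD => absurd (Or.inr ⟨D, ⟨hD, hWD⟩, hyD⟩) hy, fun h => absurd h hWD⟩
    have hyb : f y = b := h2 fun D hD => hyU D (Or.inl hD)
    rw [← hyb]
    apply hE
    intro X hX
    by_cases hXW : V.cl W X
    · constructor
      · intro hzX
        exact hC4 X hX hXW hzX hyC
      · intro hyX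
        by_contra hzX
        exact hy (Or.inl ⟨X, ⟨hX, hXW, hzX⟩, hyX⟩)
    · rw [hz X hX hXW, hyU X (Or.inr ⟨hX, hXW⟩)]
  intro x y hxy
  by_cases hsame : ∀ D ∈ E, (x ∈ D ↔ y ∈ D)
  · exact hE x y hsame
  · push Not at hsame
    obtain ⟨C, hCE, hC⟩ := hsame
    have hCW : V.cl W C := by
      by_contra hCW
      have := hxy C ⟨hCE, hCW⟩
      tauto
    have hz : ∀ z z', (∀ D ∈ {D | D ∈ E ∧ ¬ V.cl W D}, (z ∈ D ↔ z' ∈ D)) → z ∈ C → z' ∉ C →
        ∀ X ∈ E, ¬ V.cl W X → (z ∈ X ↔ W ⊆ X) := by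
      intro z z' hzz hzC hz'C X hX hXW
      rw [cl_sub hW (hEb X hX) hXW hCW]
      constructor
      · intro hzX
        have hz'X := (hzz X ⟨hX, hXW⟩).1 hzX
        rcases (hEb C hCE).cmp (hEb X hX) hzC hzX with h | h
        · exact h
        · exact absurd (h hz'X) hz'C
      · intro hWX
        exact hWX hzC
    have hz' : ∀ z z', (∀ D ∈ {D | D ∈ E ∧ ¬ V.cl W D}, (z ∈ D ↔ z' ∈ D)) → z ∈ C → z' ∉ C →
        f z = f z' := by
      intro z z' hzz hzC hz'C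
      have e1 := hz z z' hzz hzC hz'C
      rw [key z e1, key z' fun X hX hXW => (hzz X ⟨hX, hXW⟩).symm.trans (e1 X hX hXW)]
    rcases hC with ⟨a, b⟩ | ⟨a, b⟩
    · exact hz' x y hxy a b
    · exact (hz' y x (fun D hD => (hxy D hD).symm) b a).symm

/-- 2.6 in the form of the stub -/
theorem dropping' [Nonempty N] {β : Type} {f : N → β} {E : Set (Set N)} (hEf : E.Finite)
    (hEb : ∀ D ∈ E, V.Ball D) (hE : AtomConst E f) {W : Set N} (hW : V.Ball W) {b : β}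
    (hn : ∀ᶠ x in V.nearF W, f x = b) : AtomConst {D | D ∈ E ∧ ¬ V.cl W D} f :=
  dropping_nearF hEf hEb hE hW hn

/-! ### comparison with `V.Near` -/

theorem Near.mem_nearF {W : Set N} {p : N → Prop} (h : V.Near W p) : ∀ᶠ x in V.nearF W, p x := by
  obtain ⟨D, Q, h1, h2, h3, h4, h5⟩ := h
  refine ⟨insert D (Q : Set (Set N)), Q.finite_toSet.insert D, ?_, ?_⟩
  · rintro X (rfl | hX)
    · exact ⟨h1, h3⟩
    · exact ⟨(h4 X hX).1, (h4 X hX).2.1⟩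
  · intro x hx
    refine h5 x ((hx D (Or.inl rfl)).2 h2.1) fun G hG hxG => ?_
    exact (h4 G hG).2.2 ((hx G (Or.inr hG)).1 hxG)

theorem near_iff_nearF [Nonempty N] {W : Set N} (hW : V.Ball W) (hu : ¬ V.cl W Set.univ)
    {p : N → Prop} : V.Near W p ↔ ∀ᶠ x in V.nearF W, p x := by
  classical
  refine ⟨Near.mem_nearF, ?_⟩
  rintro ⟨E, hE, h1, h2⟩
  obtain ⟨w, hw⟩ := hW.nonempty
  have hFf : (insert Set.univ {D | D ∈ E ∧ W ⊆ D}).Finite :=
    (hE.subset fun D hD => hD.1).insert _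
  have hF : ∀ X ∈ insert Set.univ {D | D ∈ E ∧ W ⊆ D}, V.Ball X ∧ ¬ V.cl W X ∧ W ⊆ X := by
    rintro X (rfl | hX)
    · exact ⟨ball_univ, hu, Set.subset_univ _⟩
    · exact ⟨(h1 X hX.1).1, (h1 X hX.1).2, hX.2⟩
  obtain ⟨D, hD⟩ := hFf.toFinset.exists_minimal
    ⟨Set.univ, hFf.mem_toFinset.2 (Or.inl rfl)⟩
  obtain ⟨hD1, hD2, hD3⟩ := hF D (hFf.mem_toFinset.1 hD.prop)
  have hQf : {D | D ∈ E ∧ ¬ W ⊆ D}.Finite := hE.subset fun D hD => hD.1
  refine ⟨D, hQf.toFinset, hD1, (ssub_iff_of_not_cl hD2).2 hD3, hD2, ?_, ?_⟩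
  · intro G hG
    obtain ⟨a, b⟩ := hQf.mem_toFinset.1 hG
    exact ⟨(h1 G a).1, (h1 G a).2, b⟩
  · intro x hx hx'
    apply h2
    intro X hX
    by_cases hWX : W ⊆ X
    · refine ⟨fun _ => hWX, fun _ => ?_⟩
      obtain ⟨a, b, c⟩ := hF X (Or.inr ⟨hX, hWX⟩)
      rcases hD1.cmp a (hD3 hw) (c hw) with h | h
      · exact h hx
      · exact hD.le_of_le (hFf.mem_toFinset.2 (Or.inr ⟨hX, hWX⟩)) h hx
    · exact ⟨fun h => absurd h (hx' X (hQf.mem_toFinset.2 ⟨hX, hWX⟩)), fun h => absurd h hWX⟩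

end VC

end Pool.Agent.VCM
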