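import Pool.Agent.VCM.Sys

/-! S15495, module UREP: uniform representation of a definable family of subsets of the line by
`Ψ`-instances (compactness). -/

open FirstOrder FirstOrder.Language
open scoped Pointwise

namespace Pool.Agent.VCM

variable {L : FirstOrder.Language.{0, 0}} {N : Type} [L.Structure N]

namespace VC

variable {V : VC L N}

/-- a member of the Boolean algebra generated by the instances is decided by finitely many of them -/
theorem rep_list {X : Set N} (h : X ∈ BooleanSubalgebra.closure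
    {S : Set N | ∃ δ ∈ V.Ψ, ∃ w' : ℕ → N, S = fib δ w'}) :
    ∃ (l : List V.Ψ) (u : Fin l.length → ℕ → N), ∀ x y,
      (∀ j : Fin l.length, (x ∈ fib (l.get j : Fm L) (u j) ↔ y ∈ fib (l.get j : Fm L) (u j))) →
        (x ∈ X ↔ y ∈ X) := by
  induction h using BooleanSubalgebra.closure_bot_sup_induction with
  | mem X hX =>
    obtain ⟨δ, hδ, w, rfl⟩ := hX
    refine ⟨[⟨δ, hδ⟩], fun _ => w, fun x y hxy => ?_⟩
    exact hxy ⟨0, by simp⟩
  | bot => exact ⟨[], fun j => absurd j.2 (by simp), fun x y _ => by simp⟩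
  | sup X _ Y _ hX hY =>
    obtain ⟨l, u, hu⟩ := hX
    obtain ⟨l', u', hu'⟩ := hY
    have hlen : (l ++ l').length = l.length + l'.length := List.length_append
    refine ⟨l ++ l', fun j => if h : (j : ℕ) < l.length then u ⟨j, h⟩ else
      u' ⟨j - l.length, by have := j.2; omega⟩, fun x y hxy => ?_⟩
    have h1 := hu x y (fun j => by
      have := hxy ⟨j, by have := j.2; omega⟩
      simpa [List.getElem_append_left, j.2] using this)
    have h2 := hu' x y (fun j => by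
      have := hxy ⟨l.length + j, by have := j.2; omega⟩
      simpa [List.getElem_append_right] using this)
    show x ∈ X ∪ Y ↔ y ∈ X ∪ Y
    rw [Set.mem_union, Set.mem_union, h1, h2]
  | compl X _ hX =>
    obtain ⟨l, u, hu⟩ := hX
    exact ⟨l, u, fun x y hxy => not_congr (hu x y hxy)⟩

/-- the relation `fib θ w` is decided by instances of the formulas of `l` -/
def RepBy (θ : Fm L) (l : List V.Ψ) (w : ℕ → N) : Prop :=
  ∃ u : Fin l.length × ℕ → N, ∀ x y,
    (∀ j : Fin l.length, (x ∈ fib (l.get j : Fm L) (fun i => u (j, i)) ↔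
      y ∈ fib (l.get j : Fm L) (fun i => u (j, i)))) → (x ∈ fib θ w ↔ y ∈ fib θ w)

theorem dfn_RepBy [Nonempty N] (θ : Fm L) (l : List V.Ψ) : Dfn1 L (fun w : ℕ → N => RepBy θ l w) := by
  refine Dfn.exT (κ := Fin l.length × ℕ) (R := fun (w : ℕ → N) u => ∀ x y,
    (∀ j : Fin l.length, (x ∈ fib (l.get j : Fm L) (fun i => u (j, i)) ↔
      y ∈ fib (l.get j : Fm L) (fun i => u (j, i)))) → (x ∈ fib θ w ↔ y ∈ fib θ w)) ?_
  refine Dfn.all1 (R := fun (v : ℕ ⊕ (Fin l.length × ℕ) → N) x => ∀ y,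
    (∀ j : Fin l.length, (x ∈ fib (l.get j : Fm L) (fun i => v (Sum.inr (j, i))) ↔
      y ∈ fib (l.get j : Fm L) (fun i => v (Sum.inr (j, i))))) →
      (x ∈ fib θ (v ∘ Sum.inl) ↔ y ∈ fib θ (v ∘ Sum.inl))) ?_
  refine Dfn.all1 (R := fun (v : (ℕ ⊕ (Fin l.length × ℕ)) ⊕ Unit → N) y =>
    (∀ j : Fin l.length, (v (Sum.inr ()) ∈ fib (l.get j : Fm L) (fun i => v (Sum.inl (Sum.inr (j, i)))) ↔
      y ∈ fib (l.get j : Fm L) (fun i => v (Sum.inl (Sum.inr (j, i)))))) →
      (v (Sum.inr ()) ∈ fib θ (fun i => v (Sum.inl (Sum.inl i))) ↔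
        y ∈ fib θ (fun i => v (Sum.inl (Sum.inl i))))) ?_
  refine Dfn.imp (Dfn.finiteAll fun j => Dfn.iff ?_ ?_) (Dfn.iff ?_ ?_)
  · exact dfn_mem _ (Sum.inl (Sum.inr ())) (fun i => Sum.inl (Sum.inl (Sum.inr (j, i)))) _ _
      (fun v => rfl) (fun v i => rfl)
  · exact dfn_mem _ (Sum.inr ()) (fun i => Sum.inl (Sum.inl (Sum.inr (j, i)))) _ _
      (fun v => rfl) (fun v i => rfl)
  · exact dfn_mem _ (Sum.inl (Sum.inr ())) (fun i => Sum.inl (Sum.inl (Sum.inl i))) _ _
      (fun v => rfl) (fun v i => rfl)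
  · exact dfn_mem _ (Sum.inr ()) (fun i => Sum.inl (Sum.inl (Sum.inl i))) _ _
      (fun v => rfl) (fun v i => rfl)

/-- uniform representations of a definable family of subsets of the line by `Ψ`-instances -/
theorem uniform_rep (Λ : Levels L N) (θ : Fm L) :
    ∃ (K : ℕ) (Δ : Finset (Fm L)), ↑Δ ⊆ V.Ψ ∧ ∀ w : ℕ → N, ∃ E : Set (Set N), E.Finite ∧ E.ncard ≤ K ∧
      (∀ D ∈ E, ∃ δ ∈ Δ, ∃ u : ℕ → N, D = fib δ u) ∧
      ∀ x y, (∀ D ∈ E, (x ∈ D ↔ y ∈ D)) → (x ∈ fib θ w ↔ y ∈ fib θ w) := by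
  classical
  have hne : Nonempty N := Λ.nonempty
  have step1 : ∃ F : Finset (List V.Ψ), ∀ w : ℕ → N, ∃ l ∈ F, RepBy θ l w := by
    by_contra hcon
    push Not at hcon
    obtain ⟨w, -, hw⟩ := Λ.sat_rel 0 (κ := ℕ) (I := List V.Ψ) (fun i => (⟨_, Λ.ne.some_mem⟩, i))
      (fun p q h => (Prod.mk.inj h).2) (fun l w => ¬ RepBy θ l w)
      (fun l => DfnO.of_dfn0 (dfn_RepBy θ l).not) hcon
    obtain ⟨l, u, hu⟩ := rep_list (V.gen θ w)
    exact hw l ⟨fun p => u p.1 p.2, hu⟩
  obtain ⟨F, hF⟩ := step1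
  refine ⟨F.sup List.length, F.biUnion (fun l => (l.map Subtype.val).toFinset), ?_, fun w => ?_⟩
  · intro δ hδ
    rw [Finset.mem_coe, Finset.mem_biUnion] at hδ
    obtain ⟨l, -, hl⟩ := hδ
    rw [List.mem_toFinset, List.mem_map] at hl
    obtain ⟨a, -, rfl⟩ := hl
    exact a.2
  · obtain ⟨l, hl, u, hu⟩ := hF w
    refine ⟨Set.range (fun j : Fin l.length => fib (l.get j : Fm L) (fun i => u (j, i))),
      Set.finite_range _, ?_, ?_, ?_⟩
    · calc (Set.range (fun j : Fin l.length => fib (l.get j : Fm L) (fun i => u (j, i)))).ncard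
          ≤ (Set.univ : Set (Fin l.length)).ncard := by
            rw [← Set.image_univ]
            exact Set.ncard_image_le Set.finite_univ
        _ = l.length := by rw [Set.ncard_univ, Nat.card_eq_fintype_card, Fintype.card_fin]
        _ ≤ F.sup List.length := Finset.le_sup (f := List.length) hl
    · rintro D ⟨j, rfl⟩
      refine ⟨l.get j, ?_, fun i => u (j, i), rfl⟩
      rw [Finset.mem_biUnion]
      refine ⟨l, hl, ?_⟩
      rw [List.mem_toFinset, List.mem_map]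
      exact ⟨l.get j, List.get_mem l j, rfl⟩
    · intro x y hxy
      exact hu x y fun j => hxy _ ⟨j, rfl⟩

end VC

end Pool.Agent.VCM
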