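import Pool.Agent.VCM.Mov3
import Pool.Agent.VCM.Sec2
import Pool.Agent.VCM.URep

/-! S15495, section 3.6: an `A`-definable set does not separate points lying in the same algebraic
balls (BC), and its consequences. -/

open FirstOrder FirstOrder.Language
open scoped Pointwise

namespace Pool.Agent.VCM

variable {L : FirstOrder.Language.{0, 0}} {N : Type} [L.Structure N]

namespace Levels

variable {Λ : Levels L N} {V : VC L N} {A W₀ : Set N}

/-- if all `Fix A`-conjugates of a ball `D` contain the point `u`, some algebraic ball lies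
between -/
theorem point_move {n : ℕ} (hA : A ⊆ Λ.S n) {D : Set N} (hD : V.Ball D) {u : N}
    (hu : ∀ g ∈ V.Fix A, u ∈ g • D) : ∃ Y ∈ V.acl A, u ∈ Y ∧ Y ⊆ D := by
  classical
  have hN : Nonempty N := Λ.nonempty
  obtain ⟨m₁, hm₁⟩ := Λ.exists_coded hD.1
  obtain ⟨m₂, hm₂⟩ := Λ.cover u
  obtain ⟨m, h1, h2⟩ : ∃ m, m₁ ≤ m ∧ m₂ ≤ m := ⟨max m₁ m₂, le_max_left _ _, le_max_right _ _⟩
  obtain ⟨θ, d, hd, hDd⟩ := hm₁.mono h1
  obtain ⟨-, Δ, hΔ, hUI⟩ := hD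
  have hsome : DfnO L (Λ.S m) (fun x : ℕ → N => u ∈ fib θ x) := by
    refine DfnO.of_dfn (κ := ℕ) (B := Λ.S m) (R := fun v : Unit ⊕ ℕ → N =>
      v (Sum.inl ()) ∈ fib θ (v ∘ Sum.inr)) ?_ (fun _ => u) (fun _ => Λ.mono h2 hm₂)
    exact dfn_mem θ (Sum.inl ()) (fun i => Sum.inr i) _ _ (fun _ => rfl) (fun _ _ => rfl)
  have hgD : ∀ g ∈ V.Fix A, u ∈ fib θ (fun i => g • d i) := by
    intro g hg
    rw [fib_smul, ← hDd]; exact hu g hg
  have hmain : ∀ (TT : (ℕ → N) → Prop), Dfn1 L TT →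
      (∀ g ∈ V.Fix A, TT (fun i => g • d i)) →
      ((∀ x, TT x → DU Δ (fib θ x)) ∨ (∀ x, TT x → DI Δ (fib θ x))) →
      ∃ Y ∈ V.acl A, u ∈ Y ∧ Y ⊆ D := by
    intro TT hTT hg hTT'
    obtain ⟨P, hP1, hP2, hP3, hP4⟩ := Λ.CP1' (V := V) hA hd
      (Φ := fun x => TT x ∧ u ∈ fib θ x)
      ((DfnO.of_dfn0 hTT).and hsome) (fun g hg' => ⟨hg g hg', hgD g hg'⟩)
    obtain ⟨Y, hY, ⟨-, hXY⟩, hYd⟩ := no_invariant_family hA hΔ hP1
      (hTT'.imp (fun h x hx => h x (hP3 x hx).1) (fun h x hx => h x (hP3 x hx).1)) hP4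
      (fun _ : Unit => ({u} : Set N)) (fun _ => Set.singleton_nonempty u)
      (fun x hx => ⟨(), Set.singleton_subset_iff.2 (hP3 x hx).2⟩) hP2
    exact ⟨Y, hY, Set.singleton_subset_iff.1 hXY, by rw [hDd]; exact hYd⟩
  rcases hUI with h | h
  · refine hmain (fun x => DU Δ (fib θ x)) (dfn_DU Δ θ) (fun g hg => ?_) (Or.inl fun x hx => hx)
    rw [fib_smul, ← hDd]; exact h.smul g
  · refine hmain (fun x => DI Δ (fib θ x)) (dfn_DI Δ θ) (fun g hg => ?_) (Or.inr fun x hx => hx)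
    rw [fib_smul, ← hDd]; exact h.smul g

/-- the set `X` separates `u` and `v` -/
def Sep (X : Set N) (u v : N) : Prop := ¬ (u ∈ X ↔ v ∈ X)

/-- the moving statement behind BC: finitely many balls of one cell can be moved so that they do
not separate two points lying in the same algebraic balls -/
theorem move_sep {n : ℕ} (hA : A ⊆ Λ.S n) (hW : V.Ball W₀) (hW' : W₀ ∉ V.acl A) {u v : N}
    (huv : ∀ Q ∈ V.acl A, (u ∈ Q ↔ v ∈ Q)) (F : Finset (Set N))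
    (hF : ∀ X ∈ F, X ∈ Λ.cell V A W₀) :
    ∃ g ∈ V.Fix A, ∀ X ∈ F, (u ∈ g • X ↔ v ∈ g • X) := by
  classical
  obtain ⟨Vin, hV1, hV2, hV3, hV4⟩ := moving (Λ := Λ) hA hW hW'
  by_cases ha : ∃ D ∈ Λ.cell V A W₀, u ∈ D ∧ v ∈ D
  · -- (a)
    obtain ⟨D, hD, hu, hv⟩ := ha
    obtain ⟨g, hg, h, -⟩ := hV4 (insert D F) ∅ (by simp)
    refine ⟨g⁻¹, (V.Fix A).inv_mem hg, fun X hX => ?_⟩
    have h1 := h D (Finset.mem_insert_self _ _) hD X (Finset.mem_insert_of_mem hX) (hF X hX)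
    rw [Set.mem_smul_set_iff_inv_smul_mem, Set.mem_smul_set_iff_inv_smul_mem, inv_inv]
    have hgu : g • u ∈ g • D := Set.smul_mem_smul_set hu
    have hgv : g • v ∈ g • D := Set.smul_mem_smul_set hv
    by_cases hXV : X ∈ Vin
    · have h2 := (h1.1 hXV).1
      exact ⟨fun _ => h2 hgv, fun _ => h2 hgu⟩
    · have h2 := Set.disjoint_left.1 (h1.2 hXV)
      exact ⟨fun h => absurd h (h2 hgu), fun h => absurd h (h2 hgv)⟩
  · push Not at ha
    by_cases hne : Vin.Nonempty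
    · -- one of the points is in no member of the cell
      obtain ⟨E, hE, hEF⟩ := hV3 hne (↑F) (Finset.finite_toSet _) (fun X hX => hF X hX)
      have hEc := hV1 hE
      have key : ∀ u v : N, (∀ Q ∈ V.acl A, (u ∈ Q ↔ v ∈ Q)) →
          (∀ D ∈ Λ.cell V A W₀, v ∉ D) →
          ∃ g ∈ V.Fix A, ∀ X ∈ F, (u ∈ g • X ↔ v ∈ g • X) := by
        intro u v huv hv
        by_cases hex : ∃ g ∈ V.Fix A, u ∉ g • E
        · obtain ⟨g, hg, h⟩ := hex
          refine ⟨g, hg, fun X hX => ?_⟩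
          have h1 : g • X ⊆ g • E := Set.smul_set_mono (hEF X hX)
          exact ⟨fun h2 => absurd (h1 h2) h, fun h2 => absurd (h1 h2) (hv _ (cell_smul hg hEc))⟩
        · push Not at hex
          obtain ⟨Y, hY, hY1, hY2⟩ := point_move hA hEc.1 hex
          exact absurd (hY2 ((huv Y hY).1 hY1)) (hv E hEc)
      by_cases hv : ∀ D ∈ Λ.cell V A W₀, v ∉ D
      · exact key u v huv hv
      · push Not at hv
        obtain ⟨Dv, hDv, hv⟩ := hv
        have hu : ∀ D ∈ Λ.cell V A W₀, u ∉ D := by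
          intro D hD hu
          obtain ⟨G, hG, h1⟩ := hV3 hne {D, Dv} (by simp) (by
            rintro X (rfl | rfl)
            exacts [hD, hDv])
          exact ha G (hV1 hG) (h1 D (by simp) hu) (h1 Dv (by simp) hv)
        obtain ⟨g, hg, h⟩ := key v u (fun Q hQ => (huv Q hQ).symm) hu
        exact ⟨g, hg, fun X hX => (h X hX).symm⟩
    · -- `Vin` is empty
      have hempty : ∀ X, X ∉ Vin := fun X hX => hne ⟨X, hX⟩
      obtain ⟨Fu, hFu, hFu'⟩ : ∃ Fu : Finset (Set N), (∀ X ∈ Fu, X ∈ Λ.cell V A W₀) ∧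
          ((∃ D ∈ Λ.cell V A W₀, u ∈ D) → ∃ D ∈ Fu, u ∈ D) := by
        by_cases h : ∃ D ∈ Λ.cell V A W₀, u ∈ D
        · obtain ⟨D, hD, hu⟩ := h
          exact ⟨{D}, by simpa using hD, fun _ => ⟨D, by simp, hu⟩⟩
        · exact ⟨∅, by simp, fun h' => absurd h' h⟩
      obtain ⟨Fv, hFv, hFv'⟩ : ∃ Fv : Finset (Set N), (∀ X ∈ Fv, X ∈ Λ.cell V A W₀) ∧
          ((∃ D ∈ Λ.cell V A W₀, v ∈ D) → ∃ D ∈ Fv, v ∈ D) := by
        by_cases h : ∃ D ∈ Λ.cell V A W₀, v ∈ D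
        · obtain ⟨D, hD, hv⟩ := h
          exact ⟨{D}, by simpa using hD, fun _ => ⟨D, by simp, hv⟩⟩
        · exact ⟨∅, by simp, fun h' => absurd h' h⟩
      obtain ⟨g, hg, h, -⟩ := hV4 (F ∪ (Fu ∪ Fv)) ∅ (by simp)
      refine ⟨g, hg, fun X hX => ?_⟩
      have hgX := cell_smul hg (hF X hX)
      have hXF : X ∈ F ∪ (Fu ∪ Fv) := Finset.mem_union_left _ hX
      have hu : u ∉ g • X := by
        intro hu
        obtain ⟨D, hD, huD⟩ := hFu' ⟨g • X, hgX, hu⟩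
        have h1 := (h X hXF (hF X hX) D
          (Finset.mem_union_right _ (Finset.mem_union_left _ hD)) (hFu D hD)).2 (hempty D)
        exact Set.disjoint_left.1 h1 hu huD
      have hv : v ∉ g • X := by
        intro hv
        obtain ⟨D, hD, hvD⟩ := hFv' ⟨g • X, hgX, hv⟩
        have h1 := (h X hXF (hF X hX) D
          (Finset.mem_union_right _ (Finset.mem_union_right _ hD)) (hFv D hD)).2 (hempty D)
        exact Set.disjoint_left.1 h1 hv hvD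
      exact ⟨fun h => absurd h hu, fun h => absurd h hv⟩

/-- 3.6 for points -/
theorem BC_pt {n : ℕ} (hA : A ⊆ Λ.S n) {R : Set N} (hR : IsDef L R)
    (hinv : ∀ g ∈ V.Fix A, g • R = R) {u v : N} (huv : ∀ Q ∈ V.acl A, (u ∈ Q ↔ v ∈ Q)) :
    u ∈ R ↔ v ∈ R := by
  classical
  have hN : Nonempty N := Λ.nonempty
  obtain ⟨θ, w, hRw⟩ := hR
  obtain ⟨K, Δ, hΔ, hrep⟩ := VC.uniform_rep (V := V) Λ θ
  obtain ⟨E, hEf, -, hE1, hE2⟩ := hrep w
  -- it is enough to find `g` such that no `g D` separates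
  have hfin : ∀ g ∈ V.Fix A, (∀ D ∈ E, (u ∈ g • D ↔ v ∈ g • D)) → (u ∈ R ↔ v ∈ R) := by
    intro g hg h
    have h1 := hE2 (g⁻¹ • u) (g⁻¹ • v) (fun D hD => by
      rw [← Set.mem_smul_set_iff_inv_smul_mem, ← Set.mem_smul_set_iff_inv_smul_mem]
      exact h D hD)
    rw [← hRw, ← Set.mem_smul_set_iff_inv_smul_mem, ← Set.mem_smul_set_iff_inv_smul_mem,
      hinv g hg] at h1
    exact h1
  -- the balls of `E` some conjugate of which separates
  let E₁ : Set (Set N) := {D | D ∈ E ∧ ∃ g ∈ V.Fix A, ¬ (u ∈ g • D ↔ v ∈ g • D)}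
  have hE₁f : E₁.Finite := hEf.subset fun D hD => hD.1
  have hball : ∀ D ∈ E₁, V.Ball D ∧ D ∉ V.acl A := by
    rintro D ⟨hD, g, hg, hsep⟩
    obtain ⟨δ, hδ, x, rfl⟩ := hE1 D hD
    constructor
    · apply VC.ball_of_psi (hΔ hδ)
      by_contra hcon
      rw [Set.not_nonempty_iff_eq_empty] at hcon
      rw [hcon, Set.smul_set_empty] at hsep
      exact hsep Iff.rfl
    · intro hacl
      rw [hg.2 _ hacl] at hsep
      exact hsep (huv _ hacl)
  have hQQ : ∀ D ∈ E₁, Λ.QQ V A D = {Q | Q ∈ V.acl A ∧ u ∈ Q} := by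
    rintro D hDE
    obtain ⟨hDb, hDa⟩ := hball D hDE
    obtain ⟨hD, g, hg, hsep⟩ := hDE
    have hself : D ∈ Λ.cell V A D := ⟨hDb, hDa, rfl⟩
    have hgD : g • D ∈ Λ.cell V A D := cell_smul hg hself
    rw [← cell_QQ hgD]
    ext Q
    constructor
    · rintro ⟨h1, h2⟩
      refine ⟨h1, ?_⟩
      by_cases hu : u ∈ g • D
      · exact h2.1 hu
      · have hv : v ∈ g • D := by
          by_contra hv
          exact hsep ⟨fun h => absurd h hu, fun h => absurd h hv⟩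
        exact (huv Q h1).2 (h2.1 hv)
    · rintro ⟨h1, h2⟩
      have hvQ := (huv Q h1).1 h2
      refine ⟨h1, ?_⟩
      have hmeet : ∃ p, p ∈ g • D ∧ p ∈ Q := by
        by_cases hu : u ∈ g • D
        · exact ⟨u, hu, h2⟩
        · refine ⟨v, ?_, hvQ⟩
          by_contra hv
          exact hsep ⟨fun h => absurd h hu, fun h => absurd h hv⟩
      obtain ⟨p, hp1, hp2⟩ := hmeet
      have hnot : ¬ Q ⊆ g • D := fun hcon => hsep ⟨fun _ => hcon hvQ, fun _ => hcon h2⟩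
      rcases hgD.1.cmp h1.1 hp1 hp2 with h | h
      · exact ⟨h, hnot⟩
      · exact absurd h hnot
  by_cases hne : E₁.Nonempty
  · obtain ⟨W₁, hW₁⟩ := hne
    obtain ⟨hb, hna⟩ := hball W₁ hW₁
    obtain ⟨g, hg, h⟩ := move_sep (Λ := Λ) (V := V) hA hb hna huv hE₁f.toFinset (by
      intro X hX
      have hX' := hE₁f.mem_toFinset.1 hX
      refine ⟨(hball X hX').1, (hball X hX').2, ?_⟩
      show Λ.QQ V A X = Λ.QQ V A W₁
      rw [hQQ X hX', hQQ W₁ hW₁])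
    refine hfin g hg fun D hD => ?_
    by_cases hD1 : D ∈ E₁
    · exact h D (hE₁f.mem_toFinset.2 hD1)
    · by_contra hcon
      exact hD1 ⟨hD, g, hg, hcon⟩
  · refine hfin 1 (V.Fix A).one_mem fun D hD => ?_
    by_contra hcon
    exact hne ⟨D, hD, 1, (V.Fix A).one_mem, hcon⟩

end Levels

namespace VC

variable {V : VC L N}

theorem finite_sub_level (Λ : Levels L N) {A : Set N} (hA : A.Finite) : ∃ n, A ⊆ Λ.S n := by
  have hf : Finite A := hA
  obtain ⟨n, hn⟩ := Λ.finite_level (fun a : A => (a : N))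
  exact ⟨n, fun a ha => hn ⟨a, ha⟩⟩

/-- BC -/
theorem BC (Λ : Levels L N) {A : Set N} (hA : A.Finite) {R : Set N} (hR : IsDef L R)
    (hinv : ∀ g ∈ V.Fix A, g • R = R) :
    ∃ E : Set (Set N), E.Finite ∧ E ⊆ V.acl A ∧ ∀ x y, (∀ D ∈ E, (x ∈ D ↔ y ∈ D)) → (x ∈ R ↔ y ∈ R) := by
  classical
  have hN : Nonempty N := Λ.nonempty
  obtain ⟨n, hn⟩ := finite_sub_level Λ hA
  by_contra hcon
  push Not at hcon
  obtain ⟨m₁, hm₁⟩ := Λ.exists_coded hR
  obtain ⟨m, hnm, hm⟩ : ∃ m, n ≤ m ∧ Λ.Coded m R :=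
    ⟨max n m₁, le_max_left _ _, hm₁.mono (le_max_right _ _)⟩
  obtain ⟨θ, w, hw, hRw⟩ := hm
  have hcode : ∀ Q : V.acl A, ∃ (θ : Fm L) (w : ℕ → N), Λ.InS m w ∧ (Q : Set N) = fib θ w :=
    fun Q => (Λ.acl_coded hn Q.2).mono hnm
  choose η c hc1 hc2 using hcode
  obtain ⟨x, -, hx⟩ := Λ.sat_rel m (κ := Fin 2) (I := Unit ⊕ V.acl A)
    (fun i => (⟨Λ.ne.some, Λ.mono (Nat.zero_le m) Λ.ne.some_mem⟩, (i : ℕ)))
    (fun i j h => Fin.ext (Prod.mk.inj h).2)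
    (fun i x => Sum.elim (fun _ => ¬ (x 0 ∈ R ↔ x 1 ∈ R))
      (fun Q => (x 0 ∈ (Q : Set N) ↔ x 1 ∈ (Q : Set N))) i)
    (by
      have hmem : ∀ (θ : Fm L) (w : ℕ → N), Λ.InS m w → ∀ i : Fin 2,
          DfnO L (Λ.S m) (fun x : Fin 2 → N => x i ∈ fib θ w) := by
        intro θ w hw i
        refine DfnO.of_dfn (κ := Fin 2) (B := Λ.S m) (R := fun v : ℕ ⊕ Fin 2 → N =>
          v (Sum.inr i) ∈ fib θ (v ∘ Sum.inl)) ?_ w hw
        exact dfn_mem θ (Sum.inr i) (fun i => Sum.inl i) _ _ (fun _ => rfl) (fun _ _ => rfl)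
      have hiff : ∀ (θ : Fm L) (w : ℕ → N), Λ.InS m w →
          DfnO L (Λ.S m) (fun x : Fin 2 → N => (x 0 ∈ fib θ w ↔ x 1 ∈ fib θ w)) := by
        intro θ w hw
        refine (((hmem θ w hw 0).imp (hmem θ w hw 1)).and
          ((hmem θ w hw 1).imp (hmem θ w hw 0))).of_iff fun x => ?_
        exact ⟨fun h => ⟨h.1, h.2⟩, fun h => ⟨h.1, h.2⟩⟩
      rintro (i | Q)
      · refine (hiff θ w hw).not.of_iff fun x => ?_
        rw [← hRw]
        exact Iff.rfl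
      · refine (hiff (η Q) (c Q) (hc1 Q)).of_iff fun x => ?_
        rw [← hc2 Q]
        exact Iff.rfl)
    (by
      intro F
      obtain ⟨x, y, h1, h2⟩ := hcon
        ((fun Q : V.acl A => (Q : Set N)) '' ((F.preimage Sum.inr Sum.inr_injective.injOn : Finset (V.acl A)) : Set (V.acl A)))
        ((Finset.finite_toSet _).image _)
        (by rintro _ ⟨Q, -, rfl⟩; exact Q.2)
      refine ⟨![x, y], ?_⟩
      rintro (i | Q) hi
      · show ¬ (x ∈ R ↔ y ∈ R)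
        rcases h2 with ⟨a, b⟩ | ⟨a, b⟩
        · exact fun h => b (h.1 a)
        · exact fun h => a (h.2 b)
      · exact h1 _ ⟨Q, by simpa using hi, rfl⟩)
  exact hx (Sum.inl ()) (Levels.BC_pt (V := V) hn hR hinv fun Q hQ => hx (Sum.inr ⟨Q, hQ⟩))

/-- the set of points in the same members of `E` as the non-algebraic ball `W` -/
theorem atom_mem_nearF {A : Set N} {E : Set (Set N)} (hE : E.Finite) (hEA : E ⊆ V.acl A) {W : Set N}
    (hWA : W ∉ V.acl A) : {x : N | ∀ D ∈ E, (x ∈ D ↔ W ⊆ D)} ∈ V.nearF W :=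
  ⟨E, hE, fun D hD => ⟨(hEA hD).1, fun h => hWA ((cl_acl h).2 (hEA hD))⟩, subset_rfl⟩

/-- near a non-algebraic ball an `A`-definable set is constant -/
theorem BC_near (Λ : Levels L N) {A : Set N} (hA : A.Finite) {R : Set N} (hR : IsDef L R)
    (hinv : ∀ g ∈ V.Fix A, g • R = R) {W : Set N} (hW : V.Ball W) (hWA : W ∉ V.acl A) :
    (∀ᶠ x in V.nearF W, x ∈ R) ∨ (∀ᶠ x in V.nearF W, x ∉ R) := by
  obtain ⟨E, hEf, hEA, hE⟩ := BC Λ hA hR hinv
  have hmem := atom_mem_nearF hEf hEA hWA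
  have hne := nearF_neBot hW
  obtain ⟨x₀, hx₀⟩ := Filter.nonempty_of_mem hmem
  have h1 : ∀ x ∈ {x : N | ∀ D ∈ E, (x ∈ D ↔ W ⊆ D)}, (x ∈ R ↔ x₀ ∈ R) := fun x hx =>
    hE x x₀ fun D hD => (hx D hD).trans (hx₀ D hD).symm
  by_cases h : x₀ ∈ R
  · left
    filter_upwards [hmem] with x hx
    exact (h1 x hx).2 h
  · right
    filter_upwards [hmem] with x hx
    exact fun hxR => h ((h1 x hx).1 hxR)

/-- balls in the same cell have the same values near -/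
theorem BC_cell (Λ : Levels L N) {A : Set N} (hA : A.Finite) {R : Set N} (hR : IsDef L R)
    (hinv : ∀ g ∈ V.Fix A, g • R = R) {W W' : Set N} (hW : V.Ball W) (hWA : W ∉ V.acl A) (_hW' : V.Ball W')
    (hWA' : W' ∉ V.acl A) (hc : ∀ Q ∈ V.acl A, (W ⊂ Q ↔ W' ⊂ Q)) (h : ∀ᶠ x in V.nearF W, x ∈ R) :
    ∀ᶠ x in V.nearF W', x ∈ R := by
  obtain ⟨E, hEf, hEA, hE⟩ := BC Λ hA hR hinv
  have hmem := atom_mem_nearF hEf hEA hWA
  have hmem' := atom_mem_nearF hEf hEA hWA'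
  have hne := nearF_neBot hW
  obtain ⟨x₀, hx₀, hx₀R⟩ := Filter.nonempty_of_mem (Filter.inter_mem hmem h)
  have hsub : ∀ D ∈ E, (W ⊆ D ↔ W' ⊆ D) := by
    intro D hD
    have e : ∀ X : Set N, X ∉ V.acl A → (X ⊂ D ↔ X ⊆ D) := fun X hX =>
      ⟨fun h => h.1, fun h => h.ssubset_of_ne fun e => hX (by rw [e]; exact hEA hD)⟩
    rw [← e W hWA, ← e W' hWA']
    exact hc D (hEA hD)
  filter_upwards [hmem'] with x hx
  exact (hE x x₀ fun D hD => (hx D hD).trans ((hsub D hD).symm.trans (hx₀ D hD).symm)).2 hx₀R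

end VC

end Pool.Agent.VCM
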