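import Mathlib

/-! B. H. Neumann's lemma for orbits. -/

open scoped Pointwise

namespace Pool.Agent.VCM

theorem orbit_finite_of_finiteIndex {H X : Type*} [Group H] [MulAction H X] (x : X)
    (h : (MulAction.stabilizer H x).FiniteIndex) : (MulAction.orbit H x).Finite := by
  have e := MulAction.orbitEquivQuotientStabilizer H x
  have : Finite (H ⧸ MulAction.stabilizer H x) := Subgroup.finite_quotient_of_finiteIndex
  exact Set.finite_coe_iff.1 (Finite.of_equiv _ e.symm)

theorem finiteIndex_of_orbit_finite {H X : Type*} [Group H] [MulAction H X] (x : X)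
    (h : (MulAction.orbit H x).Finite) : (MulAction.stabilizer H x).FiniteIndex := by
  have e := MulAction.orbitEquivQuotientStabilizer H x
  have : Finite (MulAction.orbit H x) := h
  have : Finite (H ⧸ MulAction.stabilizer H x) := Finite.of_equiv _ e
  exact Subgroup.finiteIndex_of_finite_quotient

/-- finitely many elements with infinite orbits can be moved off finite sets simultaneously -/
theorem neumann {H X : Type*} [Group H] [MulAction H X] {I : Type*} (F : Finset I) (Z : I → X)
    (S : I → Set X) (hS : ∀ i ∈ F, (S i).Finite)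
    (h : ∀ i ∈ F, ¬ (MulAction.orbit H (Z i)).Finite) : ∃ g : H, ∀ i ∈ F, g • Z i ∉ S i := by
  classical
  by_contra hcon
  push Not at hcon
  have hS' : ∀ i, ∃ T : Finset X, i ∈ F → ∀ x, x ∈ T ↔ x ∈ S i := by
    intro i
    by_cases hi : i ∈ F
    · exact ⟨(hS i hi).toFinset, fun _ x => by simp⟩
    · exact ⟨∅, fun h => absurd h hi⟩
  choose T hT using hS'
  let gg : I × X → H := fun p => if hp : ∃ g : H, g • Z p.1 = p.2 then hp.choose else 1
  have hgg : ∀ p : I × X, (∃ g : H, g • Z p.1 = p.2) → gg p • Z p.1 = p.2 := by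
    intro p hp
    show (if hp : ∃ g : H, g • Z p.1 = p.2 then hp.choose else 1) • Z p.1 = p.2
    rw [dif_pos hp]
    exact hp.choose_spec
  let s : Finset (I × X) := F.biUnion (fun i => (T i).image fun x => (i, x))
  have hcov : ⋃ p ∈ s, gg p • (MulAction.stabilizer H (Z p.1) : Set H) = Set.univ := by
    rw [Set.eq_univ_iff_forall]
    intro g
    obtain ⟨i, hi, hgi⟩ := hcon g
    rw [Set.mem_iUnion₂]
    refine ⟨(i, g • Z i), ?_, ?_⟩
    · simp only [s, Finset.mem_biUnion, Finset.mem_image]
      exact ⟨i, hi, g • Z i, (hT i hi _).2 hgi, rfl⟩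
    · have h1 := hgg (i, g • Z i) ⟨g, rfl⟩
      rw [Set.mem_smul_set_iff_inv_smul_mem]
      simp only [SetLike.mem_coe, MulAction.mem_stabilizer_iff, smul_eq_mul]
      rw [mul_smul, inv_smul_eq_iff]
      exact h1.symm
  obtain ⟨p, hp, hfin⟩ := Subgroup.exists_finiteIndex_of_leftCoset_cover hcov
  have hpF : p.1 ∈ F := by
    simp only [s, Finset.mem_biUnion, Finset.mem_image] at hp
    obtain ⟨i, hi, x, -, rfl⟩ := hp
    exact hi
  exact h p.1 hpF (orbit_finite_of_finiteIndex _ hfin)

end Pool.Agent.VCM
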