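import Pool.Agent.VCM.Dfn
import Pool.Agent.VCM.Neumann

/-! Section 1: balls. -/

open FirstOrder FirstOrder.Language
open scoped Pointwise

namespace Pool.Agent.VCM

variable {L : FirstOrder.Language.{0, 0}} {N : Type} [L.Structure N]

/-- formulas with one distinguished variable and `ℕ` many parameter variables -/
abbrev Fm (L : FirstOrder.Language.{0, 0}) := L.Formula (Unit ⊕ ℕ)

/-- a VC-minimal structure: a laminar generating family -/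
structure VC (L : FirstOrder.Language.{0, 0}) (N : Type) [L.Structure N] where
  Ψ : Set (Fm L)
  tr : (⊤ : Fm L) ∈ Ψ
  lam : ∀ δ ∈ Ψ, ∀ δ' ∈ Ψ, ∀ w w' : ℕ → N,
    fib δ w ⊆ fib δ' w' ∨ fib δ' w' ⊆ fib δ w ∨ Disjoint (fib δ w) (fib δ' w')
  gen : ∀ (θ : Fm L) (w : ℕ → N), fib θ w ∈ BooleanSubalgebra.closure
    {S : Set N | ∃ δ ∈ Ψ, ∃ w' : ℕ → N, S = fib δ w'}

/-- `D` is a directed union of `Δ`-balls -/
def DU (Δ : Finset (Fm L)) (D : Set N) : Prop :=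
  D.Nonempty ∧ ∀ p ∈ D, ∀ q ∈ D, ∃ δ ∈ Δ, ∃ w : ℕ → N, p ∈ fib δ w ∧ q ∈ fib δ w ∧ fib δ w ⊆ D

/-- `D` is an intersection of `Δ`-balls -/
def DI (Δ : Finset (Fm L)) (D : Set N) : Prop :=
  D.Nonempty ∧ ∀ q ∉ D, ∃ δ ∈ Δ, ∃ w : ℕ → N, D ⊆ fib δ w ∧ q ∉ fib δ w

/-- `D` is definable with parameters -/
def IsDef (L : FirstOrder.Language.{0, 0}) {N : Type} [L.Structure N] (D : Set N) : Prop :=
  ∃ (θ : Fm L) (w : ℕ → N), D = fib θ w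

namespace VC

variable (V : VC L N)

/-- balls -/
def Ball (D : Set N) : Prop :=
  IsDef L D ∧ ∃ Δ : Finset (Fm L), ↑Δ ⊆ V.Ψ ∧ (DU Δ D ∨ DI Δ D)

variable {V}

theorem Ball.nonempty {D : Set N} (h : V.Ball D) : D.Nonempty := by
  obtain ⟨-, Δ, -, h | h⟩ := h
  exacts [h.1, h.1]

/-- comparability of two `Ψ`-instances with a common point -/
theorem cmp {δ δ' : Fm L} (h : δ ∈ V.Ψ) (h' : δ' ∈ V.Ψ) {w w' : ℕ → N} {p : N}
    (hp : p ∈ fib δ w) (hp' : p ∈ fib δ' w') : fib δ w ⊆ fib δ' w' ∨ fib δ' w' ⊆ fib δ w := by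
  rcases V.lam δ h δ' h' w w' with h | h | h
  · exact Or.inl h
  · exact Or.inr h
  · exact absurd hp' (Set.disjoint_left.1 h hp)

/-- 1.1: balls are laminar -/
theorem Ball.lam {D D' : Set N} (h : V.Ball D) (h' : V.Ball D') :
    D ⊆ D' ∨ D' ⊆ D ∨ Disjoint D D' := by
  by_contra hcon
  push Not at hcon
  obtain ⟨h1, h2, h3⟩ := hcon
  obtain ⟨q, hq, hq'⟩ := Set.not_subset.1 h1
  obtain ⟨r, hr, hr'⟩ := Set.not_subset.1 h2
  obtain ⟨p, hp, hp'⟩ := Set.not_disjoint_iff.1 h3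
  obtain ⟨-, Δ, hΔ, h⟩ := h
  obtain ⟨-, Δ', hΔ', h'⟩ := h'
  -- a `Ψ`-ball containing `p, q`, not `r`
  have H1 : ∃ δ ∈ V.Ψ, ∃ w : ℕ → N, p ∈ fib δ w ∧ q ∈ fib δ w ∧ r ∉ fib δ w := by
    rcases h with h | h
    · obtain ⟨δ, hδ, w, a, b, c⟩ := h.2 p hp q hq
      exact ⟨δ, hΔ hδ, w, a, b, fun hrw => hr' (c hrw)⟩
    · obtain ⟨δ, hδ, w, a, b⟩ := h.2 r hr'
      exact ⟨δ, hΔ hδ, w, a hp, a hq, b⟩
  have H2 : ∃ δ ∈ V.Ψ, ∃ w : ℕ → N, p ∈ fib δ w ∧ r ∈ fib δ w ∧ q ∉ fib δ w := by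
    rcases h' with h | h
    · obtain ⟨δ, hδ, w, a, b, c⟩ := h.2 p hp' r hr
      exact ⟨δ, hΔ' hδ, w, a, b, fun hrw => hq' (c hrw)⟩
    · obtain ⟨δ, hδ, w, a, b⟩ := h.2 q hq'
      exact ⟨δ, hΔ' hδ, w, a hp', a hr, b⟩
  obtain ⟨δ, hδ, w, a1, a2, a3⟩ := H1
  obtain ⟨δ', hδ', w', b1, b2, b3⟩ := H2
  rcases cmp hδ hδ' a1 b1 with c | c
  · exact b3 (c a2)
  · exact a3 (c b2)

/-- comparability of balls with a common point -/
theorem Ball.cmp {D D' : Set N} (h : V.Ball D) (h' : V.Ball D') {p : N} (hp : p ∈ D)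
    (hp' : p ∈ D') : D ⊆ D' ∨ D' ⊆ D := by
  rcases h.lam h' with h | h | h
  · exact Or.inl h
  · exact Or.inr h
  · exact absurd hp' (Set.disjoint_left.1 h hp)

/-- a nonempty `Ψ`-instance is a ball -/
theorem ball_of_psi {δ : Fm L} (h : δ ∈ V.Ψ) {w : ℕ → N} (hne : (fib δ w).Nonempty) :
    V.Ball (fib δ w) :=
  ⟨⟨δ, w, rfl⟩, {δ}, by simpa using h, Or.inl ⟨hne, fun p hp q hq =>
    ⟨δ, Finset.mem_singleton_self _, w, hp, hq, subset_rfl⟩⟩⟩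

theorem fib_top (w : ℕ → N) : fib (⊤ : Fm L) w = Set.univ := by
  ext x; simp [mem_fib]

/-- the whole line is a ball -/
theorem ball_univ [Nonempty N] : V.Ball (Set.univ : Set N) := by
  have w : ℕ → N := fun _ => Classical.arbitrary N
  rw [← fib_top (L := L) w]
  exact ball_of_psi V.tr (by rw [fib_top]; exact Set.univ_nonempty)

end VC

/-! ### monotonicity, invariance and definability of `DU`, `DI` -/

theorem DU.mono {Δ Δ' : Finset (Fm L)} (h : Δ ⊆ Δ') {D : Set N} (hD : DU Δ D) : DU Δ' D :=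
  ⟨hD.1, fun p hp q hq => by
    obtain ⟨δ, hδ, w, a⟩ := hD.2 p hp q hq
    exact ⟨δ, h hδ, w, a⟩⟩

theorem DI.mono {Δ Δ' : Finset (Fm L)} (h : Δ ⊆ Δ') {D : Set N} (hD : DI Δ D) : DI Δ' D :=
  ⟨hD.1, fun q hq => by
    obtain ⟨δ, hδ, w, a⟩ := hD.2 q hq
    exact ⟨δ, h hδ, w, a⟩⟩

theorem IsDef.smul {D : Set N} (h : IsDef L D) (g : AutG L N) : IsDef L (g • D) := by
  obtain ⟨θ, w, rfl⟩ := h
  exact ⟨θ, fun i => g • w i, (fib_smul g θ w).symm⟩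

theorem DU.smul {Δ : Finset (Fm L)} {D : Set N} (h : DU Δ D) (g : AutG L N) : DU Δ (g • D) := by
  refine ⟨h.1.smul_set, ?_⟩
  rintro _ ⟨p, hp, rfl⟩ _ ⟨q, hq, rfl⟩
  obtain ⟨δ, hδ, w, a, b, c⟩ := h.2 p hp q hq
  refine ⟨δ, hδ, fun i => g • w i, ?_, ?_, ?_⟩
  · rw [fib_smul]; exact Set.smul_mem_smul_set a
  · rw [fib_smul]; exact Set.smul_mem_smul_set b
  · rw [fib_smul]; exact Set.smul_set_mono c

theorem DI.smul {Δ : Finset (Fm L)} {D : Set N} (h : DI Δ D) (g : AutG L N) : DI Δ (g • D) := by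
  refine ⟨h.1.smul_set, fun q hq => ?_⟩
  have hq' : g⁻¹ • q ∉ D := fun hcon => hq (Set.mem_smul_set_iff_inv_smul_mem.2 hcon)
  obtain ⟨δ, hδ, w, a, b⟩ := h.2 _ hq'
  refine ⟨δ, hδ, fun i => g • w i, ?_, ?_⟩
  · rw [fib_smul]; exact Set.smul_set_mono a
  · rw [fib_smul]; exact fun hcon => b (Set.mem_smul_set_iff_inv_smul_mem.1 hcon)

theorem VC.Ball.smul {V : VC L N} {D : Set N} (h : V.Ball D) (g : AutG L N) : V.Ball (g • D) := by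
  obtain ⟨h1, Δ, h2, h3⟩ := h
  exact ⟨h1.smul g, Δ, h2, h3.imp (fun h => h.smul g) (fun h => h.smul g)⟩

theorem VC.Ball.smul_iff {V : VC L N} {D : Set N} (g : AutG L N) : V.Ball (g • D) ↔ V.Ball D :=
  ⟨fun h => by simpa using h.smul g⁻¹, fun h => h.smul g⟩

section

variable [Nonempty N]

theorem dfn_DU (Δ : Finset (Fm L)) (θ : Fm L) : Dfn1 L (fun w : ℕ → N => DU Δ (fib θ w)) := by
  refine Dfn.and (dfn_nonempty θ) ?_
  refine Dfn.all1 (R := fun (u : ℕ → N) p => p ∈ fib θ u → ∀ q ∈ fib θ u,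
    ∃ δ ∈ Δ, ∃ w : ℕ → N, p ∈ fib δ w ∧ q ∈ fib δ w ∧ fib δ w ⊆ fib θ u) ?_
  refine Dfn.imp (dfn_mem θ (Sum.inr ()) (fun j => Sum.inl j) _ _ (fun v => rfl) (fun v j => rfl)) ?_
  refine Dfn.all1 (R := fun (u : ℕ ⊕ Unit → N) q => q ∈ fib θ (u ∘ Sum.inl) →
    ∃ δ ∈ Δ, ∃ w : ℕ → N, u (Sum.inr ()) ∈ fib δ w ∧ q ∈ fib δ w ∧
      fib δ w ⊆ fib θ (u ∘ Sum.inl)) ?_
  refine Dfn.imp (dfn_mem θ (Sum.inr ()) (fun j => Sum.inl (Sum.inl j)) _ _ (fun v => rfl)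
    (fun v j => rfl)) ?_
  refine Dfn.finsetEx Δ fun δ _ => ?_
  refine Dfn.exT (κ := ℕ) (R := fun (u : (ℕ ⊕ Unit) ⊕ Unit → N) w =>
    u (Sum.inl (Sum.inr ())) ∈ fib δ w ∧ u (Sum.inr ()) ∈ fib δ w ∧
      fib δ w ⊆ fib θ (fun j => u (Sum.inl (Sum.inl j)))) ?_
  refine Dfn.and ?_ (Dfn.and ?_ ?_)
  · exact dfn_mem δ (Sum.inl (Sum.inl (Sum.inr ()))) (fun j => Sum.inr j) _ _ (fun v => rfl)
      (fun v j => rfl)
  · exact dfn_mem δ (Sum.inl (Sum.inr ())) (fun j => Sum.inr j) _ _ (fun v => rfl)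
      (fun v j => rfl)
  · exact Dfn.comp (dfn_subset δ θ) (Sum.elim (fun j => Sum.inr j)
      (fun j => Sum.inl (Sum.inl (Sum.inl j))))
      (fun v => Sum.elim (fun j => v (Sum.inr j)) (fun j => v (Sum.inl (Sum.inl (Sum.inl j)))))
      (by intro v b; rcases b with b | b <;> rfl)

theorem dfn_DI (Δ : Finset (Fm L)) (θ : Fm L) : Dfn1 L (fun w : ℕ → N => DI Δ (fib θ w)) := by
  refine Dfn.and (dfn_nonempty θ) ?_
  refine Dfn.all1 (R := fun (u : ℕ → N) q => ¬ q ∈ fib θ u →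
    ∃ δ ∈ Δ, ∃ w : ℕ → N, fib θ u ⊆ fib δ w ∧ ¬ q ∈ fib δ w) ?_
  refine Dfn.imp (Dfn.not (dfn_mem θ (Sum.inr ()) (fun j => Sum.inl j) _ _ (fun v => rfl)
    (fun v j => rfl))) ?_
  refine Dfn.finsetEx Δ fun δ _ => ?_
  refine Dfn.exT (κ := ℕ) (R := fun (u : ℕ ⊕ Unit → N) w =>
    fib θ (fun j => u (Sum.inl j)) ⊆ fib δ w ∧ ¬ u (Sum.inr ()) ∈ fib δ w) ?_
  refine Dfn.and ?_ (Dfn.not ?_)
  · exact Dfn.comp (dfn_subset θ δ) (Sum.elim (fun j => Sum.inl (Sum.inl j))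
      (fun j => Sum.inr j))
      (fun v => Sum.elim (fun j => v (Sum.inl (Sum.inl j))) (fun j => v (Sum.inr j)))
      (by intro v b; rcases b with b | b <;> rfl)
  · exact dfn_mem δ (Sum.inl (Sum.inr ())) (fun j => Sum.inr j) _ _ (fun v => rfl)
      (fun v j => rfl)

end

/-! ### 1.2: chains -/

section chains

variable {V : VC L N} {Δ : Finset (Fm L)} {C : Set (Set N)}

theorem DU.ball (hΔ : ↑Δ ⊆ V.Ψ) {D : Set N} (h : DU Δ D) (hd : IsDef L D) : V.Ball D :=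
  ⟨hd, Δ, hΔ, Or.inl h⟩

theorem DI.ball (hΔ : ↑Δ ⊆ V.Ψ) {D : Set N} (h : DI Δ D) (hd : IsDef L D) : V.Ball D :=
  ⟨hd, Δ, hΔ, Or.inr h⟩

theorem sUnion_DU (hne : C.Nonempty) (hch : IsChain (· ⊆ ·) C) (h : ∀ D ∈ C, DU Δ D) :
    DU Δ (⋃₀ C) := by
  obtain ⟨D, hD⟩ := hne
  refine ⟨(h D hD).1.mono (Set.subset_sUnion_of_mem hD), ?_⟩
  rintro p ⟨D1, hD1, hp⟩ q ⟨D2, hD2, hq⟩
  have key : ∀ E ∈ C, p ∈ E → q ∈ E → ∃ δ ∈ Δ, ∃ w : ℕ → N, p ∈ fib δ w ∧ q ∈ fib δ w ∧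
      fib δ w ⊆ ⋃₀ C := by
    intro E hE hp hq
    obtain ⟨δ, hδ, w, a, b, c⟩ := (h E hE).2 p hp q hq
    exact ⟨δ, hδ, w, a, b, c.trans (Set.subset_sUnion_of_mem hE)⟩
  rcases hch.total hD1 hD2 with h12 | h12
  · exact key D2 hD2 (h12 hp) hq
  · exact key D1 hD1 hp (h12 hq)

theorem sUnion_DI (hΔ : ↑Δ ⊆ V.Ψ) (hne : C.Nonempty) (hch : IsChain (· ⊆ ·) C)
    (h : ∀ D ∈ C, DI Δ D) (hno : ∀ D ∈ C, ∃ D' ∈ C, D ⊂ D') : DU Δ (⋃₀ C) := by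
  obtain ⟨D, hD⟩ := hne
  refine ⟨(h D hD).1.mono (Set.subset_sUnion_of_mem hD), ?_⟩
  rintro p ⟨D1, hD1, hp⟩ q ⟨D2, hD2, hq⟩
  have key : ∀ E ∈ C, p ∈ E → q ∈ E → ∃ δ ∈ Δ, ∃ w : ℕ → N, p ∈ fib δ w ∧ q ∈ fib δ w ∧
      fib δ w ⊆ ⋃₀ C := by
    intro E hE hp hq
    obtain ⟨E', hE', hEE'⟩ := hno E hE
    obtain ⟨r, hr, hrE⟩ := Set.exists_of_ssubset hEE'
    obtain ⟨δ, hδ, w, a, b⟩ := (h E hE).2 r hrE
    refine ⟨δ, hδ, w, a hp, a hq, ?_⟩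
    refine Set.Subset.trans ?_ (Set.subset_sUnion_of_mem hE')
    intro s hs
    by_contra hsE'
    obtain ⟨δ', hδ', w', a', b'⟩ := (h E' hE').2 s hsE'
    rcases VC.cmp (hΔ hδ) (hΔ hδ') (a hp) (a' (hEE'.1 hp)) with c | c
    · exact b' (c hs)
    · exact b (c (a' hr))
  rcases hch.total hD1 hD2 with h12 | h12
  · exact key D2 hD2 (h12 hp) hq
  · exact key D1 hD1 hp (h12 hq)

theorem sInter_DI (h : ∀ D ∈ C, DI Δ D) (hne : (⋂₀ C).Nonempty) : DI Δ (⋂₀ C) := by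
  refine ⟨hne, fun q hq => ?_⟩
  rw [Set.mem_sInter] at hq
  push Not at hq
  obtain ⟨D, hD, hqD⟩ := hq
  obtain ⟨δ, hδ, w, a, b⟩ := (h D hD).2 q hqD
  exact ⟨δ, hδ, w, (Set.sInter_subset_of_mem hD).trans a, b⟩

theorem sInter_DU (hΔ : ↑Δ ⊆ V.Ψ) (hb : ∀ D ∈ C, V.Ball D)
    (h : ∀ D ∈ C, DU Δ D) (hno : ∀ D ∈ C, ∃ D' ∈ C, D' ⊂ D) (hne : (⋂₀ C).Nonempty) :
    DI Δ (⋂₀ C) := by
  refine ⟨hne, fun q hq => ?_⟩
  rw [Set.mem_sInter] at hq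
  push Not at hq
  obtain ⟨D, hD, hqD⟩ := hq
  obtain ⟨D', hD', hDD'⟩ := hno D hD
  obtain ⟨p, hp, hpD'⟩ := Set.exists_of_ssubset hDD'
  obtain ⟨i, hi⟩ := hne
  obtain ⟨δ, hδ, w, a, b, c⟩ := (h D hD).2 p hp i (hi D hD)
  refine ⟨δ, hδ, w, ?_, fun hcon => hqD (c hcon)⟩
  have hbw : V.Ball (fib δ w) := VC.ball_of_psi (hΔ hδ) ⟨p, a⟩
  rcases (hb D' hD').cmp hbw (hi D' hD') b with h1 | h1
  · exact (Set.sInter_subset_of_mem hD').trans h1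
  · exact absurd (h1 a) hpD'

/-- a definable union of a chain of uniform balls is a ball -/
theorem ball_sUnion (hΔ : ↑Δ ⊆ V.Ψ) (hne : C.Nonempty) (hch : IsChain (· ⊆ ·) C)
    (hb : ∀ D ∈ C, V.Ball D) (h : (∀ D ∈ C, DU Δ D) ∨ (∀ D ∈ C, DI Δ D))
    (hdef : IsDef L (⋃₀ C)) : V.Ball (⋃₀ C) := by
  rcases h with h | h
  · exact (sUnion_DU hne hch h).ball hΔ hdef
  · by_cases hno : ∀ D ∈ C, ∃ D' ∈ C, D ⊂ D'
    · exact (sUnion_DI hΔ hne hch h hno).ball hΔ hdef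
    · push Not at hno
      obtain ⟨D, hD, hmax⟩ := hno
      have : ⋃₀ C = D := by
        apply Set.Subset.antisymm _ (Set.subset_sUnion_of_mem hD)
        apply Set.sUnion_subset
        intro D' hD'
        rcases hch.total hD hD' with h1 | h1
        · by_contra h2
          exact hmax D' hD' ⟨h1, h2⟩
        · exact h1
      rw [this]; exact hb D hD

/-- a definable nonempty intersection of a chain of uniform balls is a ball -/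
theorem ball_sInter (hΔ : ↑Δ ⊆ V.Ψ) (hch : IsChain (· ⊆ ·) C)
    (hb : ∀ D ∈ C, V.Ball D) (h : (∀ D ∈ C, DU Δ D) ∨ (∀ D ∈ C, DI Δ D))
    (hne : (⋂₀ C).Nonempty) (hdef : IsDef L (⋂₀ C)) : V.Ball (⋂₀ C) := by
  rcases h with h | h
  · by_cases hno : ∀ D ∈ C, ∃ D' ∈ C, D' ⊂ D
    · exact (sInter_DU hΔ hb h hno hne).ball hΔ hdef
    · push Not at hno
      obtain ⟨D, hD, hmax⟩ := hno
      have : ⋂₀ C = D := by
        apply Set.Subset.antisymm (Set.sInter_subset_of_mem hD)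
        apply Set.subset_sInter
        intro D' hD'
        rcases hch.total hD hD' with h1 | h1
        · exact h1
        · by_contra h2
          exact hmax D' hD' ⟨h1, h2⟩
      rw [this]; exact hb D hD
  · exact (sInter_DI h hne).ball hΔ hdef

end chains

end Pool.Agent.VCM
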