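import Pool.Agent.VCM.Ctx

namespace Pool.VCM

open Set Pointwise

variable {N G : Type} [Group G] [MulAction G N]

theorem smul_ssub {g : G} {A B : Set N} : g • A ⊂ g • B ↔ A ⊂ B := by
  simp [ssubset_iff_subset_not_subset]

theorem smul_ssub_of {g : G} {A B : Set N} (h : A ⊂ B) : g • A ⊂ g • B := smul_ssub.2 h

theorem ssub_smul_inv {g : G} {A B : Set N} (h : A ⊂ g • B) : g⁻¹ • A ⊂ B := by
  have := smul_ssub_of (g := g⁻¹) h
  simpa using this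

namespace Ctx0

variable (C : Ctx0 N G)

theorem acl_smul_iff (g : G) {c W : Set N} : g • W ∈ C.acl (g • c) ↔ W ∈ C.acl c := by
  refine ⟨fun h => ?_, C.acl_smul g⟩
  have := C.acl_smul g⁻¹ h
  simpa using this

theorem smul_eq_of_fix {c : Set N} {g : G} (h : ∀ x ∈ c, g • x = x) : g • c = c := by
  ext x
  constructor
  · rintro ⟨y, hy, rfl⟩
    simpa [h y hy] using hy
  · intro hx
    exact ⟨x, hx, h x hx⟩

theorem mem_acl_smul_iff (g : G) {c W : Set N} : W ∈ C.acl (g • c) ↔ g⁻¹ • W ∈ C.acl c := by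
  have := C.acl_smul_iff g (c := c) (W := g⁻¹ • W)
  rwa [smul_inv_smul] at this

theorem fix_one (c : Set N) : (1 : G) ∈ C.Fix c := ⟨fun x _ => one_smul G x, fun W _ => one_smul G W⟩

theorem fix_mul {c : Set N} {g h : G} (hg : g ∈ C.Fix c) (hh : h ∈ C.Fix c) : g * h ∈ C.Fix c := by
  refine ⟨fun x hx => ?_, fun W hW => ?_⟩
  · rw [mul_smul, hh.1 x hx, hg.1 x hx]
  · rw [mul_smul, hh.2 W hW, hg.2 W hW]

theorem fix_inv {c : Set N} {g : G} (hg : g ∈ C.Fix c) : g⁻¹ ∈ C.Fix c := by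
  refine ⟨fun x hx => ?_, fun W hW => ?_⟩
  · rw [inv_smul_eq_iff, hg.1 x hx]
  · rw [inv_smul_eq_iff, hg.2 W hW]

theorem fix_mono {c c' : Set N} (h : c ⊆ c') {g : G} (hg : g ∈ C.Fix c') : g ∈ C.Fix c :=
  ⟨fun x hx => hg.1 x (h hx), fun W hW => hg.2 W (C.acl_mono h hW)⟩

theorem fix_smul_set {c : Set N} {g : G} (hg : g ∈ C.Fix c) : g • c = c := smul_eq_of_fix hg.1

theorem QQ_smul (g : G) (c W : Set N) : C.QQ (g • c) (g • W) = {Q | g⁻¹ • Q ∈ C.QQ c W} := by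
  ext Q
  simp only [QQ, mem_ofPred_eq]
  rw [C.mem_acl_smul_iff]
  constructor
  · rintro ⟨h1, h2⟩
    refine ⟨h1, ?_⟩
    have := smul_ssub_of (g := g⁻¹) h2
    simpa using this
  · rintro ⟨h1, h2⟩
    refine ⟨h1, ?_⟩
    have := smul_ssub_of (g := g) h2
    simpa using this

theorem mem_QQ_smul {g : G} {c W Q : Set N} (h : Q ∈ C.QQ c W) : g • Q ∈ C.QQ (g • c) (g • W) := by
  rw [C.QQ_smul]; simpa using h

theorem mem_cell {c W W' : Set N} : W' ∈ C.cell c W ↔ W' ∈ C.Ball ∧ W' ∉ C.acl c ∧ C.QQ c W' = C.QQ c W :=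
  Iff.rfl

theorem cell_self {c W : Set N} (hW : W ∈ C.Ball) (h : W ∉ C.acl c) : W ∈ C.cell c W := ⟨hW, h, rfl⟩

theorem cell_eq {c W W' : Set N} (h : W' ∈ C.cell c W) : C.cell c W' = C.cell c W := by
  ext X; simp only [mem_cell, h.2.2]

theorem cell_symm {c W W' : Set N} (hW : W ∈ C.Ball) (h0 : W ∉ C.acl c) (h : W' ∈ C.cell c W) :
    W ∈ C.cell c W' := ⟨hW, h0, h.2.2.symm⟩

theorem cell_smul {g : G} {c W W' : Set N} (h : W' ∈ C.cell c W) : g • W' ∈ C.cell (g • c) (g • W) := by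
  refine ⟨C.ball_smul g h.1, ?_, ?_⟩
  · rw [C.acl_smul_iff]; exact h.2.1
  · rw [C.QQ_smul, C.QQ_smul, h.2.2]

theorem QQ_fix {c W : Set N} {g : G} (hg : g ∈ C.Fix c) : C.QQ c (g • W) = C.QQ c W := by
  ext Q
  constructor
  · rintro ⟨h1, h2⟩
    refine ⟨h1, ?_⟩
    rw [← hg.2 Q h1] at h2
    exact smul_ssub.1 h2
  · rintro ⟨h1, h2⟩
    refine ⟨h1, ?_⟩
    rw [← hg.2 Q h1]
    exact smul_ssub.2 h2

theorem acl_fix {c W : Set N} {g : G} (hg : g ∈ C.Fix c) : g • W ∈ C.acl c ↔ W ∈ C.acl c := by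
  constructor
  · intro h
    have := (C.fix_inv hg).2 _ h
    rw [inv_smul_smul] at this
    rwa [this]
  · intro h
    rwa [hg.2 W h]

theorem cell_fix {c W W' : Set N} {g : G} (hg : g ∈ C.Fix c) (h : W' ∈ C.cell c W) : g • W' ∈ C.cell c W :=
  ⟨C.ball_smul g h.1, fun h' => h.2.1 ((C.acl_fix hg).1 h'), by rw [C.QQ_fix hg, h.2.2]⟩

/-- balls sharing a ball are comparable -/
theorem comp {X Y Z : Set N} (hX : X ∈ C.Ball) (hY : Y ∈ C.Ball) (hZ : Z ∈ C.Ball) (h1 : Z ⊆ X) (h2 : Z ⊆ Y) :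
    X ⊆ Y ∨ Y ⊆ X := by
  rcases C.lam hX hY with h | h | h
  · exact Or.inl h
  · exact Or.inr h
  · obtain ⟨z, hz⟩ := C.ball_ne hZ
    exact absurd (h2 hz) ((Set.disjoint_left.1 h) (h1 hz))

theorem ssub_of_not {X Y Z : Set N} (hX : X ∈ C.Ball) (hY : Y ∈ C.Ball) (hZ : Z ∈ C.Ball) (h1 : Z ⊆ X) (h2 : Z ⊆ Y)
    (h : ¬ Y ⊆ X) : X ⊂ Y := by
  rcases C.comp hX hY hZ h1 h2 with h' | h'
  · exact ⟨h', h⟩
  · exact absurd h' h

theorem not_disj {X Y Z : Set N} (hZ : Z ∈ C.Ball) (h1 : Z ⊆ X) (h2 : Z ⊆ Y) : ¬ Disjoint X Y := by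
  obtain ⟨z, hz⟩ := C.ball_ne hZ
  intro h
  exact (Set.disjoint_left.1 h) (h1 hz) (h2 hz)

/-- a ball between an element of the cell and all `Q`'s is in the cell -/
theorem cell_between {c W₀ W D : Set N} (hW : W ∈ C.cell c W₀) (hD : D ∈ C.Ball) (hWD : W ⊆ D)
    (hQ : ∀ Q ∈ C.QQ c W₀, D ⊂ Q) : D ∈ C.cell c W₀ := by
  have hDa : D ∉ C.acl c := by
    intro hDa
    rcases hWD.eq_or_ssubset with h | h
    · exact hW.2.1 (h ▸ hDa)
    · have : D ∈ C.QQ c W₀ := by rw [← hW.2.2]; exact ⟨hDa, h⟩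
      exact (hQ D this).2 Subset.rfl
  refine ⟨hD, hDa, ?_⟩
  ext Q
  constructor
  · rintro ⟨h1, h2⟩
    rw [← hW.2.2]
    exact ⟨h1, hWD.trans_ssubset h2⟩
  · intro h
    exact ⟨h.1, hQ Q h⟩

theorem acl_LB {c : Set N} (hc : c.Finite) {n : ℕ} (h : c ⊆ C.lv n) : C.acl c ⊆ C.LB n :=
  fun _ hW => ⟨c, hc, h, hW⟩

theorem LB_mono {n m : ℕ} (h : n ≤ m) : C.LB n ⊆ C.LB m := by
  rintro W ⟨c, hc, h1, h2⟩
  exact ⟨c, hc, h1.trans (C.lv_mono h), h2⟩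

theorem exists_lv {c : Set N} (hc : c.Finite) : ∃ n, c ⊆ C.lv n := by
  induction c, hc using Set.Finite.induction_on with
  | empty => exact ⟨0, empty_subset _⟩
  | insert _ _ ih =>
    rename_i a s _ _
    obtain ⟨n, hn⟩ := ih
    obtain ⟨m, hm⟩ := C.lv_cov a
    refine ⟨max n m, ?_⟩
    rintro x (rfl | hx)
    · exact C.lv_mono (le_max_right n m) hm
    · exact C.lv_mono (le_max_left n m) (hn hx)

theorem LB_ball {n : ℕ} {W : Set N} (h : W ∈ C.LB n) : W ∈ C.Ball := by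
  obtain ⟨c, _, _, h3⟩ := h
  exact C.acl_ball h3

theorem ball_LB {W : Set N} (h : W ∈ C.Ball) : ∃ n, W ∈ C.LB n := by
  obtain ⟨d, hd, h1⟩ := C.ball_acl h
  obtain ⟨n, hn⟩ := C.exists_lv hd
  exact ⟨n, d, hd, hn, h1⟩

theorem LB_cl {n : ℕ} {W W' : Set N} (h : C.cl W W') (hW : W ∈ C.LB n) : W' ∈ C.LB n := by
  obtain ⟨c, hc, h1, h2⟩ := hW
  exact ⟨c, hc, h1, (C.cl_acl h).1 h2⟩

theorem LB_fix {n : ℕ} {g : G} (hg : ∀ x ∈ C.lv n, g • x = x) {W : Set N} (hW : W ∈ C.LB n) : g • W = W := by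
  obtain ⟨c, hc, h1, h2⟩ := hW
  exact C.lb_fix hg hc h1 h2

/-- finite sets of balls have finite codes -/
theorem codes {S : Set (Set N)} (hS : S.Finite) (h : S ⊆ C.Ball) : ∃ d : Set N, d.Finite ∧ S ⊆ C.acl d := by
  induction S, hS using Set.Finite.induction_on with
  | empty => exact ⟨∅, Set.finite_empty, empty_subset _⟩
  | insert _ _ ih =>
    rename_i a s _ _
    obtain ⟨d, hd, h1⟩ := ih (fun x hx => h (mem_insert_of_mem _ hx))
    obtain ⟨e, he, h2⟩ := C.ball_acl (h (mem_insert a s))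
    refine ⟨d ∪ e, hd.union he, ?_⟩
    rintro x (rfl | hx)
    · exact C.acl_mono subset_union_right h2
    · exact C.acl_mono subset_union_left (h1 hx)

end Ctx0

end Pool.VCM
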