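import Pool.Agent.VCM.Acl

/-! Section 1.3 (b), (c): infinite orbits under `Fix`, and the compactness principle (CP1). -/

open FirstOrder FirstOrder.Language
open scoped Pointwise

namespace Pool.Agent.VCM

variable {L : FirstOrder.Language.{0, 0}} {N : Type} [L.Structure N]

namespace Levels

/-- limits stay in `Fix A` -/
theorem IsLim.mem_Fix {Λ : Levels L N} {V : VC L N} {J : Type} {U : Ultrafilter J}
    {f : J → AutG L N} {m : ℕ} {σ : AutG L N} (h : Λ.IsLim U f m σ) {A : Set N}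
    (hA : A ⊆ Λ.S m) (h1 : ∀ a ∈ A, ∀ᶠ j in (U : Filter J), f j • a = a)
    (h2 : ∀ W ∈ V.acl A, ∀ᶠ j in (U : Filter J), f j • W = W) : σ ∈ V.Fix A := by
  refine ⟨fun a ha => ?_, fun W hW => ?_⟩
  · exact (h.smul_point_iff (hA ha) (hA ha)).2 (h1 a ha)
  · exact (h.smul_eq_iff (Λ.acl_coded hA hW) (Λ.acl_coded hA hW)).2 (h2 W hW)

theorem IsLim.mem_Fix' {Λ : Levels L N} {V : VC L N} {J : Type} {U : Ultrafilter J}
    {f : J → AutG L N} {m : ℕ} {σ : AutG L N} (h : Λ.IsLim U f m σ) {A : Set N}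
    (hA : A ⊆ Λ.S m) (h1 : ∀ j, f j ∈ V.Fix A) : σ ∈ V.Fix A :=
  h.mem_Fix hA (fun a ha => Filter.Eventually.of_forall fun j => (h1 j).1 a ha)
    (fun W hW => Filter.Eventually.of_forall fun j => (h1 j).2 W hW)

end Levels

namespace VC

variable {V : VC L N}

/-- stabilisers of finitely many algebraic balls are of finite index -/
theorem exists_move_off {A : Set N} (r : Finset (Set N)) (hr : ∀ W' ∈ r, W' ∈ V.acl A)
    {W : Set N} (hb : V.Ball W) (hW : W ∉ V.acl A) (O : Set (Set N)) (hO : O.Finite) :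
    ∃ g : AutG L N, (∀ a ∈ A, g • a = a) ∧ (∀ W' ∈ r, g • W' = W') ∧ g • W ∉ O := by
  classical
  by_contra hcon
  push Not at hcon
  apply hW
  refine ⟨hb, ?_⟩
  -- the possible images of `r`
  let Z : Set (r → Set N) := Set.pi Set.univ fun W' => MulAction.orbit (GA L A) (W' : Set N)
  have hZ : Z.Finite := Set.Finite.pi fun W' => (hr W' W'.2).2
  let gz : (r → Set N) → AutG L N := fun z =>
    if h : ∃ g : AutG L N, g ∈ GA L A ∧ ∀ W' : r, g • (W' : Set N) = z W' then h.choose else 1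
  have hgz : ∀ z, (∃ g : AutG L N, g ∈ GA L A ∧ ∀ W' : r, g • (W' : Set N) = z W') →
      gz z ∈ GA L A ∧ ∀ W' : r, gz z • (W' : Set N) = z W' := by
    intro z h
    have : gz z = h.choose := dif_pos h
    rw [this]
    exact h.choose_spec
  have hfin : (⋃ z ∈ Z, (fun X : Set N => gz z • X) '' O).Finite :=
    hZ.biUnion fun z _ => hO.image _
  apply hfin.subset
  rintro _ ⟨g, rfl⟩
  let z : r → Set N := fun W' => (g : AutG L N) • (W' : Set N)
  have hz : z ∈ Z := by
    intro W' _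
    exact ⟨g, rfl⟩
  obtain ⟨h1, h2⟩ := hgz z ⟨g, g.2, fun W' => rfl⟩
  have h3 : ((gz z)⁻¹ * (g : AutG L N)) • W ∈ O := by
    apply hcon
    · intro a ha
      rw [mul_smul, mem_GA.1 g.2 a ha, inv_smul_eq_iff]
      exact (mem_GA.1 h1 a ha).symm
    · intro W' hW'
      rw [mul_smul, inv_smul_eq_iff]
      exact (h2 ⟨W', hW'⟩).symm
  simp only [Set.mem_iUnion]
  refine ⟨z, hz, _, h3, ?_⟩
  show gz z • ((gz z)⁻¹ * (g : AutG L N)) • W = (g : AutG L N) • W
  rw [smul_smul]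
  congr 1
  group

end VC

namespace Levels

variable (Λ : Levels L N) {V : VC L N}

/-- 1.3 (b): a non-algebraic ball can be moved off any finite set by `Fix A` -/
theorem exists_Fix_move {A : Set N} {n : ℕ} (hA : A ⊆ Λ.S n) {W : Set N} (hb : V.Ball W)
    (hW : W ∉ V.acl A) {O : Set (Set N)} (hO : O.Finite) :
    ∃ g ∈ V.Fix A, g • W ∉ O := by
  classical
  -- we may assume that `O` consists of definable sets
  obtain ⟨m₁, hm₁⟩ := Λ.exists_coded hb.1
  obtain ⟨m₂, hm₂⟩ := Λ.exists_coded_finite (S := O ∩ {X | IsDef L X})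
    (hO.subset Set.inter_subset_left) (fun W hW => hW.2)
  obtain ⟨m, h1, h2, h3⟩ : ∃ m, n ≤ m ∧ m₁ ≤ m ∧ m₂ ≤ m :=
    ⟨max n (max m₁ m₂), le_max_left _ _, (le_max_left _ _).trans (le_max_right _ _),
      (le_max_right _ _).trans (le_max_right _ _)⟩
  have hr : ∀ r : Finset (V.acl A), ∃ g : AutG L N, (∀ a ∈ A, g • a = a) ∧
      (∀ W' ∈ r, g • (W' : Set N) = W') ∧ g • W ∉ O := by
    intro r
    obtain ⟨g, h1, h2, h3⟩ := V.exists_move_off (A := A) (r.image Subtype.val)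
      (by
        intro W' hW'
        obtain ⟨x, -, rfl⟩ := Finset.mem_image.1 hW'
        exact x.2) hb hW O hO
    exact ⟨g, h1, fun W' hW' => h2 _ (Finset.mem_image_of_mem _ hW'), h3⟩
  choose f hf1 hf2 hf3 using hr
  let U : Ultrafilter (Finset (V.acl A)) := Ultrafilter.of Filter.atTop
  obtain ⟨σ, hσ⟩ := Λ.exists_lim U f m
  refine ⟨σ, hσ.mem_Fix (hA.trans (Λ.mono h1)) (fun a ha => Filter.Eventually.of_forall fun j =>
    hf1 j a ha) (fun W' hW' => ?_), fun hcon => ?_⟩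
  · have h4 : ∀ᶠ r : Finset (V.acl A) in Filter.atTop, (⟨W', hW'⟩ : V.acl A) ∈ r := by
      filter_upwards [Filter.eventually_ge_atTop ({⟨W', hW'⟩} : Finset (V.acl A))] with i hi
      exact hi (Finset.mem_singleton_self _)
    have h5 := (Ultrafilter.of_le (Filter.atTop : Filter (Finset (V.acl A)))) h4
    filter_upwards [h5] with r hr
    exact hf2 r ⟨W', hW'⟩ hr
  · have hdef : IsDef L (σ • W) := hb.1.smul σ
    have hc : Λ.Coded m (σ • W) := (hm₂ _ ⟨hcon, hdef⟩).mono h3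
    have := (hσ.smul_eq_iff (hm₁.mono h2) hc).1 rfl
    obtain ⟨j, hj⟩ := this.exists
    exact hf3 j (by rw [hj]; exact hcon)

/-- 1.3 (b): the orbit of a non-algebraic ball under `Fix A` is infinite -/
theorem orbit_Fix_infinite {A : Set N} {n : ℕ} (hA : A ⊆ Λ.S n) {W : Set N} (hb : V.Ball W)
    (hW : W ∉ V.acl A) : ¬ (MulAction.orbit (V.Fix A) W).Finite := by
  intro hfin
  obtain ⟨g, hg, h⟩ := Λ.exists_Fix_move hA hb hW hfin
  exact h ⟨⟨g, hg⟩, rfl⟩

/-- a ball with finite orbit under `Fix A` is algebraic -/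
theorem mem_acl_of_orbit_Fix {A : Set N} {n : ℕ} (hA : A ⊆ Λ.S n) {W : Set N} (hb : V.Ball W)
    (h : (MulAction.orbit (V.Fix A) W).Finite) : W ∈ V.acl A := by
  by_contra hcon
  exact Λ.orbit_Fix_infinite hA hb hcon h

/-- a ball fixed by `Fix A` is algebraic -/
theorem mem_acl_of_fixed {A : Set N} {n : ℕ} (hA : A ⊆ Λ.S n) {W : Set N} (hb : V.Ball W)
    (h : ∀ g ∈ V.Fix A, g • W = W) : W ∈ V.acl A := by
  apply Λ.mem_acl_of_orbit_Fix hA hb
  apply (Set.finite_singleton W).subset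
  rintro _ ⟨g, rfl⟩
  exact h g g.2

/-- (CP1): if the `Fix A`-orbit of the tuple `d` is contained in the definable set `R · v`, then
some `Fix A`-invariant definable set contains `d` and is contained in `R · v`. -/
theorem CP1 {A : Set N} {n : ℕ} (hA : A ⊆ Λ.S n) {d v : ℕ → N} {m : ℕ} (hd : Λ.InS m d)
    (hv : Λ.InS m v) {R : (ℕ → N) → (ℕ → N) → Prop} (hR : Dfn2 L R)
    (h : ∀ g ∈ V.Fix A, R (fun i => g • d i) v) :
    ∃ P : (ℕ → N) → Prop, DfnO L (Λ.S n) P ∧ P d ∧ (∀ x, P x → R x v) ∧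
      ∀ g ∈ V.Fix A, ∀ x, P x → P (fun i => g • x i) := by
  classical
  have hne : Nonempty N := Λ.nonempty
  by_contra hcon
  push Not at hcon
  -- codes for the algebraic balls
  have hcode : ∀ W : V.acl A, ∃ (θ : Fm L) (w : ℕ → N), Λ.InS n w ∧ (W : Set N) = fib θ w :=
    fun W => Λ.acl_coded hA W.2
  choose θ c hc1 hc2 using hcode
  wlog hnm : n ≤ m generalizing m
  · exact this (m := max n m) (hd.mono (le_max_right _ _)) (hv.mono (le_max_right _ _))
      (le_max_left _ _)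
  let I := {φ : L.Formula (Λ.S n ⊕ ℕ) // φ.Realize (Sum.elim (fun a => (a : N)) d)}
  let κ := Λ.S n ⊕ ℕ
  -- the relations on `(y, x)`, `y : S n → N`, `x : ℕ → N`
  let ρ1 : I → (κ → N) → Prop := fun φ z => φ.1.Realize z
  let ρ2 : A → (κ → N) → Prop := fun a z => z (Sum.inl ⟨a, hA a.2⟩) = a
  let ρ3 : V.acl A → (κ → N) → Prop := fun W z =>
    fib (θ W) (fun i => z (Sum.inl ⟨c W i, hc1 W i⟩)) = W
  have hρ1 : ∀ φ, DfnO L (Λ.S n) (ρ1 φ) := fun φ => DfnO.of_dfn0 (Dfn.formula φ.1)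
  have hρ2 : ∀ a, DfnO L (Λ.S n) (ρ2 a) := by
    intro a
    exact DfnO.of_dfn (Dfn.eq (Sum.inr (Sum.inl ⟨a, hA a.2⟩) : Unit ⊕ κ) (Sum.inl ()))
      (fun _ => (a : N)) (fun _ => hA a.2)
  have hρ3 : ∀ W, DfnO L (Λ.S n) (ρ3 W) := by
    intro W
    let cc : ℕ → κ := fun i => Sum.inl ⟨c W i, hc1 W i⟩
    have h1 : Dfn L (fun z : ℕ ⊕ κ → N =>
        fib (θ W) (fun i => z (Sum.inr (cc i))) = fib (θ W) (fun i => z (Sum.inl i))) :=
      Dfn.comp (dfn_eq (θ W) (θ W)) (Sum.elim (fun i => Sum.inr (cc i)) (fun i => Sum.inl i))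
        (fun z => Sum.elim (fun i => z (Sum.inr (cc i))) (fun i => z (Sum.inl i)))
        (by intro v b; rcases b with b | b <;> rfl)
    refine (DfnO.of_dfn h1 (c W) (hc1 W)).of_iff fun z => ?_
    show fib (θ W) _ = fib (θ W) (c W) ↔ _ = (W : Set N)
    rw [hc2 W]
    rfl
  -- saturation
  obtain ⟨z, hz1, hz2⟩ := Λ.sat_rel m (κ := κ) (I := (I ⊕ A ⊕ V.acl A) ⊕ Unit)
    (Sum.elim (fun s => (⟨s, Λ.mono hnm s.2⟩, 0))
      (fun i => (⟨Λ.ne.some, Λ.mono (Nat.zero_le m) Λ.ne.some_mem⟩, i + 1)))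
    (by
      rintro (s | i) (s' | i') h
      · simp only [Sum.elim_inl, Prod.mk.injEq, Subtype.mk.injEq, and_true] at h
        exact congrArg _ (Subtype.ext h)
      · simp at h
      · simp at h
      · simp only [Sum.elim_inr, Prod.mk.injEq, add_left_inj, true_and] at h
        rw [h])
    (fun i z => Sum.elim (Sum.elim (fun φ => ρ1 φ z) (Sum.elim (fun a => ρ2 a z)
      (fun W => ρ3 W z))) (fun _ => ¬ R (fun i => z (Sum.inr i)) v) i)
    (by
      rintro ((φ | a | W) | u)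
      · exact (hρ1 φ).mono (Λ.mono hnm)
      · exact (hρ2 a).mono (Λ.mono hnm)
      · exact (hρ3 W).mono (Λ.mono hnm)
      · have h1 : Dfn L (fun z : ℕ ⊕ κ → N => R (fun i => z (Sum.inr (Sum.inr i)))
            (fun i => z (Sum.inl i))) :=
          Dfn.comp hR (Sum.elim (fun i => Sum.inr (Sum.inr i)) (fun i => Sum.inl i))
            (fun z => Sum.elim (fun i => z (Sum.inr (Sum.inr i))) (fun i => z (Sum.inl i)))
            (by intro v b; rcases b with b | b <;> rfl)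
        exact (DfnO.of_dfn h1 v hv).not)
    (by
      intro F
      -- the invariant set attached to a finite part
      let F1 : Finset (I ⊕ A ⊕ V.acl A) := F.preimage Sum.inl Sum.inl_injective.injOn
      let σ : (I ⊕ A ⊕ V.acl A) → (κ → N) → Prop := fun i z =>
        Sum.elim (fun φ => ρ1 φ z) (Sum.elim (fun a => ρ2 a z) (fun W => ρ3 W z)) i
      have hσ : ∀ i, DfnO L (Λ.S n) (σ i) := by
        rintro (φ | a | W)
        exacts [hρ1 φ, hρ2 a, hρ3 W]
      let P : (ℕ → N) → Prop := fun x => ∃ y : Λ.S n → N, ∀ i ∈ F1, σ i (Sum.elim y x)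
      have hP1 : DfnO L (Λ.S n) P := by
        refine DfnO.exT (ρ := fun (x : ℕ → N) (y : Λ.S n → N) => ∀ i ∈ F1, σ i (Sum.elim y x)) ?_
        refine DfnO.finsetAll F1 fun i _ => ?_
        exact DfnO.comp (hσ i) (Sum.elim (fun s => Sum.inr s) (fun i => Sum.inl i))
          (fun u => Sum.elim (u ∘ Sum.inr) (u ∘ Sum.inl))
          (by intro v b; rcases b with b | b <;> rfl)
      have hP2 : P d := by
        refine ⟨fun s => s, ?_⟩
        rintro (φ | a | W) _
        · exact φ.2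
        · rfl
        · exact (hc2 W).symm
      have hP3 : ∀ g ∈ V.Fix A, ∀ x, P x → P (fun i => g • x i) := by
        rintro g hg x ⟨y, hy⟩
        refine ⟨fun s => g • y s, ?_⟩
        have e : (Sum.elim (fun s => g • y s) (fun i => g • x i) : κ → N) =
            fun k => g • (Sum.elim y x k) := by
          funext k; rcases k with k | k <;> rfl
        rw [e]
        rintro (φ | a | W) hi
        · have := hy _ hi
          exact (AutG.realize g _ φ.1).2 this
        · have h1 : y ⟨a, hA a.2⟩ = a := hy _ hi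
          show g • y ⟨a, hA a.2⟩ = a
          rw [h1]
          exact hg.1 a a.2
        · have h1 : fib (θ W) (fun i => y ⟨c W i, hc1 W i⟩) = W := hy _ hi
          show fib (θ W) (fun i => g • y ⟨c W i, hc1 W i⟩) = W
          rw [fib_smul, h1]
          exact hg.2 W W.2
      have h5 : ∃ x, P x ∧ ¬ R x v := by
        by_contra h6
        push Not at h6
        obtain ⟨g, hg, x, hx, hx'⟩ := hcon P hP1 hP2 h6
        exact hx' (hP3 g hg x hx)
      obtain ⟨x, ⟨y, hy⟩, hx⟩ := h5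
      refine ⟨Sum.elim y x, ?_⟩
      rintro (i | u) hi
      · have hi' : i ∈ F1 := by
          rw [Finset.mem_preimage]; exact hi
        exact hy i hi'
      · exact hx)
  -- homogeneity
  have hzφ : ∀ φ : L.Formula (Λ.S n ⊕ ℕ), φ.Realize (Sum.elim (fun a => (a : N)) d) →
      φ.Realize z := fun φ hφ => hz2 (Sum.inl (Sum.inl ⟨φ, hφ⟩))
  obtain ⟨g, hg⟩ := Λ.hom (n := m + 1) (ι := Λ.S n ⊕ ℕ) (Sum.elim (fun a => (a : N)) d) z
    (by
      rintro (a | i)
      · exact Λ.mono (by omega) a.2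
      · exact Λ.mono (by omega) (hd i))
    hz1
    (by
      intro φ
      constructor
      · exact hzφ φ
      · intro h
        by_contra hcon
        have := hzφ φ.not (by rw [Formula.realize_not]; exact hcon)
        rw [Formula.realize_not] at this
        exact this h)
  have hgF : g ∈ V.Fix A := by
    refine ⟨fun a ha => ?_, fun W hW => ?_⟩
    · have h1 : z (Sum.inl ⟨a, hA ha⟩) = a := hz2 (Sum.inl (Sum.inr (Sum.inl ⟨a, ha⟩)))
      rw [← hg] at h1
      exact h1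
    · have h1 : fib (θ ⟨W, hW⟩) (fun i => z (Sum.inl ⟨c ⟨W, hW⟩ i, hc1 ⟨W, hW⟩ i⟩)) = W :=
        hz2 (Sum.inl (Sum.inr (Sum.inr ⟨W, hW⟩)))
      have h2 : W = fib (θ ⟨W, hW⟩) (c ⟨W, hW⟩) := hc2 ⟨W, hW⟩
      have h3 : (fun i => z (Sum.inl ⟨c ⟨W, hW⟩ i, hc1 ⟨W, hW⟩ i⟩)) =
          fun i => g • c ⟨W, hW⟩ i := by
        funext i
        exact (hg (Sum.inl ⟨c ⟨W, hW⟩ i, hc1 ⟨W, hW⟩ i⟩)).symm
      rw [h3, fib_smul, ← h2] at h1
      exact h1
  have hlast : ¬ R (fun i => z (Sum.inr i)) v := hz2 (Sum.inr ())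
  apply hlast
  have := h g hgF
  have e : (fun i => z (Sum.inr i)) = fun i => g • d i := by
    funext i
    exact (hg (Sum.inr i)).symm
  rw [e]
  exact this

end Levels

end Pool.Agent.VCM
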