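import Pool.Agent.VCM.Step

/-! The union of an elementary chain. -/

open FirstOrder FirstOrder.Language

namespace Pool.Agent.VCM

variable {L : FirstOrder.Language.{0, 0}}

section Chain

variable (G : ℕ → Type) [∀ i, L.Structure (G i)] (e : ∀ n, G n ↪ₑ[L] G (n + 1))

/-- the directed system of an elementary chain -/
noncomputable abbrev sysF (i j : ℕ) (h : i ≤ j) : G i ↪[L] G j :=
  DirectedSystem.natLERec (fun n => (e n).toEmbedding) i j h

theorem sysF_succ (i : ℕ) (x : G i) : sysF G e i (i + 1) (Nat.le_succ i) x = e i x := by
  show (DirectedSystem.natLERec (fun n => (e n).toEmbedding) i (i + 1) _ : G i → G (i + 1)) x = _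
  rw [DirectedSystem.coe_natLERec]
  exact Nat.leRecOn_succ' _

theorem sysF_up {α : Type} {k : ℕ} (φ : L.BoundedFormula α k) (i j : ℕ) (h : i ≤ j)
    (v : α → G i) (xs : Fin k → G i) :
    φ.Realize (sysF G e i j h ∘ v) (sysF G e i j h ∘ xs) ↔ φ.Realize v xs := by
  obtain ⟨d, rfl⟩ := Nat.exists_eq_add_of_le h
  induction d with
  | zero =>
    have : (sysF G e i (i + 0) h : G i → G (i + 0)) = id := by
      funext x
      exact DirectedSystem.map_self (f := fun i j h => sysF G e i j h) x
    rw [this]; rfl
  | succ d ih =>
    have hs : (sysF G e i (i + (d + 1)) h : G i → G (i + (d + 1))) =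
        (e (i + d)) ∘ (sysF G e i (i + d) (Nat.le_add_right i d)) := by
      funext x
      have := DirectedSystem.map_map (f := fun i j h => sysF G e i j h)
        (Nat.le_add_right i d) (Nat.le_succ (i + d)) x
      rw [Function.comp_apply, ← sysF_succ]
      exact this.symm
    rw [hs, Function.comp_assoc, Function.comp_assoc, (e (i + d)).map_boundedFormula]
    exact ih _

/-- the union -/
abbrev Lim : Type := FirstOrder.Language.DirectLimit G (sysF G e)

/-- the maps to the union -/
noncomputable abbrev toLim (i : ℕ) : G i ↪[L] Lim G e := FirstOrder.Language.DirectLimit.of L ℕ G (sysF G e) i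

theorem toLim_sys (i j : ℕ) (h : i ≤ j) (x : G i) : toLim G e j (sysF G e i j h x) = toLim G e i x :=
  FirstOrder.Language.DirectLimit.of_f

theorem toLim_realize {α : Type} {k : ℕ} (φ : L.BoundedFormula α k) :
    ∀ (i : ℕ) (v : α → G i) (xs : Fin k → G i),
    φ.Realize (toLim G e i ∘ v) (toLim G e i ∘ xs) ↔ φ.Realize v xs := by
  induction φ with
  | falsum => intro i v xs; rfl
  | equal t₁ t₂ =>
    intro i v xs
    simp only [BoundedFormula.Realize, ← Sum.comp_elim, HomClass.realize_term]
    exact (toLim G e i).injective.eq_iff
  | rel R ts =>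
    intro i v xs
    simp only [BoundedFormula.Realize, ← Sum.comp_elim, HomClass.realize_term]
    exact StrongHomClass.map_rel (toLim G e i) R _
  | imp _ _ ih1 ih2 =>
    intro i v xs
    simp only [BoundedFormula.realize_imp, ih1, ih2]
  | @all n φ ih =>
    intro i v xs
    simp only [BoundedFormula.realize_all]
    constructor
    · intro H a
      have := H (toLim G e i a)
      rw [← Fin.comp_snoc, ih] at this
      exact this
    · intro H z
      obtain ⟨j, b, rfl⟩ := FirstOrder.Language.DirectLimit.exists_of z
      -- go to a common stage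
      let m := max i j
      have hi : i ≤ m := le_max_left _ _
      have hj : j ≤ m := le_max_right _ _
      have H' : (φ.all).Realize (sysF G e i m hi ∘ v) (sysF G e i m hi ∘ xs) := by
        rw [sysF_up]
        exact H
      have h1 := H' (sysF G e j m hj b)
      rw [← ih m] at h1
      rw [Fin.comp_snoc] at h1
      have e1 : toLim G e m ∘ (sysF G e i m hi ∘ v) = toLim G e i ∘ v := by
        funext t; exact toLim_sys G e i m hi _
      have e2 : toLim G e m ∘ (sysF G e i m hi ∘ xs) = toLim G e i ∘ xs := by
        funext t; exact toLim_sys G e i m hi _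
      have e3 : toLim G e m (sysF G e j m hj b) = toLim G e j b := toLim_sys G e j m hj b
      rw [e1, e2, e3] at h1
      exact h1

/-- elementary chain theorem -/
noncomputable def toLimE (i : ℕ) : G i ↪ₑ[L] Lim G e where
  toFun := toLim G e i
  map_formula' := by
    intro n φ x
    have := toLim_realize G e φ i x default
    rw [Formula.Realize, Formula.Realize, ← this]
    exact iff_of_eq (congrArg _ (Subsingleton.elim _ _))

theorem toLimE_apply (i : ℕ) (x : G i) : toLimE G e i x = toLim G e i x := rfl

theorem toLim_succ (i : ℕ) (x : G i) : toLimE G e (i + 1) (e i x) = toLimE G e i x := by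
  rw [← sysF_succ, toLimE_apply, toLimE_apply, toLim_sys]

theorem toLim_cover (z : Lim G e) : ∃ i x, toLimE G e i x = z := FirstOrder.Language.DirectLimit.exists_of z

end Chain

end Pool.Agent.VCM
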