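import Pool.Agent.VCM.Sys

/-! S15495, module SEC2C: being in the same cluster is witnessed by a definable relation of the
codes. -/

open FirstOrder FirstOrder.Language
open scoped Pointwise

namespace Pool.Agent.VCM

variable {L : FirstOrder.Language.{0, 0}} {N : Type} [L.Structure N]

namespace VC

variable {V : VC L N}

/-- one step of the cluster relation is witnessed by a definable relation of the codes -/
theorem blk_dfn [Nonempty N] {δ δ' : Fm L} {w w' : ℕ → N} (h : V.Blk (fib δ w) (fib δ' w')) :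
    ∃ R : (ℕ → N) → (ℕ → N) → Prop, Dfn2 L R ∧ R w w' ∧
      ∀ u u', R u u' → V.Blk (fib δ u) (fib δ' u') := by
  classical
  obtain ⟨⟨-, Δ₀, hΔ₀, hC⟩, S, ⟨hSb, hSd, hSu⟩, hD, hne⟩ := h
  have hdef : ∀ X : S, ∃ (θ : Fm L) (v : ℕ → N) (Δ : Finset (Fm L)), (X : Set N) = fib θ v ∧
      ↑Δ ⊆ V.Ψ ∧ (DU Δ (fib θ v) ∨ DI Δ (fib θ v)) := by
    rintro ⟨X, hX⟩
    obtain ⟨⟨θ, v, rfl⟩, Δ, h1, h2⟩ := hSb X hX
    exact ⟨θ, v, Δ, rfl, h1, h2⟩
  choose θ v Δ hv hΔ hDU using hdef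
  let i₀ : S := ⟨fib δ' w', hD⟩
  refine ⟨fun u u' => (DU Δ₀ (fib δ u) ∨ DI Δ₀ (fib δ u)) ∧ ∃ x : S × ℕ → N,
    (∀ i : S, DU (Δ i) (fib (θ i) (fun t => x (i, t))) ∨ DI (Δ i) (fib (θ i) (fun t => x (i, t)))) ∧
    (¬ fib (θ i₀) (fun t => x (i₀, t)) = fib δ u) ∧
    (∀ i j : S, ¬ fib (θ i) (fun t => x (i, t)) = fib (θ j) (fun t => x (j, t)) →
      Disjoint (fib (θ i) (fun t => x (i, t))) (fib (θ j) (fun t => x (j, t)))) ∧
    (∀ y : N, (y ∈ fib δ u ↔ ∃ i : S, y ∈ fib (θ i) (fun t => x (i, t)))) ∧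
    fib δ' u' = fib (θ i₀) (fun t => x (i₀, t)), ?_, ?_, ?_⟩
  · -- definability
    refine Dfn.and (Dfn.or ?_ ?_) ?_
    · exact Dfn.comp (dfn_DU Δ₀ δ) (fun i => Sum.inl i) (fun v => v ∘ Sum.inl) (fun _ _ => rfl)
    · exact Dfn.comp (dfn_DI Δ₀ δ) (fun i => Sum.inl i) (fun v => v ∘ Sum.inl) (fun _ _ => rfl)
    · refine Dfn.exT (κ := S × ℕ) (R := fun (u : ℕ ⊕ ℕ → N) x =>
        (∀ i : S, DU (Δ i) (fib (θ i) (fun t => x (i, t))) ∨
          DI (Δ i) (fib (θ i) (fun t => x (i, t)))) ∧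
        (¬ fib (θ i₀) (fun t => x (i₀, t)) = fib δ (u ∘ Sum.inl)) ∧
        (∀ i j : S, ¬ fib (θ i) (fun t => x (i, t)) = fib (θ j) (fun t => x (j, t)) →
          Disjoint (fib (θ i) (fun t => x (i, t))) (fib (θ j) (fun t => x (j, t)))) ∧
        (∀ y : N, (y ∈ fib δ (u ∘ Sum.inl) ↔ ∃ i : S, y ∈ fib (θ i) (fun t => x (i, t)))) ∧
        fib δ' (u ∘ Sum.inr) = fib (θ i₀) (fun t => x (i₀, t))) ?_
      have heq : ∀ i j : S, Dfn L (fun u : (ℕ ⊕ ℕ) ⊕ (S × ℕ) → N =>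
          fib (θ i) (fun t => u (Sum.inr (i, t))) = fib (θ j) (fun t => u (Sum.inr (j, t)))) := by
        intro i j
        exact Dfn.comp (dfn_eq (θ i) (θ j)) (Sum.elim (fun t => Sum.inr (i, t))
          (fun t => Sum.inr (j, t)))
          (fun v => Sum.elim (fun t => v (Sum.inr (i, t))) (fun t => v (Sum.inr (j, t))))
          (by intro v b; rcases b with b | b <;> rfl)
      refine Dfn.and (Dfn.finiteAll fun i => Dfn.or ?_ ?_) (Dfn.and ?_ (Dfn.and ?_ (Dfn.and ?_ ?_)))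
      · exact Dfn.comp (dfn_DU (Δ i) (θ i)) (fun t => Sum.inr (i, t))
          (fun v t => v (Sum.inr (i, t))) (fun _ _ => rfl)
      · exact Dfn.comp (dfn_DI (Δ i) (θ i)) (fun t => Sum.inr (i, t))
          (fun v t => v (Sum.inr (i, t))) (fun _ _ => rfl)
      · refine Dfn.not ?_
        exact Dfn.comp (dfn_eq (θ i₀) δ) (Sum.elim (fun t => Sum.inr (i₀, t))
          (fun t => Sum.inl (Sum.inl t)))
          (fun v => Sum.elim (fun t => v (Sum.inr (i₀, t))) (fun t => v (Sum.inl (Sum.inl t))))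
          (by intro v b; rcases b with b | b <;> rfl)
      · refine Dfn.finiteAll fun i => Dfn.finiteAll fun j => Dfn.imp (heq i j).not ?_
        exact Dfn.comp (dfn_disjoint (θ i) (θ j)) (Sum.elim (fun t => Sum.inr (i, t))
          (fun t => Sum.inr (j, t)))
          (fun v => Sum.elim (fun t => v (Sum.inr (i, t))) (fun t => v (Sum.inr (j, t))))
          (by intro v b; rcases b with b | b <;> rfl)
      · refine Dfn.all1 (R := fun (u : (ℕ ⊕ ℕ) ⊕ (S × ℕ) → N) y =>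
          (y ∈ fib δ (fun t => u (Sum.inl (Sum.inl t))) ↔
            ∃ i : S, y ∈ fib (θ i) (fun t => u (Sum.inr (i, t))))) ?_
        refine Dfn.iff ?_ (Dfn.finiteEx fun i => ?_)
        · exact dfn_mem _ (Sum.inr ()) (fun i => Sum.inl (Sum.inl (Sum.inl i))) _ _
            (fun v => rfl) (fun v i => rfl)
        · exact dfn_mem _ (Sum.inr ()) (fun t => Sum.inl (Sum.inr (i, t))) _ _
            (fun v => rfl) (fun v i => rfl)
      · exact Dfn.comp (dfn_eq δ' (θ i₀)) (Sum.elim (fun t => Sum.inl (Sum.inr t))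
          (fun t => Sum.inr (i₀, t)))
          (fun v => Sum.elim (fun t => v (Sum.inl (Sum.inr t))) (fun t => v (Sum.inr (i₀, t))))
          (by intro v b; rcases b with b | b <;> rfl)
  · -- the witness
    refine ⟨hC, fun p => v p.1 p.2, hDU, ?_, ?_, ?_, ?_⟩
    · show ¬ fib (θ i₀) (v i₀) = fib δ w
      rw [← hv]
      exact hne
    · intro i j hij
      change ¬ fib (θ i) (v i) = fib (θ j) (v j) at hij
      show Disjoint (fib (θ i) (v i)) (fib (θ j) (v j))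
      rw [← hv, ← hv] at hij ⊢
      exact hSd i i.2 j j.2 hij
    · intro y
      rw [hSu, Set.mem_sUnion]
      constructor
      · rintro ⟨X, hX, hy⟩
        refine ⟨⟨X, hX⟩, ?_⟩
        show y ∈ fib (θ ⟨X, hX⟩) (v ⟨X, hX⟩)
        rw [← hv]; exact hy
      · rintro ⟨i, hy⟩
        change y ∈ fib (θ i) (v i) at hy
        rw [← hv] at hy
        exact ⟨i, i.2, hy⟩
    · exact hv i₀
  · -- soundness
    rintro u u' ⟨h1, x, h2, h3, h4, h5, h6⟩
    refine ⟨⟨⟨δ, u, rfl⟩, Δ₀, hΔ₀, h1⟩, Finset.univ.image (fun i : S => fib (θ i) (fun t => x (i, t))),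
      ⟨?_, ?_, ?_⟩, ?_, ?_⟩
    · intro X hX
      rw [Finset.mem_image] at hX
      obtain ⟨i, -, rfl⟩ := hX
      exact ⟨⟨θ i, _, rfl⟩, Δ i, hΔ i, h2 i⟩
    · intro X hX Y hY hXY
      rw [Finset.mem_image] at hX hY
      obtain ⟨i, -, rfl⟩ := hX
      obtain ⟨j, -, rfl⟩ := hY
      exact h4 i j hXY
    · ext y
      rw [h5 y, Set.mem_sUnion]
      constructor
      · rintro ⟨i, hy⟩
        exact ⟨_, Finset.mem_coe.2 (Finset.mem_image_of_mem _ (Finset.mem_univ i)), hy⟩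
      · rintro ⟨X, hX, hy⟩
        rw [Finset.mem_coe, Finset.mem_image] at hX
        obtain ⟨i, -, rfl⟩ := hX
        exact ⟨i, hy⟩
    · rw [h6]
      exact Finset.mem_image_of_mem _ (Finset.mem_univ i₀)
    · rw [h6]
      exact h3

/-- for limits: being in the same cluster is witnessed by a definable relation of the codes -/
theorem cl_dfn [Nonempty N] {δ δ' : Fm L} {w w' : ℕ → N} (hb : V.Ball (fib δ w))
    (h : V.cl (fib δ w) (fib δ' w')) :
    ∃ R : (ℕ → N) → (ℕ → N) → Prop, Dfn2 L R ∧ R w w' ∧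
      ∀ u u', R u u' → V.cl (fib δ u) (fib δ' u') := by
  have key : ∀ C D : Set N, V.cl C D → V.Ball C → ∀ (δ δ' : Fm L) (w w' : ℕ → N), C = fib δ w →
      D = fib δ' w' → ∃ R : (ℕ → N) → (ℕ → N) → Prop, Dfn2 L R ∧ R w w' ∧
      ∀ u u', R u u' → V.cl (fib δ u) (fib δ' u') := by
    intro C D hCD
    induction hCD with
    | rel C D h =>
      rintro - δ δ' w w' rfl rfl
      obtain ⟨R, h1, h2, h3⟩ := blk_dfn h
      exact ⟨R, h1, h2, fun u u' hu => Relation.EqvGen.rel _ _ (h3 u u' hu)⟩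
    | refl C =>
      rintro - δ δ' w w' hC hC'
      refine ⟨fun u u' => fib δ u = fib δ' u', dfn_eq δ δ', hC.symm.trans hC', fun u u' hu => ?_⟩
      rw [hu]
      exact Relation.EqvGen.refl _
    | symm C D hCD ih =>
      intro hb δ δ' w w' hC hC'
      obtain ⟨R, h1, h2, h3⟩ := ih ((Clu.ball_iff (V := V) hCD).2 hb) δ' δ w' w hC' hC
      exact ⟨fun u u' => R u' u, h1.swap, h2, fun u u' hu => Relation.EqvGen.symm _ _ (h3 u' u hu)⟩
    | trans C D E hCD hDE ih1 ih2 =>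
      intro hb δ δ' w w' hC hC'
      have hD : V.Ball D := (Clu.ball_iff (V := V) hCD).1 hb
      obtain ⟨ε, z, hz⟩ := hD.1
      obtain ⟨R, h1, h2, h3⟩ := ih1 hb δ ε w z hC hz
      obtain ⟨R', h1', h2', h3'⟩ := ih2 hD ε δ' z w' hz hC'
      refine ⟨fun u u' => ∃ y : ℕ → N, R u y ∧ R' y u', ?_, ⟨z, h2, h2'⟩, ?_⟩
      · refine Dfn.exT (κ := ℕ) (R := fun (u : ℕ ⊕ ℕ → N) y =>
          R (u ∘ Sum.inl) y ∧ R' y (u ∘ Sum.inr)) (Dfn.and ?_ ?_)
        · exact Dfn.comp h1 (Sum.elim (fun t => Sum.inl (Sum.inl t)) (fun t => Sum.inr t))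
            (fun v => Sum.elim (fun t => v (Sum.inl (Sum.inl t))) (fun t => v (Sum.inr t)))
            (by intro v b; rcases b with b | b <;> rfl)
        · exact Dfn.comp h1' (Sum.elim (fun t => Sum.inr t) (fun t => Sum.inl (Sum.inr t)))
            (fun v => Sum.elim (fun t => v (Sum.inr t)) (fun t => v (Sum.inl (Sum.inr t))))
            (by intro v b; rcases b with b | b <;> rfl)
      · rintro u u' ⟨y, hy1, hy2⟩
        exact Relation.EqvGen.trans _ _ _ (h3 u y hy1) (h3' y u' hy2)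
  exact key _ _ h hb δ δ' w w' rfl rfl

end VC

end Pool.Agent.VCM
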