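import Pool.Agent.VCM.CP

/-! Section 2: clusters. -/

open FirstOrder FirstOrder.Language
open scoped Pointwise

namespace Pool.Agent.VCM

variable {L : FirstOrder.Language.{0, 0}} {N : Type} [L.Structure N]

namespace VC

variable (V : VC L N)

/-- `P` is a partition of `C` into finitely many balls -/
def Part (C : Set N) (P : Finset (Set N)) : Prop :=
  (∀ X ∈ P, V.Ball X) ∧ (∀ X ∈ P, ∀ Y ∈ P, X ≠ Y → Disjoint X Y) ∧ C = ⋃₀ (P : Set (Set N))

/-- `C₁` is a block of a nontrivial partition of the ball `C` -/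
def Blk (C C₁ : Set N) : Prop := V.Ball C ∧ ∃ P : Finset (Set N), V.Part C P ∧ C₁ ∈ P ∧ C₁ ≠ C

/-- the cluster relation -/
def Clu (W C : Set N) : Prop := Relation.EqvGen V.Blk W C

variable {V}

theorem Clu.refl (W : Set N) : V.Clu W W := Relation.EqvGen.refl W
theorem Clu.symm {W C : Set N} (h : V.Clu W C) : V.Clu C W := Relation.EqvGen.symm _ _ h
theorem Clu.trans {W C E : Set N} (h : V.Clu W C) (h' : V.Clu C E) : V.Clu W E :=
  Relation.EqvGen.trans _ _ _ h h'

theorem Blk.clu {C C₁ : Set N} (h : V.Blk C C₁) : V.Clu C C₁ := Relation.EqvGen.rel _ _ h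

theorem Blk.ball {C C₁ : Set N} (h : V.Blk C C₁) : V.Ball C₁ := by
  obtain ⟨-, P, hP, h1, -⟩ := h
  exact hP.1 _ h1

theorem Part.subset {C X : Set N} {P : Finset (Set N)} (h : V.Part C P) (hX : X ∈ P) : X ⊆ C := by
  rw [h.2.2]; exact Set.subset_sUnion_of_mem hX

theorem Blk.ssubset {C C₁ : Set N} (h : V.Blk C C₁) : C₁ ⊂ C := by
  obtain ⟨-, P, hP, h1, h2⟩ := h
  exact (hP.subset h1).ssubset_of_ne h2

theorem Clu.ball_iff {W C : Set N} (h : V.Clu W C) : V.Ball W ↔ V.Ball C := by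
  induction h with
  | rel x y h => exact ⟨fun _ => h.ball, fun _ => h.1⟩
  | refl x => exact Iff.rfl
  | symm x y _ ih => exact ih.symm
  | trans x y z _ _ ih1 ih2 => exact ih1.trans ih2

theorem Clu.ball {W C : Set N} (h : V.Clu W C) (hW : V.Ball W) : V.Ball C := h.ball_iff.1 hW

theorem Blk.smul {C C₁ : Set N} (h : V.Blk C C₁) (g : AutG L N) : V.Blk (g • C) (g • C₁) := by
  classical
  obtain ⟨h0, P, ⟨h1, h2, h3⟩, h4, h5⟩ := h
  refine ⟨h0.smul g, P.image (fun X => g • X), ⟨?_, ?_, ?_⟩, Finset.mem_image_of_mem _ h4,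
    fun h => h5 (smul_left_cancel g h)⟩
  · intro X hX
    obtain ⟨Y, hY, rfl⟩ := Finset.mem_image.1 hX
    exact (h1 Y hY).smul g
  · intro X hX X' hX' hne
    obtain ⟨Y, hY, rfl⟩ := Finset.mem_image.1 hX
    obtain ⟨Y', hY', rfl⟩ := Finset.mem_image.1 hX'
    have : Y ≠ Y' := fun h => hne (by rw [h])
    exact Set.disjoint_smul_set.2 (h2 Y hY Y' hY' this)
  · rw [h3]
    ext x
    simp only [Set.mem_smul_set_iff_inv_smul_mem, Set.mem_sUnion, Finset.mem_coe,
      Finset.mem_image]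
    constructor
    · rintro ⟨Y, hY, hx⟩
      exact ⟨g • Y, ⟨Y, hY, rfl⟩, Set.mem_smul_set_iff_inv_smul_mem.2 hx⟩
    · rintro ⟨_, ⟨Y, hY, rfl⟩, hx⟩
      exact ⟨Y, hY, Set.mem_smul_set_iff_inv_smul_mem.1 hx⟩

theorem Clu.smul {W C : Set N} (h : V.Clu W C) (g : AutG L N) : V.Clu (g • W) (g • C) := by
  induction h with
  | rel x y h => exact (h.smul g).clu
  | refl x => exact Clu.refl _
  | symm x y _ ih => exact ih.symm
  | trans x y z _ _ ih1 ih2 => exact ih1.trans ih2

theorem Clu.smul_iff {W C : Set N} (g : AutG L N) : V.Clu (g • W) (g • C) ↔ V.Clu W C :=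
  ⟨fun h => by simpa using h.smul g⁻¹, fun h => h.smul g⟩

/-- a ball covered by finitely many balls, none of which contains it, is the disjoint union of
some of them -/
theorem cover_blk {C : Set N} (hC : V.Ball C) (P : Finset (Set N)) (hP : ∀ X ∈ P, V.Ball X)
    (hnot : ∀ X ∈ P, ¬ C ⊆ X) (hcov : C ⊆ ⋃₀ (P : Set (Set N))) :
    ∃ Q ⊆ P, Q.Nonempty ∧ V.Part C Q ∧ ∀ X ∈ Q, V.Blk C X := by
  classical
  let Q := P.filter fun X => (∃ x, x ∈ X ∧ x ∈ C) ∧ ∀ Y ∈ P, X ⊆ Y → Y = X
  have hsub : ∀ X ∈ P, (∃ x, x ∈ X ∧ x ∈ C) → X ⊆ C := by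
    rintro X hX ⟨x, hx, hx'⟩
    rcases (hP X hX).cmp hC hx hx' with h | h
    · exact h
    · exact absurd h (hnot X hX)
  have hpart : V.Part C Q := by
    refine ⟨fun X hX => hP X (Finset.mem_filter.1 hX).1, ?_, ?_⟩
    · intro X hX Y hY hne
      obtain ⟨hX1, hX2, hX3⟩ := Finset.mem_filter.1 hX
      obtain ⟨hY1, hY2, hY3⟩ := Finset.mem_filter.1 hY
      rcases (hP X hX1).lam (hP Y hY1) with h | h | h
      · exact absurd (hX3 Y hY1 h).symm hne
      · exact absurd (hY3 X hX1 h) hne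
      · exact h
    · apply Set.Subset.antisymm
      · intro x hx
        obtain ⟨X, hX, hxX⟩ := hcov hx
        -- a maximal member above `X`
        obtain ⟨Y, hXY, hY⟩ := P.exists_le_maximal hX
        refine ⟨Y, ?_, hXY hxX⟩
        simp only [Q, Finset.coe_filter, Set.mem_ofPred_eq]
        refine ⟨hY.prop, ⟨x, hXY hxX, hx⟩, fun Z hZ hYZ => ?_⟩
        exact Set.Subset.antisymm (hY.le_of_ge hZ hYZ) hYZ
      · apply Set.sUnion_subset
        intro X hX
        obtain ⟨hX1, hX2, hX3⟩ := Finset.mem_filter.1 hX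
        exact hsub X hX1 hX2
  refine ⟨Q, Finset.filter_subset _ _, ?_, hpart, fun X hX => ?_⟩
  · obtain ⟨x, hx⟩ := hC.nonempty
    rw [hpart.2.2] at hx
    obtain ⟨X, hX, -⟩ := hx
    exact ⟨X, hX⟩
  · refine ⟨hC, Q, hpart, hX, fun h => ?_⟩
    exact hnot X (Finset.mem_filter.1 hX).1 h.ge

/-- 2.1, one step -/
theorem Blk.lt_iff {C C₁ E : Set N} (h : V.Blk C C₁) (hE : V.Ball E) (hn : ¬ V.Clu C E) :
    C ⊂ E ↔ C₁ ⊂ E := by
  classical
  refine ⟨fun h' => h.ssubset.trans h', fun h' => ?_⟩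
  obtain ⟨x, hx⟩ := h.ball.nonempty
  have hxC : x ∈ C := h.ssubset.1 hx
  rcases h.1.cmp hE hxC (h'.1 hx) with h1 | h1
  · refine h1.ssubset_of_ne fun h2 => hn ?_
    rw [h2]; exact Clu.refl _
  · exfalso
    rcases h1.eq_or_ssubset with h2 | h2
    · exact hn (by rw [h2]; exact Clu.refl _)
    · -- `C₁ ⊂ E ⊂ C`
      obtain ⟨hCb, P, hP, hP1, hP2⟩ := h
      obtain ⟨Q, hQ1, hQ2, hQ3, hQ4⟩ := cover_blk hE P hP.1 (by
        intro X hX hEX
        -- `E ⊆ X`, then `X = C₁`
        have h3 : X = C₁ := by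
          by_contra hne
          exact Set.disjoint_left.1 (hP.2.1 X hX C₁ hP1 hne) (hEX (h'.1 hx)) hx
        subst h3
        exact h'.2 hEX) (h1.trans hP.2.2.le)
      obtain ⟨X, hX⟩ := hQ2
      -- all blocks of `P` are in the cluster of `C`
      have h3 : V.Clu E X := (hQ4 X hX).clu
      have h4 : X ≠ C := by
        rintro rfl
        exact h2.2 (hQ3.subset hX)
      have h5 : V.Blk C X := ⟨hCb, P, hP, hQ1 hX, h4⟩
      exact hn (h5.clu.trans h3.symm)

/-- 2.1 -/
theorem Clu.lt_iff {C C' E : Set N} (h : V.Clu C C') (hE : V.Ball E) (hn : ¬ V.Clu C E) :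
    C ⊂ E ↔ C' ⊂ E := by
  induction h with
  | rel x y h => exact h.lt_iff hE hn
  | refl x => exact Iff.rfl
  | symm x y h ih => exact (ih fun h' => hn (Clu.trans (Clu.symm h) h')).symm
  | trans x y z h1 h2 ih1 ih2 => exact (ih1 hn).trans (ih2 fun h' => hn (Clu.trans h1 h'))

/-- balls that are blocks of partitions of a ball into at most `n` balls are finitely many -/
theorem blocks_finite (n : ℕ) : ∀ C : Set N, V.Ball C →
    {B : Set N | ∃ P : Finset (Set N), V.Part C P ∧ B ∈ P ∧ P.card ≤ n}.Finite := by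
  classical
  induction n with
  | zero =>
    intro C _
    convert Set.finite_empty
    ext B
    simp only [Set.mem_ofPred_eq, Set.mem_empty_iff_false, iff_false]
    rintro ⟨P, -, hB, hc⟩
    have := Finset.card_pos.2 ⟨B, hB⟩
    omega
  | succ n ih =>
    intro C hC
    by_cases hex : ∃ P₀ : Finset (Set N), V.Part C P₀ ∧ C ∉ P₀
    · obtain ⟨P₀, hP₀, hC₀⟩ := hex
      have hfin : ((fun T : Finset (Set N) => ⋃₀ (T : Set (Set N))) '' (P₀.powerset : Set _) ∪
          ⋃ X ∈ (P₀ : Set (Set N)), {B : Set N | ∃ P : Finset (Set N), V.Part X P ∧ B ∈ P ∧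
            P.card ≤ n}).Finite := by
        refine Set.Finite.union ((Finset.finite_toSet _).image _) ?_
        exact (Finset.finite_toSet P₀).biUnion fun X hX => ih X (hP₀.1 X hX)
      apply hfin.subset
      rintro B ⟨P, hP, hB, hc⟩
      by_cases hin : ∃ X ∈ P₀, B ⊂ X
      · right
        obtain ⟨X, hX, hBX⟩ := hin
        simp only [Set.mem_iUnion]
        refine ⟨X, hX, P.filter (fun Y => ∃ y, y ∈ Y ∧ y ∈ X), ?_, ?_, ?_⟩
        · have hsub : ∀ Y ∈ P, (∃ y, y ∈ Y ∧ y ∈ X) → Y ⊆ X := by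
            rintro Y hY ⟨y, hy, hy'⟩
            rcases (hP.1 Y hY).cmp (hP₀.1 X hX) hy hy' with h | h
            · exact h
            · exfalso
              obtain ⟨b, hb⟩ := (hP.1 B hB).nonempty
              have : Y = B := by
                by_contra hne
                exact Set.disjoint_left.1 (hP.2.1 Y hY B hB hne) (h (hBX.1 hb)) hb
              subst this
              exact hBX.2 h
          refine ⟨fun Y hY => hP.1 Y (Finset.mem_filter.1 hY).1, ?_, ?_⟩
          · intro Y hY Z hZ hne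
            exact hP.2.1 Y (Finset.mem_filter.1 hY).1 Z (Finset.mem_filter.1 hZ).1 hne
          · apply Set.Subset.antisymm
            · intro x hx
              have hxC : x ∈ C := hP₀.subset hX hx
              rw [hP.2.2] at hxC
              obtain ⟨Y, hY, hxY⟩ := hxC
              exact ⟨Y, Finset.mem_coe.2 (Finset.mem_filter.2 ⟨hY, x, hxY, hx⟩), hxY⟩
            · apply Set.sUnion_subset
              intro Y hY
              obtain ⟨h1, h2⟩ := Finset.mem_filter.1 hY
              exact hsub Y h1 h2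
        · obtain ⟨b, hb⟩ := (hP.1 B hB).nonempty
          exact Finset.mem_filter.2 ⟨hB, b, hb, hBX.1 hb⟩
        · -- some block lies outside `X`
          have hXC : X ⊂ C := (hP₀.subset hX).ssubset_of_ne (fun h => hC₀ (h ▸ hX))
          obtain ⟨c, hcC, hcX⟩ := Set.exists_of_ssubset hXC
          rw [hP.2.2] at hcC
          obtain ⟨Y, hY, hcY⟩ := hcC
          have hlt : (P.filter (fun Y => ∃ y, y ∈ Y ∧ y ∈ X)).card < P.card := by
            apply Finset.card_lt_card
            refine ⟨Finset.filter_subset _ _, fun hsub => ?_⟩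
            obtain ⟨-, y, hy, hy'⟩ := Finset.mem_filter.1 (hsub hY)
            rcases (hP.1 Y hY).cmp (hP₀.1 X hX) hy hy' with h | h
            · exact hcX (h hcY)
            · obtain ⟨b, hb⟩ := (hP.1 B hB).nonempty
              have : Y = B := by
                by_contra hne
                exact Set.disjoint_left.1 (hP.2.1 Y hY B hB hne) (h (hBX.1 hb)) hb
              subst this
              exact hBX.2 h
          omega
      · left
        push Not at hin
        refine ⟨P₀.filter (fun X => X ⊆ B), ?_, ?_⟩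
        · simp only [Finset.coe_powerset, Set.mem_preimage, Set.mem_powerset_iff,
            Finset.coe_subset]
          exact Finset.filter_subset _ _
        · apply Set.Subset.antisymm
          · apply Set.sUnion_subset
            intro X hX
            exact (Finset.mem_filter.1 hX).2
          · intro x hx
            have hxC : x ∈ C := hP.subset hB hx
            rw [hP₀.2.2] at hxC
            obtain ⟨X, hX, hxX⟩ := hxC
            refine ⟨X, Finset.mem_coe.2 (Finset.mem_filter.2 ⟨hX, ?_⟩), hxX⟩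
            rcases (hP.1 B hB).cmp (hP₀.1 X hX) hx hxX with h | h
            · by_contra h'
              exact hin X hX ⟨h, h'⟩
            · exact h
    · push Not at hex
      apply (Set.finite_singleton C).subset
      rintro B ⟨P, hP, hB, -⟩
      have h1 := hex P hP
      rw [Set.mem_singleton_iff]
      by_contra hne
      have h2 := hP.2.1 B hB C h1 hne
      obtain ⟨b, hb⟩ := (hP.1 B hB).nonempty
      exact Set.disjoint_left.1 h2 hb (hP.subset hB hb)

theorem Part.smul {C : Set N} {P : Finset (Set N)} (h : V.Part C P) (g : AutG L N)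
    [DecidableEq (Set N)] : V.Part (g • C) (P.image (fun X => g • X)) := by
  obtain ⟨h1, h2, h3⟩ := h
  refine ⟨?_, ?_, ?_⟩
  · intro X hX
    obtain ⟨Y, hY, rfl⟩ := Finset.mem_image.1 hX
    exact (h1 Y hY).smul g
  · intro X hX X' hX' hne
    obtain ⟨Y, hY, rfl⟩ := Finset.mem_image.1 hX
    obtain ⟨Y', hY', rfl⟩ := Finset.mem_image.1 hX'
    have : Y ≠ Y' := fun h => hne (by rw [h])
    exact Set.disjoint_smul_set.2 (h2 Y hY Y' hY' this)
  · rw [h3]
    ext x
    simp only [Set.mem_smul_set_iff_inv_smul_mem, Set.mem_sUnion, Finset.mem_coe,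
      Finset.mem_image]
    constructor
    · rintro ⟨Y, hY, hx⟩
      exact ⟨g • Y, ⟨Y, hY, rfl⟩, Set.mem_smul_set_iff_inv_smul_mem.2 hx⟩
    · rintro ⟨_, ⟨Y, hY, rfl⟩, hx⟩
      exact ⟨Y, hY, Set.mem_smul_set_iff_inv_smul_mem.1 hx⟩

end VC

namespace Levels

variable (Λ : Levels L N) {V : VC L N}

/-- 2.2, one step -/
theorem blk_acl {A : Set N} {n : ℕ} (hA : A ⊆ Λ.S n) {C C₁ : Set N} (h : V.Blk C C₁) :
    C ∈ V.acl A ↔ C₁ ∈ V.acl A := by
  classical
  constructor
  · intro hC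
    obtain ⟨hCb, P, hP, h1, h2⟩ := h
    apply Λ.mem_acl_of_orbit_Fix hA (hP.1 _ h1)
    apply (VC.blocks_finite P.card C hCb).subset
    rintro _ ⟨g, rfl⟩
    refine ⟨P.image (fun X => (g : AutG L N) • X), ?_, Finset.mem_image_of_mem _ h1,
      Finset.card_image_le⟩
    have := hP.smul (g : AutG L N)
    rwa [g.2.2 C hC] at this
  · intro hC₁
    have hss := h.ssubset
    obtain ⟨hCb, P, hP, h1, h2⟩ := h
    apply Λ.mem_acl_of_orbit_Fix hA hCb
    by_contra hinf
    obtain ⟨T, hT1, hT2⟩ := (show (MulAction.orbit (V.Fix A) C).Infinite from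
      hinf).exists_subset_card_eq (2 ^ P.card + 1)
    -- all members contain `C₁`
    have hTC : ∀ Y ∈ T, V.Ball Y ∧ C₁ ⊆ Y := by
      intro Y hY
      obtain ⟨g, rfl⟩ := hT1 hY
      refine ⟨hCb.smul _, ?_⟩
      have h3 : (g : AutG L N) • C₁ = C₁ := g.2.2 C₁ hC₁
      show C₁ ⊆ (g : AutG L N) • C
      rw [← h3]
      exact Set.smul_set_mono hss.1
    obtain ⟨c, hc⟩ := (hP.1 _ h1).nonempty
    -- a largest member
    have hTne : T.Nonempty := by
      rw [← Finset.card_pos, hT2]; positivity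
    obtain ⟨X, hX, hXmax⟩ : ∃ X ∈ T, ∀ Y ∈ T, Y ⊆ X := by
      obtain ⟨X, hX⟩ := T.exists_maximal hTne
      refine ⟨X, hX.prop, fun Y hY => ?_⟩
      rcases (hTC Y hY).1.cmp (hTC X hX.prop).1 ((hTC Y hY).2 hc) ((hTC X hX.prop).2 hc) with h | h
      · exact h
      · exact hX.le_of_ge hY h
    obtain ⟨g, rfl⟩ := hT1 hX
    let P' := P.image (fun X => (g : AutG L N) • X)
    have hP' : V.Part ((g : AutG L N) • C) P' := hP.smul _
    have h1' : C₁ ∈ P' := by
      have : (g : AutG L N) • C₁ = C₁ := g.2.2 C₁ hC₁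
      rw [← this]
      exact Finset.mem_image_of_mem _ h1
    -- every member is determined by the blocks it contains
    have hinj : Set.InjOn (fun Y : Set N => P'.filter (fun B => B ⊆ Y)) T := by
      have key : ∀ Y ∈ T, Y = ⋃₀ ((P'.filter (fun B => B ⊆ Y) : Finset (Set N)) : Set (Set N)) := by
        intro Y hY
        apply Set.Subset.antisymm
        · intro y hy
          have hyX : y ∈ (g : AutG L N) • C := hXmax Y hY hy
          rw [hP'.2.2] at hyX
          obtain ⟨B, hB, hyB⟩ := hyX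
          refine ⟨B, Finset.mem_coe.2 (Finset.mem_filter.2 ⟨hB, ?_⟩), hyB⟩
          rcases (hP'.1 B hB).cmp (hTC Y hY).1 hyB hy with h | h
          · exact h
          · have : B = C₁ := by
              by_contra hne
              exact Set.disjoint_left.1 (hP'.2.1 B hB C₁ h1' hne) (h ((hTC Y hY).2 hc)) hc
            rw [this]; exact (hTC Y hY).2
        · apply Set.sUnion_subset
          intro B hB
          exact (Finset.mem_filter.1 hB).2
      intro Y hY Z hZ hYZ
      rw [key Y hY, key Z hZ]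
      exact congrArg (fun T : Finset (Set N) => ⋃₀ (T : Set (Set N))) hYZ
    have h5 : T.card ≤ P'.powerset.card := by
      apply Finset.card_le_card_of_injOn _ _ hinj
      intro Y _
      simp only [Finset.coe_powerset, Set.mem_preimage, Set.mem_powerset_iff, Finset.coe_subset]
      exact Finset.filter_subset _ _
    rw [hT2, Finset.card_powerset] at h5
    have h6 : 2 ^ P'.card ≤ 2 ^ P.card := Nat.pow_le_pow_right (by norm_num) Finset.card_image_le
    omega

/-- 2.2 -/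
theorem clu_acl {A : Set N} {n : ℕ} (hA : A ⊆ Λ.S n) {C C' : Set N} (h : V.Clu C C') :
    C ∈ V.acl A ↔ C' ∈ V.acl A := by
  induction h with
  | rel x y h => exact Λ.blk_acl hA h
  | refl x => exact Iff.rfl
  | symm x y _ ih => exact ih.symm
  | trans x y z _ _ ih1 ih2 => exact ih1.trans ih2

/-- clusters of balls coded in level `n` are coded in level `n` -/
theorem clu_coded {n : ℕ} {C C' : Set N} (h : V.Clu C C') (hC : V.Ball C) (hc : Λ.Coded n C) :
    Λ.Coded n C' := by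
  obtain ⟨θ, w, hw, rfl⟩ := hc
  have hA : Set.range w ⊆ Λ.S n := by
    rintro _ ⟨i, rfl⟩; exact hw i
  have h1 : fib θ w ∈ V.acl (Set.range w) := by
    refine ⟨hC, ?_⟩
    apply (Set.finite_singleton (fib θ w)).subset
    rintro _ ⟨g, rfl⟩
    show (g : AutG L N) • fib θ w = fib θ w
    rw [← fib_smul]
    congr 1
    funext i
    exact mem_GA.1 g.2 _ ⟨i, rfl⟩
  exact Λ.acl_coded hA ((Λ.clu_acl hA h).1 h1)

end Levels

namespace VC

variable {V : VC L N}

/-- 2.3 (NC) -/
theorem NC {W C : Set N} (hW : V.Ball W) (hC : V.Ball C) (h1 : V.Clu W C ∨ W ⊂ C)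
    (P Q : Finset (Set N)) (hP : ∀ X ∈ P, V.Clu W X)
    (hQ : ∀ G ∈ Q, V.Ball G ∧ ¬ V.Clu W G ∧ ¬ W ⊆ G) (h2 : ¬ C ⊆ ⋃₀ (P : Set (Set N))) :
    ∃ x ∈ C, (∀ X ∈ P, x ∉ X) ∧ ∀ G ∈ Q, x ∉ G := by
  classical
  by_contra hcon
  push Not at hcon
  have hcov : C ⊆ ⋃₀ ((P ∪ Q : Finset (Set N)) : Set (Set N)) := by
    intro x hx
    by_cases hxP : ∀ X ∈ P, x ∉ X
    · obtain ⟨G, hG, hxG⟩ := hcon x hx hxP
      exact ⟨G, Finset.mem_coe.2 (Finset.mem_union_right _ hG), hxG⟩
    · push Not at hxP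
      obtain ⟨X, hX, hxX⟩ := hxP
      exact ⟨X, Finset.mem_coe.2 (Finset.mem_union_left _ hX), hxX⟩
  have hball : ∀ X ∈ P ∪ Q, V.Ball X := by
    intro X hX
    rcases Finset.mem_union.1 hX with h | h
    · exact (hP X h).ball hW
    · exact (hQ X h).1
  obtain ⟨R, hR1, hR2, hR3, hR4⟩ := cover_blk hC (P ∪ Q) hball (by
    intro X hX hCX
    rcases Finset.mem_union.1 hX with h | h
    · exact h2 (hCX.trans (Set.subset_sUnion_of_mem (Finset.mem_coe.2 h)))
    · obtain ⟨a, b, c⟩ := hQ X h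
      rcases h1 with h1 | h1
      · have hne : C ≠ X := fun e => b (e ▸ h1)
        have h3 : C ⊂ X := hCX.ssubset_of_ne hne
        have h4 := (h1.symm.lt_iff a (fun h' => b (h1.trans h'))).1 h3
        exact c h4.1
      · exact c (h1.1.trans hCX)) hcov
  -- some member of `Q` is a block
  obtain ⟨G, hG, hGR⟩ : ∃ G ∈ Q, G ∈ R := by
    by_contra h3
    push Not at h3
    apply h2
    rw [hR3.2.2]
    apply Set.sUnion_subset
    intro X hX
    rcases Finset.mem_union.1 (hR1 hX) with h | h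
    · exact Set.subset_sUnion_of_mem (Finset.mem_coe.2 h)
    · exact absurd hX (h3 X h)
  obtain ⟨a, b, c⟩ := hQ G hG
  have hCG := (hR4 G hGR).clu
  have hnC : ¬ V.Clu W C := fun h => b (h.trans hCG)
  have hWC : W ⊂ C := h1.resolve_left hnC
  have hRQ : ∀ X ∈ R, X ∈ Q := by
    intro X hX
    rcases Finset.mem_union.1 (hR1 hX) with h | h
    · exact absurd ((hP X h).trans (hR4 X hX).clu.symm) hnC
    · exact h
  obtain ⟨R', hR'1, ⟨X, hX⟩, -, hR'4⟩ := cover_blk hW R (fun X hX => hR3.1 X hX)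
    (fun X hX => (hQ X (hRQ X hX)).2.2) (hWC.1.trans hR3.2.2.le)
  exact (hQ X (hRQ X (hR'1 hX))).2.1 (hR'4 X hX).clu

/-- 2.4 -/
theorem not_cover_clu {W C : Set N} (hW : V.Ball W) (hC : V.Ball C) (h1 : ¬ V.Clu W C) (h2 : W ⊂ C)
    (P : Finset (Set N)) (hP : ∀ X ∈ P, V.Clu W X) : ¬ C ⊆ ⋃₀ (P : Set (Set N)) := by
  intro hcov
  obtain ⟨Q, hQ1, ⟨X, hX⟩, -, hQ4⟩ := cover_blk hC P (fun X hX => (hP X hX).ball hW)
    (fun X hX h => ((hP X hX).lt_iff hC h1).1 h2 |>.2 h) hcov
  exact h1 ((hP X (hQ1 hX)).trans (hQ4 X hX).clu.symm)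

/-- a property holds near the ball `W` -/
def Near (V : VC L N) (W : Set N) (p : N → Prop) : Prop :=
  ∃ (D : Set N) (Q : Finset (Set N)), V.Ball D ∧ W ⊂ D ∧ ¬ V.Clu W D ∧
    (∀ G ∈ Q, V.Ball G ∧ ¬ V.Clu W G ∧ ¬ W ⊆ G) ∧ ∀ x ∈ D, (∀ G ∈ Q, x ∉ G) → p x

theorem Near.mono {W : Set N} {p q : N → Prop} (h : V.Near W p) (hpq : ∀ x, p x → q x) :
    V.Near W q := by
  obtain ⟨D, Q, h1, h2, h3, h4, h5⟩ := h
  exact ⟨D, Q, h1, h2, h3, h4, fun x hx hx' => hpq x (h5 x hx hx')⟩

theorem Near.and {W : Set N} (hW : V.Ball W) {p q : N → Prop} (h : V.Near W p)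
    (h' : V.Near W q) : V.Near W (fun x => p x ∧ q x) := by
  classical
  obtain ⟨D, Q, h1, h2, h3, h4, h5⟩ := h
  obtain ⟨D', Q', h1', h2', h3', h4', h5'⟩ := h'
  obtain ⟨w, hw⟩ := hW.nonempty
  have hQ : ∀ G ∈ Q ∪ Q', V.Ball G ∧ ¬ V.Clu W G ∧ ¬ W ⊆ G := by
    intro G hG
    rcases Finset.mem_union.1 hG with h | h
    · exact h4 G h
    · exact h4' G h
  rcases h1.cmp h1' (h2.1 hw) (h2'.1 hw) with h | h
  · exact ⟨D, Q ∪ Q', h1, h2, h3, hQ, fun x hx hx' =>
      ⟨h5 x hx fun G hG => hx' G (Finset.mem_union_left _ hG),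
        h5' x (h hx) fun G hG => hx' G (Finset.mem_union_right _ hG)⟩⟩
  · exact ⟨D', Q ∪ Q', h1', h2', h3', hQ, fun x hx hx' =>
      ⟨h5 x (h hx) fun G hG => hx' G (Finset.mem_union_left _ hG),
        h5' x hx fun G hG => hx' G (Finset.mem_union_right _ hG)⟩⟩

theorem Near.exists {W : Set N} (hW : V.Ball W) {p : N → Prop} (h : V.Near W p) : ∃ x, p x := by
  obtain ⟨D, Q, h1, h2, h3, h4, h5⟩ := h
  obtain ⟨x, hx, -, hx'⟩ := NC hW h1 (Or.inr h2) ∅ Q (by simp) h4 (by
    simp only [Finset.coe_empty, Set.sUnion_empty, Set.subset_empty_iff]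
    exact h1.nonempty.ne_empty)
  exact ⟨x, h5 x hx hx'⟩

/-- the value near `W` is unique -/
theorem Near.unique {T : Type*} {W : Set N} (hW : V.Ball W) {f : N → T} {a b : T}
    (h : V.Near W (fun x => f x = a)) (h' : V.Near W (fun x => f x = b)) : a = b := by
  obtain ⟨x, h1, h2⟩ := (h.and hW h').exists hW
  rw [← h1, ← h2]

/-- nearness depends only on the cluster -/
theorem Near.clu {W W' : Set N} (hc : V.Clu W W') {p : N → Prop} (h : V.Near W p) :
    V.Near W' p := by
  obtain ⟨D, Q, h1, h2, h3, h4, h5⟩ := h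
  refine ⟨D, Q, h1, (hc.lt_iff h1 h3).1 h2, fun h => h3 (hc.trans h), fun G hG => ?_, h5⟩
  obtain ⟨a, b, c⟩ := h4 G hG
  refine ⟨a, fun h => b (hc.trans h), fun h => ?_⟩
  have hne : W' ≠ G := fun e => b (e ▸ hc)
  exact c ((hc.lt_iff a b).2 (h.ssubset_of_ne hne)).1

theorem near_clu_iff {W W' : Set N} (hc : V.Clu W W') {p : N → Prop} :
    V.Near W p ↔ V.Near W' p := ⟨fun h => h.clu hc, fun h => h.clu hc.symm⟩

theorem Near.smul {W : Set N} {p : N → Prop} (h : V.Near W p) (g : AutG L N) :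
    V.Near (g • W) (fun x => p (g⁻¹ • x)) := by
  classical
  obtain ⟨D, Q, h1, h2, h3, h4, h5⟩ := h
  refine ⟨g • D, Q.image (fun X => g • X), h1.smul g, ?_, fun h => h3 ((Clu.smul_iff g).1 h),
    fun G hG => ?_, fun x hx hx' => ?_⟩
  · exact ⟨Set.smul_set_mono h2.1, fun h => h2.2 (by simpa using h)⟩
  · obtain ⟨G', hG', rfl⟩ := Finset.mem_image.1 hG
    obtain ⟨a, b, c⟩ := h4 G' hG'
    exact ⟨a.smul g, fun h => b ((Clu.smul_iff g).1 h), fun h => c (by simpa using h)⟩
  · refine h5 _ (Set.mem_smul_set_iff_inv_smul_mem.1 hx) fun G hG hcon => ?_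
    exact hx' (g • G) (Finset.mem_image_of_mem _ hG) (Set.mem_smul_set_iff_inv_smul_mem.2 hcon)

/-- points in the same atom of a family of sets -/
def SameAtom (E : Set (Set N)) (x y : N) : Prop := ∀ X ∈ E, (x ∈ X ↔ y ∈ X)

theorem SameAtom.symm {E : Set (Set N)} {x y : N} (h : SameAtom E x y) : SameAtom E y x :=
  fun X hX => (h X hX).symm

/-- 2.6, dropping lemma -/
theorem dropping {T : Type*} {W : Set N} (hW : V.Ball W) {f : N → T} {ν : T}
    (hnear : V.Near W (fun x => f x = ν)) (E : Finset (Set N)) (hE : ∀ X ∈ E, V.Ball X)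
    (hf : ∀ x y, SameAtom (E : Set (Set N)) x y → f x = f y) :
    ∀ x y, SameAtom {X | X ∈ E ∧ ¬ V.Clu W X} x y → f x = f y := by
  classical
  obtain ⟨D, Q, h1, h2, h3, h4, h5⟩ := hnear
  obtain ⟨w, hw⟩ := hW.nonempty
  -- key claim
  have key : ∀ z, (∀ X ∈ E, ¬ V.Clu W X → (z ∈ X ↔ W ⊂ X)) → f z = ν := by
    intro z hz
    let CC := E.filter (fun X => V.Clu W X)
    let Ei := CC.filter (fun X => z ∉ X)
    let G := Q ∪ E.filter (fun X => ¬ V.Clu W X ∧ ¬ W ⊂ X)
    have hG : ∀ X ∈ G, V.Ball X ∧ ¬ V.Clu W X ∧ ¬ W ⊆ X := by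
      intro X hX
      rcases Finset.mem_union.1 hX with h | h
      · exact h4 X h
      · obtain ⟨a, b, c⟩ := Finset.mem_filter.1 h
        refine ⟨hE X a, b, fun hWX => c (hWX.ssubset_of_ne fun e => b ?_)⟩
        rw [← e]; exact Clu.refl _
    have hEi : ∀ X ∈ Ei, V.Clu W X := fun X hX =>
      (Finset.mem_filter.1 (Finset.mem_filter.1 hX).1).2
    -- choose `C`
    have hchoose : ∃ C, V.Ball C ∧ (V.Clu W C ∨ W ⊂ C) ∧ ¬ C ⊆ ⋃₀ (Ei : Set (Set N)) ∧ C ⊆ D ∧
        (∀ X ∈ CC, z ∈ X → C ⊆ X) ∧ (∀ X ∈ E, ¬ V.Clu W X → z ∈ X → C ⊆ X) := by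
      by_cases hex : ∃ X ∈ CC, z ∈ X
      · -- the smallest member of `CC` containing `z`
        have hne : (CC.filter (fun X => z ∈ X)).Nonempty := by
          obtain ⟨X, hX, hzX⟩ := hex
          exact ⟨X, Finset.mem_filter.2 ⟨hX, hzX⟩⟩
        obtain ⟨C, hC⟩ := (CC.filter (fun X => z ∈ X)).exists_minimal hne
        obtain ⟨hC1, hzC⟩ := Finset.mem_filter.1 hC.prop
        obtain ⟨hCE, hCW⟩ := Finset.mem_filter.1 hC1
        refine ⟨C, hE C hCE, Or.inl hCW, ?_, ((hCW.lt_iff h1 h3).1 h2).1, ?_, ?_⟩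
        · intro hcov
          obtain ⟨X, hX, hzX⟩ := hcov hzC
          exact (Finset.mem_filter.1 hX).2 hzX
        · intro X hX hzX
          have hXE := (Finset.mem_filter.1 hX).1
          rcases (hE C hCE).cmp (hE X hXE) hzC hzX with h | h
          · exact h
          · exact hC.le_of_le (Finset.mem_filter.2 ⟨hX, hzX⟩) h
        · intro X hX hXW hzX
          exact ((hCW.lt_iff (hE X hX) hXW).1 ((hz X hX hXW).1 hzX)).1
      · push Not at hex
        -- the smallest of `D` and the members of `E` above `W`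
        let F := insert D (E.filter (fun X => ¬ V.Clu W X ∧ W ⊂ X))
        have hF : ∀ X ∈ F, V.Ball X ∧ ¬ V.Clu W X ∧ W ⊂ X := by
          intro X hX
          rcases Finset.mem_insert.1 hX with rfl | h
          · exact ⟨h1, h3, h2⟩
          · obtain ⟨a, b, c⟩ := Finset.mem_filter.1 h
            exact ⟨hE X a, b, c⟩
        obtain ⟨C, hC⟩ := F.exists_minimal ⟨D, Finset.mem_insert_self _ _⟩
        obtain ⟨hC1, hC2, hC3⟩ := hF C hC.prop
        have hmin : ∀ X ∈ F, C ⊆ X := by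
          intro X hX
          obtain ⟨hX1, hX2, hX3⟩ := hF X hX
          rcases hC1.cmp hX1 (hC3.1 hw) (hX3.1 hw) with h | h
          · exact h
          · exact hC.le_of_le hX h
        refine ⟨C, hC1, Or.inr hC3, not_cover_clu hW hC1 hC2 hC3 Ei hEi,
          hmin D (Finset.mem_insert_self _ _), fun X hX hzX => absurd hzX (hex X hX), ?_⟩
        intro X hX hXW hzX
        exact hmin X (Finset.mem_insert_of_mem (Finset.mem_filter.2 ⟨hX, hXW,
          (hz X hX hXW).1 hzX⟩))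
    obtain ⟨C, hC1, hC2, hC3, hC4, hC5, hC6⟩ := hchoose
    obtain ⟨y, hyC, hy1, hy2⟩ := NC hW hC1 hC2 Ei G hEi hG hC3
    have hyν : f y = ν := h5 y (hC4 hyC) fun X hX => hy2 X (Finset.mem_union_left _ hX)
    rw [← hyν]
    apply hf
    intro X hX
    by_cases hXW : V.Clu W X
    · have hXC : X ∈ CC := Finset.mem_filter.2 ⟨hX, hXW⟩
      constructor
      · intro hzX
        exact hC5 X hXC hzX hyC
      · intro hyX
        by_contra hzX
        exact hy1 X (Finset.mem_filter.2 ⟨hXC, hzX⟩) hyX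
    · constructor
      · intro hzX
        exact hC6 X hX hXW hzX hyC
      · intro hyX
        by_contra hzX
        refine hy2 X (Finset.mem_union_right _ (Finset.mem_filter.2 ⟨hX, hXW, fun h => hzX ?_⟩)) hyX
        exact (hz X hX hXW).2 h
  intro x y hxy
  by_cases hsame : SameAtom (E : Set (Set N)) x y
  · exact hf x y hsame
  · unfold SameAtom at hsame
    push Not at hsame
    obtain ⟨C, hCE, hC⟩ := hsame
    have hCW : V.Clu W C := by
      by_contra hCW
      have := hxy C ⟨hCE, hCW⟩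
      tauto
    -- members of `E \ cl W` containing `x` are exactly those above `W`
    have hz : ∀ z z', SameAtom {X | X ∈ E ∧ ¬ V.Clu W X} z z' → z ∈ C → z' ∉ C →
        ∀ X ∈ E, ¬ V.Clu W X → (z ∈ X ↔ W ⊂ X) := by
      intro z z' hzz hzC hz'C X hX hXW
      constructor
      · intro hzX
        have hz'X := (hzz X ⟨hX, hXW⟩).1 hzX
        rcases (hE C hCE).cmp (hE X hX) hzC hzX with h | h
        · have : C ⊂ X := ⟨h, fun h' => hz'C (h' hz'X)⟩
          exact (hCW.lt_iff (hE X hX) hXW).2 this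
        · exact absurd (h hz'X) hz'C
      · intro hWX
        exact ((hCW.lt_iff (hE X hX) hXW).1 hWX).1 hzC
    have hz' : ∀ z z', SameAtom {X | X ∈ E ∧ ¬ V.Clu W X} z z' → z ∈ C → z' ∉ C →
        f z = f z' := by
      intro z z' hzz hzC hz'C
      have e1 := hz z z' hzz hzC hz'C
      rw [key z e1, key z' fun X hX hXW => (hzz X ⟨hX, hXW⟩).symm.trans (e1 X hX hXW)]
    rcases hC with ⟨a, b⟩ | ⟨a, b⟩
    · exact hz' x y hxy a b
    · exact (hz' y x hxy.symm b a).symm

end VC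

end Pool.Agent.VCM
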