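import Pool.Agent.VCM.Hom

/-! Semantic definability. -/

open FirstOrder FirstOrder.Language
open scoped Pointwise

namespace Pool.Agent.VCM

variable {L : FirstOrder.Language.{0, 0}} {N : Type} [L.Structure N]

/-- `R` is `∅`-definable -/
def Dfn (L : FirstOrder.Language.{0, 0}) {N : Type} [L.Structure N] {α : Type}
    (R : (α → N) → Prop) : Prop := ∃ φ : L.Formula α, ∀ v, φ.Realize v ↔ R v

namespace Dfn

variable {α β κ : Type} {R S : (α → N) → Prop}

theorem of_iff (h : Dfn L R) (e : ∀ v, R v ↔ S v) : Dfn L S := by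
  obtain ⟨φ, hφ⟩ := h
  exact ⟨φ, fun v => (hφ v).trans (e v)⟩

theorem tp (h : Dfn L R) {p q : α → N} (hpq : TpEq L p q) : R p ↔ R q := by
  obtain ⟨φ, hφ⟩ := h
  rw [← hφ, ← hφ]; exact hpq φ

theorem real (φ : L.Formula β) (s : β → α) (g : (α → N) → (β → N)) (hg : ∀ v b, g v b = v (s b)) :
    Dfn L (fun v : α → N => φ.Realize (g v)) := by
  refine ⟨φ.relabel s, fun v => ?_⟩
  rw [Formula.realize_relabel]
  apply iff_of_eq
  congr 1
  funext b
  exact (hg v b).symm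

theorem formula (φ : L.Formula α) : Dfn L (fun v : α → N => φ.Realize v) := ⟨φ, fun _ => Iff.rfl⟩

theorem comp {R : (β → N) → Prop} (h : Dfn L R) (s : β → α) (g : (α → N) → (β → N))
    (hg : ∀ v b, g v b = v (s b)) : Dfn L (fun v : α → N => R (g v)) := by
  obtain ⟨φ, hφ⟩ := h
  exact (real φ s g hg).of_iff fun v => hφ _

theorem true' : Dfn L (fun _ : α → N => True) := ⟨⊤, fun v => by simp⟩

theorem false' : Dfn L (fun _ : α → N => False) := ⟨⊥, fun v => by simp⟩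

theorem const (P : Prop) : Dfn L (fun _ : α → N => P) := by
  by_cases h : P
  · exact true'.of_iff fun v => by simp [h]
  · exact false'.of_iff fun v => by simp [h]

theorem not (h : Dfn L R) : Dfn L (fun v => ¬ R v) := by
  obtain ⟨φ, hφ⟩ := h
  exact ⟨φ.not, fun v => by rw [Formula.realize_not, hφ]⟩

theorem and (h : Dfn L R) (h' : Dfn L S) : Dfn L (fun v => R v ∧ S v) := by
  obtain ⟨φ, hφ⟩ := h
  obtain ⟨ψ, hψ⟩ := h'
  exact ⟨φ ⊓ ψ, fun v => by rw [Formula.realize_inf, hφ, hψ]⟩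

theorem or (h : Dfn L R) (h' : Dfn L S) : Dfn L (fun v => R v ∨ S v) :=
  ((h.not.and h'.not).not).of_iff fun v => by tauto

theorem imp (h : Dfn L R) (h' : Dfn L S) : Dfn L (fun v => R v → S v) :=
  ((h.and h'.not).not).of_iff fun v => by tauto

theorem iff (h : Dfn L R) (h' : Dfn L S) : Dfn L (fun v => (R v ↔ S v)) :=
  ((h.imp h').and (h'.imp h)).of_iff fun v => by tauto

theorem exT [Nonempty N] {R : (α → N) → (κ → N) → Prop}
    (h : Dfn L (fun u : α ⊕ κ → N => R (u ∘ Sum.inl) (u ∘ Sum.inr))) :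
    Dfn L (fun v => ∃ x : κ → N, R v x) := by
  obtain ⟨φ, hφ⟩ := h
  obtain ⟨ψ, hψ⟩ := exists_ex φ
  refine ⟨ψ, fun v => ?_⟩
  rw [hψ]
  simp only [hφ, Sum.elim_comp_inl, Sum.elim_comp_inr]

theorem allT [Nonempty N] {R : (α → N) → (κ → N) → Prop}
    (h : Dfn L (fun u : α ⊕ κ → N => R (u ∘ Sum.inl) (u ∘ Sum.inr))) :
    Dfn L (fun v => ∀ x : κ → N, R v x) :=
  (exT (R := fun v x => ¬ R v x) h.not).not.of_iff fun v => by push Not; rfl

theorem ex1 [Nonempty N] {R : (α → N) → N → Prop}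
    (h : Dfn L (fun u : α ⊕ Unit → N => R (u ∘ Sum.inl) (u (Sum.inr ())))) :
    Dfn L (fun v => ∃ x : N, R v x) := by
  refine (exT (κ := Unit) (R := fun v (x : Unit → N) => R v (x ())) h).of_iff fun v => ?_
  exact ⟨fun ⟨x, hx⟩ => ⟨x (), hx⟩, fun ⟨x, hx⟩ => ⟨fun _ => x, hx⟩⟩

theorem all1 [Nonempty N] {R : (α → N) → N → Prop}
    (h : Dfn L (fun u : α ⊕ Unit → N => R (u ∘ Sum.inl) (u (Sum.inr ())))) :
    Dfn L (fun v => ∀ x : N, R v x) :=
  (ex1 (R := fun v x => ¬ R v x) h.not).not.of_iff fun v => by push Not; rfl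

theorem eq (i j : α) : Dfn L (fun v : α → N => v i = v j) :=
  ⟨(Term.var i : L.Term α).equal (Term.var j), fun v => by simp [Formula.realize_equal]⟩

theorem finsetAll {I : Type} (F : Finset I) {R : I → (α → N) → Prop}
    (h : ∀ i ∈ F, Dfn L (R i)) : Dfn L (fun v => ∀ i ∈ F, R i v) := by
  classical
  induction F using Finset.induction_on with
  | empty => exact true'.of_iff fun v => by simp
  | insert a F _ ih =>
    have h1 := h a (Finset.mem_insert_self _ _)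
    have h2 := ih fun i hi => h i (Finset.mem_insert_of_mem hi)
    exact (h1.and h2).of_iff fun v => by simp

theorem finsetEx {I : Type} (F : Finset I) {R : I → (α → N) → Prop}
    (h : ∀ i ∈ F, Dfn L (R i)) : Dfn L (fun v => ∃ i ∈ F, R i v) :=
  (finsetAll F (R := fun i v => ¬ R i v) fun i hi => (h i hi).not).not.of_iff fun v => by
    push Not; rfl

theorem finiteAll {I : Type} [Finite I] {R : I → (α → N) → Prop}
    (h : ∀ i, Dfn L (R i)) : Dfn L (fun v => ∀ i, R i v) := by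
  cases nonempty_fintype I
  exact (finsetAll Finset.univ fun i _ => h i).of_iff fun v => by simp

theorem finiteEx {I : Type} [Finite I] {R : I → (α → N) → Prop}
    (h : ∀ i, Dfn L (R i)) : Dfn L (fun v => ∃ i, R i v) := by
  cases nonempty_fintype I
  exact (finsetEx Finset.univ fun i _ => h i).of_iff fun v => by simp

end Dfn

theorem AutG.dfn (g : AutG L N) {α : Type} {R : (α → N) → Prop} (h : Dfn L R) (v : α → N) :
    R (fun i => (g : Equiv.Perm N) (v i)) ↔ R v := h.tp (AutG.tp g v)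

theorem AutG.smul_def (g : AutG L N) (x : N) : g • x = (g : Equiv.Perm N) x := rfl

/-! ### Fibres: definable subsets of the line -/

/-- the set defined by `θ(x; w)` -/
def fib (θ : L.Formula (Unit ⊕ ℕ)) (w : ℕ → N) : Set N :=
  {x | θ.Realize (Sum.elim (fun _ => x) w)}

theorem mem_fib {θ : L.Formula (Unit ⊕ ℕ)} {w : ℕ → N} {x : N} :
    x ∈ fib θ w ↔ θ.Realize (Sum.elim (fun _ => x) w) := Iff.rfl

theorem fib_smul (g : AutG L N) (θ : L.Formula (Unit ⊕ ℕ)) (w : ℕ → N) :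
    fib θ (fun i => g • w i) = g • fib θ w := by
  ext x
  rw [Set.mem_smul_set_iff_inv_smul_mem, mem_fib, mem_fib]
  have h := AutG.realize g (Sum.elim (fun _ : Unit => g⁻¹ • x) w) θ
  rw [← h]
  apply iff_of_eq
  congr 1
  funext k
  rcases k with k | k
  · show x = g • (g⁻¹ • x)
    rw [smul_inv_smul]
  · rfl

theorem dfn_mem {α : Type} (θ : L.Formula (Unit ⊕ ℕ)) (i : α) (s : ℕ → α)
    (g : (α → N) → N) (w : (α → N) → (ℕ → N)) (hg : ∀ v, g v = v i) (hw : ∀ v j, w v j = v (s j)) :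
    Dfn L (fun v : α → N => g v ∈ fib θ (w v)) := by
  refine Dfn.real θ (Sum.elim (fun _ => i) s) (fun v => Sum.elim (fun _ => g v) (w v)) ?_
  intro v b
  rcases b with b | b
  · exact hg v
  · exact hw v b

/-- definability of a relation between two tuples `ℕ → N` -/
def Dfn2 (L : FirstOrder.Language.{0, 0}) {N : Type} [L.Structure N]
    (R : (ℕ → N) → (ℕ → N) → Prop) : Prop :=
  Dfn L (fun u : ℕ ⊕ ℕ → N => R (u ∘ Sum.inl) (u ∘ Sum.inr))

/-- definability of a property of a tuple `ℕ → N` -/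
abbrev Dfn1 (L : FirstOrder.Language.{0, 0}) {N : Type} [L.Structure N]
    (R : (ℕ → N) → Prop) : Prop := Dfn L R

section

variable [Nonempty N]

theorem dfn_subset (θ θ' : L.Formula (Unit ⊕ ℕ)) :
    Dfn2 L (fun w w' : ℕ → N => fib θ w ⊆ fib θ' w') := by
  unfold Dfn2
  refine Dfn.all1 (R := fun (u : ℕ ⊕ ℕ → N) x =>
    x ∈ fib θ (u ∘ Sum.inl) → x ∈ fib θ' (u ∘ Sum.inr)) ?_
  refine Dfn.imp ?_ ?_
  · exact dfn_mem θ (Sum.inr ()) (fun j => Sum.inl (Sum.inl j)) _ _ (fun v => rfl) (fun v j => rfl)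
  · exact dfn_mem θ' (Sum.inr ()) (fun j => Sum.inl (Sum.inr j)) _ _ (fun v => rfl) (fun v j => rfl)

end

namespace Dfn2

variable {R S : (ℕ → N) → (ℕ → N) → Prop}

theorem of_iff (h : Dfn2 L R) (e : ∀ v w, R v w ↔ S v w) : Dfn2 L S :=
  Dfn.of_iff h fun _ => e _ _

theorem swap (h : Dfn2 L R) : Dfn2 L (fun w w' => R w' w) :=
  Dfn.comp (R := fun u : ℕ ⊕ ℕ → N => R (u ∘ Sum.inl) (u ∘ Sum.inr)) h Sum.swap
    (fun v => v ∘ Sum.swap) (fun v b => rfl)

theorem and (h : Dfn2 L R) (h' : Dfn2 L S) : Dfn2 L (fun w w' => R w w' ∧ S w w') := Dfn.and h h'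
theorem or (h : Dfn2 L R) (h' : Dfn2 L S) : Dfn2 L (fun w w' => R w w' ∨ S w w') := Dfn.or h h'
theorem imp (h : Dfn2 L R) (h' : Dfn2 L S) : Dfn2 L (fun w w' => R w w' → S w w') := Dfn.imp h h'
theorem not (h : Dfn2 L R) : Dfn2 L (fun w w' => ¬ R w w') := Dfn.not h

theorem left {P : (ℕ → N) → Prop} (h : Dfn1 L P) : Dfn2 L (fun w _ => P w) :=
  Dfn.comp h Sum.inl (fun v => v ∘ Sum.inl) (fun _ _ => rfl)

theorem right {P : (ℕ → N) → Prop} (h : Dfn1 L P) : Dfn2 L (fun _ w => P w) :=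
  Dfn.comp h Sum.inr (fun v => v ∘ Sum.inr) (fun _ _ => rfl)

/-- invariance -/
theorem smul_iff (h : Dfn2 L R) (g : AutG L N) (w w' : ℕ → N) :
    R (fun i => g • w i) (fun i => g • w' i) ↔ R w w' := by
  have := AutG.dfn g h (Sum.elim w w')
  exact this

end Dfn2

section

variable [Nonempty N]

theorem dfn_eq (θ θ' : L.Formula (Unit ⊕ ℕ)) :
    Dfn2 L (fun w w' : ℕ → N => fib θ w = fib θ' w') :=
  ((dfn_subset θ θ').and (dfn_subset θ' θ).swap).of_iff fun _ _ => Set.Subset.antisymm_iff.symm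

theorem dfn_ssubset (θ θ' : L.Formula (Unit ⊕ ℕ)) :
    Dfn2 L (fun w w' : ℕ → N => fib θ w ⊂ fib θ' w') :=
  ((dfn_subset θ θ').and (dfn_subset θ' θ).swap.not).of_iff fun _ _ => Iff.rfl

theorem dfn_disjoint (θ θ' : L.Formula (Unit ⊕ ℕ)) :
    Dfn2 L (fun w w' : ℕ → N => Disjoint (fib θ w) (fib θ' w')) := by
  have h : Dfn2 L (fun w w' : ℕ → N => ∀ x, x ∈ fib θ w → x ∉ fib θ' w') := by
    unfold Dfn2
    refine Dfn.all1 (R := fun (u : ℕ ⊕ ℕ → N) x =>
      x ∈ fib θ (u ∘ Sum.inl) → x ∉ fib θ' (u ∘ Sum.inr)) ?_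
    refine Dfn.imp ?_ (Dfn.not ?_)
    · exact dfn_mem θ (Sum.inr ()) (fun j => Sum.inl (Sum.inl j)) _ _ (fun v => rfl)
        (fun v j => rfl)
    · exact dfn_mem θ' (Sum.inr ()) (fun j => Sum.inl (Sum.inr j)) _ _ (fun v => rfl)
        (fun v j => rfl)
  exact h.of_iff fun _ _ => Set.disjoint_left.symm

theorem dfn_nonempty (θ : L.Formula (Unit ⊕ ℕ)) :
    Dfn1 L (fun w : ℕ → N => (fib θ w).Nonempty) := by
  refine Dfn.ex1 (R := fun (u : ℕ → N) x => x ∈ fib θ u) ?_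
  exact dfn_mem θ (Sum.inr ()) (fun j => Sum.inl j) _ _ (fun v => rfl) (fun v j => rfl)

end

namespace Levels

variable (Λ : Levels L N)

/-- a tuple `ℕ → N` in the level `n` -/
def InS (n : ℕ) (w : ℕ → N) : Prop := ∀ i, w i ∈ Λ.S n

theorem InS.mono {Λ : Levels L N} {n m : ℕ} {w : ℕ → N} (h : Λ.InS n w) (hnm : n ≤ m) :
    Λ.InS m w := fun i => Λ.mono hnm (h i)

/-- every fibre has a parameter in some level -/
theorem exists_level (θ : L.Formula (Unit ⊕ ℕ)) (w : ℕ → N) :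
    ∃ n w', Λ.InS n w' ∧ fib θ w' = fib θ w := by
  classical
  obtain ⟨F, ψ, hψ⟩ := fin_supp θ
  let K : Finset ℕ := F.preimage Sum.inr (Sum.inr_injective.injOn)
  obtain ⟨n, hn⟩ := Λ.finite_level (fun k : K => w k)
  have hne : Nonempty N := Λ.nonempty
  refine ⟨n, fun i => if h : i ∈ K then w i else Λ.ne.some, fun i => ?_, ?_⟩
  · beta_reduce
    split_ifs with h
    · exact hn ⟨i, h⟩
    · exact Λ.mono (Nat.zero_le n) Λ.ne.some_mem
  · ext x
    rw [mem_fib, mem_fib, hψ, hψ]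
    apply iff_of_eq
    congr 1
    funext a
    rcases a with ⟨a | k, h⟩
    · rfl
    · have hk : k ∈ K := by simpa [K] using h
      show (if h : k ∈ K then w k else Λ.ne.some) = w k
      rw [dif_pos hk]

/-- transfer of a binary relation to a limit -/
theorem IsLim.dfn2 {Λ : Levels L N} {J : Type} {U : Ultrafilter J} {f : J → AutG L N} {n : ℕ}
    {σ : AutG L N} (h : Λ.IsLim U f n σ) {R : (ℕ → N) → (ℕ → N) → Prop} (hR : Dfn2 L R)
    {w w' : ℕ → N} (hw : Λ.InS n w) (hw' : Λ.InS n w') :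
    R w (fun i => σ • w' i) ↔ ∀ᶠ j in (U : Filter J), R w (fun i => f j • w' i) := by
  obtain ⟨φ, hφ⟩ := hR
  have h2 := h.2 (φ.relabel (Sum.map (fun i => (⟨w i, hw i⟩ : Λ.S n))
    (fun i => (⟨w' i, hw' i⟩ : Λ.S n))))
  simp only [Formula.realize_relabel, hφ] at h2
  exact h2

/-- transfer of a binary relation to a limit -/
theorem IsLim.dfn2' {Λ : Levels L N} {J : Type} {U : Ultrafilter J} {f : J → AutG L N} {n : ℕ}
    {σ : AutG L N} (h : Λ.IsLim U f n σ) {R : (ℕ → N) → (ℕ → N) → Prop} (hR : Dfn2 L R)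
    {w w' : ℕ → N} (hw : Λ.InS n w) (hw' : Λ.InS n w') :
    R (fun i => σ • w i) w' ↔ ∀ᶠ j in (U : Filter J), R (fun i => f j • w i) w' :=
  h.dfn2 hR.swap hw' hw

/-- transfer of a general relation to a limit -/
theorem IsLim.dfn {Λ : Levels L N} {J : Type} {U : Ultrafilter J} {f : J → AutG L N} {n : ℕ}
    {σ : AutG L N} (h : Λ.IsLim U f n σ) {α β : Type} {R : (α ⊕ β → N) → Prop} (hR : Dfn L R)
    {w : α → N} {w' : β → N} (hw : ∀ i, w i ∈ Λ.S n) (hw' : ∀ i, w' i ∈ Λ.S n) :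
    R (Sum.elim w (fun i => σ • w' i)) ↔
      ∀ᶠ j in (U : Filter J), R (Sum.elim w (fun i => f j • w' i)) := by
  obtain ⟨φ, hφ⟩ := hR
  have h2 := h.2 (φ.relabel (Sum.map (fun i => (⟨w i, hw i⟩ : Λ.S n))
    (fun i => (⟨w' i, hw' i⟩ : Λ.S n))))
  simp only [Formula.realize_relabel, hφ] at h2
  have e1 : Sum.elim w (fun i => σ • w' i) = (Sum.elim (fun x : Λ.S n => (x : N))
      fun x : Λ.S n => (σ : Equiv.Perm N) x) ∘ Sum.map (fun i => (⟨w i, hw i⟩ : Λ.S n))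
      (fun i => (⟨w' i, hw' i⟩ : Λ.S n)) := by
    funext k; rcases k with k | k <;> rfl
  have e2 : ∀ j, Sum.elim w (fun i => f j • w' i) = (Sum.elim (fun x : Λ.S n => (x : N))
      fun x : Λ.S n => (f j : Equiv.Perm N) x) ∘ Sum.map (fun i => (⟨w i, hw i⟩ : Λ.S n))
      (fun i => (⟨w' i, hw' i⟩ : Λ.S n)) := by
    intro j; funext k; rcases k with k | k <;> rfl
  rw [e1]
  simp only [e2]
  exact h2

end Levels

end Pool.Agent.VCM
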