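import Pool.Agent.VCM.Final

/-! The counting theorem with the exact exponent, and for families of independence dimension `≤ 1`. -/

open FirstOrder FirstOrder.Language
open scoped Pointwise

namespace Pool.Agent.VCM

/-- the counting theorem with the exact exponent -/
theorem final_nat
    (hcount : ∀ (L : FirstOrder.Language.{0,0}) (N : Type) [L.Structure N] [Nonempty N] (V : VC L N) (_ : Levels L N)
      (p d : ℕ) (β : Type) [Finite β] (k : ℕ) (S : Sys L N (Fin d ⊕ β) p k),
      ∃ C : ℕ, ∀ (e : β → N) (B : Finset (Fin p → N)),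
        {t : Set (Set (Fin p → N)) | ∃ x : Fin d → N, t = (fun w => w ∩ ↑B) '' S.T (Sum.elim x e)}.ncard
          ≤ C * (B.card + 1) ^ d) :
  ∀ (L : FirstOrder.Language.{0,0}) (M : Type) [L.Structure M],
    (∃ Ψ : Set (Σ k : ℕ, L.Formula (Fin 1 ⊕ Fin k)),
      ∀ (N : Type) [L.Structure N], L.completeTheory N = L.completeTheory M →
        (∀ ψ₁ ∈ Ψ, ∀ ψ₂ ∈ Ψ, ∀ (b₁ : Fin ψ₁.1 → N) (b₂ : Fin ψ₂.1 → N),
          {a : N | ψ₁.2.Realize (Sum.elim (fun _ => a) b₁)} ⊆
              {a : N | ψ₂.2.Realize (Sum.elim (fun _ => a) b₂)} ∨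
            {a : N | ψ₂.2.Realize (Sum.elim (fun _ => a) b₂)} ⊆
              {a : N | ψ₁.2.Realize (Sum.elim (fun _ => a) b₁)} ∨
            Disjoint {a : N | ψ₁.2.Realize (Sum.elim (fun _ => a) b₁)}
              {a : N | ψ₂.2.Realize (Sum.elim (fun _ => a) b₂)}) ∧
        (∀ (k : ℕ) (φ : L.Formula (Fin 1 ⊕ Fin k)) (c : Fin k → N),
          {a : N | φ.Realize (Sum.elim (fun _ => a) c)} ∈
            BooleanSubalgebra.closure
              {S : Set N | ∃ ψ ∈ Ψ, ∃ b : Fin ψ.1 → N,
                S = {a : N | ψ.2.Realize (Sum.elim (fun _ => a) b)}})) →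
    ∀ (m k : ℕ) (φ : L.Formula (Fin m ⊕ Fin k)),
      ∃ C : ℕ, ∀ B : Finset (Fin k → M),
        {S : Finset (Fin k → M) | S ⊆ B ∧
            ∃ a : Fin m → M, ∀ b ∈ B, (b ∈ S ↔ φ.Realize (Sum.elim a b))}.ncard
          ≤ C * (B.card + 1) ^ m := by
  classical
  intro L M _ hM m k φ
  rcases isEmpty_or_nonempty M with hempty | hne
  · -- the empty structure
    refine ⟨2, fun B => ?_⟩
    have hsub : Subsingleton (Fin k → M) := inferInstance
    have hfin : {S : Finset (Fin k → M) | S ⊆ B ∧
        ∃ a : Fin m → M, ∀ b ∈ B, (b ∈ S ↔ φ.Realize (Sum.elim a b))} ⊆ ↑(B.powerset) := by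
      rintro S ⟨hS, -⟩
      simpa using hS
    have h1 := Set.ncard_le_ncard hfin (Finset.finite_toSet _)
    rw [Set.ncard_coe_finset, Finset.card_powerset] at h1
    have h2 : B.card ≤ 1 := Finset.card_le_one.2 fun a _ b _ => Subsingleton.elim a b
    have h3 : 2 ^ B.card ≤ 2 ^ 1 := Nat.pow_le_pow_right (by norm_num) h2
    have h5 : 1 ≤ (B.card + 1) ^ m := Nat.one_le_pow _ _ (by omega)
    calc _ ≤ 2 ^ B.card := h1
      _ ≤ 2 * 1 := by simpa using h3
      _ ≤ 2 * (B.card + 1) ^ m := Nat.mul_le_mul_left 2 h5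
  · obtain ⟨Ψ, hΨ⟩ := hM
    obtain ⟨N, iN, f, Λ, -⟩ := exists_monster L M
    have hth : L.completeTheory N = L.completeTheory M := (f.elementarilyEquivalent).symm
    obtain ⟨g1, g2⟩ := hΨ N hth
    have : Nonempty N := ⟨f hne.some⟩
    obtain ⟨V⟩ := exists_VC Ψ g1 g2
    obtain ⟨C, hC⟩ := hcount L N V Λ k m Empty 1 (formSys φ)
    refine ⟨C, fun B => ?_⟩
    -- transfer
    let F : (Fin k → M) → (Fin k → N) := fun b i => f (b i)
    have hF : Function.Injective F := fun b b' h => funext fun i => f.injective (congrFun h i)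
    have key : ∀ (a : Fin m → M) (b : Fin k → M),
        φ.Realize (Sum.elim (fun i => f (a i)) (F b)) ↔ φ.Realize (Sum.elim a b) := by
      intro a b
      rw [← f.map_formula]
      apply iff_of_eq
      congr 1
      funext i
      rcases i with i | i <;> rfl
    have h1 := hC (fun e => e.elim) (B.image F)
    rw [Finset.card_image_of_injective _ hF] at h1
    have h2 : {S : Finset (Fin k → M) | S ⊆ B ∧
            ∃ a : Fin m → M, ∀ b ∈ B, (b ∈ S ↔ φ.Realize (Sum.elim a b))}.ncard ≤
        {t : Set (Set (Fin k → N)) | ∃ x : Fin m → N,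
          t = (fun w => w ∩ ↑(B.image F)) '' (formSys φ).T (Sum.elim x (fun e : Empty => e.elim))}.ncard := by
      refine Set.ncard_le_ncard_of_injOn (fun S => {(↑(S.image F) : Set (Fin k → N))}) ?_ ?_ ?_
      · rintro S ⟨hS, a, ha⟩
        refine ⟨fun i => f (a i), ?_⟩
        simp only [formSys, Set.image_singleton, Sum.elim_inl]
        congr 1
        ext y
        simp only [Finset.coe_image, Set.mem_image, Finset.mem_coe, Set.mem_inter_iff,
          Set.mem_ofPred_eq]
        constructor
        · rintro ⟨b, hb, rfl⟩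
          exact ⟨(key a b).2 ((ha b (hS hb)).1 hb), b, hS hb, rfl⟩
        · rintro ⟨hy, b, hb, rfl⟩
          exact ⟨b, (ha b hb).2 ((key a b).1 hy), rfl⟩
      · intro S _ S' _ h
        have h' : (↑(S.image F) : Set (Fin k → N)) = ↑(S'.image F) := Set.singleton_injective h
        exact Finset.image_injective hF (Finset.coe_injective h')
      · apply ((Finset.finite_toSet (B.image F).powerset).image
          (fun X : Finset (Fin k → N) => ({(↑X : Set (Fin k → N))} : Set (Set (Fin k → N))))).subset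
        rintro t ⟨x, rfl⟩
        simp only [formSys, Set.image_singleton, Sum.elim_inl]
        refine ⟨(B.image F).filter (fun b => φ.Realize (Sum.elim x b)), ?_, ?_⟩
        · simp only [Finset.coe_powerset, Set.mem_preimage, Set.mem_powerset_iff]
          intro b hb
          simp only [Finset.coe_filter, Set.mem_ofPred_eq] at hb
          exact hb.1
        · show ({_} : Set (Set (Fin k → N))) = {_}
          rw [Set.singleton_eq_singleton_iff]
          ext b
          simp only [Finset.coe_filter, Set.mem_ofPred_eq, Set.mem_inter_iff, Finset.mem_coe]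
          exact and_comm
    exact h2.trans h1

end Pool.Agent.VCM
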