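import Pool.Agent.VCM.Assemble
import Pool.Agent.VCM.FinalNat

/-! The counting theorem for families of independence dimension at most one (naming a constant). -/

open FirstOrder FirstOrder.Language

namespace Pool.Agent.VCM

/-- the set of instances of `Ψ` in `N` -/
def Instances (L : FirstOrder.Language.{0, 0}) (Ψ : Set (Σ k : ℕ, L.Formula (Fin 1 ⊕ Fin k))) (N : Type)
    [L.Structure N] : Set (Set N) :=
  {S | ∃ ψ ∈ Ψ, ∃ b : Fin ψ.1 → N, S = {a : N | ψ.2.Realize (Sum.elim (fun _ => a) b)}}

/-- a finite family of subsets of `X` is independent: all the Boolean atoms are nonempty -/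
def Independent {X : Type} (F : Finset (Set X)) : Prop :=
  ∀ s : Set (Set X), ∃ x : X, ∀ A ∈ F, (x ∈ A ↔ A ∈ s)

/-- independence dimension at most one -/
def IndDimLeOne {X : Type} (𝒜 : Set (Set X)) : Prop :=
  ∀ F : Finset (Set X), (∀ A ∈ F, A ∈ 𝒜) → Independent F → F.card ≤ 1

/-- the complete theory of `M` is VC-minimal -/
def VCMinimalTheory (L : FirstOrder.Language.{0, 0}) (M : Type) [L.Structure M] : Prop :=
  ∃ Ψ : Set (Σ k : ℕ, L.Formula (Fin 1 ⊕ Fin k)),
    ∀ (N : Type) [L.Structure N], L.completeTheory N = L.completeTheory M →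
      IndDimLeOne (Instances L Ψ N) ∧
        ∀ (k : ℕ) (φ : L.Formula (Fin 1 ⊕ Fin k)) (c : Fin k → N),
          {a : N | φ.Realize (Sum.elim (fun _ => a) c)} ∈ BooleanSubalgebra.closure (Instances L Ψ N)

theorem four_cases {X : Type} {𝒜 : Set (Set X)} (h : IndDimLeOne 𝒜) {A B : Set X} (hA : A ∈ 𝒜) (hB : B ∈ 𝒜) :
    (∀ x, x ∈ A → x ∈ B) ∨ (∀ x, x ∈ B → x ∈ A) ∨ (∀ x, x ∈ A → x ∉ B) ∨ (∀ x, x ∈ A ∨ x ∈ B) := by
  classical
  by_cases hAB : A = B
  · left; rw [hAB]; exact fun _ h => h
  by_contra hcon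
  push Not at hcon
  obtain ⟨⟨x₁, h1, h1'⟩, ⟨x₂, h2, h2'⟩, ⟨x₃, h3, h3'⟩, ⟨x₄, h4, h4'⟩⟩ := hcon
  have h5 := h {A, B} (by
    intro C hC
    rcases Finset.mem_insert.1 hC with rfl | hC
    · exact hA
    · rw [Finset.mem_singleton.1 hC]; exact hB) (by
    intro s
    by_cases hAs : A ∈ s <;> by_cases hBs : B ∈ s
    · exact ⟨x₃, by simp [hAs, hBs, h3, h3']⟩
    · exact ⟨x₁, by simp [hAs, hBs, h1, h1']⟩
    · exact ⟨x₂, by simp [hAs, hBs, h2, h2']⟩
    · exact ⟨x₄, by simp [hAs, hBs, h4, h4']⟩)
  rw [Finset.card_pair hAB] at h5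
  omega

variable {L : FirstOrder.Language.{0, 0}}

/-- from `L`-formulas with an additional variable to formulas with a constant -/
noncomputable def liftC {β : Type} (χ : L.Formula (Unit ⊕ β)) : L[[Unit]].Formula β :=
  (BoundedFormula.constantsVarsEquiv (L := L) (γ := Unit) (α := β) (n := 0)).symm χ

theorem realize_liftC {β N : Type} [L.Structure N] [L[[Unit]].Structure N] [(L.lhomWithConstants Unit).IsExpansionOn N]
    (χ : L.Formula (Unit ⊕ β)) (v : β → N) :
    (liftC χ).Realize v ↔ χ.Realize (Sum.elim (fun _ => ((L.con (() : Unit) : L[[Unit]].Constants) : N)) v) := by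
  unfold Formula.Realize
  rw [← BoundedFormula.realize_constantsVarsEquiv (φ := liftC χ)]
  unfold liftC
  rw [Equiv.apply_symm_apply]

/-- the modified formula: complement of the instances containing the constant -/
noncomputable def tog {k : ℕ} (ψ : L.Formula (Fin 1 ⊕ Fin k)) : L[[Unit]].Formula (Fin 1 ⊕ Fin k) :=
  liftC (((ψ.relabel (Sum.inr : Fin 1 ⊕ Fin k → Unit ⊕ (Fin 1 ⊕ Fin k))).iff
    (ψ.relabel (fun i => Sum.elim (fun _ => Sum.inl ()) (fun j => Sum.inr (Sum.inr j)) i :
      Fin 1 ⊕ Fin k → Unit ⊕ (Fin 1 ⊕ Fin k)))).not)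

theorem realize_tog {k : ℕ} {N : Type} [L.Structure N] [L[[Unit]].Structure N]
    [(L.lhomWithConstants Unit).IsExpansionOn N] (ψ : L.Formula (Fin 1 ⊕ Fin k)) (a : N) (b : Fin k → N) :
    (tog ψ).Realize (Sum.elim (fun _ => a) b) ↔
      ¬ (ψ.Realize (Sum.elim (fun _ => a) b) ↔
        ψ.Realize (Sum.elim (fun _ => ((L.con (() : Unit) : L[[Unit]].Constants) : N)) b)) := by
  unfold tog
  rw [realize_liftC, Formula.realize_not, Formula.realize_iff, Formula.realize_relabel, Formula.realize_relabel]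
  have e1 : (Sum.elim (fun _ => ((L.con (() : Unit) : L[[Unit]].Constants) : N)) (Sum.elim (fun _ : Fin 1 => a) b)) ∘
      (Sum.inr : Fin 1 ⊕ Fin k → Unit ⊕ (Fin 1 ⊕ Fin k)) = Sum.elim (fun _ => a) b := by
    funext i; rfl
  have e2 : (Sum.elim (fun _ => ((L.con (() : Unit) : L[[Unit]].Constants) : N)) (Sum.elim (fun _ : Fin 1 => a) b)) ∘
      (fun i => Sum.elim (fun _ => Sum.inl ()) (fun j => Sum.inr (Sum.inr j)) i :
      Fin 1 ⊕ Fin k → Unit ⊕ (Fin 1 ⊕ Fin k)) =
        Sum.elim (fun _ => ((L.con (() : Unit) : L[[Unit]].Constants) : N)) b := by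
    funext i
    rcases i with i | i <;> rfl
  rw [e1, e2]

theorem counting (L : FirstOrder.Language.{0, 0}) (M : Type) [L.Structure M] (h : VCMinimalTheory L M)
    (m k : ℕ) (φ : L.Formula (Fin m ⊕ Fin k)) :
    ∃ C : ℕ, ∀ B : Finset (Fin k → M),
      {S : Finset (Fin k → M) | S ⊆ B ∧ ∃ a : Fin m → M, ∀ b ∈ B, (b ∈ S ↔ φ.Realize (Sum.elim a b))}.ncard
        ≤ C * (B.card + 1) ^ m := by
  classical
  rcases isEmpty_or_nonempty M with hempty | hne
  · refine ⟨2, fun B => ?_⟩
    have hsub : Subsingleton (Fin k → M) := inferInstance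
    have hfin : {S : Finset (Fin k → M) | S ⊆ B ∧
        ∃ a : Fin m → M, ∀ b ∈ B, (b ∈ S ↔ φ.Realize (Sum.elim a b))} ⊆ ↑(B.powerset) := by
      rintro S ⟨hS, -⟩
      simpa using hS
    have h1 := Set.ncard_le_ncard hfin (Finset.finite_toSet _)
    rw [Set.ncard_coe_finset, Finset.card_powerset] at h1
    have h2 : B.card ≤ 1 := Finset.card_le_one.2 fun a _ b _ => Subsingleton.elim a b
    have h3 : 2 ^ B.card ≤ 2 ^ 1 := Nat.pow_le_pow_right (by norm_num) h2
    have h5 : 1 ≤ (B.card + 1) ^ m := Nat.one_le_pow _ _ (by omega)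
    calc _ ≤ 2 ^ B.card := h1
      _ ≤ 2 * 1 := by simpa using h3
      _ ≤ 2 * (B.card + 1) ^ m := Nat.mul_le_mul_left 2 h5
  · obtain ⟨m₀⟩ := hne
    obtain ⟨Ψ, hΨ⟩ := h
    let _ : (constantsOn Unit).Structure M := constantsOn.structure (fun _ => m₀)
    have key := final_nat (fun _ _ _ _ V Λ p d β _ k S => count_all V Λ p d β k S) (L[[Unit]]) M
      ⟨{χ | ∃ ψ ∈ Ψ, χ = ⟨ψ.1, tog ψ.2⟩}, fun N iN hN => ?_⟩ m k ((L.lhomWithConstants Unit).onFormula φ)
    · obtain ⟨C, hC⟩ := key
      refine ⟨C, fun B => ?_⟩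
      have := hC B
      simpa only [LHom.realize_onFormula] using this
    · let _ : L.Structure N := (L.lhomWithConstants Unit).reduct N
      have _ : (L.lhomWithConstants Unit).IsExpansionOn N := LHom.isExpansionOn_reduct _ N
      have hT : L.completeTheory N = L.completeTheory M := by
        ext σ
        have h1 : (L.lhomWithConstants Unit).onSentence σ ∈ L[[Unit]].completeTheory N ↔
            (L.lhomWithConstants Unit).onSentence σ ∈ L[[Unit]].completeTheory M := by rw [hN]
        rw [mem_completeTheory, mem_completeTheory] at h1 ⊢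
        rwa [LHom.realize_onSentence, LHom.realize_onSentence] at h1
      obtain ⟨hI, hG⟩ := hΨ N hT
      set c : N := ((L.con (() : Unit) : L[[Unit]].Constants) : N) with hc
      refine ⟨?_, ?_⟩
      · rintro _ ⟨ψ₁, hψ₁, rfl⟩ _ ⟨ψ₂, hψ₂, rfl⟩ b₁ b₂
        have h4 := four_cases hI (A := {a : N | ψ₁.2.Realize (Sum.elim (fun _ => a) b₁)})
          (B := {a : N | ψ₂.2.Realize (Sum.elim (fun _ => a) b₂)}) ⟨ψ₁, hψ₁, b₁, rfl⟩ ⟨ψ₂, hψ₂, b₂, rfl⟩
        simp only [Set.subset_def, Set.disjoint_left, Set.mem_ofPred_eq, realize_tog]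
        simp only [Set.mem_ofPred_eq] at h4
        rw [← hc]
        have hc4 := h4
        rcases h4 with h4 | h4 | h4 | h4
        · have h5 := h4 c
          by_cases hc1 : ψ₁.2.Realize (Sum.elim (fun _ => c) b₁) <;>
            by_cases hc2 : ψ₂.2.Realize (Sum.elim (fun _ => c) b₂)
          · right; left; intro x; have := h4 x; tauto
          · exact absurd (h5 hc1) hc2
          · right; right; intro x; have := h4 x; tauto
          · left; intro x; have := h4 x; tauto
        · have h5 := h4 c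
          by_cases hc1 : ψ₁.2.Realize (Sum.elim (fun _ => c) b₁) <;>
            by_cases hc2 : ψ₂.2.Realize (Sum.elim (fun _ => c) b₂)
          · left; intro x; have := h4 x; tauto
          · right; right; intro x; have := h4 x; tauto
          · exact absurd (h5 hc2) hc1
          · right; left; intro x; have := h4 x; tauto
        · have h5 := h4 c
          by_cases hc1 : ψ₁.2.Realize (Sum.elim (fun _ => c) b₁) <;>
            by_cases hc2 : ψ₂.2.Realize (Sum.elim (fun _ => c) b₂)
          · exact absurd hc2 (h5 hc1)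
          · right; left; intro x; have := h4 x; tauto
          · left; intro x; have := h4 x; tauto
          · right; right; intro x; have := h4 x; tauto
        · have h5 := h4 c
          by_cases hc1 : ψ₁.2.Realize (Sum.elim (fun _ => c) b₁) <;>
            by_cases hc2 : ψ₂.2.Realize (Sum.elim (fun _ => c) b₂)
          · right; right; intro x; have := h4 x; tauto
          · left; intro x; have := h4 x; tauto
          · right; left; intro x; have := h4 x; tauto
          · tauto
      · intro k' θ b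
        -- an `L`-formula with one more parameter
        let θ₀ : L.Formula (Unit ⊕ (Fin 1 ⊕ Fin k')) := BoundedFormula.constantsVarsEquiv (L := L) (γ := Unit) θ
        let θ' : L.Formula (Fin 1 ⊕ Fin (k' + 1)) := θ₀.relabel
            (Sum.elim (fun _ => Sum.inr (Fin.last k')) (Sum.map id Fin.castSucc) :
              Unit ⊕ (Fin 1 ⊕ Fin k') → Fin 1 ⊕ Fin (k' + 1))
        have e : {a : N | θ.Realize (Sum.elim (fun _ => a) b)} =
            {a : N | θ'.Realize (Sum.elim (fun _ => a) (Fin.snoc (α := fun _ => N) b c))} := by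
          ext a
          rw [Set.mem_ofPred_eq, Set.mem_ofPred_eq, Formula.realize_relabel]
          have h1 : θ.Realize (Sum.elim (fun _ => a) b) ↔
              θ₀.Realize (Sum.elim (fun _ => c) (Sum.elim (fun _ => a) b)) :=
            (BoundedFormula.realize_constantsVarsEquiv (φ := θ) (v := Sum.elim (fun _ => a) b)
              (xs := default)).symm
          rw [h1]
          apply iff_of_eq
          congr 1
          funext i
          rcases i with i | i | i
          · simp
          · rfl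
          · simp
        rw [e]
        have h2 := hG (k' + 1) θ' (Fin.snoc (α := fun _ => N) b c)
        refine (BooleanSubalgebra.closure_le.2 ?_) h2
        rintro S ⟨ψ, hψ, d, rfl⟩
        have h3 : {a : N | (tog ψ.2).Realize (Sum.elim (fun _ => a) d)} ∈ BooleanSubalgebra.closure
              {S : Set N | ∃ χ ∈ {χ : Σ k : ℕ, L[[Unit]].Formula (Fin 1 ⊕ Fin k) | ∃ ψ ∈ Ψ, χ = ⟨ψ.1, tog ψ.2⟩},
                ∃ b : Fin χ.1 → N, S = {a : N | χ.2.Realize (Sum.elim (fun _ => a) b)}} :=
          BooleanSubalgebra.subset_closure ⟨⟨ψ.1, tog ψ.2⟩, ⟨ψ, hψ, rfl⟩, d, rfl⟩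
        by_cases hcd : ψ.2.Realize (Sum.elim (fun _ => c) d)
        · have h4 : {a : N | ψ.2.Realize (Sum.elim (fun _ => a) d)} =
              {a : N | (tog ψ.2).Realize (Sum.elim (fun _ => a) d)}ᶜ := by
            ext a
            rw [Set.mem_compl_iff, Set.mem_ofPred_eq, Set.mem_ofPred_eq, realize_tog, ← hc]
            tauto
          rw [h4]
          exact BooleanSubalgebra.compl_mem h3
        · have h4 : {a : N | ψ.2.Realize (Sum.elim (fun _ => a) d)} =
              {a : N | (tog ψ.2).Realize (Sum.elim (fun _ => a) d)} := by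
            ext a
            rw [Set.mem_ofPred_eq, Set.mem_ofPred_eq, realize_tog, ← hc]
            tauto
          rw [h4]
          exact h3

end Pool.Agent.VCM
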