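import Pool.Agent.VCM.Monster

/-! Saturation, homogeneity, limits in the monster model. -/

open FirstOrder FirstOrder.Language

namespace Pool.Agent.VCM

variable {L : FirstOrder.Language.{0, 0}} {N : Type} [L.Structure N]

/-- two tuples have the same type -/
def TpEq (L : FirstOrder.Language.{0, 0}) {N : Type} [L.Structure N] {ι : Type} (p q : ι → N) :
    Prop := ∀ φ : L.Formula ι, φ.Realize p ↔ φ.Realize q

theorem TpEq.symm {ι : Type} {p q : ι → N} (h : TpEq L p q) : TpEq L q p := fun φ => (h φ).symm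

theorem TpEq.trans {ι : Type} {p q r : ι → N} (h : TpEq L p q) (h' : TpEq L q r) : TpEq L p r :=
  fun φ => (h φ).trans (h' φ)

theorem TpEq.comp {ι κ : Type} {p q : ι → N} (h : TpEq L p q) (f : κ → ι) :
    TpEq L (p ∘ f) (q ∘ f) := by
  intro φ
  have := h (φ.relabel f)
  rwa [Formula.realize_relabel, Formula.realize_relabel] at this

theorem TpEq.eq_iff {ι : Type} {p q : ι → N} (h : TpEq L p q) (i j : ι) :
    p i = p j ↔ q i = q j := by
  have := h ((Term.var i : L.Term ι).equal (Term.var j))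
  simpa [Formula.realize_equal] using this

/-- type equality is of finite character -/
theorem TpEq.of_finite {ι : Type} {p q : ι → N}
    (h : ∀ F : Finset ι, TpEq L (fun a : F => p a) (fun a : F => q a)) : TpEq L p q := by
  intro φ
  obtain ⟨F, ψ, hψ⟩ := fin_supp φ
  rw [hψ, hψ]
  exact h F ψ

/-- the group of automorphisms -/
def AutG (L : FirstOrder.Language.{0, 0}) (N : Type) [L.Structure N] :
    Subgroup (Equiv.Perm N) where
  carrier := {g | ∀ (ι : Type) (p : ι → N), TpEq L (fun i => g (p i)) p}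
  one_mem' := fun ι p φ => Iff.rfl
  mul_mem' := by
    intro a b ha hb ι p
    exact (ha ι (fun i => b (p i))).trans (hb ι p)
  inv_mem' := by
    intro a ha ι p
    have := ha ι (fun i => a⁻¹ (p i))
    have h2 : (fun i => a (a⁻¹ (p i))) = p := by
      funext i
      exact a.apply_symm_apply (p i)
    rw [h2] at this
    exact this.symm

theorem AutG.tp (g : AutG L N) {ι : Type} (p : ι → N) :
    TpEq L (fun i => (g : Equiv.Perm N) (p i)) p := g.2 ι p

theorem AutG.realize (g : AutG L N) {ι : Type} (p : ι → N) (φ : L.Formula ι) :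
    φ.Realize (fun i => (g : Equiv.Perm N) (p i)) ↔ φ.Realize p := g.2 ι p φ

namespace Levels

variable (Λ : Levels L N)

include Λ in
theorem nonempty : Nonempty N := ⟨Λ.ne.some⟩

theorem mem_of_le {n m : ℕ} (h : n ≤ m) {x : N} (hx : x ∈ Λ.S n) : x ∈ Λ.S m := Λ.mono h hx

/-- a finite tuple lies in one level -/
theorem finite_level {κ : Type} [Finite κ] (x : κ → N) : ∃ n, ∀ k, x k ∈ Λ.S n := by
  have h := fun k => Λ.cover (x k)
  choose f hf using h
  cases nonempty_fintype κ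
  exact ⟨Finset.univ.sup f, fun k => Λ.mono (Finset.le_sup (Finset.mem_univ k)) (hf k)⟩

theorem finset_level (F : Finset N) : ∃ n, ∀ x ∈ F, x ∈ Λ.S n := by
  obtain ⟨n, hn⟩ := Λ.finite_level (fun x : F => (x : N))
  exact ⟨n, fun x hx => hn ⟨x, hx⟩⟩

/-- saturation, flexible form -/
theorem satK (n : ℕ) {ι κ : Type} (p : ι → N) (hp : ∀ i, p i ∈ Λ.S n)
    (j : κ → Λ.S n × ℕ) (hj : Function.Injective j) (T : Set (L.Formula (ι ⊕ κ)))
    (hT : ∀ T₀ : Finset (L.Formula (ι ⊕ κ)), ↑T₀ ⊆ T →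
      ∃ x : κ → N, ∀ φ ∈ T₀, φ.Realize (Sum.elim p x)) :
    ∃ x : κ → N, (∀ k, x k ∈ Λ.S (n + 1)) ∧ ∀ φ ∈ T, φ.Realize (Sum.elim p x) := by
  classical
  have : Nonempty N := Λ.nonempty
  let ρ : ι ⊕ κ → Λ.S n ⊕ (Λ.S n × ℕ) := Sum.map (fun i => ⟨p i, hp i⟩) j
  obtain ⟨x, hx1, hx2⟩ := Λ.sat n ((fun φ => φ.relabel ρ) '' T) (by
    intro T₀ hT₀
    have hch : ∀ φ : L.Formula (Λ.S n ⊕ (Λ.S n × ℕ)), ∃ ψ, φ ∈ T₀ → (ψ ∈ T ∧ ψ.relabel ρ = φ) := by
      intro φ
      by_cases hφ : φ ∈ T₀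
      · obtain ⟨ψ, hψ, e⟩ := hT₀ hφ
        exact ⟨ψ, fun _ => ⟨hψ, e⟩⟩
      · exact ⟨⊥, fun h => absurd h hφ⟩
    choose pre hpre using hch
    obtain ⟨x, hx⟩ := hT (T₀.image pre) (by
      intro ψ hψ
      simp only [Finset.coe_image, Set.mem_image, Finset.mem_coe] at hψ
      obtain ⟨φ, hφ, rfl⟩ := hψ
      exact (hpre φ hφ).1)
    refine ⟨Function.extend j x (fun _ => Classical.arbitrary N), fun φ hφ => ?_⟩
    obtain ⟨h1, h2⟩ := hpre φ hφ
    rw [← h2, Formula.realize_relabel]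
    convert hx (pre φ) (Finset.mem_image_of_mem _ hφ) using 1
    funext k
    rcases k with k | k
    · rfl
    · show Function.extend j x (fun _ => Classical.arbitrary N) (j k) = x k
      exact hj.extend_apply _ _ _)
  refine ⟨fun k => x (j k), fun k => hx1 _, fun φ hφ => ?_⟩
  have := hx2 _ ⟨φ, hφ, rfl⟩
  rw [Formula.realize_relabel] at this
  convert this using 1
  funext k
  rcases k with k | k <;> rfl

/-- one step of the back and forth -/
theorem extend_tp (n : ℕ) {ι κ : Type} (p q : ι → N) (hq : ∀ i, q i ∈ Λ.S n)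
    (j : κ → Λ.S n × ℕ) (hj : Function.Injective j) (h : TpEq L p q) (r : κ → N) :
    ∃ r' : κ → N, (∀ k, r' k ∈ Λ.S (n + 1)) ∧ TpEq L (Sum.elim p r) (Sum.elim q r') := by
  have : Nonempty N := Λ.nonempty
  obtain ⟨x, hx1, hx2⟩ := Λ.satK n q hq j hj
    {φ : L.Formula (ι ⊕ κ) | φ.Realize (Sum.elim p r)} (by
      intro T₀ hT₀
      obtain ⟨χ, hχ⟩ := exists_conj T₀
      obtain ⟨ψ, hψ⟩ := exists_ex χ
      have h1 : ψ.Realize p := (hψ N p).2 ⟨r, (hχ N _).2 fun φ hφ => hT₀ hφ⟩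
      rw [h ψ, hψ] at h1
      obtain ⟨x, hx⟩ := h1
      exact ⟨x, (hχ N _).1 hx⟩)
  refine ⟨x, hx1, fun φ => ⟨fun hφ => hx2 φ hφ, fun hφ => ?_⟩⟩
  by_contra hcon
  have h2 := hx2 φ.not (by
    show φ.not.Realize (Sum.elim p r)
    rw [Formula.realize_not]; exact hcon)
  rw [Formula.realize_not] at h2
  exact h2 hφ

/-- partial elementary maps with domain a level -/
def Pm (m : ℕ) (r : N → N) : Prop :=
  (∀ x ∈ Λ.S m, r x ∈ Λ.S (m + 1)) ∧ TpEq L (fun x : Λ.S m => (x : N)) (fun x : Λ.S m => r x)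

theorem Pm_step {m : ℕ} {r : N → N} (h : Λ.Pm m r) :
    ∃ r' : N → N, Λ.Pm (m + 2) r' ∧ (∀ x ∈ Λ.S m, r' x = r x) ∧
      ∀ y ∈ Λ.S (m + 1), ∃ x ∈ Λ.S (m + 2), r' x = y := by
  classical
  obtain ⟨h1, h2⟩ := h
  have : Nonempty N := Λ.nonempty
  -- add preimages of `S (m+1)`
  obtain ⟨a, ha1, ha2⟩ := Λ.extend_tp (m + 1) (fun x : Λ.S m => r x) (fun x : Λ.S m => (x : N))
    (fun x => Λ.mono (Nat.le_succ m) x.2) (κ := Λ.S (m + 1)) (fun k => (k, 0))
    (fun x y h => (Prod.mk.inj h).1) h2.symm (fun k => (k : N))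
  -- add images of `S (m+2)`
  obtain ⟨b, hb1, hb2⟩ := Λ.extend_tp (m + 2)
    (Sum.elim (fun x : Λ.S m => (x : N)) a) (Sum.elim (fun x : Λ.S m => r x)
      (fun k : Λ.S (m + 1) => (k : N)))
    (by
      rintro (x | x)
      · exact Λ.mono (Nat.le_succ (m + 1)) (h1 x x.2)
      · exact Λ.mono (Nat.le_succ (m + 1)) x.2)
    (κ := Λ.S (m + 2)) (fun k => (k, 0)) (fun x y h => (Prod.mk.inj h).1) ha2.symm
    (fun k => (k : N))
  have hb3 := hb2.comp (Sum.inr : Λ.S (m + 2) → _)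
  refine ⟨fun x => if hx : x ∈ Λ.S (m + 2) then b ⟨x, hx⟩ else x, ⟨?_, ?_⟩, ?_, ?_⟩
  · intro x hx
    beta_reduce
    rw [dif_pos hx]
    exact hb1 _
  · have e : (fun x : Λ.S (m + 2) => if hx : (x : N) ∈ Λ.S (m + 2) then b ⟨x, hx⟩ else (x : N)) = b := by
      funext x
      exact dif_pos x.2
    beta_reduce
    rw [e]
    exact hb3
  · intro x hx
    have hx' : x ∈ Λ.S (m + 2) := Λ.mono (by omega) hx
    beta_reduce
    rw [dif_pos hx']
    have := (hb2.eq_iff (Sum.inr ⟨x, hx'⟩) (Sum.inl (Sum.inl ⟨x, hx⟩))).1 rfl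
    exact this
  · intro y hy
    refine ⟨a ⟨y, hy⟩, ha1 _, ?_⟩
    beta_reduce
    rw [dif_pos (ha1 _)]
    have := (hb2.eq_iff (Sum.inr ⟨a ⟨y, hy⟩, ha1 _⟩) (Sum.inl (Sum.inr ⟨y, hy⟩))).1 rfl
    exact this

/-- a partial elementary map with domain a level extends to an automorphism -/
theorem Pm_extend {m : ℕ} {r : N → N} (h : Λ.Pm m r) :
    ∃ g : AutG L N, ∀ x ∈ Λ.S m, (g : Equiv.Perm N) x = r x := by
  classical
  let St := {s : ℕ × (N → N) // Λ.Pm s.1 s.2}
  have hstep : ∀ s : St, ∃ s' : St, s'.1.1 = s.1.1 + 2 ∧ (∀ x ∈ Λ.S s.1.1, s'.1.2 x = s.1.2 x) ∧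
      ∀ y ∈ Λ.S (s.1.1 + 1), ∃ x ∈ Λ.S (s.1.1 + 2), s'.1.2 x = y := by
    rintro ⟨⟨m, r⟩, h⟩
    obtain ⟨r', h1, h2, h3⟩ := Λ.Pm_step h
    exact ⟨⟨⟨m + 2, r'⟩, h1⟩, rfl, h2, h3⟩
  choose nx hnx1 hnx2 hnx3 using hstep
  let sq : ℕ → St := fun k => Nat.rec ⟨⟨m, r⟩, h⟩ (fun _ s => nx s) k
  have hsq : ∀ k, sq (k + 1) = nx (sq k) := fun k => rfl
  have hlev : ∀ k, (sq k).1.1 = m + 2 * k := by
    intro k
    induction k with
    | zero => rfl
    | succ k ih => rw [hsq, hnx1, ih]; ring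
  -- coherence
  have hcoh : ∀ k d, ∀ x ∈ Λ.S (m + 2 * k), (sq (k + d)).1.2 x = (sq k).1.2 x := by
    intro k d x hx
    induction d with
    | zero => rfl
    | succ d ih =>
      rw [← ih]
      have : sq (k + (d + 1)) = nx (sq (k + d)) := hsq (k + d)
      rw [this]
      apply hnx2
      rw [hlev]
      exact Λ.mono (by omega) hx
  have hlv : ∀ x : N, ∃ k, x ∈ Λ.S (m + 2 * k) := by
    intro x
    obtain ⟨n, hn⟩ := Λ.cover x
    exact ⟨n, Λ.mono (by omega) hn⟩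
  choose kk hkk using hlv
  let g : N → N := fun x => (sq (kk x)).1.2 x
  have hg : ∀ k, ∀ x ∈ Λ.S (m + 2 * k), g x = (sq k).1.2 x := by
    intro k x hx
    rcases le_total k (kk x) with hle | hle
    · obtain ⟨d, hd⟩ := Nat.exists_eq_add_of_le hle
      show (sq (kk x)).1.2 x = _
      rw [hd]
      exact hcoh k d x hx
    · obtain ⟨d, hd⟩ := Nat.exists_eq_add_of_le hle
      rw [hd]
      exact (hcoh (kk x) d x (hkk x)).symm
  have htp : ∀ (ι : Type) (p : ι → N), TpEq L (fun i => g (p i)) p := by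
    intro ι p
    apply TpEq.of_finite
    intro F
    obtain ⟨n, hn⟩ := Λ.finite_level (fun a : F => p a)
    have hn' : ∀ a : F, p a ∈ Λ.S (m + 2 * n) := fun a => Λ.mono (by omega) (hn a)
    have h2 := (sq n).2.2
    have h3 : ∀ a : F, p a ∈ Λ.S (sq n).1.1 := by
      intro a; rw [hlev]; exact hn' a
    have h4 : TpEq L ((fun x : Λ.S (sq n).1.1 => (sq n).1.2 x) ∘ fun a : F => ⟨p a, h3 a⟩)
        (fun a : F => p a) := (h2.comp (fun a : F => (⟨p a, h3 a⟩ : Λ.S (sq n).1.1))).symm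
    have e : (fun a : F => g (p a)) =
        ((fun x : Λ.S (sq n).1.1 => (sq n).1.2 x) ∘ fun a : F => ⟨p a, h3 a⟩) := by
      funext a
      exact hg n _ (hn' a)
    rw [e]
    exact h4.symm.symm
  have hinj : Function.Injective g := by
    intro x y hxy
    have := (htp Bool (fun b => cond b x y)).eq_iff true false
    exact this.1 hxy
  have hsurj : Function.Surjective g := by
    intro y
    obtain ⟨n, hn⟩ := Λ.cover y
    have hy : y ∈ Λ.S ((sq n).1.1 + 1) := by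
      rw [hlev]; exact Λ.mono (by omega) hn
    obtain ⟨x, hx1, hx2⟩ := hnx3 (sq n) y hy
    refine ⟨x, ?_⟩
    rw [hg (n + 1) x (by
      have : m + 2 * (n + 1) = (sq n).1.1 + 2 := by rw [hlev]; ring
      rw [this]; exact hx1), hsq]
    exact hx2
  refine ⟨⟨Equiv.ofBijective g ⟨hinj, hsurj⟩, ?_⟩, ?_⟩
  · intro ι p
    exact htp ι p
  · intro x hx
    exact hg 0 x hx

/-- homogeneity -/
theorem hom {n : ℕ} {ι : Type} (p q : ι → N) (hp : ∀ i, p i ∈ Λ.S n) (hq : ∀ i, q i ∈ Λ.S n)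
    (h : TpEq L p q) : ∃ g : AutG L N, ∀ i, (g : Equiv.Perm N) (p i) = q i := by
  classical
  obtain ⟨r, hr1, hr2⟩ := Λ.extend_tp n p q hq (κ := Λ.S n) (fun k => (k, 0))
    (fun x y h => (Prod.mk.inj h).1) h (fun k => (k : N))
  have hPm : Λ.Pm n (fun x => if hx : x ∈ Λ.S n then r ⟨x, hx⟩ else x) := by
    refine ⟨fun x hx => ?_, ?_⟩
    · beta_reduce
      rw [dif_pos hx]; exact hr1 _
    · have e : (fun x : Λ.S n => if hx : (x : N) ∈ Λ.S n then r ⟨x, hx⟩ else (x : N)) = r := by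
        funext x
        exact dif_pos x.2
      beta_reduce
      rw [e]
      exact hr2.comp (Sum.inr : Λ.S n → _)
  obtain ⟨g, hg⟩ := Λ.Pm_extend hPm
  refine ⟨g, fun i => ?_⟩
  rw [hg (p i) (hp i), dif_pos (hp i)]
  exact (hr2.eq_iff (Sum.inr ⟨p i, hp i⟩) (Sum.inl i)).1 rfl

/-- `σ` is the limit over `S n` of the family `f` along the ultrafilter `U` -/
def IsLim {J : Type} (U : Ultrafilter J) (f : J → AutG L N) (n : ℕ) (σ : AutG L N) : Prop :=
  (∀ x ∈ Λ.S n, (σ : Equiv.Perm N) x ∈ Λ.S (n + 1)) ∧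
  ∀ (φ : L.Formula (Λ.S n ⊕ Λ.S n)),
    φ.Realize (Sum.elim (fun x => (x : N)) fun x => (σ : Equiv.Perm N) x) ↔
      ∀ᶠ j in (U : Filter J), φ.Realize (Sum.elim (fun x => (x : N)) fun x => (f j : Equiv.Perm N) x)

/-- limits exist -/
theorem exists_lim {J : Type} (U : Ultrafilter J) (f : J → AutG L N) (n : ℕ) :
    ∃ σ : AutG L N, Λ.IsLim U f n σ := by
  classical
  obtain ⟨x, hx1, hx2⟩ := Λ.satK n (fun x : Λ.S n => (x : N)) (fun x => x.2) (κ := Λ.S n)
    (fun k => (k, 0)) (fun x y h => (Prod.mk.inj h).1)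
    {φ : L.Formula (Λ.S n ⊕ Λ.S n) | ∀ᶠ j in (U : Filter J),
      φ.Realize (Sum.elim (fun x => (x : N)) fun x => (f j : Equiv.Perm N) x)} (by
      intro T₀ hT₀
      have : ∀ᶠ j in (U : Filter J), ∀ φ ∈ T₀,
          φ.Realize (Sum.elim (fun x => (x : N)) fun x => (f j : Equiv.Perm N) x) := by
        rw [Filter.eventually_all_finset]
        exact fun φ hφ => hT₀ hφ
      obtain ⟨j, hj⟩ := this.exists
      exact ⟨_, hj⟩)
  have hiff : ∀ φ : L.Formula (Λ.S n ⊕ Λ.S n), φ.Realize (Sum.elim (fun x => (x : N)) x) ↔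
      ∀ᶠ j in (U : Filter J),
        φ.Realize (Sum.elim (fun x => (x : N)) fun x => (f j : Equiv.Perm N) x) := by
    intro φ
    refine ⟨fun hφ => ?_, fun hφ => hx2 φ hφ⟩
    by_contra hcon
    rw [← Ultrafilter.eventually_not] at hcon
    have := hx2 φ.not (by
      show ∀ᶠ j in (U : Filter J), φ.not.Realize _
      simpa only [Formula.realize_not] using hcon)
    rw [Formula.realize_not] at this
    exact this hφ
  have htp : TpEq L (fun k : Λ.S n => (k : N)) x := by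
    intro φ
    have h1 := hiff (φ.relabel Sum.inr)
    simp only [Formula.realize_relabel] at h1
    have h2 : ∀ j, φ.Realize (fun k : Λ.S n => (f j : Equiv.Perm N) k) ↔
        φ.Realize (fun k : Λ.S n => (k : N)) := fun j => AutG.realize (f j) _ φ
    have h3 : (Sum.elim (fun k : Λ.S n => (k : N)) x) ∘ Sum.inr = x := rfl
    rw [h3] at h1
    rw [h1]
    have h4 : ∀ j, ((Sum.elim (fun k : Λ.S n => (k : N))
        fun x : Λ.S n => (f j : Equiv.Perm N) x) ∘ Sum.inr) =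
        fun k : Λ.S n => (f j : Equiv.Perm N) k := fun j => rfl
    simp only [h4, h2]
    exact Filter.eventually_const.symm
  obtain ⟨σ, hσ⟩ := Λ.hom (n := n + 1) (fun k : Λ.S n => (k : N)) x
    (fun i => Λ.mono (Nat.le_succ n) i.2) hx1 htp
  refine ⟨σ, fun y hy => ?_, fun φ => ?_⟩
  · rw [hσ ⟨y, hy⟩]; exact hx1 _
  · rw [← hiff]
    apply iff_of_eq
    congr 1
    funext k
    rcases k with k | k
    · rfl
    · exact hσ k

/-- two limits of the same family are conjugate over the lower level -/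
theorem lim_conj {J : Type} {U : Ultrafilter J} {f : J → AutG L N} {n m : ℕ} (hnm : n ≤ m)
    {σ σ' : AutG L N} (h : Λ.IsLim U f n σ) (h' : Λ.IsLim U f m σ') :
    ∃ τ : AutG L N, (∀ x ∈ Λ.S n, (τ : Equiv.Perm N) x = x) ∧
      ∀ x ∈ Λ.S n, (τ : Equiv.Perm N) ((σ : Equiv.Perm N) x) = (σ' : Equiv.Perm N) x := by
  obtain ⟨τ, hτ⟩ := Λ.hom (n := m + 1)
    (Sum.elim (fun x : Λ.S n => (x : N)) fun x : Λ.S n => (σ : Equiv.Perm N) x)
    (Sum.elim (fun x : Λ.S n => (x : N)) fun x : Λ.S n => (σ' : Equiv.Perm N) x)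
    (by
      rintro (x | x)
      · exact Λ.mono (by omega) x.2
      · exact Λ.mono (by omega) (h.1 x x.2))
    (by
      rintro (x | x)
      · exact Λ.mono (by omega) x.2
      · exact h'.1 x (Λ.mono hnm x.2))
    (by
      intro φ
      rw [h.2]
      let ι : Λ.S n → Λ.S m := fun x => ⟨x, Λ.mono hnm x.2⟩
      have h2 := h'.2 (φ.relabel (Sum.map ι ι))
      simp only [Formula.realize_relabel] at h2
      have e1 : (Sum.elim (fun x : Λ.S m => (x : N)) fun x : Λ.S m => (σ' : Equiv.Perm N) x) ∘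
          (Sum.map ι ι) = (Sum.elim (fun x : Λ.S n => (x : N)) fun x : Λ.S n => (σ' : Equiv.Perm N) x) := by
        funext k; rcases k with k | k <;> rfl
      have e2 : ∀ j, (Sum.elim (fun x : Λ.S m => (x : N)) fun x : Λ.S m => (f j : Equiv.Perm N) x) ∘
          (Sum.map ι ι) = (Sum.elim (fun x : Λ.S n => (x : N)) fun x : Λ.S n => (f j : Equiv.Perm N) x) := by
        intro j; funext k; rcases k with k | k <;> rfl
      rw [e1] at h2
      simp only [e2] at h2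
      exact h2.symm)
  exact ⟨τ, fun x hx => hτ (Sum.inl ⟨x, hx⟩), fun x hx => hτ (Sum.inr ⟨x, hx⟩)⟩

/-- limits of tuples, over parameters in a level -/
theorem lim_tuple {I κ ι : Type} (V : Ultrafilter I) (n : ℕ) (p : ι → N)
    (hp : ∀ i, p i ∈ Λ.S n) (j : κ → Λ.S n × ℕ) (hj : Function.Injective j) (t : I → κ → N) :
    ∃ s : κ → N, (∀ k, s k ∈ Λ.S (n + 1)) ∧ ∀ φ : L.Formula (ι ⊕ κ),
      φ.Realize (Sum.elim p s) ↔ ∀ᶠ i in (V : Filter I), φ.Realize (Sum.elim p (t i)) := by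
  classical
  obtain ⟨x, hx1, hx2⟩ := Λ.satK n p hp j hj
    {φ : L.Formula (ι ⊕ κ) | ∀ᶠ i in (V : Filter I), φ.Realize (Sum.elim p (t i))} (by
      intro T₀ hT₀
      have : ∀ᶠ i in (V : Filter I), ∀ φ ∈ T₀, φ.Realize (Sum.elim p (t i)) := by
        rw [Filter.eventually_all_finset]
        exact fun φ hφ => hT₀ hφ
      obtain ⟨j, hj⟩ := this.exists
      exact ⟨_, hj⟩)
  refine ⟨x, hx1, fun φ => ⟨fun hφ => ?_, fun hφ => hx2 φ hφ⟩⟩
  by_contra hcon
  rw [← Ultrafilter.eventually_not] at hcon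
  have := hx2 φ.not (by
    show ∀ᶠ j in (V : Filter I), φ.not.Realize _
    simpa only [Formula.realize_not] using hcon)
  rw [Formula.realize_not] at this
  exact this hφ

include Λ in
/-- limits of finite tuples without parameters -/
theorem lim_fin {I κ : Type} [Countable κ] (V : Ultrafilter I) (t : I → κ → N) :
    ∃ s : κ → N, ∀ φ : L.Formula κ,
      φ.Realize s ↔ ∀ᶠ i in (V : Filter I), φ.Realize (t i) := by
  obtain ⟨e, he⟩ := exists_injective_nat κ
  obtain ⟨s, -, hs⟩ := Λ.lim_tuple (ι := Empty) V 0 (fun i => i.elim) (fun i => i.elim)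
    (fun k => (⟨Λ.ne.some, Λ.ne.some_mem⟩, e k)) (fun x y h => he (Prod.mk.inj h).2) t
  refine ⟨s, fun φ => ?_⟩
  have := hs (φ.relabel Sum.inr)
  simp only [Formula.realize_relabel] at this
  exact this

end Levels

end Pool.Agent.VCM
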