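import Pool.Agent.VCM.Sys

/-! S15495, 1.3 (a) in the form needed for limits, and 5.1: the limit of an unbounded family. -/

open FirstOrder FirstOrder.Language
open scoped Pointwise

namespace Pool.Agent.VCM

variable {L : FirstOrder.Language.{0, 0}} {N : Type} [L.Structure N]

namespace VC

variable {V : VC L N}

/-- algebraicity is witnessed by a definable relation, with a uniform bound -/
theorem acl_dfn (Λ : Levels L N) {κ : Type} [Finite κ] {c : κ → N} {δ : Fm L} {w : ℕ → N}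
    (h : fib δ w ∈ V.acl (Set.range c)) :
    ∃ (R : (κ ⊕ ℕ → N) → Prop) (K : ℕ), Dfn L R ∧ R (Sum.elim c w) ∧
      (∀ c', {D : Set N | ∃ u, R (Sum.elim c' u) ∧ D = fib δ u}.Finite ∧
        {D : Set N | ∃ u, R (Sum.elim c' u) ∧ D = fib δ u}.ncard ≤ K) ∧
      ∀ c' w', R (Sum.elim c' w') → fib δ w' ∈ V.acl (Set.range c') := by
  classical
  have hne : Nonempty N := Λ.nonempty
  obtain ⟨hb, hfin⟩ := h
  obtain ⟨Δ, hΔ, hD⟩ := hb.2
  -- put everything into one level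
  obtain ⟨m₁, hm₁⟩ := Λ.finite_level c
  obtain ⟨m₂, w₀, hw₀, hw₀e⟩ := Λ.exists_level δ w
  obtain ⟨m, hm1, hm2⟩ : ∃ m, m₁ ≤ m ∧ m₂ ≤ m := ⟨max m₁ m₂, le_max_left _ _, le_max_right _ _⟩
  have hc : ∀ k, c k ∈ Λ.S m := fun k => Λ.mono hm1 (hm₁ k)
  have hw : Λ.InS m w₀ := hw₀.mono hm2
  rw [← hw₀e] at hfin hD hb
  let k := hfin.toFinset.card
  let I := {φ : L.Formula (κ ⊕ ℕ) // φ.Realize (Sum.elim c w₀)}
  -- step 1: finitely many formulas already bound the number of conjugates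
  have step1 : ∃ F : Finset I, ¬ ∃ x : Fin (k + 1) × ℕ → N,
      (∀ φ ∈ F, ∀ j, φ.1.Realize (Sum.elim c fun i => x (j, i))) ∧
      ∀ i j, i ≠ j → fib δ (fun t => x (i, t)) ≠ fib δ (fun t => x (j, t)) := by
    by_contra hcon
    push Not at hcon
    obtain ⟨x, hx1, hx2⟩ := Λ.sat_rel m (κ := Fin (k + 1) × ℕ)
      (I := I ⊕ Unit) (fun p => (⟨Λ.ne.some, Λ.mono (Nat.zero_le m) Λ.ne.some_mem⟩,
        Nat.pair p.1 p.2)) (by
        intro p q h
        have := Nat.pair_eq_pair.1 (Prod.mk.inj h).2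
        exact Prod.ext (Fin.ext this.1) this.2)
      (fun i x => Sum.elim
        (fun φ : I => ∀ j, φ.1.Realize (Sum.elim c fun i => x (j, i)))
        (fun _ => ∀ i j, i ≠ j → fib δ (fun t => x (i, t)) ≠ fib δ (fun t => x (j, t))) i)
      (by
        rintro (φ | u)
        · have h1 : Dfn L (fun v : κ ⊕ (Fin (k + 1) × ℕ) → N => ∀ j : Fin (k + 1),
              φ.1.Realize (Sum.elim (fun a : κ => v (Sum.inl a)) fun i => v (Sum.inr (j, i)))) := by
            refine Dfn.finiteAll fun j => ?_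
            exact Dfn.real φ.1 (Sum.elim (fun a => Sum.inl a) (fun i => Sum.inr (j, i))) _
              (by intro v b; rcases b with b | b <;> rfl)
          exact DfnO.of_dfn h1 c hc
        · have h1 : Dfn L (fun v : Fin (k + 1) × ℕ → N => ∀ i j : Fin (k + 1), i ≠ j →
              fib δ (fun t => v (i, t)) ≠ fib δ (fun t => v (j, t))) := by
            refine Dfn.finiteAll fun i => Dfn.finiteAll fun j => Dfn.imp (Dfn.const _) (Dfn.not ?_)
            exact Dfn.comp (dfn_eq δ δ) (Sum.elim (fun t => (i, t)) (fun t => (j, t)))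
              (fun v => Sum.elim (fun t => v (i, t)) (fun t => v (j, t)))
              (by intro v b; rcases b with b | b <;> rfl)
          exact DfnO.of_dfn0 h1)
      (by
        intro F
        obtain ⟨x, hx1, hx2⟩ := hcon (F.preimage Sum.inl Sum.inl_injective.injOn)
        refine ⟨x, ?_⟩
        rintro (φ | u) hi
        · exact hx1 φ (by simpa using hi)
        · exact hx2)
    -- conjugates
    have hg : ∀ j : Fin (k + 1), ∃ g : AutG L N, (∀ a, g • c a = c a) ∧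
        ∀ i, g • w₀ i = x (j, i) := by
      intro j
      obtain ⟨g, hg⟩ := Λ.hom (n := m + 1) (ι := κ ⊕ ℕ)
        (Sum.elim c w₀) (Sum.elim c fun i => x (j, i))
        (by
          rintro (a | i)
          · exact Λ.mono (by omega) (hc a)
          · exact Λ.mono (by omega) (hw i))
        (by
          rintro (a | i)
          · exact Λ.mono (by omega) (hc a)
          · exact hx1 _)
        (by
          intro φ
          constructor
          · intro h
            exact hx2 (Sum.inl ⟨φ, h⟩) j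
          · intro h
            by_contra hcon
            have := hx2 (Sum.inl ⟨φ.not, by rw [Formula.realize_not]; exact hcon⟩) j
            rw [Formula.realize_not] at this
            exact this h)
      exact ⟨g, fun a => hg (Sum.inl a), fun i => hg (Sum.inr i)⟩
    choose g hg1 hg2 using hg
    have hinj : Function.Injective (fun j : Fin (k + 1) => g j • fib δ w₀) := by
      intro i j hij
      by_contra hne
      apply hx2 (Sum.inr ()) i j hne
      have e : ∀ j, fib δ (fun t => x (j, t)) = g j • fib δ w₀ := by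
        intro j
        rw [← fib_smul]
        congr 1
        funext t
        exact (hg2 j t).symm
      rw [e, e]; exact hij
    have hsub : Finset.univ.image (fun j : Fin (k + 1) => g j • fib δ w₀) ⊆ hfin.toFinset := by
      intro W hW
      rw [Finset.mem_image] at hW
      obtain ⟨j, -, rfl⟩ := hW
      rw [Set.Finite.mem_toFinset]
      refine ⟨⟨g j, mem_GA.2 ?_⟩, rfl⟩
      rintro _ ⟨a, rfl⟩
      exact hg1 j a
    have := Finset.card_le_card hsub
    rw [Finset.card_image_of_injective _ hinj, Finset.card_univ, Fintype.card_fin] at this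
    omega
  obtain ⟨F, hF⟩ := step1
  -- the relation on `(c, u)`
  let R1 : (κ → N) → (ℕ → N) → Prop := fun c' u => ∀ φ ∈ F, φ.1.Realize (Sum.elim c' u)
  let R2 : (κ → N) → Prop := fun c' => ¬ ∃ x : Fin (k + 1) × ℕ → N,
      (∀ j, R1 c' fun i => x (j, i)) ∧
      ∀ i j, i ≠ j → fib δ (fun t => x (i, t)) ≠ fib δ (fun t => x (j, t))
  let R3 : (ℕ → N) → Prop := fun u => DU Δ (fib δ u) ∨ DI Δ (fib δ u)
  let R : (κ ⊕ ℕ → N) → Prop := fun v => ∃ u : ℕ → N,
    (fib δ u = fib δ (v ∘ Sum.inr) ∧ R1 (v ∘ Sum.inl) u) ∧ R2 (v ∘ Sum.inl) ∧ R3 u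
  have hR1 : ∀ {α : Type} (s : κ → α) (t : ℕ → α),
      Dfn L (fun v : α → N => R1 (fun a => v (s a)) (fun i => v (t i))) := by
    intro α s t
    refine Dfn.finsetAll F fun φ _ => ?_
    exact Dfn.real φ.1 (Sum.elim s t) _ (by intro v b; rcases b with b | b <;> rfl)
  have hR2 : Dfn L (fun v : κ → N => R2 v) := by
    refine Dfn.not (Dfn.exT (κ := Fin (k + 1) × ℕ) (R := fun (v : κ → N) (x : Fin (k + 1) × ℕ → N) =>
      (∀ j, R1 v fun i => x (j, i)) ∧
      ∀ i j, i ≠ j → fib δ (fun t => x (i, t)) ≠ fib δ (fun t => x (j, t))) ?_)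
    refine Dfn.and ?_ ?_
    · refine Dfn.finiteAll fun j => ?_
      exact hR1 (α := κ ⊕ (Fin (k + 1) × ℕ)) (fun a => Sum.inl a) (fun i => Sum.inr (j, i))
    · refine Dfn.finiteAll fun i => Dfn.finiteAll fun j => Dfn.imp (Dfn.const _) (Dfn.not ?_)
      exact Dfn.comp (dfn_eq δ δ) (Sum.elim (fun t => Sum.inr (i, t)) (fun t => Sum.inr (j, t)))
        (fun v => Sum.elim (fun t => v (Sum.inr (i, t))) (fun t => v (Sum.inr (j, t))))
        (by intro v b; rcases b with b | b <;> rfl)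
  have hR3 : Dfn L (fun v : ℕ → N => R3 v) := (dfn_DU Δ δ).or (dfn_DI Δ δ)
  have hR : Dfn L R := by
    refine Dfn.exT (κ := ℕ) (R := fun (v : κ ⊕ ℕ → N) (u : ℕ → N) =>
      (fib δ u = fib δ (v ∘ Sum.inr) ∧ R1 (v ∘ Sum.inl) u) ∧ R2 (v ∘ Sum.inl) ∧ R3 u) ?_
    refine Dfn.and (Dfn.and ?_ ?_) (Dfn.and ?_ ?_)
    · exact Dfn.comp (dfn_eq δ δ) (Sum.elim (fun t => Sum.inr t) (fun t => Sum.inl (Sum.inr t)))
        (fun v => Sum.elim (fun t => v (Sum.inr t)) (fun t => v (Sum.inl (Sum.inr t))))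
        (by intro v b; rcases b with b | b <;> rfl)
    · exact hR1 (α := (κ ⊕ ℕ) ⊕ ℕ) (fun a => Sum.inl (Sum.inl a)) (fun i => Sum.inr i)
    · exact Dfn.comp hR2 (fun a => Sum.inl (Sum.inl a)) _ (fun _ _ => rfl)
    · exact Dfn.comp hR3 (fun a => Sum.inr a) _ (fun _ _ => rfl)
  -- number of fibres
  have hsub : ∀ c', R2 c' → ({D : Set N | ∃ u, R1 c' u ∧ D = fib δ u}.Finite ∧
      {D : Set N | ∃ u, R1 c' u ∧ D = fib δ u}.ncard ≤ k) := by
    intro c' hc'
    have key : ∀ T : Finset (Set N), ↑T ⊆ {D : Set N | ∃ u, R1 c' u ∧ D = fib δ u} → T.card ≤ k := by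
      intro T hT
      by_contra hcon
      push Not at hcon
      obtain ⟨T', hT', hT'c⟩ := Finset.exists_subset_card_eq (n := k + 1) (s := T) (by omega)
      apply hc'
      have e : Fin (k + 1) ≃ T' := (finCongr hT'c.symm).trans T'.equivFin.symm
      have hcc : ∀ j, ∃ u, R1 c' u ∧ (e j : Set N) = fib δ u := fun j => hT (hT' (e j).2)
      choose y hy1 hy2 using hcc
      refine ⟨fun p => y p.1 p.2, fun j => hy1 j, fun i j hij => ?_⟩
      show fib δ (y i) ≠ fib δ (y j)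
      rw [← hy2, ← hy2]
      intro hcon
      exact hij (e.injective (Subtype.ext hcon))
    have hfin : {D : Set N | ∃ u, R1 c' u ∧ D = fib δ u}.Finite := by
      by_contra hinf
      obtain ⟨T, hT1, hT2⟩ := (show {D : Set N | ∃ u, R1 c' u ∧ D = fib δ u}.Infinite from
        hinf).exists_subset_card_eq (k + 1)
      have := key T hT1
      omega
    refine ⟨hfin, ?_⟩
    rw [Set.ncard_eq_toFinset_card _ hfin]
    exact key _ (by simp)
  have hincl : ∀ c', {D : Set N | ∃ u, R (Sum.elim c' u) ∧ D = fib δ u} ⊆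
      {D : Set N | ∃ u, R1 c' u ∧ D = fib δ u} := by
    rintro c' D ⟨u, ⟨u', ⟨h1, h2⟩, -⟩, rfl⟩
    exact ⟨u', h2, h1.symm⟩
  refine ⟨R, k, hR, ?_, ?_, ?_⟩
  · refine ⟨w₀, ⟨hw₀e, fun φ _ => φ.2⟩, ?_, hD⟩
    rintro ⟨x, hx1, hx2⟩
    exact hF ⟨x, fun φ hφ j => hx1 j φ hφ, hx2⟩
  · intro c'
    by_cases hc' : R2 c'
    · obtain ⟨h1, h2⟩ := hsub c' hc'
      exact ⟨h1.subset (hincl c'), (Set.ncard_le_ncard (hincl c') h1).trans h2⟩
    · have : {D : Set N | ∃ u, R (Sum.elim c' u) ∧ D = fib δ u} = ∅ := by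
        rw [Set.eq_empty_iff_forall_notMem]
        rintro D ⟨u, ⟨u', -, h2, -⟩, -⟩
        exact hc' h2
      rw [this]
      simp
  · rintro c' w' ⟨u, ⟨h1, h2⟩, h3, h4⟩
    have h1' : fib δ u = fib δ w' := h1
    rw [← h1']
    refine ⟨⟨⟨δ, u, rfl⟩, Δ, hΔ, h4⟩, ?_⟩
    apply (hsub c' h3).1.subset
    rintro _ ⟨g, rfl⟩
    have hg := mem_GA.1 g.2
    refine ⟨fun i => (g : AutG L N) • u i, fun φ hφ => ?_, (fib_smul (g : AutG L N) δ u).symm⟩
    have h5 := AutG.realize (g : AutG L N) (Sum.elim c' u) φ.1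
    have h6 : (fun i => ((g : AutG L N) : Equiv.Perm N) (Sum.elim c' u i)) =
        Sum.elim c' (fun i => (g : AutG L N) • u i) := by
      funext i
      rcases i with i | i
      · exact hg _ ⟨i, rfl⟩
      · rfl
    rw [h6] at h5
    exact h5.2 (h2 φ hφ)

/-! ## Section 5.1: limit of an unbounded family -/

/-- the big tuple -/
def tup {α J κ' : Type} {p : ℕ} (a : α → N) (w : ℕ → N) (s : J → Fin p → N) (y : κ' → N) :
    ((α ⊕ ℕ) ⊕ (J × Fin p)) ⊕ κ' → N :=
  Sum.elim (Sum.elim (Sum.elim a w) (fun q => s q.1 q.2)) y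

theorem exists_limit (Λ : Levels L N) {α J κ' : Type} [Finite α] [Finite J] [Countable κ'] {p : ℕ} (a : α → N)
    (Δ : Finset (Fm L)) (Q : Fm L → (ℕ → N) → (J → Fin p → N) → (κ' → N) → Prop)
    (hunb : ∀ K : ℕ, ∃ s : J → Fin p → N, ∃ S : Finset (Set N), K < S.card ∧
      ∀ W ∈ S, ∃ δ ∈ Δ, ∃ w y, W = fib δ w ∧ Q δ w s y) :
    ∃ δ ∈ Δ, ∃ (I : Type) (U : Ultrafilter I) (w : I → ℕ → N) (s : I → J → Fin p → N) (y : I → κ' → N)
      (w' : ℕ → N) (s' : J → Fin p → N) (y' : κ' → N),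
      (∀ᶠ i in (U : Filter I), Q δ (w i) (s i) (y i)) ∧
      (∀ R : (((α ⊕ ℕ) ⊕ (J × Fin p)) ⊕ κ' → N) → Prop, Dfn L R →
        (R (tup a w' s' y') ↔ ∀ᶠ i in (U : Filter I), R (tup a (w i) (s i) (y i)))) ∧
      fib δ w' ∉ V.acl (supp a s') := by
  classical
  have hne : Nonempty N := Λ.nonempty
  let κ₀ := α ⊕ (J × Fin p)
  let I := Finset (L.Formula (κ₀ ⊕ ℕ)) × ℕ
  -- parameters
  let cc : (J → Fin p → N) → κ₀ → N := fun s => Sum.elim a (fun q => s q.1 q.2)
  let Z : L.Formula (κ₀ ⊕ ℕ) → Fm L → (J → Fin p → N) → Set (Set N) := fun φ δ s =>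
    {D : Set N | ∃ u, φ.Realize (Sum.elim (cc s) u) ∧ D = fib δ u}
  -- the choice for the index `i`
  have hch : ∀ i : I, ∃ (δ : Fm L) (w : ℕ → N) (s : J → Fin p → N) (y : κ' → N), δ ∈ Δ ∧
      Q δ w s y ∧ ∀ φ ∈ i.1, ∀ δ' ∈ Δ, (Z φ δ' s).Finite → (Z φ δ' s).ncard ≤ i.2 →
        fib δ w ∉ Z φ δ' s := by
    rintro ⟨F, K⟩
    obtain ⟨s, S, hS1, hS2⟩ := hunb (F.card * Δ.card * K)
    -- the bad sets
    let B : L.Formula (κ₀ ⊕ ℕ) × Fm L → Finset (Set N) := fun q =>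
      if h : (Z q.1 q.2 s).Finite ∧ (Z q.1 q.2 s).ncard ≤ K then h.1.toFinset else ∅
    have hB : ∀ q, (B q).card ≤ K := by
      intro q
      simp only [B]
      split_ifs with h
      · rw [← Set.ncard_eq_toFinset_card _ h.1]
        exact h.2
      · simp
    let Bad := (F ×ˢ Δ).biUnion B
    have hBad : Bad.card ≤ F.card * Δ.card * K := by
      refine (Finset.card_biUnion_le_card_mul _ _ K fun q _ => hB q).trans ?_
      rw [Finset.card_product]
    obtain ⟨W, hWS, hWB⟩ : ∃ W ∈ S, W ∉ Bad := by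
      by_contra hcon
      push Not at hcon
      have := Finset.card_le_card (show S ⊆ Bad from hcon)
      omega
    obtain ⟨δ, hδ, w, y, hW, hQ⟩ := hS2 W hWS
    refine ⟨δ, w, s, y, hδ, hQ, ?_⟩
    intro φ hφ δ' hδ' h1 h2 hmem
    apply hWB
    refine Finset.mem_biUnion.2 ⟨(φ, δ'), Finset.mem_product.2 ⟨hφ, hδ'⟩, ?_⟩
    have hc : (Z φ δ' s).Finite ∧ (Z φ δ' s).ncard ≤ K := ⟨h1, h2⟩
    simp only [B]
    rw [dif_pos hc, Set.Finite.mem_toFinset, hW]
    exact hmem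
  choose δ w s y hδ hQ hav using hch
  let U : Ultrafilter I := Ultrafilter.of Filter.atTop
  have hU : (U : Filter I) ≤ Filter.atTop := Ultrafilter.of_le _
  -- `δ` is constant for most indices
  obtain ⟨δ₀, hδ₀, hδ₀U⟩ : ∃ δ₀ ∈ Δ, ∀ᶠ i in (U : Filter I), δ i = δ₀ := by
    have h1 : ∀ᶠ i in (U : Filter I), ∃ δ₀ ∈ Δ, δ i = δ₀ :=
      Filter.Eventually.of_forall fun i => ⟨δ i, hδ i, rfl⟩
    by_contra hcon
    push Not at hcon
    have h2 : ∀ δ₀ ∈ Δ, ∀ᶠ i in (U : Filter I), ¬ δ i = δ₀ := by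
      intro δ₀ hδ₀
      exact hcon δ₀ hδ₀
    have h3 : ∀ᶠ i in (U : Filter I), ∀ δ₀ ∈ Δ, ¬ δ i = δ₀ := by
      rw [Filter.eventually_all_finset]
      exact h2
    obtain ⟨i, hi⟩ := h3.exists
    exact hi (δ i) (hδ i) rfl
  -- the limit
  obtain ⟨n, hn⟩ := Λ.finite_level a
  let κ := (ℕ ⊕ (J × Fin p)) ⊕ κ'
  have : Countable J := Finite.to_countable
  obtain ⟨e, he⟩ := exists_injective_nat κ
  obtain ⟨t, -, ht⟩ := Λ.lim_tuple (κ := κ) U n a hn
    (fun k => (⟨Λ.ne.some, Λ.mono (Nat.zero_le n) Λ.ne.some_mem⟩, e k))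
    (fun x y h => he (Prod.mk.inj h).2)
    (fun i => Sum.elim (Sum.elim (w i) (fun q => s i q.1 q.2)) (y i))
  let w' : ℕ → N := fun k => t (Sum.inl (Sum.inl k))
  let s' : J → Fin p → N := fun j k => t (Sum.inl (Sum.inr (j, k)))
  let y' : κ' → N := fun k => t (Sum.inr k)
  have hlim : ∀ R : (((α ⊕ ℕ) ⊕ (J × Fin p)) ⊕ κ' → N) → Prop, Dfn L R →
        (R (tup a w' s' y') ↔ ∀ᶠ i in (U : Filter I), R (tup a (w i) (s i) (y i))) := by
    rintro R ⟨ψ, hψ⟩
    let ρ : ((α ⊕ ℕ) ⊕ (J × Fin p)) ⊕ κ' → α ⊕ κ :=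
      Sum.elim (Sum.elim (Sum.elim Sum.inl (fun k => Sum.inr (Sum.inl (Sum.inl k))))
        (fun q => Sum.inr (Sum.inl (Sum.inr q)))) (fun k => Sum.inr (Sum.inr k))
    have h1 := ht (ψ.relabel ρ)
    simp only [Formula.realize_relabel] at h1
    have e1 : Sum.elim a t ∘ ρ = tup a w' s' y' := by
      funext x
      rcases x with ((x | x) | x) | x <;> rfl
    have e2 : ∀ i, Sum.elim a (Sum.elim (Sum.elim (w i) (fun q => s i q.1 q.2)) (y i)) ∘ ρ =
        tup a (w i) (s i) (y i) := by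
      intro i
      funext x
      rcases x with ((x | x) | x) | x <;> rfl
    rw [e1] at h1
    simp only [e2, hψ] at h1
    exact h1
  refine ⟨δ₀, hδ₀, I, U, w, s, y, w', s', y', ?_, hlim, ?_⟩
  · filter_upwards [hδ₀U] with i hi
    rw [← hi]; exact hQ i
  · intro hacl
    have hsupp : supp a s' = Set.range (cc s') := by
      ext x
      constructor
      · rintro (⟨i, rfl⟩ | ⟨j, i, rfl⟩)
        · exact ⟨Sum.inl i, rfl⟩
        · exact ⟨Sum.inr (j, i), rfl⟩
      · rintro ⟨i | ⟨j, i⟩, rfl⟩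
        · exact Or.inl ⟨i, rfl⟩
        · exact Or.inr ⟨j, i, rfl⟩
    rw [hsupp] at hacl
    obtain ⟨R, K, hR, hRw, hRK, -⟩ := acl_dfn Λ hacl
    obtain ⟨φ, hφ⟩ := hR
    have h1 := hlim (fun v => φ.Realize (Sum.elim (Sum.elim (fun x => v (Sum.inl (Sum.inl (Sum.inl x))))
      (fun q => v (Sum.inl (Sum.inr q)))) (fun k => v (Sum.inl (Sum.inl (Sum.inr k))))))
      (Dfn.real φ (Sum.elim (Sum.elim (fun x => Sum.inl (Sum.inl (Sum.inl x)))
        (fun q => Sum.inl (Sum.inr q))) (fun k => Sum.inl (Sum.inl (Sum.inr k)))) _ (by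
          intro v b
          rcases b with (b | b) | b <;> rfl))
    have h2 := h1.1 ((hφ _).2 hRw)
    have h3 : ∀ᶠ i : I in (U : Filter I), φ ∈ i.1 ∧ K ≤ i.2 := by
      apply hU
      filter_upwards [Filter.eventually_ge_atTop (({φ}, K) : I)] with i hi
      exact ⟨hi.1 (Finset.mem_singleton_self _), hi.2⟩
    obtain ⟨i, hi1, ⟨hi2, hi3⟩, hi4⟩ := (h2.and (h3.and hδ₀U)).exists
    have hZ : Z φ δ₀ (s i) = {D : Set N | ∃ u, R (Sum.elim (cc (s i)) u) ∧ D = fib δ₀ u} := by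
      ext D
      simp only [Z, Set.mem_ofPred_eq, hφ]
    refine hav i φ hi2 δ₀ hδ₀ ?_ ?_ ?_
    · rw [hZ]; exact (hRK _).1
    · rw [hZ]; exact (hRK _).2.trans hi3
    · rw [hi4]
      exact ⟨w i, hi1, rfl⟩

end VC

end Pool.Agent.VCM
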