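import Pool.Agent.VCM.Basic

namespace Pool.VCM

open Set Pointwise

variable {N G : Type} [Group G] [MulAction G N]

/-- data of the machine -/
structure Flip (C : Ctx0 N G) (U : Type) [MulAction G U] where
  sp : U → Set N
  sp_fin : ∀ u, (sp u).Finite
  sp_smul : ∀ (g : G) u, sp (g • u) = g • sp u
  sp_fix : ∀ (g : G) u, (∀ x ∈ sp u, g • x = x) → g • u = u
  RR : Set (Set N)
  Act : U → Set (Set N)
  F : U → U → Set (Set N)
  RR_ball : RR ⊆ C.Ball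
  act_acl : ∀ {u : U} {W : Set N}, W ∈ Act u → W ∉ C.acl (sp u)
  act_smul : ∀ (g : G) {u : U} {W : Set N}, W ∈ Act u → g • W ∈ Act (g • u)
  act_cell : ∀ {u : U} {W W' : Set N}, W ∈ Act u → W' ∈ C.cell (sp u) W → W' ∈ RR → W' ∈ Act u
  F_symm : ∀ u v, F u v = F v u
  F_smul : ∀ (g : G) {u v : U} {W : Set N}, W ∈ F u v → g • W ∈ F (g • u) (g • v)
  F_act : ∀ {u v : U} {W : Set N}, W ∈ F u v → W ∈ Act u
  F_RR : ∀ {u v : U} {W : Set N}, W ∈ F u v → W ∈ RR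
  F_acl : ∀ {u v : U} {W : Set N}, W ∈ F u v → W ∈ C.acl (sp u ∪ sp v)
  F_tri : ∀ {u v s : U} {Z : Set N}, Z ∈ F u v → Z ∈ Act s → Z ∈ F u s ∨ Z ∈ F s v
  K : ℕ
  F_bound : ∀ (u v : U) (S : Finset (Set N)), (∀ Z ∈ S, Z ∈ F u v) →
    (∀ Z ∈ S, ∀ Z' ∈ S, C.cl Z Z' → Z = Z') → S.card ≤ K

namespace Ctx0

variable (C : Ctx0 N G)

theorem gen_notin {c c' W₀ : Set N} {Vin : Set (Set N)} {n : ℕ} {s : G} (hs : C.IsGen c W₀ Vin n s)
    (hc' : c'.Finite) (hc'n : c' ⊆ C.lv n) {Z : Set N} (hZ : Z ∈ C.LB n) (hZc : Z ∉ C.acl c) :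
    Z ∉ C.acl (s • c') := by
  intro h
  rw [C.mem_acl_smul_iff] at h
  have h1 : s⁻¹ • Z ∈ C.LB n := C.acl_LB hc' hc'n h
  have h2 : s⁻¹ • Z ∉ C.acl c := fun h2 => hZc ((C.acl_fix (C.fix_inv hs.fix)).1 h2)
  have := hs.indep _ h1 h2
  rw [smul_inv_smul] at this
  exact this hZ

theorem star {c c' W₀ : Set N} {Vin : Set (Set N)} {n : ℕ} {s : G} (hW₀ : W₀ ∈ C.Ball) (hW₀c : W₀ ∉ C.acl c)
    (hs : C.IsGen c W₀ Vin n s)
    (hc' : c'.Finite) (hc'n : c' ⊆ C.lv n) (hT : C.T1 c c' W₀)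
    {Z : Set N} (hZ : Z ∈ C.LB n) (hZc : Z ∈ C.cell c W₀) :
    Z ∈ C.cell (s • c') (s • W₀) := by
  have hZb : Z ∈ C.Ball := hZc.1
  have hsW : s • W₀ ∈ C.cell c W₀ := C.cell_fix hs.fix (C.cell_self hW₀ hW₀c)
  refine ⟨hZb, C.gen_notin hs hc' hc'n hZ hZc.2.1, ?_⟩
  ext Q'
  constructor
  · rintro ⟨h1, h2⟩
    refine ⟨h1, ?_⟩
    by_contra hcon
    have hQ'b : Q' ∈ C.Ball := C.acl_ball h1
    have key : ∀ Q ∈ C.QQ c W₀, Q' ⊂ Q := by
      intro Q hQ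
      have hZQ : Z ⊂ Q := by
        have : Q ∈ C.QQ c Z := by rw [hZc.2.2]; exact hQ
        exact this.2
      refine C.ssub_of_not hQ'b (C.acl_ball hQ.1) hZb h2.1 hZQ.1 ?_
      intro hQQ'
      have : Q ∈ C.QQ c (s • W₀) := by rw [hsW.2.2]; exact hQ
      exact hcon (this.2.trans_subset hQQ')
    have hQ'cell : Q' ∈ C.cell c W₀ := C.cell_between hZc hQ'b h2.1 key
    have hY1 : s⁻¹ • Q' ∈ C.LB n := C.acl_LB hc' hc'n ((C.mem_acl_smul_iff s).1 h1)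
    have hY2 : s⁻¹ • Q' ∈ C.cell c W₀ := C.cell_fix (C.fix_inv hs.fix) hQ'cell
    by_cases hZV : Z ∈ Vin
    · have := hs.small Z hZV hZ _ hY2 hY1
      rw [smul_inv_smul] at this
      exact this.2 h2.1
    · have := hs.disj Z hZc hZV hZ _ hY2 hY1
      rw [smul_inv_smul] at this
      exact C.not_disj hZb h2.1 Subset.rfl this
  · intro hQ'
    refine ⟨hQ'.1, ?_⟩
    have h1 : s⁻¹ • Q' ∈ C.QQ c' W₀ := by
      have := hQ'
      rw [C.QQ_smul] at this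
      exact this
    obtain ⟨Q, hQ, hQQ⟩ := hT _ h1
    have h2 : s • Q ⊆ Q' := by
      rw [smul_set_subset_iff_subset_inv_smul_set]; exact hQQ
    rw [hs.fix.2 Q hQ.1] at h2
    have hZQ : Q ∈ C.QQ c Z := by rw [hZc.2.2]; exact hQ
    exact hZQ.2.trans_subset h2

/-- members of `acl c` do not separate balls of the same cell -/
theorem cell_sub {c Z Z' Q : Set N} (hQ : Q ∈ C.acl c) (hZ : Z ∉ C.acl c)
    (h : C.QQ c Z = C.QQ c Z') (hZQ : Z ⊆ Q) : Z' ⊆ Q := by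
  have h1 : Z ⊂ Q := by
    rcases hZQ.eq_or_ssubset with h' | h'
    · exact absurd (h' ▸ hQ) hZ
    · exact h'
  have : Q ∈ C.QQ c Z' := by rw [← h]; exact ⟨hQ, h1⟩
  exact this.2.1

end Ctx0

namespace Flip

variable {C : Ctx0 N G} {U : Type} [MulAction G U] (f : Flip C U)

theorem F_act' {u v : U} {W : Set N} (h : W ∈ f.F u v) : W ∈ f.Act v := by
  rw [f.F_symm] at h; exact f.F_act h

theorem F_ball {u v : U} {W : Set N} (h : W ∈ f.F u v) : W ∈ C.Ball := f.RR_ball (f.F_RR h)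

theorem F_nacl {u v : U} {W : Set N} (h : W ∈ f.F u v) : W ∉ C.acl (f.sp u) := f.act_acl (f.F_act h)

theorem F_nacl' {u v : U} {W : Set N} (h : W ∈ f.F u v) : W ∉ C.acl (f.sp v) := f.act_acl (f.F_act' h)

theorem RR_of_act_cell {u : U} {W : Set N} (h : W ∈ f.Act u) (hR : W ∈ f.RR) : W ∈ C.cell (f.sp u) W :=
  C.cell_self (f.RR_ball hR) (f.act_acl h)

/-- (*) second half -/
theorem starF {a b v : U} {W₀ : Set N} {Vin : Set (Set N)} {n : ℕ} {s : G} (hW₀ : W₀ ∈ f.F a b)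
    (hs : C.IsGen (f.sp a) W₀ Vin n s) (han : f.sp a ⊆ C.lv n) (hbn : f.sp b ⊆ C.lv n)
    (hT : C.T1 (f.sp a) (f.sp b) W₀)
    {Z : Set N} (hZ : Z ∈ C.LB n) (hZc : Z ∈ C.cell (f.sp a) W₀) (hZF : Z ∈ f.F a v) :
    Z ∈ f.F v (s • b) := by
  have h1 : Z ∈ C.cell (s • f.sp b) (s • W₀) :=
    C.star (f.F_ball hW₀) (f.F_nacl hW₀) hs (f.sp_fin b) hbn hT hZ hZc
  have h2 : Z ∈ f.Act (s • b) := by
    refine f.act_cell (f.act_smul s (f.F_act' hW₀)) ?_ (f.F_RR hZF)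
    rw [f.sp_smul]; exact h1
  have h3 : Z ∉ f.F a (s • b) := by
    intro h
    have h4 := f.F_acl h
    rw [f.sp_smul] at h4
    have h5 : f.sp a ∪ s • f.sp b = s • (f.sp a ∪ f.sp b) := by
      rw [smul_set_union, Ctx0.smul_eq_of_fix hs.fix.1]
    rw [h5] at h4
    exact C.gen_notin hs ((f.sp_fin a).union (f.sp_fin b)) (union_subset han hbn) hZ (f.F_nacl hZF) h4
  have h4 : Z ∈ f.F v a := by rw [f.F_symm]; exact hZF
  rcases f.F_tri h4 h2 with h | h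
  · exact h
  · rw [f.F_symm] at h; exact absurd h h3

end Flip

end Pool.VCM
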