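import Pool.Agent.VCM.Mach1

namespace Pool.VCM

open Set Pointwise

variable {N G : Type} [Group G] [MulAction G N]

namespace Flip

variable {C : Ctx0 N G} {U : Type} [MulAction G U] (f : Flip C U)

/-- a triple `(u,v;S)` with reference ball `W₀`. -/
structure Tri (u v : U) (S : Finset (Set N)) (W₀ : Set N) : Prop where
  mem : W₀ ∈ S
  sub : ∀ Z ∈ S, Z ∈ f.F u v
  inj : ∀ Z ∈ S, ∀ Z' ∈ S, C.cl Z Z' → Z = Z'
  cu : ∀ Z ∈ S, Z ∈ C.cell (f.sp u) W₀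
  cv : ∀ Z ∈ S, Z ∈ C.cell (f.sp v) W₀

/-- `m` bounds the size of triples -/
def Bd (m : ℕ) : Prop := ∀ (u v : U) (S : Finset (Set N)) (W₀ : Set N), f.Tri u v S W₀ → S.card ≤ m

variable {f}

theorem Tri.F₀ {u v : U} {S : Finset (Set N)} {W₀ : Set N} (h : f.Tri u v S W₀) : W₀ ∈ f.F u v := h.sub _ h.mem

theorem Tri.symm {u v : U} {S : Finset (Set N)} {W₀ : Set N} (h : f.Tri u v S W₀) : f.Tri v u S W₀ where
  mem := h.mem
  sub := fun Z hZ => by rw [f.F_symm]; exact h.sub Z hZ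
  inj := h.inj
  cu := h.cv
  cv := h.cu

theorem Tri.smul {u v : U} {S : Finset (Set N)} {W₀ : Set N} (h : f.Tri u v S W₀) (g : G) :
    ∃ S' : Finset (Set N), (∀ Z, Z ∈ S' ↔ ∃ Z' ∈ S, g • Z' = Z) ∧ S'.card = S.card ∧ f.Tri (g • u) (g • v) S' (g • W₀) := by
  classical
  refine ⟨S.image (g • ·), fun Z => by simp, Finset.card_image_of_injective _ (MulAction.injective g), ?_, ?_, ?_, ?_, ?_⟩
  · exact Finset.mem_image_of_mem _ h.mem
  · intro Z hZ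
    obtain ⟨Z', hZ', rfl⟩ := Finset.mem_image.1 hZ
    exact f.F_smul g (h.sub _ hZ')
  · intro Z hZ Z' hZ' hcl
    obtain ⟨Y, hY, rfl⟩ := Finset.mem_image.1 hZ
    obtain ⟨Y', hY', rfl⟩ := Finset.mem_image.1 hZ'
    have := C.cl_smul g⁻¹ hcl
    simp only [inv_smul_smul] at this
    rw [h.inj _ hY _ hY' this]
  · intro Z hZ
    obtain ⟨Y, hY, rfl⟩ := Finset.mem_image.1 hZ
    rw [f.sp_smul]; exact C.cell_smul (h.cu _ hY)
  · intro Z hZ
    obtain ⟨Y, hY, rfl⟩ := Finset.mem_image.1 hZ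
    rw [f.sp_smul]; exact C.cell_smul (h.cv _ hY)

theorem Tri.nacl {u v : U} {S : Finset (Set N)} {W₀ : Set N} (h : f.Tri u v S W₀) {Z : Set N} (hZ : Z ∈ S) :
    Z ∉ C.acl (f.sp u) := f.F_nacl (h.sub Z hZ)

theorem Tri.nacl' {u v : U} {S : Finset (Set N)} {W₀ : Set N} (h : f.Tri u v S W₀) {Z : Set N} (hZ : Z ∈ S) :
    Z ∉ C.acl (f.sp v) := f.F_nacl' (h.sub Z hZ)

theorem Tri.ball {u v : U} {S : Finset (Set N)} {W₀ : Set N} (h : f.Tri u v S W₀) {Z : Set N} (hZ : Z ∈ S) :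
    Z ∈ C.Ball := f.F_ball (h.sub Z hZ)

/-- a member of `acl (sp u)` contains one member of the triple iff it contains all -/
theorem Tri.sub_iff {u v : U} {S : Finset (Set N)} {W₀ : Set N} (h : f.Tri u v S W₀) {Z Z' Q : Set N} (hZ : Z ∈ S)
    (hZ' : Z' ∈ S) (hQ : Q ∈ C.acl (f.sp u)) (hs : Z ⊆ Q) : Z' ⊆ Q :=
  C.cell_sub hQ (h.nacl hZ) (by rw [(h.cu _ hZ).2.2, (h.cu _ hZ').2.2]) hs

/-- either base is type 1 -/
theorem T1_or {c c' W : Set N} (C : Ctx0 N G) (hW : W ∈ C.Ball) : C.T1 c c' W ∨ (C.T1 c' c W ∧ ∃ Q' ∈ C.QQ c' W, ∀ Q ∈ C.QQ c W, Q' ⊂ Q) := by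
  by_cases h : C.T1 c c' W
  · exact Or.inl h
  · right
    unfold Ctx0.T1 at h
    push Not at h
    obtain ⟨Q', hQ', h1⟩ := h
    have h2 : ∀ Q ∈ C.QQ c W, Q' ⊂ Q := fun Q hQ =>
      C.ssub_of_not (C.acl_ball hQ'.1) (C.acl_ball hQ.1) hW hQ'.2.1 hQ.2.1 (h1 Q hQ)
    exact ⟨fun Q hQ => ⟨Q', hQ', (h2 Q hQ).1⟩, Q', hQ', h2⟩

/-- LEMMA 1 -/
theorem lemma1 {m : ℕ} (hm : 0 < m) (hBd : f.Bd m) {a b : U} {S : Finset (Set N)} {W₀ : Set N}
    (hT : f.Tri a b S W₀) (hS : S.card = m) (h1 : C.T1 (f.sp a) (f.sp b) W₀)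
    {Vin : Set (Set N)} (hV : C.IsVin (f.sp a) W₀ Vin) :
    ∃ H ∈ C.acl (f.sp b), H ∈ Vin ∧ ¬ W₀ ⊆ H := by
  classical
  by_contra hcon
  push Not at hcon
  -- level
  obtain ⟨d, hd, hSd⟩ := C.codes (S := (S : Set (Set N))) S.finite_toSet (fun Z hZ => hT.ball hZ)
  obtain ⟨n, hn⟩ := C.exists_lv (((f.sp_fin a).union (f.sp_fin b)).union hd)
  have han : f.sp a ⊆ C.lv n := (subset_union_left.trans subset_union_left).trans hn
  have hbn : f.sp b ⊆ C.lv n := (subset_union_right.trans subset_union_left).trans hn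
  have hdn : d ⊆ C.lv n := subset_union_right.trans hn
  have hSn : ∀ Z ∈ S, Z ∈ C.LB n := fun Z hZ => C.acl_LB hd hdn (hSd hZ)
  obtain ⟨σ, hσ, -⟩ := hV.gen
  have hs := hσ n han
  set s := σ n with hsdef
  have hW₀F := hT.F₀
  -- (i)
  have hi : ∀ Z ∈ S, Z ∈ C.cell (s • f.sp b) (s • W₀) := fun Z hZ =>
    C.star (f.F_ball hW₀F) (f.F_nacl hW₀F) hs (f.sp_fin b) hbn h1 (hSn Z hZ) (hT.cu Z hZ)
  -- s • Z is not a LB n ball
  have hsn : ∀ Z ∈ S, s • Z ∉ C.LB n := fun Z hZ => hs.indep Z (hSn Z hZ) (hT.nacl hZ)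
  have hscell : ∀ Z ∈ S, s • Z ∈ C.cell (f.sp a) W₀ := fun Z hZ => C.cell_fix hs.fix (hT.cu Z hZ)
  -- (ii)
  have hii : ∀ Z ∈ S, s • Z ∈ C.cell (f.sp b) W₀ := by
    intro Z hZ
    have hbZ : s • Z ∈ C.Ball := C.ball_smul s (hT.ball hZ)
    refine ⟨hbZ, fun h => hsn Z hZ (C.acl_LB (f.sp_fin b) hbn h), ?_⟩
    ext Y
    constructor
    · rintro ⟨hY1, hY2⟩
      refine ⟨hY1, ?_⟩
      by_contra hWY
      have hYb := C.acl_ball hY1
      have hWY' : ¬ W₀ ⊆ Y := by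
        intro h'
        rcases h'.eq_or_ssubset with h'' | h''
        · exact f.F_nacl' hW₀F (h'' ▸ hY1)
        · exact hWY h''
      have key : ∀ Q ∈ C.QQ (f.sp a) W₀, Y ⊂ Q := by
        intro Q hQ
        have hZQ : s • Z ⊂ Q := by
          have : Q ∈ C.QQ (f.sp a) (s • Z) := by rw [(hscell Z hZ).2.2]; exact hQ
          exact this.2
        exact C.ssub_of_not hYb (C.acl_ball hQ.1) hbZ hY2.1 hZQ.1 (fun h' => hWY' (hQ.2.1.trans h'))
      have hYc : Y ∈ C.cell (f.sp a) W₀ := C.cell_between (hscell Z hZ) hYb hY2.1 key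
      have hYV : Y ∉ Vin := fun h' => hWY' (hcon Y hY1 h')
      have := hs.disj Y hYc hYV (C.acl_LB (f.sp_fin b) hbn hY1) Z (hT.cu Z hZ) (hSn Z hZ)
      exact C.not_disj hbZ Subset.rfl hY2.1 this
    · intro hY
      refine ⟨hY.1, ?_⟩
      obtain ⟨Q, hQ, hQY⟩ := h1 Y hY
      have : Q ∈ C.QQ (f.sp a) (s • Z) := by rw [(hscell Z hZ).2.2]; exact hQ
      exact this.2.trans_subset hQY
  -- (iii)
  have hF1 : ∀ Z ∈ S, Z ∈ f.F b (s • b) := fun Z hZ =>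
    f.starF hW₀F hs han hbn h1 (hSn Z hZ) (hT.cu Z hZ) (hT.sub Z hZ)
  have hsa : s • a = a := f.sp_fix s a hs.fix.1
  have hF2 : ∀ Z ∈ S, s • Z ∈ f.F b (s • b) := by
    intro Z hZ
    have h2 : s • Z ∈ f.F a (s • b) := by
      have := f.F_smul s (hT.sub Z hZ); rwa [hsa] at this
    have h3 : s • Z ∈ f.Act b := f.act_cell (f.F_act' hW₀F) (hii Z hZ) (f.F_RR h2)
    rcases f.F_tri h2 h3 with h | h
    · exact absurd (C.acl_LB ((f.sp_fin a).union (f.sp_fin b)) (union_subset han hbn) (f.F_acl h)) (hsn Z hZ)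
    · exact h
  -- the big triple
  have hT' : f.Tri b (s • b) (S ∪ S.image (s • ·)) W₀ := by
    refine ⟨Finset.mem_union_left _ hT.mem, ?_, ?_, ?_, ?_⟩
    · intro Z hZ
      rcases Finset.mem_union.1 hZ with h | h
      · exact hF1 Z h
      · obtain ⟨Y, hY, rfl⟩ := Finset.mem_image.1 h
        exact hF2 Y hY
    · intro Z hZ Z' hZ' hcl
      rcases Finset.mem_union.1 hZ with h | h <;> rcases Finset.mem_union.1 hZ' with h' | h'
      · exact hT.inj Z h Z' h' hcl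
      · obtain ⟨Y, hY, rfl⟩ := Finset.mem_image.1 h'
        exact absurd (C.LB_cl hcl (hSn Z h)) (hsn Y hY)
      · obtain ⟨Y, hY, rfl⟩ := Finset.mem_image.1 h
        exact absurd (C.LB_cl (C.cl_equiv.symm hcl) (hSn Z' h')) (hsn Y hY)
      · obtain ⟨Y, hY, rfl⟩ := Finset.mem_image.1 h
        obtain ⟨Y', hY', rfl⟩ := Finset.mem_image.1 h'
        have := C.cl_smul s⁻¹ hcl
        simp only [inv_smul_smul] at this
        rw [hT.inj _ hY _ hY' this]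
    · intro Z hZ
      rcases Finset.mem_union.1 hZ with h | h
      · exact hT.cv Z h
      · obtain ⟨Y, hY, rfl⟩ := Finset.mem_image.1 h
        exact hii Y hY
    · intro Z hZ
      rw [f.sp_smul]
      have hWs := hi W₀ hT.mem
      rcases Finset.mem_union.1 hZ with h | h
      · rw [← C.cell_eq hWs] at hi
        rw [← C.cell_eq hWs] at hWs
        exact (C.cell_eq (hi W₀ hT.mem)) ▸ (hi Z h)
      · obtain ⟨Y, hY, rfl⟩ := Finset.mem_image.1 h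
        rw [C.cell_eq hWs]
        exact C.cell_smul (hT.cv Y hY)
  have hcard : (S ∪ S.image (s • ·)).card = m + m := by
    rw [Finset.card_union_of_disjoint, Finset.card_image_of_injective _ (MulAction.injective s), hS]
    rw [Finset.disjoint_left]
    intro Z hZ hZ'
    obtain ⟨Y, hY, rfl⟩ := Finset.mem_image.1 hZ'
    exact hsn Y hY (hSn _ hZ)
  have := hBd _ _ _ _ hT'
  omega

end Flip

end Pool.VCM
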