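import Pool.Agent.VCM.Mach2

namespace Pool.VCM

open Set Pointwise

variable {N G : Type} [Group G] [MulAction G N]

namespace Ctx0

variable {C : Ctx0 N G}

/-- a common level -/
theorem exists_gen {c W₀ : Set N} {Vin : Set (Set N)} (hc : c.Finite) (hV : C.IsVin c W₀ Vin)
    {T : Set (Set N)} (hT : T.Finite) (hTB : T ⊆ C.Ball) : ∃ n s, C.IsGen c W₀ Vin n s ∧ c ⊆ C.lv n ∧ T ⊆ C.LB n := by
  obtain ⟨d, hd, hTd⟩ := C.codes hT hTB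
  obtain ⟨n, hn⟩ := C.exists_lv (hc.union hd)
  obtain ⟨σ, hσ, -⟩ := hV.gen
  exact ⟨n, σ n, hσ n (subset_union_left.trans hn), subset_union_left.trans hn,
    fun Z hZ => C.acl_LB hd (subset_union_right.trans hn) (hTd hZ)⟩

theorem P1 {c W₀ : Set N} {Vin : Set (Set N)} (hc : c.Finite) (hV : C.IsVin c W₀ Vin)
    {H₀ D F Y : Set N} (hH₀ : H₀ ∈ Vin) (hD : D ∈ Vin) (hF : F ⊆ D) (hY : Y ∈ C.acl c) (hFY : ¬ F ⊆ Y) :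
    Y ⊆ H₀ ∨ Disjoint Y D := by
  have hDc := hV.sub hD
  rcases C.lam (C.acl_ball hY) hDc.1 with h | h | h
  · left
    obtain ⟨n, s, hs, -, hT⟩ := exists_gen hc hV (T := {H₀, D}) (by simp)
      (by rintro x (rfl | rfl); exacts [(hV.sub hH₀).1, hDc.1])
    have h1 := hs.small H₀ hH₀ (hT (by simp)) D hDc (hT (by simp))
    have h2 : s • Y ⊆ s • D := smul_set_mono h
    rw [hs.fix.2 Y hY] at h2
    exact h2.trans h1.1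
  · exact absurd (hF.trans h) hFY
  · exact Or.inr h

end Ctx0

namespace Flip

variable {C : Ctx N G} {U : Type} [MulAction G U] {f : Flip C.toCtx0 U}

/-- hypotheses of Lemma 3 -/
structure L3 (f : Flip C.toCtx0 U) (m : ℕ) (a b : U) (S : Finset (Set N)) (W₀ : Set N) (Vin : Set (Set N)) (n : ℕ) (s : G) : Prop where
  hm : 0 < m
  bd : f.Bd m
  tri : f.Tri a b S W₀
  card : S.card = m
  t1 : C.T1 (f.sp a) (f.sp b) W₀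
  vin : C.IsVin (f.sp a) W₀ Vin
  han : f.sp a ⊆ C.lv n
  hbn : f.sp b ⊆ C.lv n
  hSn : ∀ Z ∈ S, Z ∈ C.LB n
  gen : C.IsGen (f.sp a) W₀ Vin n s

variable {m : ℕ} {a b : U} {S : Finset (Set N)} {W₀ : Set N} {Vin : Set (Set N)} {n : ℕ} {s : G}

theorem L3.starc (h : L3 f m a b S W₀ Vin n s) {Z : Set N} (hZ : Z ∈ C.LB n) (hZc : Z ∈ C.cell (f.sp a) W₀) :
    Z ∈ C.cell (f.sp (s • b)) (s • W₀) := by
  rw [f.sp_smul]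
  exact C.star (f.F_ball h.tri.F₀) (f.F_nacl h.tri.F₀) h.gen (f.sp_fin b) h.hbn h.t1 hZ hZc

/-- (3b) -/
theorem L3.pb (h : L3 f m a b S W₀ Vin n s) : f.Tri b (s • b) S W₀ where
  mem := h.tri.mem
  sub := fun Z hZ => f.starF h.tri.F₀ h.gen h.han h.hbn h.t1 (h.hSn Z hZ) (h.tri.cu Z hZ) (h.tri.sub Z hZ)
  inj := h.tri.inj
  cu := h.tri.cv
  cv := fun Z hZ => by
    have h1 := h.starc (h.hSn Z hZ) (h.tri.cu Z hZ)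
    have h2 := h.starc (h.hSn _ h.tri.mem) (h.tri.cu _ h.tri.mem)
    rw [← C.cell_eq h2] at h1
    exact h1

/-- (3a) -/
theorem L3.pa (h : L3 f m a b S W₀ Vin n s) {X Y : Set N} (hX : X ∈ Vin) (hXn : X ∈ C.LB n)
    (hY : Y ∈ C.acl (f.sp (s • b))) (hYc : Y ∈ C.cell (f.sp a) W₀) : Y ⊂ X := by
  rw [f.sp_smul, C.mem_acl_smul_iff] at hY
  have := h.gen.small X hX hXn _ (C.cell_fix (C.fix_inv h.gen.fix) hYc) (C.acl_LB (f.sp_fin b) h.hbn hY)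
  rwa [smul_inv_smul] at this

/-- (3c) -/
theorem L3.pc (h : L3 f m a b S W₀ Vin n s) {H₀ : Set N} (hH₀ : H₀ ∈ C.acl (f.sp b)) (hH₀V : H₀ ∈ Vin)
    (hWH₀ : ¬ W₀ ⊆ H₀) : ¬ C.T1 (f.sp b) (f.sp (s • b)) W₀ := by
  intro hT1
  have hW₀F := h.tri.F₀
  have hW₀b : W₀ ∈ C.Ball := f.F_ball hW₀F
  have hW₀n : W₀ ∈ C.LB n := h.hSn _ h.tri.mem
  obtain ⟨Vt, hVt⟩ := C.vin (f.sp_fin b) hW₀b (f.F_nacl' hW₀F)
  obtain ⟨Ht, hHt1, hHt2, hHt3⟩ := lemma1 h.hm h.bd h.pb h.card hT1 hVt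
  obtain ⟨Dt, hDt, hDt2⟩ := hVt.dir ⟨_, hHt2⟩ {W₀, Ht} (by simp)
    (by rintro x (rfl | rfl); exacts [C.cell_self hW₀b (f.F_nacl' hW₀F), hVt.sub hHt2])
  have hWDt := hDt2 W₀ (by simp)
  have hHDt := hDt2 Ht (by simp)
  have hH₀n : H₀ ∈ C.LB n := C.acl_LB (f.sp_fin b) h.hbn hH₀
  have hsW : s • W₀ ⊂ H₀ := h.gen.small H₀ hH₀V hH₀n W₀ (h.tri.cu _ h.tri.mem) hW₀n
  have hH₀b := C.acl_ball hH₀
  have hHtb := C.acl_ball hHt1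
  rcases Ctx0.P1 (f.sp_fin b) hVt hHt2 hDt hWDt hH₀ hWH₀ with h1 | h1
  · -- H₀ ⊆ Ht
    have h2 : s • W₀ ⊆ Ht := hsW.1.trans h1
    have h3 := h.starc hW₀n (h.tri.cu _ h.tri.mem)
    have h4 : s • W₀ ∉ C.acl (f.sp (s • b)) := by
      rw [f.sp_smul, C.acl_smul_iff]; exact f.F_nacl' hW₀F
    exact hHt3 (C.cell_sub hHt1 h4 h3.2.2.symm h2)
  · obtain ⟨D, hD, hD2⟩ := h.vin.dir ⟨_, hH₀V⟩ {W₀, H₀} (by simp)
      (by rintro x (rfl | rfl); exacts [h.tri.cu _ h.tri.mem, h.vin.sub hH₀V])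
    have hWD := hD2 W₀ (by simp)
    have hHD := hD2 H₀ (by simp)
    have hDc := h.vin.sub hD
    have hDtD : Dt ⊂ D := by
      refine C.ssub_of_not (hVt.sub hDt).1 hDc.1 hW₀b hWDt hWD ?_
      intro h'
      exact C.not_disj hH₀b Subset.rfl (hHD.trans h') h1
    have hHtD : Ht ⊆ D := hHDt.trans hDtD.1
    have hHtH₀ : ¬ Ht ⊆ H₀ := fun h' => C.not_disj hHtb h' hHDt h1
    by_cases hc : Ht ∈ C.cell (f.sp a) W₀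
    · exact hHtH₀ (h.pa hH₀V hH₀n hHt1 hc).1
    · have : ∃ Y ∈ C.acl (f.sp a), Ht ⊆ Y ∧ ¬ W₀ ⊆ Y := by
        by_cases h2 : Ht ∈ C.acl (f.sp a)
        · exact ⟨Ht, h2, Subset.rfl, hHt3⟩
        · have h3 : C.QQ (f.sp a) Ht ≠ C.QQ (f.sp a) W₀ := fun h3 => hc ⟨hHtb, h2, h3⟩
          have h4 : C.QQ (f.sp a) W₀ ⊆ C.QQ (f.sp a) Ht := by
            intro Q hQ
            have : Q ∈ C.QQ (f.sp a) D := by rw [hDc.2.2]; exact hQ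
            exact ⟨hQ.1, hHtD.trans_ssubset this.2⟩
          obtain ⟨Y, hY, hY'⟩ := Set.not_subset.1 (fun h5 => h3 (Subset.antisymm h5 h4))
          refine ⟨Y, hY.1, hY.2.1, fun h6 => hY' ⟨hY.1, ?_⟩⟩
          rcases h6.eq_or_ssubset with h7 | h7
          · exact absurd (h7 ▸ hY.1) (f.F_nacl hW₀F)
          · exact h7
      obtain ⟨Y, hY, hHtY, hWY⟩ := this
      rcases Ctx0.P1 (f.sp_fin a) h.vin hH₀V hD hWD hY hWY with h2 | h2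
      · exact hHtH₀ (hHtY.trans h2)
      · exact C.not_disj hHtb hHtY hHtD h2

/-- (3d) -/
theorem L3.pd (h : L3 f m a b S W₀ Vin n s) {H₀ : Set N} (hH₀ : H₀ ∈ C.acl (f.sp b)) (hH₀V : H₀ ∈ Vin)
    (hWH₀ : ¬ W₀ ⊆ H₀) {Vin' : Set (Set N)} (hV' : C.IsVin (f.sp (s • b)) W₀ Vin') :
    (∃ H ∈ C.acl (f.sp b), H ∈ Vin ∧ H ∈ Vin' ∧ ¬ W₀ ⊆ H) ∧ C.T1 (f.sp (s • b)) (f.sp b) W₀ ∧
      ∃ Q' ∈ C.QQ (f.sp (s • b)) W₀, ∀ Q ∈ C.QQ (f.sp b) W₀, Q' ⊂ Q := by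
  have hW₀F := h.tri.F₀
  have hW₀b : W₀ ∈ C.Ball := f.F_ball hW₀F
  have hW₀n : W₀ ∈ C.LB n := h.hSn _ h.tri.mem
  have hT1 : C.T1 (f.sp (s • b)) (f.sp b) W₀ ∧ ∃ Q' ∈ C.QQ (f.sp (s • b)) W₀, ∀ Q ∈ C.QQ (f.sp b) W₀, Q' ⊂ Q := by
    rcases T1_or (c := f.sp b) (c' := f.sp (s • b)) C.toCtx0 hW₀b with h1 | h1
    · exact absurd h1 (h.pc hH₀ hH₀V hWH₀)
    · exact h1
  refine ⟨?_, hT1⟩
  obtain ⟨H', hH'1, hH'2, hH'3⟩ := lemma1 h.hm h.bd h.pb.symm h.card hT1.1 hV'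
  have hH₀n : H₀ ∈ C.LB n := C.acl_LB (f.sp_fin b) h.hbn hH₀
  have hH₀c := h.vin.sub hH₀V
  have hH₀c' : H₀ ∈ C.cell (f.sp (s • b)) W₀ := by
    have h1 := h.starc hH₀n hH₀c
    have h2 := h.starc hW₀n (h.tri.cu _ h.tri.mem)
    rw [← C.cell_eq h2] at h1
    exact h1
  obtain ⟨n', g, hg, -, hT⟩ := Ctx0.exists_gen (f.sp_fin _) hV' (T := {H₀, H'}) (by simp)
    (by rintro x (rfl | rfl); exacts [hH₀c.1, C.acl_ball hH'1])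
  have h1 : g • H₀ ⊂ H' := hg.small H' hH'2 (hT (by simp)) H₀ hH₀c' (hT (by simp))
  have h2 : s • H₀ ⊂ H₀ := h.gen.small H₀ hH₀V hH₀n H₀ hH₀c hH₀n
  have h3 : s • H₀ ∈ C.acl (f.sp (s • b)) := by rw [f.sp_smul]; exact C.acl_smul s hH₀
  have h4 : s • H₀ ⊆ H' := by
    have h5 : g • (s • H₀) ⊆ g • H₀ := smul_set_mono h2.1
    rw [hg.fix.2 _ h3] at h5
    exact h5.trans h1.1
  have hsb : s • H₀ ∈ C.Ball := C.acl_ball h3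
  rcases C.comp (C.acl_ball hH'1) hH₀c.1 hsb h4 h2.1 with h5 | h5
  · exact ⟨H₀, hH₀, hH₀V, hV'.up H' hH'2 H₀ hH₀c' h5, hWH₀⟩
  · refine ⟨H', hH'1, h.vin.up H₀ hH₀V H' ?_ h5, hH'2, hH'3⟩
    refine C.cell_between hH₀c (C.acl_ball hH'1) h5 ?_
    intro Q hQ
    have : Q ∈ C.QQ (f.sp a) H₀ := by rw [hH₀c.2.2]; exact hQ
    exact C.ssub_of_not (C.acl_ball hH'1) (C.acl_ball hQ.1) hH₀c.1 h5 this.2.1
      (fun h' => hH'3 (hQ.2.1.trans h'))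

end Flip

end Pool.VCM
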