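import Pool.Agent.VCM.Mach3

namespace Pool.VCM

open Set Pointwise

variable {N G : Type} [Group G] [MulAction G N]

namespace Flip

variable {C : Ctx N G} {U : Type} [MulAction G U] {f : Flip C.toCtx0 U}

/-- setting for Lemmas 5, 6 -/
structure L5 (f : Flip C.toCtx0 U) (m : ℕ) (b₀ b₁ : U) (S : Finset (Set N)) (W₀ : Set N) (Vin : Set (Set N))
    (H₀ D : Set N) (CC : Set N) : Prop where
  hm : 0 < m
  bd : f.Bd m
  tri : f.Tri b₀ b₁ S W₀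
  card : S.card = m
  vin : C.IsVin (f.sp b₁) W₀ Vin
  hacl : H₀ ∈ C.acl (f.sp b₀)
  hV : H₀ ∈ Vin
  hW : ¬ W₀ ⊆ H₀
  dV : D ∈ Vin
  sD : ∀ Z ∈ S, Z ⊆ D
  hD : H₀ ⊆ D
  q : ∃ Q' ∈ C.QQ (f.sp b₁) W₀, ∀ Q ∈ C.QQ (f.sp b₀) W₀, Q' ⊂ Q
  cfin : CC.Finite
  b₀C : f.sp b₀ ⊆ CC
  b₁C : f.sp b₁ ⊆ CC
  dC : D ∈ C.acl CC
  sC : ∀ Z ∈ S, Z ∈ C.acl CC

variable {m : ℕ} {b₀ b₁ : U} {S : Finset (Set N)} {W₀ : Set N} {Vin : Set (Set N)} {H₀ D CC : Set N}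

/-- independence of `h,h'` -/
def Indep (f : Flip C.toCtx0 U) (b₀ : U) (CC : Set N) (h h' : G) : Prop :=
  ∀ Z, Z ∈ C.acl (h • CC) → Z ∈ C.acl (h' • CC) → Z ∈ C.acl (f.sp b₀)

theorem Indep.symm {h h' : G} (H : Indep f b₀ CC h h') : Indep f b₀ CC h' h := fun Z h1 h2 => H Z h2 h1

theorem L5.nacl (L : L5 f m b₀ b₁ S W₀ Vin H₀ D CC) {h : G} (hh : h ∈ C.Fix (f.sp b₀)) {Z : Set N} (hZ : Z ∈ S) :
    h • Z ∉ C.acl (f.sp b₀) := fun h' => L.tri.nacl hZ ((C.acl_fix hh).1 h')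

theorem L5.notH (L : L5 f m b₀ b₁ S W₀ Vin H₀ D CC) {h : G} (hh : h ∈ C.Fix (f.sp b₀)) {Z : Set N} (hZ : Z ∈ S) :
    ¬ h • Z ⊆ H₀ := by
  intro h'
  rw [smul_set_subset_iff_subset_inv_smul_set, (C.fix_inv hh).2 _ L.hacl] at h'
  exact L.hW (L.tri.sub_iff hZ L.tri.mem L.hacl h')

theorem L5.hDh (L : L5 f m b₀ b₁ S W₀ Vin H₀ D CC) {h : G} (hh : h ∈ C.Fix (f.sp b₀)) : H₀ ⊆ h • D := by
  have := smul_set_mono (a := h) L.hD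
  rwa [hh.2 _ L.hacl] at this

theorem L5.dBall (L : L5 f m b₀ b₁ S W₀ Vin H₀ D CC) : D ∈ C.Ball := (L.vin.sub L.dV).1

theorem L5.dh_comp (L : L5 f m b₀ b₁ S W₀ Vin H₀ D CC) {h h' : G} (hh : h ∈ C.Fix (f.sp b₀))
    (hh' : h' ∈ C.Fix (f.sp b₀)) : h • D ⊆ h' • D ∨ h' • D ⊆ h • D :=
  C.comp (C.ball_smul h L.dBall) (C.ball_smul h' L.dBall) (C.acl_ball L.hacl) (L.hDh hh) (L.hDh hh')

theorem L5.P4 (L : L5 f m b₀ b₁ S W₀ Vin H₀ D CC) {h : G} (hh : h ∈ C.Fix (f.sp b₀)) {Y : Set N}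
    (hY : Y ∈ C.acl (f.sp (h • b₁))) (hW : ¬ h • W₀ ⊆ Y) : Y ⊆ H₀ ∨ Disjoint Y (h • D) := by
  rw [f.sp_smul, C.mem_acl_smul_iff] at hY
  have hW' : ¬ W₀ ⊆ h⁻¹ • Y := by rwa [smul_set_subset_iff_subset_inv_smul_set] at hW
  rcases Ctx0.P1 (f.sp_fin b₁) L.vin L.hV L.dV (L.sD _ L.tri.mem) hY hW' with h1 | h1
  · left
    have := smul_set_mono (a := h) h1
    rwa [smul_inv_smul, hh.2 _ L.hacl] at this
  · right
    have := disjoint_smul_set (a := h) |>.2 h1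
    rwa [smul_inv_smul] at this

theorem L5.dn (L : L5 f m b₀ b₁ S W₀ Vin H₀ D CC) : D ∉ C.acl (f.sp b₀) := by
  intro hD
  obtain ⟨Q', hQ', hQ⟩ := L.q
  have h1 : W₀ ⊂ D := by
    rcases (L.sD _ L.tri.mem).eq_or_ssubset with h | h
    · exact absurd (h ▸ hD) (L.tri.nacl L.tri.mem)
    · exact h
  have h2 := hQ D ⟨hD, h1⟩
  have h3 : Q' ∈ C.QQ (f.sp b₁) D := by rw [(L.vin.sub L.dV).2.2]; exact hQ'
  exact h2.2 h3.2.1

theorem acl_sp_smul (f : Flip C.toCtx0 U) {b : U} {CC : Set N} (hb : f.sp b ⊆ CC) (h : G) :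
    C.acl (f.sp (h • b)) ⊆ C.acl (h • CC) := by
  rw [f.sp_smul]; exact C.acl_mono (smul_set_mono hb)

theorem L5.F_sub (L : L5 f m b₀ b₁ S W₀ Vin H₀ D CC) {h : G} (hh : h ∈ C.Fix (f.sp b₀)) {Z : Set N}
    (hZ : Z ∈ f.F b₀ (h • b₁)) : Z ∈ C.acl (h • CC) := by
  have h1 := f.F_acl hZ
  rw [f.sp_smul] at h1
  have h2 : f.sp b₀ = h • f.sp b₀ := (Ctx0.smul_eq_of_fix hh.1).symm
  rw [h2, ← smul_set_union] at h1
  exact C.acl_mono (smul_set_mono (union_subset L.b₀C L.b₁C)) h1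

theorem L5.F_mem (L : L5 f m b₀ b₁ S W₀ Vin H₀ D CC) {h : G} (hh : h ∈ C.Fix (f.sp b₀)) {Z : Set N}
    (hZ : Z ∈ S) : h • Z ∈ f.F b₀ (h • b₁) := by
  have := f.F_smul h (L.tri.sub Z hZ)
  rwa [f.sp_fix h b₀ hh.1] at this

theorem L5.mem_C (L : L5 f m b₀ b₁ S W₀ Vin H₀ D CC) {h : G} {Z : Set N} (hZ : Z ∈ S) :
    h • Z ∈ C.acl (h • CC) := C.acl_smul h (L.sC Z hZ)

/-- Lemma 5 (i) -/
theorem L5.i (L : L5 f m b₀ b₁ S W₀ Vin H₀ D CC) {h h' : G} (hh : h ∈ C.Fix (f.sp b₀)) (hh' : h' ∈ C.Fix (f.sp b₀))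
    (hi : Indep f b₀ CC h h') (hD : h • D ⊆ h' • D) {Z : Set N} (hZ : Z ∈ S) :
    h • Z ∈ C.cell (f.sp (h' • b₁)) (h' • W₀) := by
  have hZb : h • Z ∈ C.Ball := C.ball_smul h (L.tri.ball hZ)
  have hZD : h • Z ⊆ h' • D := (smul_set_mono (L.sD Z hZ)).trans hD
  refine ⟨hZb, fun h1 => L.nacl hh hZ (hi _ (L.mem_C hZ) (acl_sp_smul f L.b₁C h' h1)), ?_⟩
  ext Q
  constructor
  · rintro ⟨h1, h2⟩
    refine ⟨h1, ?_⟩
    by_contra h3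
    have hWn : h' • W₀ ∉ C.acl (f.sp (h' • b₁)) := by
      rw [f.sp_smul, C.acl_smul_iff]; exact L.tri.nacl' L.tri.mem
    have h4 : ¬ h' • W₀ ⊆ Q := by
      intro h5
      rcases h5.eq_or_ssubset with h6 | h6
      · exact hWn (h6 ▸ h1)
      · exact h3 h6
    rcases L.P4 hh' h1 h4 with h5 | h5
    · exact L.notH hh hZ (h2.1.trans h5)
    · exact C.not_disj hZb h2.1 hZD h5
  · intro hQ
    refine ⟨hQ.1, ?_⟩
    have hDc : h' • D ∈ C.cell (f.sp (h' • b₁)) (h' • W₀) := by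
      rw [f.sp_smul]; exact C.cell_smul (L.vin.sub L.dV)
    have : Q ∈ C.QQ (f.sp (h' • b₁)) (h' • D) := by rw [hDc.2.2]; exact hQ
    exact Set.ssubset_of_subset_of_ssubset hZD this.2

/-- Lemma 5 (ii) -/
theorem L5.ii (L : L5 f m b₀ b₁ S W₀ Vin H₀ D CC) {h h' : G} (hh : h ∈ C.Fix (f.sp b₀)) (hh' : h' ∈ C.Fix (f.sp b₀))
    (hi : Indep f b₀ CC h h') (hD : h • D ⊆ h' • D) :
    ∃ S' : Finset (Set N), (∀ Z, Z ∈ S' ↔ ∃ Z' ∈ S, h • Z' = Z) ∧ S'.card = m ∧ f.Tri (h • b₁) (h' • b₁) S' (h • W₀) := by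
  obtain ⟨S', h1, h2, h3⟩ := L.tri.smul h
  refine ⟨S', h1, h2.trans L.card, ⟨h3.mem, ?_, h3.inj, h3.cv, ?_⟩⟩
  · intro Z hZ
    obtain ⟨Y, hY, rfl⟩ := (h1 Z).1 hZ
    have hact : h • Y ∈ f.Act (h' • b₁) := by
      refine f.act_cell (f.act_smul h' (f.F_act' L.tri.F₀)) (L.i hh hh' hi hD hY) (f.F_RR (L.F_mem hh hY))
    rcases f.F_tri (L.F_mem hh hY) hact with h4 | h4
    · exact absurd (hi _ (L.mem_C hY) (L.F_sub hh' h4)) (L.nacl hh hY)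
    · rw [f.F_symm]; exact h4
  · intro Z hZ
    obtain ⟨Y, hY, rfl⟩ := (h1 Z).1 hZ
    have h4 := L.i hh hh' hi hD hY
    have h5 := L.i hh hh' hi hD L.tri.mem
    rw [← C.cell_eq h5] at h4
    exact h4

/-- Lemma 5 (iii) -/
theorem L5.iii (L : L5 f m b₀ b₁ S W₀ Vin H₀ D CC) {h h' : G} (hh : h ∈ C.Fix (f.sp b₀)) (hh' : h' ∈ C.Fix (f.sp b₀))
    (hi : Indep f b₀ CC h h') (hD : h • D ⊆ h' • D) {W : Set N} (hW : W ∈ S) :
    h' • W ∉ C.cell (f.sp (h • b₁)) (h • W₀) := by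
  classical
  intro hc
  obtain ⟨S', h1, h2, h3⟩ := L.ii hh hh' hi hD
  have hact : h' • W ∈ f.Act (h • b₁) :=
    f.act_cell (f.act_smul h (f.F_act' L.tri.F₀)) hc (f.F_RR (L.F_mem hh' hW))
  have hF : h' • W ∈ f.F (h • b₁) (h' • b₁) := by
    rcases f.F_tri (L.F_mem hh' hW) hact with h4 | h4
    · exact absurd (hi _ (L.F_sub hh h4) (L.mem_C hW)) (L.nacl hh' hW)
    · exact h4
  have hncl : ∀ Z ∈ S', ¬ C.cl Z (h' • W) := by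
    intro Z hZ hcl
    obtain ⟨Y, hY, rfl⟩ := (h1 Z).1 hZ
    have h5 : h' • W ∈ C.acl (h • CC) := (C.cl_acl hcl).1 (L.mem_C hY)
    exact L.nacl hh' hW (hi _ h5 (L.mem_C hW))
  have hT : f.Tri (h • b₁) (h' • b₁) (insert (h' • W) S') (h • W₀) := by
    refine ⟨Finset.mem_insert_of_mem h3.mem, ?_, ?_, ?_, ?_⟩
    · intro Z hZ
      rcases Finset.mem_insert.1 hZ with rfl | hZ
      · exact hF
      · exact h3.sub Z hZ
    · intro Z hZ Z' hZ' hcl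
      rcases Finset.mem_insert.1 hZ with rfl | hZ <;> rcases Finset.mem_insert.1 hZ' with rfl | hZ'
      · rfl
      · exact absurd (C.cl_equiv.symm hcl) (hncl _ hZ')
      · exact absurd hcl (hncl _ hZ)
      · exact h3.inj Z hZ Z' hZ' hcl
    · intro Z hZ
      rcases Finset.mem_insert.1 hZ with rfl | hZ
      · exact hc
      · exact h3.cu Z hZ
    · intro Z hZ
      rcases Finset.mem_insert.1 hZ with rfl | hZ
      · have h5 := L.i hh hh' hi hD L.tri.mem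
        rw [C.cell_eq h5, f.sp_smul]
        exact C.cell_smul (L.tri.cv W hW)
      · exact h3.cv Z hZ
  have hnm : h' • W ∉ S' := fun h6 => hncl _ h6 (C.cl_equiv.refl _)
  have := L.bd _ _ _ _ hT
  rw [Finset.card_insert_of_notMem hnm, h2] at this
  omega

end Flip

end Pool.VCM
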