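import Pool.Agent.VCM.Mach4

namespace Pool.VCM

open Set Pointwise

variable {N G : Type} [Group G] [MulAction G N]

namespace Flip

variable {C : Ctx N G} {U : Type} [MulAction G U] {f : Flip C.toCtx0 U}
variable {m : ℕ} {b₀ b₁ : U} {S : Finset (Set N)} {W₀ : Set N} {Vin : Set (Set N)} {H₀ D CC : Set N}

/-- (+) in the proof of Lemma 6 -/
theorem L5.plus (L : L5 f m b₀ b₁ S W₀ Vin H₀ D CC) {h h' : G} (hh : h ∈ C.Fix (f.sp b₀))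
    (hh' : h' ∈ C.Fix (f.sp b₀)) (hi : Indep f b₀ CC h h') (hD : h • D ⊂ h' • D)
    (hT : ¬ C.T1 (f.sp (h • b₁)) (f.sp (h' • b₁)) (h • W₀)) {W : Set N} (hW : W ∈ S) :
    ∃ Y ∈ C.acl (f.sp (h • b₁)), h' • W ⊂ Y ∧ Disjoint Y (h • D) := by
  have hWhb : h • W₀ ∈ C.Ball := C.ball_smul h (L.tri.ball L.tri.mem)
  have hWb : h' • W ∈ C.Ball := C.ball_smul h' (L.tri.ball hW)
  obtain ⟨Q', hQ', hQ⟩ : ∃ Q' ∈ C.QQ (f.sp (h' • b₁)) (h • W₀), ∀ Q ∈ C.QQ (f.sp (h • b₁)) (h • W₀), Q' ⊂ Q := by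
    rcases T1_or (c := f.sp (h • b₁)) (c' := f.sp (h' • b₁)) C.toCtx0 hWhb with h1 | h1
    · exact absurd h1 hT
    · exact h1.2
  have hcell := L.i hh hh' hi hD.1 L.tri.mem
  have hWcell : h' • W ∈ C.cell (f.sp (h' • b₁)) (h' • W₀) := by
    rw [f.sp_smul]; exact C.cell_smul (L.tri.cv W hW)
  have hWQ' : h' • W ⊂ Q' := by
    have : Q' ∈ C.QQ (f.sp (h' • b₁)) (h' • W) := by
      rw [hWcell.2.2, ← hcell.2.2]; exact hQ'
    exact this.2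
  have hWn : h' • W ∉ C.acl (f.sp (h • b₁)) := fun h1 =>
    L.nacl hh' hW (hi _ (acl_sp_smul f L.b₁C h h1) (L.mem_C hW))
  have hsub : C.QQ (f.sp (h • b₁)) (h • W₀) ⊆ C.QQ (f.sp (h • b₁)) (h' • W) :=
    fun Q hQ2 => ⟨hQ2.1, hWQ'.trans (hQ Q hQ2)⟩
  have hne : C.QQ (f.sp (h • b₁)) (h' • W) ≠ C.QQ (f.sp (h • b₁)) (h • W₀) := fun h1 =>
    L.iii hh hh' hi hD.1 hW ⟨hWb, hWn, h1⟩
  obtain ⟨Y, hY, hY'⟩ := Set.not_subset.1 (fun h5 => hne (Subset.antisymm h5 hsub))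
  refine ⟨Y, hY.1, hY.2, ?_⟩
  have hWhn : h • W₀ ∉ C.acl (f.sp (h • b₁)) := by
    rw [f.sp_smul, C.acl_smul_iff]; exact L.tri.nacl' L.tri.mem
  have h1 : ¬ h • W₀ ⊆ Y := by
    intro h2
    rcases h2.eq_or_ssubset with h3 | h3
    · exact hWhn (h3 ▸ hY.1)
    · exact hY' ⟨hY.1, h3⟩
  rcases L.P4 hh hY.1 h1 with h2 | h2
  · exact absurd (hY.2.1.trans h2) (L.notH hh' hW)
  · exact h2

/-- Lemma 6 -/
theorem L5.lemma6 (L : L5 f m b₀ b₁ S W₀ Vin H₀ D CC) :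
    ∃ h h' : G, h ∈ C.Fix (f.sp b₀) ∧ h' ∈ C.Fix (f.sp b₀) ∧ Indep f b₀ CC h h' ∧ h • D ⊂ h' • D ∧
      C.T1 (f.sp (h • b₁)) (f.sp (h' • b₁)) (h • W₀) := by
  by_contra hcon
  push Not at hcon
  have plus : ∀ {h h' : G}, h ∈ C.Fix (f.sp b₀) → h' ∈ C.Fix (f.sp b₀) → Indep f b₀ CC h h' → h • D ⊂ h' • D →
      ∀ {W : Set N}, W ∈ S → ∃ Y ∈ C.acl (f.sp (h • b₁)), h' • W ⊂ Y ∧ Disjoint Y (h • D) :=
    fun hh hh' hi hD _ hW => L.plus hh hh' hi hD (hcon _ _ hh hh' hi hD) hW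
  -- step 1: an independent conjugate
  have hdn := L.dn
  have one_fix := C.fix_one (f.sp b₀)
  obtain ⟨n, hn⟩ := C.exists_lv L.cfin
  have hb₀n : f.sp b₀ ⊆ C.lv n := L.b₀C.trans hn
  obtain ⟨κ, hκ, hκ2⟩ := C.ind (f.sp_fin b₀) n hb₀n
  have hindκ : Indep f b₀ CC κ 1 := by
    intro Z h1 h2
    rw [one_smul] at h2
    rw [C.mem_acl_smul_iff] at h1
    by_contra h3
    have h4 : κ⁻¹ • Z ∉ C.acl (f.sp b₀) := fun h4 => h3 ((C.acl_fix (C.fix_inv hκ)).1 h4)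
    have := hκ2 _ (C.acl_LB L.cfin hn h1) h4
    rw [smul_inv_smul] at this
    exact this (C.acl_LB L.cfin hn h2)
  have hκD : κ • D ≠ D := by
    intro h1
    have := hκ2 D (C.acl_LB L.cfin hn L.dC) hdn
    rw [h1] at this
    exact this (C.acl_LB L.cfin hn L.dC)
  obtain ⟨h₁, hh₁, hi₁, hD₁⟩ : ∃ h₁ : G, h₁ ∈ C.Fix (f.sp b₀) ∧ Indep f b₀ CC 1 h₁ ∧ D ⊂ h₁ • D := by
    rcases L.dh_comp hκ one_fix with h1 | h1
    · rw [one_smul] at h1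
      refine ⟨κ⁻¹, C.fix_inv hκ, ?_, ?_⟩
      · intro Z h2 h3
        rw [one_smul] at h2
        rw [C.mem_acl_smul_iff, inv_inv] at h3
        have h4 : κ • Z ∈ C.acl (κ • CC) := C.acl_smul κ h2
        have h5 := hindκ _ h4 (by rwa [one_smul])
        exact (C.acl_fix hκ).1 h5
      · have h2 : κ • D ⊂ D := ⟨h1, fun h3 => hκD (Subset.antisymm h1 h3)⟩
        have := smul_ssub_of (g := κ⁻¹) h2
        rwa [inv_smul_smul] at this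
    · rw [one_smul] at h1
      exact ⟨κ, hκ, hindκ.symm, h1, fun h3 => hκD (Subset.antisymm h3 h1)⟩
  -- the ball G
  obtain ⟨Y, hY1, hY2, hY3⟩ := plus one_fix hh₁ hi₁ (by rwa [one_smul]) L.tri.mem
  rw [one_smul] at hY1 hY3
  -- step 2: the second conjugate
  have hCfin : (CC ∪ h₁ • CC).Finite := L.cfin.union (L.cfin.image _)
  obtain ⟨n', hn'⟩ := C.exists_lv hCfin
  have hCn' : CC ⊆ C.lv n' := subset_union_left.trans hn'
  have hC1n' : h₁ • CC ⊆ C.lv n' := subset_union_right.trans hn'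
  obtain ⟨τ, hτ, hτ2⟩ := C.ind L.cfin n' hCn'
  have hτb : τ ∈ C.Fix (f.sp b₀) := C.fix_mono L.b₀C hτ
  have hh₂ : τ * h₁ ∈ C.Fix (f.sp b₀) := C.fix_mul hτb hh₁
  have hi₂ : Indep f b₀ CC h₁ (τ * h₁) := by
    intro Z h1 h2
    rw [mul_smul, C.mem_acl_smul_iff] at h2
    have h3 : τ⁻¹ • Z ∈ C.LB n' := C.acl_LB (L.cfin.image _) hC1n' h2
    have h4 : τ⁻¹ • Z ∈ C.acl CC := by
      by_contra h5
      have := hτ2 _ h3 h5
      rw [smul_inv_smul] at this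
      exact this (C.acl_LB (L.cfin.image _) hC1n' h1)
    have h5 := hi₁ _ (by rwa [one_smul]) h2
    have := (C.acl_fix hτb).2 h5
    rwa [smul_inv_smul] at this
  have hτD : τ • D = D := hτ.2 _ L.dC
  have hD₂ : D ⊂ (τ * h₁) • D := by
    have := smul_ssub_of (g := τ) hD₁
    rwa [hτD, ← mul_smul] at this
  have hne : h₁ • D ≠ (τ * h₁) • D := by
    intro h1
    have h2 : h₁ • D ∈ C.acl (h₁ • CC) := C.acl_smul h₁ L.dC
    have h3 : h₁ • D ∈ C.acl ((τ * h₁) • CC) := by rw [h1]; exact C.acl_smul _ L.dC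
    exact hdn ((C.acl_fix hh₁).1 (hi₂ _ h2 h3))
  have hτY : τ • Y = Y := hτ.2 _ (C.acl_mono L.b₁C hY1)
  have hY4 : (τ * h₁) • W₀ ⊂ Y := by
    have := smul_ssub_of (g := τ) hY2
    rwa [hτY, ← mul_smul] at this
  -- contradiction
  have fin : ∀ {h h' : G}, h ∈ C.Fix (f.sp b₀) → h' ∈ C.Fix (f.sp b₀) → Indep f b₀ CC h h' → h • D ⊂ h' • D →
      D ⊂ h • D → h • W₀ ⊂ Y → h' • W₀ ⊂ Y → False := by
    intro h h' hh hh' hi hDD hDh hW hW'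
    obtain ⟨Y', -, hY'2, hY'3⟩ := plus hh hh' hi hDD L.tri.mem
    have hb1 : h • W₀ ∈ C.Ball := C.ball_smul h (L.tri.ball L.tri.mem)
    have hb2 : h' • W₀ ∈ C.Ball := C.ball_smul h' (L.tri.ball L.tri.mem)
    have hWD : h • W₀ ⊆ h • D := smul_set_mono (L.sD _ L.tri.mem)
    have h1 : Y ⊂ h • D := by
      refine C.ssub_of_not (C.acl_ball hY1) (C.ball_smul h L.dBall) hb1 hW.1 hWD ?_
      intro h2
      exact C.not_disj L.dBall (hDh.1.trans h2) Subset.rfl hY3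
    exact C.not_disj hb2 hY'2.1 (hW'.1.trans h1.1) hY'3
  rcases L.dh_comp hh₁ hh₂ with h1 | h1
  · exact fin hh₁ hh₂ hi₂ ⟨h1, fun h2 => hne (Subset.antisymm h1 h2)⟩ hD₁ hY2 hY4
  · exact fin hh₂ hh₁ hi₂.symm ⟨h1, fun h2 => hne (Subset.antisymm h2 h1)⟩ hD₂ hY4 hY2

end Flip

end Pool.VCM
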