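import Pool.Agent.VCM.Mach5

namespace Pool.VCM

open Set Pointwise

variable {N G : Type} [Group G] [MulAction G N]

theorem Ctx0.T1_smul {C : Ctx0 N G} {c c' W : Set N} (g : G) (h : C.T1 c c' W) : C.T1 (g • c) (g • c') (g • W) := by
  intro Q' hQ'
  rw [C.QQ_smul] at hQ'
  obtain ⟨Q, hQ, hQQ⟩ := h _ hQ'
  refine ⟨g • Q, C.mem_QQ_smul hQ, ?_⟩
  rw [smul_set_subset_iff_subset_inv_smul_set]; exact hQQ

namespace Flip

variable {C : Ctx N G} {U : Type} [MulAction G U] {f : Flip C.toCtx0 U}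
variable {m : ℕ} {a b₀ b₁ b₂ : U} {S : Finset (Set N)} {W₀ : Set N} {Vin Va : Set (Set N)} {H₀ D CC : Set N}

theorem insert_contra (hBd : f.Bd m) {u v : U} {S : Finset (Set N)} {W : Set N} (hT : f.Tri u v S W) (hc : S.card = m)
    {Z : Set N} (hF : Z ∈ f.F u v) (hu : Z ∈ C.cell (f.sp u) W) (hv : Z ∈ C.cell (f.sp v) W)
    (hcl : ∀ Y ∈ S, ¬ C.cl Y Z) : False := by
  classical
  have hT : f.Tri u v (insert Z S) W := by
    refine ⟨Finset.mem_insert_of_mem hT.mem, ?_, ?_, ?_, ?_⟩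
    · intro Y hY
      rcases Finset.mem_insert.1 hY with rfl | hY
      · exact hF
      · exact hT.sub Y hY
    · intro Y hY Y' hY' h
      rcases Finset.mem_insert.1 hY with h1 | h1
      · rcases Finset.mem_insert.1 hY' with h2 | h2
        · rw [h1, h2]
        · rw [h1] at h
          exact absurd (C.cl_equiv.symm h) (hcl _ h2)
      · rcases Finset.mem_insert.1 hY' with h2 | h2
        · rw [h2] at h
          exact absurd h (hcl _ h1)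
        · exact hT.inj Y h1 Y' h2 h
    · intro Y hY
      rcases Finset.mem_insert.1 hY with rfl | hY
      · exact hu
      · exact hT.cu Y hY
    · intro Y hY
      rcases Finset.mem_insert.1 hY with rfl | hY
      · exact hv
      · exact hT.cv Y hY
  have hnm : Z ∉ S := fun h6 => hcl _ h6 (C.cl_equiv.refl _)
  have := hBd _ _ _ _ hT
  rw [Finset.card_insert_of_notMem hnm, hc] at this
  omega

/-- the data for the conclusion: `h` is independent of everything, `τ` carries `b₁` to `b₂`. -/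
theorem L5.fin (L : L5 f m b₀ b₁ S W₀ Vin H₀ D CC) {h τ : G} (hh : h ∈ C.Fix (f.sp b₀)) (hτ : τ ∈ C.Fix (f.sp b₀))
    (hi1 : Indep f b₀ CC h 1) (hiτ : Indep f b₀ CC h τ) (hD : h • D ⊂ D)
    (hT1 : C.T1 (f.sp (h • b₁)) (f.sp b₁) (h • W₀)) (hb₂ : τ • b₁ = b₂) (hτW : τ • W₀ = W₀)
    {Z : Set N} (hZH : Z ⊂ H₀) (hZF : Z ∈ f.F b₁ b₂) (hZ1 : Z ∈ C.cell (f.sp b₁) W₀) (hZ2 : Z ∈ C.cell (f.sp b₂) W₀)
    (hZn : Z ∉ C.acl (h • CC)) : False := by
  have one_fix := C.fix_one (f.sp b₀)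
  have hD1 : h • D ⊆ (1 : G) • D := by rw [one_smul]; exact hD.1
  have hWS := L.tri.mem
  have hWb := L.tri.ball hWS
  have hhWb : h • W₀ ∈ C.Ball := C.ball_smul h hWb
  have hZb : Z ∈ C.Ball := hZ1.1
  have hacl := acl_sp_smul f L.b₁C h
  have hDb := L.dBall
  have hhDc : h • D ∈ C.cell (f.sp (h • b₁)) (h • W₀) := by
    rw [f.sp_smul]; exact C.cell_smul (L.vin.sub L.dV)
  have hWhn : h • W₀ ∉ C.acl (f.sp (h • b₁)) := by
    rw [f.sp_smul, C.acl_smul_iff]; exact L.tri.nacl' hWS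
  -- separating balls
  have sep : ∀ X ∈ C.Ball, X ∉ C.acl (f.sp (h • b₁)) → X ⊆ h • D → X ∉ C.cell (f.sp (h • b₁)) (h • W₀) →
      ¬ X ⊆ H₀ → False := by
    intro X hXb hXn hXD hXc hXH
    have hsub : C.QQ (f.sp (h • b₁)) (h • W₀) ⊆ C.QQ (f.sp (h • b₁)) X := by
      intro Q hQ
      have : Q ∈ C.QQ (f.sp (h • b₁)) (h • D) := by rw [hhDc.2.2]; exact hQ
      exact ⟨hQ.1, Set.ssubset_of_subset_of_ssubset hXD this.2⟩
    obtain ⟨Y, hY, hY'⟩ := Set.not_subset.1 (fun h5 => hXc ⟨hXb, hXn, Subset.antisymm h5 hsub⟩)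
    have h1 : ¬ h • W₀ ⊆ Y := by
      intro h2
      rcases h2.eq_or_ssubset with h3 | h3
      · exact hWhn (h3 ▸ hY.1)
      · exact hY' ⟨hY.1, h3⟩
    rcases L.P4 hh hY.1 h1 with h2 | h2
    · exact hXH (hY.2.1.trans h2)
    · exact C.not_disj hXb hY.2.1 hXD h2
  -- (E3)
  have hDτ : h • D ⊆ τ • D := by
    rcases L.dh_comp hh hτ with h1 | h1
    · exact h1
    · exfalso
      have hWD : W₀ ⊆ h • D := by
        have := (smul_set_mono (a := τ) (L.sD _ hWS)).trans h1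
        rwa [hτW] at this
      have h2 := L.iii hh one_fix hi1 hD1 hWS
      rw [one_smul] at h2
      have h3 : W₀ ∉ C.acl (f.sp (h • b₁)) := fun h4 =>
        L.tri.nacl hWS (hi1 _ (hacl h4) (by rw [one_smul]; exact L.sC _ hWS))
      exact sep W₀ hWb h3 hWD h2 L.hW
  -- (E2), (E4)
  obtain ⟨S1, hS1, hS1c, hT1'⟩ := L.ii hh one_fix hi1 hD1
  rw [one_smul] at hT1'
  obtain ⟨S2, hS2, hS2c, hT2⟩ := L.ii hh hτ hiτ hDτ
  rw [hb₂] at hT2
  have hc1 : h • W₀ ∈ C.cell (f.sp b₁) W₀ := by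
    have := L.i hh one_fix hi1 hD1 hWS; rwa [one_smul, one_smul] at this
  have hc2 : h • W₀ ∈ C.cell (f.sp b₂) W₀ := by
    have := L.i hh hτ hiτ hDτ hWS; rwa [hb₂, hτW] at this
  have hZ1' : Z ∈ C.cell (f.sp b₁) (h • W₀) := by rw [C.cell_eq hc1]; exact hZ1
  have hZ2' : Z ∈ C.cell (f.sp b₂) (h • W₀) := by rw [C.cell_eq hc2]; exact hZ2
  have hncl : ∀ Y ∈ S, ¬ C.cl (h • Y) Z := fun Y hY hcl => hZn ((C.cl_acl hcl).1 (L.mem_C hY))
  have hZt : Z ∉ C.acl (f.sp (h • b₁)) := fun h1 => hZn (hacl h1)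
  -- (E5)
  have hE5 : Z ∉ C.cell (f.sp (h • b₁)) (h • W₀) := by
    intro hc
    have hact : Z ∈ f.Act (h • b₁) :=
      f.act_cell (f.act_smul h (f.F_act' L.tri.F₀)) hc (f.F_RR hZF)
    rcases f.F_tri hZF hact with h1 | h1
    · rw [f.F_symm] at h1
      exact insert_contra L.bd hT1' hS1c h1 hc hZ1' (fun Y hY => by
        obtain ⟨Y', hY', rfl⟩ := (hS1 Y).1 hY; exact hncl Y' hY')
    · exact insert_contra L.bd hT2 hS2c h1 hc hZ2' (fun Y hY => by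
        obtain ⟨Y', hY', rfl⟩ := (hS2 Y).1 hY; exact hncl Y' hY')
  -- (E6)
  have hZD : Z ⊆ h • D := hZH.1.trans (L.hDh hh)
  have hE6 : ∃ Y ∈ C.acl (f.sp (h • b₁)), Z ⊂ Y ∧ ¬ h • W₀ ⊆ Y ∧ Y ⊆ H₀ := by
    have hsub : C.QQ (f.sp (h • b₁)) (h • W₀) ⊆ C.QQ (f.sp (h • b₁)) Z := by
      intro Q hQ
      have : Q ∈ C.QQ (f.sp (h • b₁)) (h • D) := by rw [hhDc.2.2]; exact hQ
      exact ⟨hQ.1, Set.ssubset_of_subset_of_ssubset hZD this.2⟩
    obtain ⟨Y, hY, hY'⟩ := Set.not_subset.1 (fun h5 => hE5 ⟨hZb, hZt, Subset.antisymm h5 hsub⟩)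
    have h1 : ¬ h • W₀ ⊆ Y := by
      intro h2
      rcases h2.eq_or_ssubset with h3 | h3
      · exact hWhn (h3 ▸ hY.1)
      · exact hY' ⟨hY.1, h3⟩
    refine ⟨Y, hY.1, hY.2, h1, ?_⟩
    rcases L.P4 hh hY.1 h1 with h2 | h2
    · exact h2
    · exact absurd h2 (C.not_disj hZb hY.2.1 hZD)
  obtain ⟨Y, hYa, hZY, hWY, hYH⟩ := hE6
  -- (E7)
  obtain ⟨Vt, hVt⟩ := C.vin (f.sp_fin (h • b₁)) hhWb hWhn
  obtain ⟨Hs, hHs1, hHs2, hHs3⟩ := lemma1 L.hm L.bd hT1' hS1c hT1 hVt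
  obtain ⟨Ds, hDs, hDs2⟩ := hVt.dir ⟨_, hHs2⟩ {h • W₀, Hs} (by simp)
    (by rintro x (rfl | rfl); exacts [C.cell_self hhWb hWhn, hVt.sub hHs2])
  have hWDs := hDs2 (h • W₀) (by simp)
  have hHDs := hDs2 Hs (by simp)
  have hDsb := (hVt.sub hDs).1
  have hHsb := C.acl_ball hHs1
  have hWn1 : W₀ ∉ C.acl (f.sp b₁) := L.tri.nacl' hWS
  rcases Ctx0.P1 (f.sp_fin _) hVt hHs2 hDs hWDs hYa hWY with h1 | h1
  · exact hHs3 (C.cell_sub hHs1 hZ1.2.1 (by rw [hZ1.2.2, hc1.2.2]) (hZY.1.trans h1))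
  · have hdisj : Disjoint Ds H₀ := by
      rcases C.lam hDsb (C.acl_ball L.hacl) with h2 | h2 | h2
      · exact absurd (hWDs.trans h2) (L.notH hh hWS)
      · exact absurd h1 (C.not_disj (C.acl_ball hYa) Subset.rfl (hYH.trans h2))
      · exact h2
    have hWHs : ¬ W₀ ⊆ Hs := fun h2 => hHs3 (C.cell_sub hHs1 hWn1 hc1.2.2.symm h2)
    have h3 := L.P4 one_fix (Y := Hs) (by rw [one_smul]; exact hHs1) (by rw [one_smul]; exact hWHs)
    rw [one_smul] at h3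
    rcases h3 with h3 | h3
    · exact C.not_disj hHsb hHDs h3 hdisj
    · have hWD' : h • W₀ ⊆ D := (smul_set_mono (L.sD _ hWS)).trans hD.1
      rcases C.comp hDsb hDb hhWb hWDs hWD' with h4 | h4
      · exact C.not_disj hHsb Subset.rfl (hHDs.trans h4) h3
      · exact C.not_disj (C.acl_ball L.hacl) (L.hD.trans h4) Subset.rfl hdisj

end Flip

end Pool.VCM
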