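import Pool.Agent.VCM.Mach6

namespace Pool.VCM

open Set Pointwise

variable {N G : Type} [Group G] [MulAction G N]

namespace Flip

variable {C : Ctx N G} {U : Type} [MulAction G U] (f : Flip C.toCtx0 U)

/-- THEOREM 4.0: there are no flips. -/
theorem machine (u v : U) : f.F u v = ∅ := by
  classical
  by_contra hne
  -- maximal triple
  have hex : ∃ m, 0 < m ∧ (∃ (u v : U) (S : Finset (Set N)) (W₀ : Set N), f.Tri u v S W₀ ∧ S.card = m) ∧ f.Bd m := by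
    let P : ℕ → Prop := fun k => ∃ (u v : U) (S : Finset (Set N)) (W₀ : Set N), f.Tri u v S W₀ ∧ S.card = k
    have hP1 : P 1 := by
      obtain ⟨W, hW⟩ := Set.nonempty_iff_ne_empty.2 hne
      refine ⟨u, v, {W}, W, ⟨by simp, ?_, ?_, ?_, ?_⟩, by simp⟩
      · intro Z hZ; rw [Finset.mem_singleton] at hZ; rw [hZ]; exact hW
      · intro Z hZ Z' hZ' _; rw [Finset.mem_singleton] at hZ hZ'; rw [hZ, hZ']
      · intro Z hZ; rw [Finset.mem_singleton] at hZ; rw [hZ]; exact C.cell_self (f.F_ball hW) (f.F_nacl hW)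
      · intro Z hZ; rw [Finset.mem_singleton] at hZ; rw [hZ]; exact C.cell_self (f.F_ball hW) (f.F_nacl' hW)
    have hPK : ∀ k, P k → k ≤ f.K := by
      rintro k ⟨u, v, S, W₀, hT, rfl⟩
      exact f.F_bound u v S hT.sub hT.inj
    refine ⟨Nat.findGreatest P f.K, ?_, Nat.findGreatest_spec (hPK 1 hP1) hP1, ?_⟩
    · exact Nat.lt_of_lt_of_le Nat.zero_lt_one (Nat.le_findGreatest (hPK 1 hP1) hP1)
    · intro u v S W₀ hT
      exact Nat.le_findGreatest (hPK _ ⟨u, v, S, W₀, hT, rfl⟩) ⟨u, v, S, W₀, hT, rfl⟩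
  obtain ⟨m, hm, ⟨a', b', S, W₀, hT', hS⟩, hBd⟩ := hex
  -- type 1
  obtain ⟨a, b, hT, h1⟩ : ∃ a b, f.Tri a b S W₀ ∧ C.T1 (f.sp a) (f.sp b) W₀ := by
    rcases T1_or (c := f.sp a') (c' := f.sp b') C.toCtx0 (f.F_ball hT'.F₀) with h | h
    · exact ⟨a', b', hT', h⟩
    · exact ⟨b', a', hT'.symm, h.1⟩
  have hWS := hT.mem
  have hW₀b := hT.ball hWS
  obtain ⟨Va, hVa⟩ := C.vin (f.sp_fin a) hW₀b (hT.nacl hWS)
  obtain ⟨d, hd, hSd⟩ := C.codes (S := (S : Set (Set N))) S.finite_toSet (fun Z hZ => hT.ball hZ)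
  obtain ⟨n, hn⟩ := C.exists_lv (((f.sp_fin a).union (f.sp_fin b)).union hd)
  have han : f.sp a ⊆ C.lv n := (subset_union_left.trans subset_union_left).trans hn
  have hbn : f.sp b ⊆ C.lv n := (subset_union_right.trans subset_union_left).trans hn
  have hdn : d ⊆ C.lv n := subset_union_right.trans hn
  have hSn : ∀ Z ∈ S, Z ∈ C.LB n := fun Z hZ => C.acl_LB hd hdn (hSd hZ)
  obtain ⟨σ, hσ, hcoh⟩ := hVa.gen
  have hs := hσ n han
  obtain ⟨s, hsdef⟩ : ∃ s, s = σ n := ⟨_, rfl⟩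
  rw [← hsdef] at hs
  have L3' : L3 f m a b S W₀ Va n s := ⟨hm, hBd, hT, hS, h1, hVa, han, hbn, hSn, hs⟩
  obtain ⟨H1, hH1a, hH1V, hWH1⟩ := lemma1 hm hBd hT hS h1 hVa
  have hTb := L3'.pb
  have hW₀n' : W₀ ∉ C.acl (f.sp (s • b)) := hTb.nacl' hWS
  obtain ⟨V', hV'⟩ := C.vin (f.sp_fin (s • b)) hW₀b hW₀n'
  obtain ⟨⟨H₀, hHa, hHV, hHV', hWH⟩, -, hq⟩ := L3'.pd hH1a hH1V hWH1 hV'
  -- D
  obtain ⟨D, hDV', hD2⟩ := hV'.dir ⟨_, hHV'⟩ (insert H₀ (S : Set (Set N))) (S.finite_toSet.insert _) (by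
    rintro x (rfl | hx)
    · exact hV'.sub hHV'
    · exact hTb.cv x hx)
  have hDb := (hV'.sub hDV').1
  obtain ⟨e, he, hSe⟩ := C.codes (S := insert D (S : Set (Set N))) (S.finite_toSet.insert _) (by
    rintro x (rfl | hx)
    · exact hDb
    · exact hT.ball hx)
  obtain ⟨CC, hCC⟩ : ∃ CC, CC = (f.sp b ∪ f.sp (s • b)) ∪ e := ⟨_, rfl⟩
  have hCCfin : CC.Finite := by rw [hCC]; exact ((f.sp_fin b).union (f.sp_fin _)).union he
  have heC : e ⊆ CC := by rw [hCC]; exact subset_union_right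
  have hbC : f.sp b ⊆ CC := by rw [hCC]; exact subset_union_left.trans subset_union_left
  have hb1C : f.sp (s • b) ⊆ CC := by rw [hCC]; exact subset_union_right.trans subset_union_left
  have L : L5 f m b (s • b) S W₀ V' H₀ D CC :=
    { hm := hm, bd := hBd, tri := hTb, card := hS, vin := hV', hacl := hHa, hV := hHV', hW := hWH, dV := hDV'
      sD := fun Z hZ => hD2 Z (Or.inr hZ)
      hD := hD2 H₀ (Or.inl rfl)
      q := hq, cfin := hCCfin, b₀C := hbC, b₁C := hb1C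
      dC := C.acl_mono heC (hSe (Or.inl rfl))
      sC := fun Z hZ => C.acl_mono heC (hSe (Or.inr hZ)) }
  -- lemma 6
  obtain ⟨h, h', hh, hh', hi, hDD, hTT⟩ := L.lemma6
  obtain ⟨h₀, hh₀⟩ : ∃ h₀, h₀ = h'⁻¹ * h := ⟨_, rfl⟩
  have hh₀f : h₀ ∈ C.Fix (f.sp b) := by rw [hh₀]; exact C.fix_mul (C.fix_inv hh') hh
  have hi₀ : Indep f b CC h₀ 1 := by
    intro Z h2 h3
    rw [one_smul] at h3
    rw [hh₀, mul_smul, C.mem_acl_smul_iff, inv_inv] at h2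
    exact (C.acl_fix hh').1 (hi _ h2 (C.acl_smul h' h3))
  have hD₀ : h₀ • D ⊂ D := by
    have := smul_ssub_of (g := h'⁻¹) hDD
    rwa [inv_smul_smul, ← mul_smul, ← hh₀] at this
  have hT₀ : C.T1 (f.sp (h₀ • s • b)) (f.sp (s • b)) (h₀ • W₀) := by
    have := Ctx0.T1_smul h'⁻¹ hTT
    rw [← f.sp_smul, ← f.sp_smul, inv_smul_smul] at this
    rw [hh₀, mul_smul, mul_smul]
    exact this
  -- second generic
  have hZball : s • W₀ ∈ C.Ball := C.ball_smul s hW₀b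
  obtain ⟨d₁, hd₁, hZd₁⟩ := C.ball_acl hZball
  obtain ⟨n₂', hn₂'⟩ := C.exists_lv (hCCfin.union hd₁)
  obtain ⟨n₂, hn₂⟩ : ∃ n₂, n₂ = max n n₂' := ⟨_, rfl⟩
  have hnn₂ : n ≤ n₂ := by rw [hn₂]; exact le_max_left _ _
  have hCn₂ : CC ⊆ C.lv n₂ := by
    rw [hn₂]; exact (subset_union_left.trans hn₂').trans (C.lv_mono (le_max_right _ _))
  have hd₁n₂ : d₁ ⊆ C.lv n₂ := by
    rw [hn₂]; exact (subset_union_right.trans hn₂').trans (C.lv_mono (le_max_right _ _))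
  have hZn₂ : s • W₀ ∈ C.LB n₂ := C.acl_LB hd₁ hd₁n₂ hZd₁
  have hs₂ := hσ n₂ (han.trans (C.lv_mono hnn₂))
  obtain ⟨τ, hτ1, hτ2⟩ := hcoh n n₂ han hnn₂
  obtain ⟨s₂, hs₂def⟩ : ∃ s₂, s₂ = σ n₂ := ⟨_, rfl⟩
  rw [← hs₂def] at hs₂
  have hτb : τ • s • b = s₂ • b := by
    have : (s₂⁻¹ * (τ * s)) • b = b := by
      apply f.sp_fix
      intro x hx
      rw [mul_smul, mul_smul, hsdef, hτ2 x (hbn hx), ← hs₂def, inv_smul_smul]
    rw [mul_smul, mul_smul, inv_smul_eq_iff] at this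
    exact this
  have hτfix : τ ∈ C.Fix (f.sp b) := ⟨fun x hx => hτ1 x (hbn hx), fun W hW => C.LB_fix hτ1 (C.acl_LB (f.sp_fin b) hbn hW)⟩
  have hτW : τ • W₀ = W₀ := C.LB_fix hτ1 (hSn _ hWS)
  -- third: make h independent of everything
  obtain ⟨n₃', hn₃'⟩ := C.exists_lv ((hCCfin.image (fun x => τ • x)).union (hCCfin.image (fun x => h₀ • x)))
  obtain ⟨n₃, hn₃⟩ : ∃ n₃, n₃ = max n₂ n₃' := ⟨_, rfl⟩
  have hn₂₃ : n₂ ≤ n₃ := by rw [hn₃]; exact le_max_left _ _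
  have hCn₃ : CC ⊆ C.lv n₃ := hCn₂.trans (C.lv_mono hn₂₃)
  have hτCn₃ : τ • CC ⊆ C.lv n₃ := by
    rw [hn₃]; exact (subset_union_left.trans hn₃').trans (C.lv_mono (le_max_right _ _))
  have hhCn₃ : h₀ • CC ⊆ C.lv n₃ := by
    rw [hn₃]; exact (subset_union_right.trans hn₃').trans (C.lv_mono (le_max_right _ _))
  obtain ⟨κ, hκ, hκ2⟩ := C.ind hCCfin n₃ hCn₃
  have hκb : κ ∈ C.Fix (f.sp b) := C.fix_mono hbC hκ
  have hhf : κ * h₀ ∈ C.Fix (f.sp b) := C.fix_mul hκb hh₀f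
  have KP : ∀ Z, Z ∈ C.acl ((κ * h₀) • CC) → Z ∈ C.LB n₃ → Z ∈ C.acl (f.sp b) := by
    intro Z h2 h3
    rw [mul_smul, C.mem_acl_smul_iff] at h2
    have h4 : κ⁻¹ • Z ∈ C.acl CC := by
      by_contra h5
      have := hκ2 _ (C.acl_LB (hCCfin.image _) hhCn₃ h2) h5
      rw [smul_inv_smul] at this
      exact this h3
    have h5 := hi₀ _ h2 (by rwa [one_smul])
    have := (C.acl_fix hκb).2 h5
    rwa [smul_inv_smul] at this
  have hi1 : Indep f b CC (κ * h₀) 1 := by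
    intro Z h2 h3
    rw [one_smul] at h3
    exact KP Z h2 (C.acl_LB hCCfin hCn₃ h3)
  have hiτ : Indep f b CC (κ * h₀) τ := fun Z h2 h3 => KP Z h2 (C.acl_LB (hCCfin.image _) hτCn₃ h3)
  have hκD : κ • D = D := hκ.2 _ L.dC
  have hDfin : (κ * h₀) • D ⊂ D := by
    have := smul_ssub_of (g := κ) hD₀
    rwa [hκD, ← mul_smul] at this
  have hκb1 : κ • f.sp (s • b) = f.sp (s • b) := Ctx0.smul_eq_of_fix (fun x hx => hκ.1 x (hb1C hx))
  have hTfin : C.T1 (f.sp ((κ * h₀) • s • b)) (f.sp (s • b)) ((κ * h₀) • W₀) := by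
    have := Ctx0.T1_smul κ hT₀
    rw [hκb1, ← f.sp_smul] at this
    rw [mul_smul, mul_smul]
    exact this
  -- facts on Z = s • W₀
  have hH₀n : H₀ ∈ C.LB n := C.acl_LB (f.sp_fin b) hbn hHa
  have hZH : s • W₀ ⊂ H₀ := hs.small H₀ hHV hH₀n W₀ (hT.cu _ hWS) (hSn _ hWS)
  have hZa : s • W₀ ∈ C.cell (f.sp a) W₀ := C.cell_fix hs.fix (hT.cu _ hWS)
  have hZFa : s • W₀ ∈ f.F a (s • b) := by
    have := f.F_smul s hT.F₀
    rwa [f.sp_fix s a hs.fix.1] at this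
  have hZF : s • W₀ ∈ f.F (s • b) (s₂ • b) :=
    f.starF hT.F₀ hs₂ (han.trans (C.lv_mono hnn₂)) (hbn.trans (C.lv_mono hnn₂)) h1 hZn₂ hZa hZFa
  have hst := L3'.starc (hSn _ hWS) (hT.cu _ hWS)
  have hZ1 : s • W₀ ∈ C.cell (f.sp (s • b)) W₀ := by
    refine C.cell_symm hZball ?_ hst
    rw [f.sp_smul, C.acl_smul_iff]; exact hT.nacl' hWS
  have hZ2 : s • W₀ ∈ C.cell (f.sp (s₂ • b)) W₀ := by
    have h2 := C.star hW₀b (hT.nacl hWS) hs₂ (f.sp_fin b) (hbn.trans (C.lv_mono hnn₂)) h1 hZn₂ hZa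
    have h3 := C.star hW₀b (hT.nacl hWS) hs₂ (f.sp_fin b) (hbn.trans (C.lv_mono hnn₂)) h1
      (C.LB_mono hnn₂ (hSn _ hWS)) (hT.cu _ hWS)
    rw [f.sp_smul]
    rw [← C.cell_eq h3] at h2
    exact h2
  have hZn : s • W₀ ∉ C.acl ((κ * h₀) • CC) := by
    intro h2
    have h3 := KP _ h2 (C.LB_mono hn₂₃ hZn₂)
    exact hs.indep W₀ (hSn _ hWS) (hT.nacl hWS) (C.acl_LB (f.sp_fin b) hbn h3)
  exact L.fin hhf hτfix hi1 hiτ hDfin hTfin hτb hτW hZH hZF hZ1 hZ2 hZn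

end Flip

end Pool.VCM

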