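import Pool.Agent.VCM.CtxInst0
import Pool.Agent.VCM.Basic

/-! Tools for section 3: CP1 for general definable relations, definable sets, cells. -/

open FirstOrder FirstOrder.Language
open scoped Pointwise

namespace Pool.Agent.VCM

variable {L : FirstOrder.Language.{0, 0}} {N : Type} [L.Structure N]

/-- a set definable over some set of parameters is of the form `fib θ w` -/
theorem isDef_of_dfnO [Nonempty N] {B : Set N} {D : Set N}
    (h : DfnO L B (fun x : Unit → N => x () ∈ D)) : IsDef L D := by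
  classical
  obtain ⟨φ, hφ⟩ := h
  obtain ⟨F, ψ, hψ⟩ := fin_supp φ
  obtain ⟨e, he⟩ := exists_injective_nat F
  let g : F → Unit ⊕ ℕ := fun a => match a.1 with
    | Sum.inl _ => Sum.inr (e a)
    | Sum.inr _ => Sum.inl ()
  let val : F → N := fun a => match a.1 with
    | Sum.inl b => (b : N)
    | Sum.inr _ => Classical.arbitrary N
  let w : ℕ → N := Function.extend e val (fun _ => Classical.arbitrary N)
  refine ⟨ψ.relabel g, w, ?_⟩
  ext x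
  rw [mem_fib, Formula.realize_relabel]
  have e1 : x ∈ D ↔ φ.Realize (Sum.elim (fun b : B => (b : N)) (fun _ : Unit => x)) :=
    (hφ (fun _ => x)).symm
  rw [e1, hψ]
  apply iff_of_eq
  congr 1
  funext a
  obtain ⟨a, ha⟩ := a
  rcases a with b | u
  · show (b : N) = Sum.elim (fun _ => x) w (g ⟨Sum.inl b, ha⟩)
    show (b : N) = Function.extend e val (fun _ => Classical.arbitrary N) (e ⟨Sum.inl b, ha⟩)
    rw [he.extend_apply]
  · rfl

namespace Levels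

variable (Λ : Levels L N) {V : VC L N}

/-- (CP1) for relations definable over a level -/
theorem CP1' {A : Set N} {n : ℕ} (hA : A ⊆ Λ.S n) {d : ℕ → N} {m : ℕ} (hd : Λ.InS m d)
    {Φ : (ℕ → N) → Prop} (hΦ : DfnO L (Λ.S m) Φ)
    (h : ∀ g ∈ V.Fix A, Φ (fun i => g • d i)) :
    ∃ P : (ℕ → N) → Prop, DfnO L (Λ.S n) P ∧ P d ∧ (∀ x, P x → Φ x) ∧
      ∀ g ∈ V.Fix A, ∀ x, P x → P (fun i => g • x i) := by
  classical
  have hne : Nonempty N := Λ.nonempty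
  obtain ⟨φ, hφ⟩ := hΦ
  obtain ⟨F, ψ, hψ⟩ := fin_supp φ
  obtain ⟨e, he⟩ := exists_injective_nat F
  let s : F → ℕ ⊕ ℕ := fun a => match a.1 with
    | Sum.inl _ => Sum.inr (e a)
    | Sum.inr i => Sum.inl i
  let val : F → N := fun a => match a.1 with
    | Sum.inl b => (b : N)
    | Sum.inr _ => Λ.ne.some
  let v : ℕ → N := Function.extend e val (fun _ => Λ.ne.some)
  have hv : Λ.InS m v := by
    intro i
    by_cases h : ∃ a, e a = i
    · obtain ⟨a, rfl⟩ := h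
      show Function.extend e val (fun _ => Λ.ne.some) (e a) ∈ Λ.S m
      rw [he.extend_apply]
      obtain ⟨a, ha⟩ := a
      rcases a with b | u
      · exact b.2
      · exact Λ.mono (Nat.zero_le m) Λ.ne.some_mem
    · show Function.extend e val (fun _ => Λ.ne.some) i ∈ Λ.S m
      rw [Function.extend_apply' _ _ _ h]
      exact Λ.mono (Nat.zero_le m) Λ.ne.some_mem
  let R : (ℕ → N) → (ℕ → N) → Prop := fun x y => ψ.Realize ((Sum.elim x y) ∘ s)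
  have hR : Dfn2 L R := by
    show Dfn L (fun u : ℕ ⊕ ℕ → N => ψ.Realize ((Sum.elim (u ∘ Sum.inl) (u ∘ Sum.inr)) ∘ s))
    refine Dfn.real ψ s _ ?_
    intro u b
    show Sum.elim (u ∘ Sum.inl) (u ∘ Sum.inr) (s b) = u (s b)
    rcases s b with i | i <;> rfl
  have hRΦ : ∀ x, R x v ↔ Φ x := by
    intro x
    rw [← hφ, hψ]
    apply iff_of_eq
    show ψ.Realize ((Sum.elim x v) ∘ s) = _
    congr 1
    funext a
    obtain ⟨a, ha⟩ := a
    rcases a with b | i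
    · show v (e ⟨Sum.inl b, ha⟩) = (b : N)
      exact he.extend_apply val _ _
    · rfl
  obtain ⟨P, h1, h2, h3, h4⟩ := Λ.CP1 hA hd hv hR (fun g hg => (hRΦ _).2 (h g hg))
  exact ⟨P, h1, h2, fun x hx => (hRΦ x).1 (h3 x hx), h4⟩

end Levels

namespace Levels

variable (Λ : Levels L N) (V : VC L N)

/-- the balls algebraic over `A` properly containing `W₀` -/
abbrev QQ (A W₀ : Set N) : Set (Set N) := (Λ.ctx0 V).QQ A W₀

/-- the cell of `W₀` -/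
abbrev cell (A W₀ : Set N) : Set (Set N) := (Λ.ctx0 V).cell A W₀

/-- `D` is strictly below all members of `QQ` -/
def Low (A W₀ D : Set N) : Prop := ∀ Q ∈ Λ.QQ V A W₀, D ⊂ Q

/-- same class in the cell -/
def Cls (A W₀ X Y : Set N) : Prop := ∃ D, V.Ball D ∧ X ⊆ D ∧ Y ⊆ D ∧ Λ.Low V A W₀ D

variable {Λ V} {A W₀ : Set N}

theorem mem_QQ {Q : Set N} : Q ∈ Λ.QQ V A W₀ ↔ Q ∈ V.acl A ∧ W₀ ⊂ Q := Iff.rfl

theorem mem_cell {X : Set N} :
    X ∈ Λ.cell V A W₀ ↔ V.Ball X ∧ X ∉ V.acl A ∧ Λ.QQ V A X = Λ.QQ V A W₀ := Iff.rfl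

theorem cell_QQ {X : Set N} (h : X ∈ Λ.cell V A W₀) : Λ.QQ V A X = Λ.QQ V A W₀ := h.2.2

theorem low_of_cell {X : Set N} (h : X ∈ Λ.cell V A W₀) : Λ.Low V A W₀ X := by
  intro Q hQ
  rw [← cell_QQ h] at hQ
  exact hQ.2

theorem Low.mono {X D : Set N} (h : Λ.Low V A W₀ D) (hX : X ⊆ D) : Λ.Low V A W₀ X :=
  fun Q hQ => ssubset_of_subset_of_ssubset hX (h Q hQ)

theorem cell_of_le {X D : Set N} (hX : X ∈ Λ.cell V A W₀) (hD : V.Ball D) (hXD : X ⊆ D)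
    (hlow : Λ.Low V A W₀ D) : D ∈ Λ.cell V A W₀ := by
  have hnot : D ∉ V.acl A := by
    intro hDA
    rcases hXD.eq_or_ssubset with h | h
    · exact hX.2.1 (by rw [h]; exact hDA)
    · have : D ∈ Λ.QQ V A W₀ := by
        rw [← cell_QQ hX]; exact ⟨hDA, h⟩
      exact (hlow D this).ne rfl
  refine ⟨hD, hnot, ?_⟩
  show Λ.QQ V A D = Λ.QQ V A W₀
  ext Q
  constructor
  · rintro ⟨h1, h2⟩
    rw [← cell_QQ hX]
    exact ⟨h1, ssubset_of_subset_of_ssubset hXD h2⟩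
  · intro hQ
    exact ⟨hQ.1, hlow Q hQ⟩

theorem univ_mem_QQ (hW : W₀ ∉ V.acl A) : (Set.univ : Set N) ∈ Λ.QQ V A W₀ := by
  have hne : Nonempty N := Λ.nonempty
  have h := VC.univ_mem_acl (V := V) A
  refine ⟨h, (Set.subset_univ _).ssubset_of_ne fun e => hW ?_⟩
  rw [e]; exact h

theorem QQ_chain (hW : V.Ball W₀) {Q Q' : Set N} (h : Q ∈ Λ.QQ V A W₀) (h' : Q' ∈ Λ.QQ V A W₀) :
    Q ⊆ Q' ∨ Q' ⊆ Q := by
  obtain ⟨x, hx⟩ := hW.nonempty
  exact (h.1.1).cmp h'.1.1 (h.2.1 hx) (h'.2.1 hx)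

/-- a finite set of members of `QQ` has a smallest one -/
theorem QQ_min (hW : V.Ball W₀) (hW' : W₀ ∉ V.acl A) (F : Finset (Set N))
    (hF : ∀ Q ∈ F, Q ∈ Λ.QQ V A W₀) : ∃ Q ∈ Λ.QQ V A W₀, ∀ Q' ∈ F, Q ⊆ Q' := by
  classical
  induction F using Finset.induction_on with
  | empty => exact ⟨_, univ_mem_QQ hW', by simp⟩
  | insert a F _ ih =>
    obtain ⟨Q, hQ, h⟩ := ih fun Q hQ => hF Q (Finset.mem_insert_of_mem hQ)
    have ha := hF a (Finset.mem_insert_self _ _)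
    rcases QQ_chain hW hQ ha with h1 | h1
    · refine ⟨Q, hQ, fun Q' hQ' => ?_⟩
      rcases Finset.mem_insert.1 hQ' with rfl | h2
      · exact h1
      · exact h Q' h2
    · refine ⟨a, ha, fun Q' hQ' => ?_⟩
      rcases Finset.mem_insert.1 hQ' with rfl | h2
      · exact subset_rfl
      · exact h1.trans (h Q' h2)

theorem low_smul {g : AutG L N} (hg : g ∈ V.Fix A) {D : Set N} (h : Λ.Low V A W₀ D) :
    Λ.Low V A W₀ (g • D) := by
  intro Q hQ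
  have h1 := h Q hQ
  have h2 : g • Q = Q := hg.2 Q hQ.1
  rw [← h2]
  exact Pool.VCM.smul_ssub_of h1

theorem low_smul_iff {g : AutG L N} (hg : g ∈ V.Fix A) {D : Set N} :
    Λ.Low V A W₀ (g • D) ↔ Λ.Low V A W₀ D :=
  ⟨fun h => by simpa using low_smul ((V.Fix A).inv_mem hg) h, fun h => low_smul hg h⟩

theorem cell_smul {g : AutG L N} (hg : g ∈ V.Fix A) {X : Set N} (h : X ∈ Λ.cell V A W₀) :
    g • X ∈ Λ.cell V A W₀ := by
  have hsub : ∀ W Q : Set N, g • Q = Q → (W ⊂ Q ↔ g • W ⊂ Q) := by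
    intro W Q hQ
    conv_rhs => rw [← hQ]
    exact Pool.VCM.smul_ssub.symm
  refine ⟨h.1.smul g, fun hcon => h.2.1 ?_, ?_⟩
  · -- `Fix A` permutes the non-algebraic balls
    have := hg.2 (g • X) hcon
    have e : g • X = X := by
      have h1 : g • (g • X) = g • X := this
      exact smul_left_cancel g h1
    rw [← e]; exact hcon
  · show Λ.QQ V A (g • X) = Λ.QQ V A W₀
    rw [← cell_QQ h]
    ext Q
    constructor
    · rintro ⟨h1, h2⟩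
      exact ⟨h1, (hsub X Q (hg.2 Q h1)).2 h2⟩
    · rintro ⟨h1, h2⟩
      exact ⟨h1, (hsub X Q (hg.2 Q h1)).1 h2⟩

theorem Cls.symm {X Y : Set N} (h : Λ.Cls V A W₀ X Y) : Λ.Cls V A W₀ Y X := by
  obtain ⟨D, h1, h2, h3, h4⟩ := h
  exact ⟨D, h1, h3, h2, h4⟩

theorem Cls.trans {X Y Z : Set N} (hY : Y.Nonempty) (h : Λ.Cls V A W₀ X Y)
    (h' : Λ.Cls V A W₀ Y Z) : Λ.Cls V A W₀ X Z := by
  obtain ⟨D, h1, h2, h3, h4⟩ := h
  obtain ⟨D', h1', h2', h3', h4'⟩ := h'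
  obtain ⟨y, hy⟩ := hY
  rcases h1.cmp h1' (h3 hy) (h2' hy) with h | h
  · exact ⟨D', h1', h2.trans h, h3', h4'⟩
  · exact ⟨D, h1, h2, h3'.trans h, h4⟩

theorem Cls.smul {g : AutG L N} (hg : g ∈ V.Fix A) {X Y : Set N} (h : Λ.Cls V A W₀ X Y) :
    Λ.Cls V A W₀ (g • X) (g • Y) := by
  obtain ⟨D, h1, h2, h3, h4⟩ := h
  exact ⟨g • D, h1.smul g, Set.smul_set_mono h2, Set.smul_set_mono h3, low_smul hg h4⟩

theorem Cls.of_subset {X Y : Set N} (hY : Y ∈ Λ.cell V A W₀) (h : X ⊆ Y) :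
    Λ.Cls V A W₀ X Y := ⟨Y, hY.1, h, subset_rfl, low_of_cell hY⟩

theorem Cls.refl {X : Set N} (hX : X ∈ Λ.cell V A W₀) : Λ.Cls V A W₀ X X :=
  Cls.of_subset hX subset_rfl

/-- members of a cell that meet are in the same class -/
theorem Cls.of_meet {X Y : Set N} (hX : X ∈ Λ.cell V A W₀) (hY : Y ∈ Λ.cell V A W₀)
    (h : ¬ Disjoint X Y) : Λ.Cls V A W₀ X Y := by
  rcases (hX.1).lam hY.1 with h1 | h1 | h1
  · exact Cls.of_subset hY h1
  · exact (Cls.of_subset hX h1).symm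
  · exact absurd h1 h

/-- saturation below `QQ`: if for every `Q` some instance of a member of `Δ` satisfies `P` and is
strictly below `Q`, then one instance works for all `Q` -/
theorem satQ {n m : ℕ} (hA : A ⊆ Λ.S n) (hnm : n ≤ m) (hW : V.Ball W₀) (hW' : W₀ ∉ V.acl A)
    (Δ : Finset (Fm L)) (P : Fm L → (ℕ → N) → Prop) (hP : ∀ δ ∈ Δ, DfnO L (Λ.S m) (P δ))
    (h : ∀ Q ∈ Λ.QQ V A W₀, ∃ δ ∈ Δ, ∃ u, P δ u ∧ fib δ u ⊂ Q) :
    ∃ δ ∈ Δ, ∃ u, P δ u ∧ Λ.Low V A W₀ (fib δ u) := by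
  classical
  have hne : Nonempty N := Λ.nonempty
  -- pigeonhole
  have h1 : ∃ δ ∈ Δ, ∀ Q ∈ Λ.QQ V A W₀, ∃ u, P δ u ∧ fib δ u ⊂ Q := by
    by_contra hcon
    push Not at hcon
    have hch : ∀ δ : Fm L, ∃ Q, δ ∈ Δ → Q ∈ Λ.QQ V A W₀ ∧ ∀ u, P δ u → ¬ fib δ u ⊂ Q := by
      intro δ
      by_cases hδ : δ ∈ Δ
      · obtain ⟨Q, hQ, h2⟩ := hcon δ hδ
        exact ⟨Q, fun _ => ⟨hQ, h2⟩⟩
      · exact ⟨∅, fun h => absurd h hδ⟩
    choose q hq using hch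
    obtain ⟨Q, hQ, hmin⟩ := QQ_min hW hW' (Δ.image q) (by
      intro Q hQ
      obtain ⟨δ, hδ, rfl⟩ := Finset.mem_image.1 hQ
      exact (hq δ hδ).1)
    obtain ⟨δ, hδ, u, h2, h3⟩ := h Q hQ
    exact (hq δ hδ).2 u h2 (h3.trans_subset (hmin _ (Finset.mem_image_of_mem _ hδ)))
  obtain ⟨δ, hδ, h2⟩ := h1
  refine ⟨δ, hδ, ?_⟩
  -- codes
  have hcode : ∀ Q : Λ.QQ V A W₀, ∃ (θ : Fm L) (w : ℕ → N), Λ.InS n w ∧ (Q : Set N) = fib θ w :=
    fun Q => Λ.acl_coded hA Q.2.1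
  choose θ c hc1 hc2 using hcode
  obtain ⟨u, -, hu⟩ := Λ.sat_rel m (κ := ℕ) (I := Unit ⊕ Λ.QQ V A W₀)
    (fun i => (⟨Λ.ne.some, Λ.mono (Nat.zero_le m) Λ.ne.some_mem⟩, i))
    (fun i j h => (Prod.mk.inj h).2)
    (fun i u => Sum.elim (fun _ => P δ u) (fun Q => fib δ u ⊂ (Q : Set N)) i)
    (by
      rintro (i | Q)
      · exact hP δ hδ
      · have h3 := DfnO.of_dfn (κ := ℕ) (B := Λ.S m) (R := fun v : ℕ ⊕ ℕ → N =>
            fib δ (v ∘ Sum.inr) ⊂ fib (θ Q) (v ∘ Sum.inl)) ((dfn_ssubset δ (θ Q)).swap) (c Q)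
            (fun b => Λ.mono hnm (hc1 Q b))
        refine h3.of_iff fun u => ?_
        show fib δ u ⊂ fib (θ Q) (c Q) ↔ fib δ u ⊂ (Q : Set N)
        rw [← hc2 Q])
    (by
      intro F
      obtain ⟨Q, hQ, hmin⟩ := QQ_min (Λ := Λ) hW hW'
        ((F.preimage Sum.inr Sum.inr_injective.injOn).image Subtype.val) (by
          intro Q hQ
          obtain ⟨Q', -, rfl⟩ := Finset.mem_image.1 hQ
          exact Q'.2)
      obtain ⟨u, h3, h4⟩ := h2 Q hQ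
      refine ⟨u, ?_⟩
      rintro (i | Q') hi
      · exact h3
      · refine h4.trans_subset (hmin _ (Finset.mem_image_of_mem _ ?_))
        rw [Finset.mem_preimage]; exact hi)
  exact ⟨u, hu (Sum.inl ()), fun Q hQ => hu (Sum.inr ⟨Q, hQ⟩)⟩

/-- every member of `W_Δ^I` in the cell is below a `Δ`-instance in the cell -/
theorem DI_low {n : ℕ} (hA : A ⊆ Λ.S n) (hW : V.Ball W₀) (hW' : W₀ ∉ V.acl A)
    {Δ : Finset (Fm L)} (hΔ : ↑Δ ⊆ V.Ψ) {D : Set N} (hD : V.Ball D)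
    (hI : DI Δ D) (hlow : Λ.Low V A W₀ D) :
    ∃ δ ∈ Δ, ∃ u, D ⊆ fib δ u ∧ Λ.Low V A W₀ (fib δ u) := by
  have hne : Nonempty N := Λ.nonempty
  obtain ⟨m', hm'⟩ := Λ.exists_coded hD.1
  obtain ⟨m, hnm, θ, w, hw, hDw⟩ : ∃ m, n ≤ m ∧ Λ.Coded m D :=
    ⟨max n m', le_max_left _ _, hm'.mono (le_max_right _ _)⟩
  refine satQ hA hnm hW hW' Δ (fun δ u => D ⊆ fib δ u) (fun δ _ => ?_) ?_
  · have h3 := DfnO.of_dfn (κ := ℕ) (B := Λ.S m) (R := fun v : ℕ ⊕ ℕ → N =>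
      fib θ (v ∘ Sum.inl) ⊆ fib δ (v ∘ Sum.inr)) (dfn_subset θ δ) w hw
    refine h3.of_iff fun u => ?_
    show fib θ w ⊆ fib δ u ↔ D ⊆ fib δ u
    rw [← hDw]
  · intro Q hQ
    obtain ⟨q, hq, hqD⟩ := Set.exists_of_ssubset (hlow Q hQ)
    obtain ⟨δ, hδ, u, h1, h2⟩ := hI.2 q hqD
    refine ⟨δ, hδ, u, h1, ?_⟩
    obtain ⟨x, hx⟩ := hD.nonempty
    have hb : V.Ball (fib δ u) := VC.ball_of_psi (hΔ hδ) ⟨x, h1 hx⟩
    rcases hb.cmp hQ.1.1 (h1 hx) ((hlow Q hQ).1 hx) with h3 | h3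
    · exact ⟨h3, fun h4 => h2 (h4 hq)⟩
    · exact absurd (h3 hq) h2

/-- 3.0: every member of the cell is comparable with a `Ψ`-instance in the cell -/
theorem psi_in_cell {n : ℕ} (hA : A ⊆ Λ.S n) (hW : V.Ball W₀) (hW' : W₀ ∉ V.acl A)
    {D : Set N} (hD : D ∈ Λ.cell V A W₀) :
    ∃ δ ∈ V.Ψ, ∃ u : ℕ → N, fib δ u ∈ Λ.cell V A W₀ ∧ (D ⊆ fib δ u ∨ fib δ u ⊆ D) := by
  classical
  obtain ⟨Δ, hΔ, h | h⟩ := hD.1.2
  · -- directed union
    by_contra hcon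
    push Not at hcon
    -- every `Δ`-ball below `D` is below an algebraic ball below `D`
    have h1 : ∀ δ ∈ Δ, ∀ u : ℕ → N, (fib δ u).Nonempty → fib δ u ⊆ D →
        ∃ Y ∈ V.acl A, fib δ u ⊆ Y ∧ Y ⊆ D := by
      intro δ hδ u hne hsub
      by_contra hno
      push Not at hno
      have hb : V.Ball (fib δ u) := VC.ball_of_psi (hΔ hδ) hne
      have hcell : fib δ u ∈ Λ.cell V A W₀ := by
        refine ⟨hb, fun h2 => hno _ h2 subset_rfl hsub, ?_⟩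
        show Λ.QQ V A (fib δ u) = Λ.QQ V A W₀
        rw [← cell_QQ hD]
        ext Q
        constructor
        · rintro ⟨h2, h3⟩
          refine ⟨h2, ?_⟩
          obtain ⟨x, hx⟩ := hne
          rcases hD.1.cmp h2.1 (hsub hx) (h3.1 hx) with h4 | h4
          · refine h4.ssubset_of_ne fun e => hD.2.1 ?_
            rw [e]; exact h2
          · exact absurd h4 (hno Q h2 h3.1)
        · rintro ⟨h2, h3⟩
          exact ⟨h2, ssubset_of_subset_of_ssubset hsub h3⟩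
      exact (hcon δ (hΔ hδ) u hcell).2 hsub
    apply hD.2.1
    apply Λ.mem_acl_of_fixed hA hD.1
    -- `D` is the union of the algebraic balls below it
    have h2 : ∀ g ∈ V.Fix A, D ⊆ g • D := by
      intro g hg x hx
      obtain ⟨δ, hδ, u, a, -, c⟩ := h.2 x hx x hx
      obtain ⟨Y, hY1, hY2, hY3⟩ := h1 δ hδ u ⟨x, a⟩ c
      have h3 : g • Y = Y := hg.2 Y hY1
      have h4 : Y ⊆ g • D := by
        rw [← h3]; exact Set.smul_set_mono hY3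
      exact h4 (hY2 a)
    intro g hg
    apply Set.Subset.antisymm _ (h2 g hg)
    have h3 := h2 g⁻¹ ((V.Fix A).inv_mem hg)
    have h4 := Set.smul_set_mono (a := g) h3
    rwa [smul_inv_smul] at h4
  · obtain ⟨δ, hδ, u, h1, h2⟩ := DI_low hA hW hW' hΔ hD.1 h (low_of_cell hD)
    obtain ⟨x, hx⟩ := hD.1.nonempty
    exact ⟨δ, hΔ hδ, u, cell_of_le hD (VC.ball_of_psi (hΔ hδ) ⟨x, h1 hx⟩) h1 h2, Or.inl h1⟩

end Levels

end Pool.Agent.VCM
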