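import Pool.Agent.VCM.Mov0

/-! Section 3.1: if a cell has at least two classes, every class can be moved off finitely many
classes. -/

open FirstOrder FirstOrder.Language
open scoped Pointwise

namespace Pool.Agent.VCM

variable {L : FirstOrder.Language.{0, 0}} {N : Type} [L.Structure N]

namespace Levels

variable {Λ : Levels L N} {V : VC L N} {A W₀ : Set N}

/-- union of the `Δ`-instances between `Y` and `Q` -/
def Hs (Δ : Finset (Fm L)) (Q Y : Set N) : Set N :=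
  {x | ∃ δ ∈ Δ, ∃ u : ℕ → N, Y ⊆ fib δ u ∧ fib δ u ⊂ Q ∧ x ∈ fib δ u}

theorem Hs_smul (Δ : Finset (Fm L)) (Q Y : Set N) (g : AutG L N) (hQ : g • Q = Q) :
    g • Hs Δ Q Y = Hs Δ Q (g • Y) := by
  have key : ∀ (g : AutG L N) (Y : Set N), g • Q = Q → g • Hs Δ Q Y ⊆ Hs Δ Q (g • Y) := by
    rintro g Y hQ _ ⟨x, ⟨δ, hδ, u, h1, h2, h3⟩, rfl⟩
    refine ⟨δ, hδ, fun i => g • u i, ?_, ?_, ?_⟩
    · rw [fib_smul]; exact Set.smul_set_mono h1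
    · rw [fib_smul, ← hQ]; exact Pool.VCM.smul_ssub_of h2
    · rw [fib_smul]; exact Set.smul_mem_smul_set h3
  apply Set.Subset.antisymm (key g Y hQ)
  have h1 := key g⁻¹ (g • Y) (inv_smul_eq_iff.2 hQ.symm)
  rw [inv_smul_smul] at h1
  have h2 := Set.smul_set_mono (a := g) h1
  rwa [smul_inv_smul] at h2

theorem Hs_eq_of_common {Δ : Finset (Fm L)} (hΔ : ↑Δ ⊆ V.Ψ) {Q Y Y' : Set N} {δ : Fm L}
    (hδ : δ ∈ Δ) {u : ℕ → N} (hY : Y ⊆ fib δ u) (hY' : Y' ⊆ fib δ u) (hQ : fib δ u ⊂ Q)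
    (hne : Y.Nonempty) (hne' : Y'.Nonempty) : Hs Δ Q Y = Hs Δ Q Y' := by
  have key : ∀ Y Y' : Set N, Y ⊆ fib δ u → Y' ⊆ fib δ u → Y.Nonempty → Hs Δ Q Y ⊆ Hs Δ Q Y' := by
    rintro Y Y' hY hY' ⟨y, hy⟩ x ⟨δ', hδ', u', h1, h2, h3⟩
    rcases VC.cmp (hΔ hδ) (hΔ hδ') (hY hy) (h1 hy) with h | h
    · exact ⟨δ', hδ', u', hY'.trans h, h2, h3⟩
    · exact ⟨δ, hδ, u, hY', hQ, h h3⟩
  exact Set.Subset.antisymm (key Y Y' hY hY' hne) (key Y' Y hY' hY hne')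

theorem Hs_ball (Λ : Levels L N) {Δ : Finset (Fm L)} (hΔ : ↑Δ ⊆ V.Ψ) {Q Y : Set N} (hQ : IsDef L Q)
    (hY : IsDef L Y) (hYne : Y.Nonempty) (hne : (Hs Δ Q Y).Nonempty) : V.Ball (Hs Δ Q Y) := by
  have hN : Nonempty N := Λ.nonempty
  let C : Set (Set N) := {E | ∃ δ ∈ Δ, ∃ u : ℕ → N, E = fib δ u ∧ Y ⊆ E ∧ E ⊂ Q}
  have hC : Hs Δ Q Y = ⋃₀ C := by
    ext x
    constructor
    · rintro ⟨δ, hδ, u, h1, h2, h3⟩
      exact ⟨fib δ u, ⟨δ, hδ, u, rfl, h1, h2⟩, h3⟩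
    · rintro ⟨_, ⟨δ, hδ, u, rfl, h1, h2⟩, h3⟩
      exact ⟨δ, hδ, u, h1, h2, h3⟩
  have hDU : DU Δ (⋃₀ C) := by
    apply sUnion_DU
    · obtain ⟨x, hx⟩ := hne
      rw [hC] at hx
      obtain ⟨E, hE, -⟩ := hx
      exact ⟨E, hE⟩
    · rintro _ ⟨δ, hδ, u, rfl, h1, -⟩ _ ⟨δ', hδ', u', rfl, h1', -⟩ -
      obtain ⟨y, hy⟩ := hYne
      exact VC.cmp (hΔ hδ) (hΔ hδ') (h1 hy) (h1' hy)
    · rintro _ ⟨δ, hδ, u, rfl, h1, -⟩
      exact ⟨hYne.mono h1, fun p hp q hq => ⟨δ, hδ, u, hp, hq, subset_rfl⟩⟩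
  have hdef : IsDef L (Hs Δ Q Y) := by
    obtain ⟨θ, w, rfl⟩ := hQ
    obtain ⟨θ', w', rfl⟩ := hY
    apply isDef_of_dfnO (B := Set.univ)
    show DfnO L Set.univ (fun x : Unit → N => ∃ δ ∈ Δ, ∃ u : ℕ → N, fib θ' w' ⊆ fib δ u ∧
      fib δ u ⊂ fib θ w ∧ x () ∈ fib δ u)
    refine DfnO.finsetEx Δ fun δ _ => ?_
    refine DfnO.exT (ρ := fun (x : Unit → N) (u : ℕ → N) => fib θ' w' ⊆ fib δ u ∧
      fib δ u ⊂ fib θ w ∧ x () ∈ fib δ u) ?_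
    have h1 : Dfn L (fun v : (ℕ ⊕ ℕ) ⊕ (Unit ⊕ ℕ) → N =>
        fib θ' (fun i => v (Sum.inl (Sum.inl i))) ⊆ fib δ (fun i => v (Sum.inr (Sum.inr i))) ∧
        fib δ (fun i => v (Sum.inr (Sum.inr i))) ⊂ fib θ (fun i => v (Sum.inl (Sum.inr i))) ∧
        v (Sum.inr (Sum.inl ())) ∈ fib δ (fun i => v (Sum.inr (Sum.inr i)))) := by
      refine Dfn.and ?_ (Dfn.and ?_ ?_)
      · exact Dfn.comp (dfn_subset θ' δ) (Sum.elim (fun i => Sum.inl (Sum.inl i))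
          (fun i => Sum.inr (Sum.inr i)))
          (fun v => Sum.elim (fun i => v (Sum.inl (Sum.inl i))) (fun i => v (Sum.inr (Sum.inr i))))
          (by intro v b; rcases b with b | b <;> rfl)
      · exact Dfn.comp (dfn_ssubset δ θ) (Sum.elim (fun i => Sum.inr (Sum.inr i))
          (fun i => Sum.inl (Sum.inr i)))
          (fun v => Sum.elim (fun i => v (Sum.inr (Sum.inr i))) (fun i => v (Sum.inl (Sum.inr i))))
          (by intro v b; rcases b with b | b <;> rfl)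
      · exact dfn_mem δ (Sum.inr (Sum.inl ())) (fun i => Sum.inr (Sum.inr i)) _ _ (fun _ => rfl)
          (fun _ _ => rfl)
    exact DfnO.of_dfn h1 (Sum.elim w' w) (fun _ => Set.mem_univ _)
  rw [hC] at hdef ⊢
  exact hDU.ball hΔ hdef

/-- 3.1 for `Ψ`-instances -/
theorem class_move_psi {n : ℕ} (hA : A ⊆ Λ.S n) (hW : V.Ball W₀) (hW' : W₀ ∉ V.acl A)
    {δ₀ : Fm L} (hδ₀ : δ₀ ∈ V.Ψ) {w₀ : ℕ → N} (hWc : fib δ₀ w₀ ∈ Λ.cell V A W₀) {X : Set N}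
    (hX : X ∈ Λ.cell V A W₀) (hWX : ¬ Λ.Cls V A W₀ (fib δ₀ w₀) X) (F : Finset (Set N))
    (hF : ∀ D ∈ F, D ∈ Λ.cell V A W₀ ∧ ∃ δ ∈ V.Ψ, ∃ u : ℕ → N, D = fib δ u) :
    ∃ g ∈ V.Fix A, ∀ D ∈ F, ¬ Λ.Cls V A W₀ (g • fib δ₀ w₀) D := by
  classical
  have hN : Nonempty N := Λ.nonempty
  -- a common level; make the code of `W` bounded
  obtain ⟨mW, w₁, hw₁, hw₁'⟩ := Λ.exists_level δ₀ w₀
  obtain ⟨mX, hmX⟩ := Λ.exists_coded hX.1.1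
  obtain ⟨mF, hmF⟩ := Λ.exists_coded_finset F id (fun D hD => (hF D hD).1.1.1)
  obtain ⟨m, hnm, hWm, hXm, hFm⟩ : ∃ m, n ≤ m ∧ Λ.InS m w₁ ∧ Λ.Coded m X ∧
      ∀ D ∈ F, Λ.Coded m D :=
    ⟨max (max n mW) (max mX mF), (le_max_left _ _).trans (le_max_left _ _),
      hw₁.mono ((le_max_right _ _).trans (le_max_left _ _)),
      hmX.mono ((le_max_left _ _).trans (le_max_right _ _)),
      fun D hD => (hmF D hD).mono ((le_max_right _ _).trans (le_max_right _ _))⟩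
  rw [← hw₁'] at hWc hWX ⊢
  clear hw₁' w₀
  let J₀ := {Δ : Finset (Fm L) // ↑Δ ⊆ V.Ψ}
  -- the bounds `Q_Δ`
  have hQ : ∀ Δ : J₀, ∃ Q ∈ Λ.QQ V A W₀, ¬ ∃ δ ∈ Δ.1, ∃ u : ℕ → N,
      (fib δ₀ w₁ ⊆ fib δ u ∧ X ⊆ fib δ u) ∧ fib δ u ⊂ Q := by
    intro Δ
    by_contra hcon
    push Not at hcon
    obtain ⟨θ, x, hx, rfl⟩ := hXm
    obtain ⟨δ, hδ, u, ⟨h1, h2⟩, h3⟩ := satQ hA hnm hW hW' Δ.1
      (fun δ u => fib δ₀ w₁ ⊆ fib δ u ∧ fib θ x ⊆ fib δ u) (by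
        intro δ _
        exact DfnO.and (DfnO.of_dfn (κ := ℕ) (B := Λ.S m) (R := fun v : ℕ ⊕ ℕ → N =>
            fib δ₀ (v ∘ Sum.inl) ⊆ fib δ (v ∘ Sum.inr)) (dfn_subset δ₀ δ) w₁ hWm)
          (DfnO.of_dfn (κ := ℕ) (B := Λ.S m) (R := fun v : ℕ ⊕ ℕ → N =>
            fib θ (v ∘ Sum.inl) ⊆ fib δ (v ∘ Sum.inr)) (dfn_subset θ δ) x hx))
      (fun Q hQ => by
        obtain ⟨δ, hδ, u, h1, h2⟩ := hcon Q hQ
        exact ⟨δ, hδ, u, h1, h2⟩)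
    obtain ⟨y, hy⟩ := hWc.1.nonempty
    exact hWX ⟨fib δ u, VC.ball_of_psi (Δ.2 hδ) ⟨y, h1 hy⟩, h1, h2, h3⟩
  choose q hq1 hq2 using hQ
  -- finitely many `Δ`
  have hstep : ∀ K : Finset J₀, ∃ g ∈ V.Fix A, ∀ Δ ∈ K, ∀ D ∈ F, ¬ ∃ δ ∈ Δ.1, ∃ u : ℕ → N,
      g • fib δ₀ w₁ ⊆ fib δ u ∧ D ⊆ fib δ u ∧ fib δ u ⊂ q Δ := by
    intro K
    let Z : J₀ → Set N := fun Δ => Hs Δ.1 (q Δ) (fib δ₀ w₁)
    obtain ⟨g, hg⟩ := neumann (H := V.Fix A) (K.filter fun Δ => (Z Δ).Nonempty ∧ Z Δ ∉ V.acl A) Z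
      (fun Δ => (fun D => Hs Δ.1 (q Δ) D) '' (F : Set (Set N)))
      (fun Δ _ => F.finite_toSet.image _)
      (by
        intro Δ hΔ
        obtain ⟨-, h1, h2⟩ := Finset.mem_filter.1 hΔ
        refine Λ.orbit_Fix_infinite hA ?_ h2
        exact Hs_ball Λ Δ.2 (hq1 Δ).1.1.1 hWc.1.1 hWc.1.nonempty h1)
    refine ⟨g, g.2, fun Δ hΔ D hD => ?_⟩
    rintro ⟨δ, hδ, u, h1, h2, h3⟩
    have hgq : (g : AutG L N) • q Δ = q Δ := g.2.2 _ (hq1 Δ).1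
    -- the family of `W` is nonempty
    obtain ⟨y, hy⟩ := hWc.1.nonempty
    have hZne : (Z Δ).Nonempty := by
      refine ⟨y, δ, hδ, fun i => (g : AutG L N)⁻¹ • u i, ?_, ?_, ?_⟩
      · rw [fib_smul]
        have := Set.smul_set_mono (a := (g : AutG L N)⁻¹) h1
        rwa [inv_smul_smul] at this
      · rw [fib_smul]
        have := Pool.VCM.smul_ssub_of (g := (g : AutG L N)⁻¹) h3
        rwa [inv_smul_eq_iff.2 hgq.symm] at this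
      · rw [fib_smul]
        have := Set.smul_set_mono (a := (g : AutG L N)⁻¹) h1
        rw [inv_smul_smul] at this
        exact this hy
    by_cases hacl : Z Δ ∈ V.acl A
    · -- then `X` is below `Z Δ`
      have hWZ : fib δ₀ w₁ ⊆ Z Δ := by
        obtain ⟨x, δ', hδ', u', h4, h5, h6⟩ := hZne
        intro y hy
        exact ⟨δ', hδ', u', h4, h5, h4 hy⟩
      have hWZ' : fib δ₀ w₁ ⊂ Z Δ := by
        refine hWZ.ssubset_of_ne fun e => hWc.2.1 ?_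
        rw [e]; exact hacl
      have hZQ : Z Δ ∈ Λ.QQ V A W₀ := by
        rw [← cell_QQ hWc]; exact ⟨hacl, hWZ'⟩
      have hXZ : X ⊂ Z Δ := low_of_cell hX _ hZQ
      obtain ⟨x, hx⟩ := hX.1.nonempty
      obtain ⟨δ', hδ', u', h4, h5, h6⟩ := hXZ.1 hx
      have hb : V.Ball (fib δ' u') := VC.ball_of_psi (Δ.2 hδ') ⟨x, h6⟩
      rcases hX.1.cmp hb hx h6 with h7 | h7
      · exact hq2 Δ ⟨δ', hδ', u', ⟨h4, h7⟩, h5⟩
      · exact hWX (Cls.of_subset hX (h4.trans h7))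
    · have h4 := hg Δ (Finset.mem_filter.2 ⟨hΔ, hZne, hacl⟩)
      apply h4
      refine ⟨D, hD, ?_⟩
      show Hs Δ.1 (q Δ) D = (g : AutG L N) • Hs Δ.1 (q Δ) (fib δ₀ w₁)
      rw [Hs_smul _ _ _ _ hgq]
      exact Hs_eq_of_common Δ.2 hδ h2 h1 h3 (hF D hD).1.1.nonempty
        (hWc.1.nonempty.smul_set)
  choose f hf1 hf2 using hstep
  let U : Ultrafilter (Finset J₀) := Ultrafilter.of Filter.atTop
  obtain ⟨σ, hσ⟩ := Λ.exists_lim U f m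
  have hσF : σ ∈ V.Fix A := hσ.mem_Fix' (hA.trans (Λ.mono hnm)) hf1
  refine ⟨σ, hσF, fun D hD hcls => ?_⟩
  -- the property of the limit
  have hno : ∀ Δ : J₀, ¬ ∃ δ ∈ Δ.1, ∃ u : ℕ → N,
      σ • fib δ₀ w₁ ⊆ fib δ u ∧ D ⊆ fib δ u ∧ fib δ u ⊂ q Δ := by
    intro Δ hcon
    obtain ⟨θD, d, hd, hDd⟩ := hFm D hD
    obtain ⟨θQ, c, hc, hQc⟩ := (Λ.acl_coded hA (hq1 Δ).1).mono hnm
    let R : ((ℕ ⊕ ℕ) ⊕ ℕ → N) → Prop := fun v => ∃ δ ∈ Δ.1, ∃ u : ℕ → N,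
      fib δ₀ (fun i => v (Sum.inr i)) ⊆ fib δ u ∧ fib θD (fun i => v (Sum.inl (Sum.inl i))) ⊆ fib δ u ∧
        fib δ u ⊂ fib θQ (fun i => v (Sum.inl (Sum.inr i)))
    have hR : Dfn L R := by
      refine Dfn.finsetEx Δ.1 fun δ _ => ?_
      refine Dfn.exT (κ := ℕ) (R := fun (v : (ℕ ⊕ ℕ) ⊕ ℕ → N) u =>
        fib δ₀ (fun i => v (Sum.inr i)) ⊆ fib δ u ∧
        fib θD (fun i => v (Sum.inl (Sum.inl i))) ⊆ fib δ u ∧
        fib δ u ⊂ fib θQ (fun i => v (Sum.inl (Sum.inr i)))) ?_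
      refine Dfn.and ?_ (Dfn.and ?_ ?_)
      · exact Dfn.comp (dfn_subset δ₀ δ) (Sum.elim (fun i => Sum.inl (Sum.inr i))
          (fun i => Sum.inr i))
          (fun v => Sum.elim (fun i => v (Sum.inl (Sum.inr i))) (fun i => v (Sum.inr i)))
          (by intro v b; rcases b with b | b <;> rfl)
      · exact Dfn.comp (dfn_subset θD δ) (Sum.elim (fun i => Sum.inl (Sum.inl (Sum.inl i)))
          (fun i => Sum.inr i))
          (fun v => Sum.elim (fun i => v (Sum.inl (Sum.inl (Sum.inl i)))) (fun i => v (Sum.inr i)))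
          (by intro v b; rcases b with b | b <;> rfl)
      · exact Dfn.comp (dfn_ssubset δ θQ) (Sum.elim (fun i => Sum.inr i)
          (fun i => Sum.inl (Sum.inl (Sum.inr i))))
          (fun v => Sum.elim (fun i => v (Sum.inr i)) (fun i => v (Sum.inl (Sum.inl (Sum.inr i)))))
          (by intro v b; rcases b with b | b <;> rfl)
    have h1 := hσ.dfn hR (w := Sum.elim d c) (w' := w₁)
      (by rintro (i | i); exacts [hd i, hc i]) hWm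
    have h2 : R (Sum.elim (Sum.elim d c) (fun i => σ • w₁ i)) := by
      obtain ⟨δ, hδ, u, h3, h4, h5⟩ := hcon
      refine ⟨δ, hδ, u, ?_, ?_, ?_⟩
      · rw [← fib_smul] at h3; exact h3
      · show fib θD d ⊆ _
        rw [← hDd]; exact h4
      · show _ ⊂ fib θQ c
        rw [← hQc]; exact h5
    rw [h1] at h2
    have h3 : ∀ᶠ K : Finset J₀ in (U : Filter (Finset J₀)), Δ ∈ K := by
      have : ∀ᶠ K : Finset J₀ in Filter.atTop, Δ ∈ K := by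
        filter_upwards [Filter.eventually_ge_atTop ({Δ} : Finset J₀)] with K hK
        exact hK (Finset.mem_singleton_self _)
      exact (Ultrafilter.of_le (Filter.atTop : Filter (Finset J₀))) this
    obtain ⟨K, hK1, hK2⟩ := (h2.and h3).exists
    apply hf2 K Δ hK2 D hD
    obtain ⟨δ, hδ, u, h5, h6, h7⟩ := hK1
    refine ⟨δ, hδ, u, ?_, ?_, ?_⟩
    · rw [← fib_smul]; exact h5
    · rw [hDd]; exact h6
    · rw [hQc]; exact h7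
  -- conclusion
  have hσc : σ • fib δ₀ w₁ ∈ Λ.cell V A W₀ := cell_smul hσF hWc
  obtain ⟨hDc, δD, hδD, uD, hDD⟩ := hF D hD
  obtain ⟨E, hE, hE1, hE2, hElow⟩ := hcls
  rcases hσc.1.lam hDc.1 with h | h | h
  · -- `σ W ⊆ D`
    refine hno ⟨{δD}, by simpa using hδD⟩ ⟨δD, Finset.mem_singleton_self _, uD, ?_, ?_, ?_⟩
    · rw [← hDD]; exact h
    · rw [← hDD]
    · rw [← hDD]; exact low_of_cell hDc _ (hq1 _)
  · refine hno ⟨{δ₀}, by simpa using hδ₀⟩ ⟨δ₀, Finset.mem_singleton_self _,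
      fun i => σ • w₁ i, ?_, ?_, ?_⟩
    · rw [fib_smul]
    · rw [fib_smul]; exact h
    · rw [fib_smul]; exact low_of_cell hσc _ (hq1 _)
  · have hEb := hE
    obtain ⟨-, Δ, hΔ, hU | hI⟩ := hE
    · obtain ⟨p, hp⟩ := hσc.1.nonempty
      obtain ⟨r, hr⟩ := hDc.1.nonempty
      obtain ⟨δ, hδ, u, h1, h2, h3⟩ := hU.2 p (hE1 hp) r (hE2 hr)
      have hb : V.Ball (fib δ u) := VC.ball_of_psi (hΔ hδ) ⟨p, h1⟩
      refine hno ⟨Δ, hΔ⟩ ⟨δ, hδ, u, ?_, ?_, ?_⟩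
      · rcases hσc.1.cmp hb hp h1 with h4 | h4
        · exact h4
        · exact absurd hr (Set.disjoint_left.1 h (h4 h2))
      · rcases hDc.1.cmp hb hr h2 with h4 | h4
        · exact h4
        · exact absurd (h4 h1) (Set.disjoint_left.1 h hp)
      · exact ssubset_of_subset_of_ssubset h3 (hElow _ (hq1 _))
    · obtain ⟨δ, hδ, u, h1, h2⟩ := DI_low hA hW hW' hΔ hEb hI hElow
      exact hno ⟨Δ, hΔ⟩ ⟨δ, hδ, u, hE1.trans h1, hE2.trans h1, h2 _ (hq1 _)⟩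

/-- 3.1 -/
theorem class_move {n : ℕ} (hA : A ⊆ Λ.S n) (hW : V.Ball W₀) (hW' : W₀ ∉ V.acl A)
    {W : Set N} (hWc : W ∈ Λ.cell V A W₀) {X : Set N}
    (hX : X ∈ Λ.cell V A W₀) (hWX : ¬ Λ.Cls V A W₀ W X) (F : Finset (Set N))
    (hF : ∀ D ∈ F, D ∈ Λ.cell V A W₀) :
    ∃ g ∈ V.Fix A, ∀ D ∈ F, ¬ Λ.Cls V A W₀ (g • W) D := by
  classical
  have hrep : ∀ D ∈ Λ.cell V A W₀, ∃ D' ∈ Λ.cell V A W₀, (∃ δ ∈ V.Ψ, ∃ u : ℕ → N, D' = fib δ u) ∧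
      Λ.Cls V A W₀ D D' := by
    intro D hD
    obtain ⟨δ, hδ, u, h1, h2⟩ := psi_in_cell hA hW hW' hD
    refine ⟨fib δ u, h1, ⟨δ, hδ, u, rfl⟩, ?_⟩
    rcases h2 with h2 | h2
    · exact Cls.of_subset h1 h2
    · exact (Cls.of_subset hD h2).symm
  obtain ⟨W', hW'c, ⟨δ₀, hδ₀, w₀, rfl⟩, hWW'⟩ := hrep W hWc
  have hrep' : ∀ D : Set N, ∃ D', D ∈ F → D' ∈ Λ.cell V A W₀ ∧
      (∃ δ ∈ V.Ψ, ∃ u : ℕ → N, D' = fib δ u) ∧ Λ.Cls V A W₀ D D' := by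
    intro D
    by_cases hD : D ∈ F
    · obtain ⟨D', h1, h2, h3⟩ := hrep D (hF D hD)
      exact ⟨D', fun _ => ⟨h1, h2, h3⟩⟩
    · exact ⟨∅, fun h => absurd h hD⟩
  choose r hr using hrep'
  obtain ⟨g, hg, h⟩ := class_move_psi hA hW hW' hδ₀ hW'c hX
    (fun h => hWX (hWW'.trans hW'c.1.nonempty h)) (F.image r) (by
      intro D hD
      obtain ⟨D', hD', rfl⟩ := Finset.mem_image.1 hD
      exact ⟨(hr D' hD').1, (hr D' hD').2.1⟩)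
  refine ⟨g, hg, fun D hD hcls => ?_⟩
  apply h (r D) (Finset.mem_image_of_mem _ hD)
  have h1 := (hWW'.smul hg).symm
  exact (h1.trans (cell_smul hg hWc).1.nonempty hcls).trans (hF D hD).1.nonempty (hr D hD).2.2

end Levels

end Pool.Agent.VCM
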