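import Pool.Agent.VCM.Mov1

/-! Section 3.2: inner moves. -/

open FirstOrder FirstOrder.Language
open scoped Pointwise

namespace Pool.Agent.VCM

variable {L : FirstOrder.Language.{0, 0}} {N : Type} [L.Structure N]

namespace Levels

variable {Λ : Levels L N} {V : VC L N} {A W₀ : Set N}

/-- a `Fix A`-invariant definable family of uniform balls, each of which contains one of finitely
many balls of the cell, has no member `D` in the cell -/
theorem no_invariant_family {n : ℕ} (hA : A ⊆ Λ.S n) 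
    {Δ : Finset (Fm L)} (hΔ : ↑Δ ⊆ V.Ψ) {θ : Fm L} {B : Set N} {P : (ℕ → N) → Prop}
    (hPdef : DfnO L B P)
    (hPball : (∀ x, P x → DU Δ (fib θ x)) ∨ (∀ x, P x → DI Δ (fib θ x)))
    (hPinv : ∀ g ∈ V.Fix A, ∀ x, P x → P (fun i => g • x i))
    {I : Type} [Finite I] (X : I → Set N) (hXne : ∀ i, (X i).Nonempty)
    (hX : ∀ x, P x → ∃ i, X i ⊆ fib θ x) {d : ℕ → N} (hd : P d) :
    ∃ Y ∈ V.acl A, (∃ i, X i ⊆ Y) ∧ Y ⊆ fib θ d := by
  classical
  have hN : Nonempty N := Λ.nonempty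
  have hball : ∀ x, P x → V.Ball (fib θ x) := by
    intro x hx
    rcases hPball with h | h
    · exact (h x hx).ball hΔ ⟨θ, x, rfl⟩
    · exact (h x hx).ball hΔ ⟨θ, x, rfl⟩
  cases nonempty_fintype I
  -- minimal number of `X i`
  let cnt : (ℕ → N) → ℕ := fun x => (Finset.univ.filter fun i => X i ⊆ fib θ x).card
  obtain ⟨d', hd', hsub, hmin⟩ : ∃ d', P d' ∧ fib θ d' ⊆ fib θ d ∧
      ∀ x, P x → fib θ x ⊆ fib θ d → cnt d' ≤ cnt x := by
    have hex : ∃ k, ∃ x, P x ∧ fib θ x ⊆ fib θ d ∧ cnt x = k := ⟨_, d, hd, subset_rfl, rfl⟩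
    obtain ⟨x, h1, h2, h3⟩ := Nat.find_spec hex
    exact ⟨x, h1, h2, fun y hy hy' => by rw [h3]; exact Nat.find_min' hex ⟨y, hy, hy', rfl⟩⟩
  obtain ⟨i₀, hi₀⟩ := hX d' hd'
  -- members below `d'` contain the same `X i`
  have hsame : ∀ x, P x → fib θ x ⊆ fib θ d' → X i₀ ⊆ fib θ x := by
    intro x hx hxd
    have h1 : (Finset.univ.filter fun i => X i ⊆ fib θ x) ⊆
        (Finset.univ.filter fun i => X i ⊆ fib θ d') := by
      intro i hi
      rw [Finset.mem_filter] at hi ⊢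
      exact ⟨hi.1, hi.2.trans hxd⟩
    have h2 := Finset.eq_of_subset_of_card_le h1 (hmin x hx (hxd.trans hsub))
    have h3 : i₀ ∈ (Finset.univ.filter fun i => X i ⊆ fib θ d') :=
      Finset.mem_filter.2 ⟨Finset.mem_univ _, hi₀⟩
    rw [← h2] at h3
    exact (Finset.mem_filter.1 h3).2
  -- the family below `y`
  let C : (ℕ → N) → Set (Set N) := fun y => {E | ∃ x, P x ∧ E = fib θ x ∧ E ⊆ fib θ y}
  let Int : (ℕ → N) → Set N := fun y => ⋂₀ C y
  have hInt_ball : V.Ball (Int d') := by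
    have hall : ∀ E ∈ C d', V.Ball E ∧ X i₀ ⊆ E := by
      rintro _ ⟨x, hx, rfl, h⟩
      exact ⟨hball x hx, hsame x hx h⟩
    have hne : (⋂₀ C d').Nonempty := by
      obtain ⟨y, hy⟩ := hXne i₀
      exact ⟨y, fun E hE => (hall E hE).2 hy⟩
    refine ball_sInter hΔ ?_ (fun E hE => (hall E hE).1) ?_ hne ?_
    · intro E hE E' hE' _
      obtain ⟨y, hy⟩ := hXne i₀
      exact (hall E hE).1.cmp (hall E' hE').1 ((hall E hE).2 hy) ((hall E' hE').2 hy)
    · rcases hPball with h | h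
      · left
        rintro _ ⟨x, hx, rfl, -⟩
        exact h x hx
      · right
        rintro _ ⟨x, hx, rfl, -⟩
        exact h x hx
    · -- definability
      apply isDef_of_dfnO (B := Set.univ)
      have e1 : ∀ t : Unit → N, (∀ x : ℕ → N, P x → fib θ x ⊆ fib θ d' → t () ∈ fib θ x) ↔
          t () ∈ ⋂₀ C d' := by
        intro t
        constructor
        · rintro h _ ⟨x, hx, rfl, h'⟩
          exact h x hx h'
        · intro h x hx h'
          exact h _ ⟨x, hx, rfl, h'⟩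
      refine DfnO.of_iff ?_ e1
      refine DfnO.allT (ρ := fun (t : Unit → N) (x : ℕ → N) =>
        P x → fib θ x ⊆ fib θ d' → t () ∈ fib θ x) ?_
      refine DfnO.imp ?_ (DfnO.imp ?_ ?_)
      · exact (DfnO.comp hPdef (fun i => Sum.inr i) _ (fun _ _ => rfl)).mono (Set.subset_univ _)
      · have h1 : Dfn L (fun v : ℕ ⊕ (Unit ⊕ ℕ) → N =>
            fib θ (fun i => v (Sum.inr (Sum.inr i))) ⊆ fib θ (fun i => v (Sum.inl i))) :=
          Dfn.comp (dfn_subset θ θ) (Sum.elim (fun i => Sum.inr (Sum.inr i)) (fun i => Sum.inl i))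
            (fun v => Sum.elim (fun i => v (Sum.inr (Sum.inr i))) (fun i => v (Sum.inl i)))
            (by intro v b; rcases b with b | b <;> rfl)
        exact DfnO.of_dfn h1 d' (fun _ => Set.mem_univ _)
      · exact DfnO.of_dfn0 (dfn_mem θ (Sum.inl ()) (fun i => Sum.inr i) _ _ (fun _ => rfl)
          (fun _ _ => rfl))
  -- translates
  have hInt_smul : ∀ g ∈ V.Fix A, ∀ y, g • Int y = Int (fun i => g • y i) := by
    have key : ∀ g ∈ V.Fix A, ∀ y, g • Int y ⊆ Int (fun i => g • y i) := by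
      rintro g hg y _ ⟨z, hz, rfl⟩ _ ⟨x, hx, rfl, hxy⟩
      have h1 := hz (fib θ (fun i => g⁻¹ • x i)) ⟨_, hPinv g⁻¹ ((V.Fix A).inv_mem hg) x hx, rfl, by
        rw [fib_smul] at hxy ⊢
        have := Set.smul_set_mono (a := g⁻¹) hxy
        rwa [inv_smul_smul] at this⟩
      rw [fib_smul] at h1
      have h2 := Set.mem_smul_set_iff_inv_smul_mem.1 h1
      rw [inv_inv] at h2
      exact h2
    intro g hg y
    apply Set.Subset.antisymm (key g hg y)
    have h1 := key g⁻¹ ((V.Fix A).inv_mem hg) (fun i => g • y i)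
    simp only [inv_smul_smul] at h1
    have h2 := Set.smul_set_mono (a := g) h1
    rwa [smul_inv_smul] at h2
  have hgd : ∀ g ∈ V.Fix A, P (fun i => g • d' i) := fun g hg => hPinv g hg d' hd'
  -- equality of intersections
  have hkey : ∀ i, ∀ g ∈ V.Fix A, ∀ g' ∈ V.Fix A, X i ⊆ fib θ (fun i => g • d' i) →
      X i ⊆ fib θ (fun i => g' • d' i) → fib θ (fun i => g • d' i) ⊆ fib θ (fun i => g' • d' i) →
      Int (fun i => g • d' i) = Int (fun i => g' • d' i) := by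
    intro i g hg g' hg' h1 h2 h3
    apply Set.Subset.antisymm
    · intro z hz
      rintro _ ⟨x, hx, rfl, hxy⟩
      -- compare with `g d'`; both contain `g' X i₀`
      have h4 : ∀ x, P x → fib θ x ⊆ fib θ (fun i => g' • d' i) → g' • X i₀ ⊆ fib θ x := by
        intro x hx hxy
        have h5 := hsame (fun i => g'⁻¹ • x i) (hPinv g'⁻¹ ((V.Fix A).inv_mem hg') x hx) (by
          rw [fib_smul] at hxy ⊢
          have := Set.smul_set_mono (a := g'⁻¹) hxy
          rwa [inv_smul_smul] at this)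
        rw [fib_smul] at h5
        have := Set.smul_set_mono (a := g') h5
        rwa [smul_inv_smul] at this
      obtain ⟨y, hy⟩ := (hXne i₀).smul_set (a := g')
      rcases (hball x hx).cmp (hball _ (hgd g hg)) (h4 x hx hxy hy)
        (h4 _ (hgd g hg) h3 hy) with h6 | h6
      · exact hz _ ⟨x, hx, rfl, h6⟩
      · exact h6 (hz _ ⟨_, hgd g hg, rfl, subset_rfl⟩)
    · intro z hz
      rintro _ ⟨x, hx, rfl, hxy⟩
      exact hz _ ⟨x, hx, rfl, hxy.trans h3⟩
  have hkey' : ∀ i, ∀ g ∈ V.Fix A, ∀ g' ∈ V.Fix A, X i ⊆ fib θ (fun i => g • d' i) →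
      X i ⊆ fib θ (fun i => g' • d' i) →
      Int (fun i => g • d' i) = Int (fun i => g' • d' i) := by
    intro i g hg g' hg' h1 h2
    obtain ⟨y, hy⟩ := hXne i
    rcases (hball _ (hgd g hg)).cmp (hball _ (hgd g' hg')) (h1 hy) (h2 hy) with h | h
    · exact hkey i g hg g' hg' h1 h2 h
    · exact (hkey i g' hg' g hg h2 h1 h).symm
  refine ⟨Int d', ?_, ⟨i₀, ?_⟩, ?_⟩
  · apply Λ.mem_acl_of_orbit_Fix hA hInt_ball
    let Φ : I → Set N := fun i =>
      if h : ∃ g ∈ V.Fix A, X i ⊆ fib θ (fun i => g • d' i) then Int (fun i => h.choose • d' i)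
      else ∅
    apply (Set.finite_range Φ).subset
    rintro _ ⟨g, rfl⟩
    obtain ⟨i, hi⟩ := hX _ (hgd g g.2)
    refine ⟨i, ?_⟩
    have hex : ∃ g ∈ V.Fix A, X i ⊆ fib θ (fun i => g • d' i) := ⟨g, g.2, hi⟩
    have e : Φ i = Int (fun i => hex.choose • d' i) := dif_pos hex
    show Φ i = (g : AutG L N) • Int d'
    rw [e, hInt_smul g g.2 d']
    exact hkey' i _ hex.choose_spec.1 g g.2 hex.choose_spec.2 hi
  · intro y hy
    rintro _ ⟨x, hx, rfl, h⟩
    exact hsame x hx h hy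
  · have hm : fib θ d' ∈ C d' := ⟨d', hd', rfl, subset_rfl⟩
    exact (Set.sInter_subset_of_mem hm).trans hsub

/-- 3.2, inner moves -/
theorem inner_move {n : ℕ} (hA : A ⊆ Λ.S n) {D : Set N} (hD : D ∈ Λ.cell V A W₀)
    (F : Finset (Set N)) (hF : ∀ X ∈ F, X ∈ Λ.cell V A W₀) :
    ∃ g ∈ V.Fix A, ∀ X ∈ F, ¬ X ⊆ g • D := by
  classical
  have hN : Nonempty N := Λ.nonempty
  by_contra hcon
  push Not at hcon
  obtain ⟨m₁, hm₁⟩ := Λ.exists_coded hD.1.1
  obtain ⟨m₂, hm₂⟩ := Λ.exists_coded_finset F id (fun X hX => (hF X hX).1.1)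
  obtain ⟨m, h1, h2⟩ : ∃ m, m₁ ≤ m ∧ m₂ ≤ m := ⟨max m₁ m₂, le_max_left _ _, le_max_right _ _⟩
  obtain ⟨θ, d, hd, hDd⟩ := hm₁.mono h1
  have hcode : ∀ X : F, ∃ (θ' : Fm L) (x : ℕ → N), Λ.InS m x ∧ (X : Set N) = fib θ' x :=
    fun X => (hm₂ X X.2).mono h2
  choose θ' x' hx'1 hx'2 using hcode
  -- `D` is a uniform ball
  obtain ⟨-, Δ, hΔ, hUI⟩ := hD.1
  -- the definable condition contains some `X`
  have hsome : DfnO L (Λ.S m) (fun u : ℕ → N => ∃ X : F, (X : Set N) ⊆ fib θ u) := by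
    have h3 : DfnO L (Λ.S m) (fun u : ℕ → N => ∃ X ∈ (Finset.univ : Finset F),
        (X : Set N) ⊆ fib θ u) := by
      refine DfnO.finsetEx _ fun X _ => ?_
      have h4 := DfnO.of_dfn (κ := ℕ) (B := Λ.S m) (R := fun v : ℕ ⊕ ℕ → N =>
        fib (θ' X) (v ∘ Sum.inl) ⊆ fib θ (v ∘ Sum.inr)) (dfn_subset (θ' X) θ) (x' X) (hx'1 X)
      refine h4.of_iff fun u => ?_
      show fib (θ' X) (x' X) ⊆ fib θ u ↔ (X : Set N) ⊆ fib θ u
      rw [← hx'2 X]
    exact h3.of_iff fun u => by simp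
  have hgD : ∀ g ∈ V.Fix A, ∃ X : F, (X : Set N) ⊆ fib θ (fun i => g • d i) := by
    intro g hg
    obtain ⟨X, hX, h3⟩ := hcon g hg
    refine ⟨⟨X, hX⟩, ?_⟩
    rw [fib_smul, ← hDd]; exact h3
  -- uniform type
  have hmain : ∀ (TT : (ℕ → N) → Prop), Dfn1 L TT →
      (∀ g ∈ V.Fix A, TT (fun i => g • d i)) →
      ((∀ x, TT x → DU Δ (fib θ x)) ∨ (∀ x, TT x → DI Δ (fib θ x))) → False := by
    intro TT hTT hg hTT'
    obtain ⟨P, hP1, hP2, hP3, hP4⟩ := Λ.CP1' (V := V) hA hd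
      (Φ := fun u => TT u ∧ ∃ X : F, (X : Set N) ⊆ fib θ u)
      ((DfnO.of_dfn0 hTT).and hsome) (fun g hg' => ⟨hg g hg', hgD g hg'⟩)
    obtain ⟨Y, hY, ⟨X, hXY⟩, hYd⟩ := no_invariant_family hA hΔ hP1
      (hTT'.imp (fun h x hx => h x (hP3 x hx).1) (fun h x hx => h x (hP3 x hx).1)) hP4
      (fun X : F => (X : Set N)) (fun X => (hF X X.2).1.nonempty)
      (fun x hx => (hP3 x hx).2) hP2
    have hXc := hF X X.2
    have h5 : (X : Set N) ⊂ Y := by
      refine hXY.ssubset_of_ne fun e => hXc.2.1 ?_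
      rw [e]; exact hY
    have h6 : Y ∈ Λ.QQ V A W₀ := by
      rw [← cell_QQ hXc]; exact ⟨hY, h5⟩
    have h7 := low_of_cell hD Y h6
    rw [hDd] at h7
    exact h7.2 hYd
  rcases hUI with h | h
  · refine hmain (fun x => DU Δ (fib θ x)) (dfn_DU Δ θ) (fun g hg => ?_) (Or.inl fun x hx => hx)
    rw [fib_smul, ← hDd]; exact h.smul g
  · refine hmain (fun x => DI Δ (fib θ x)) (dfn_DI Δ θ) (fun g hg => ?_) (Or.inr fun x hx => hx)
    rw [fib_smul, ← hDd]; exact h.smul g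

end Levels

end Pool.Agent.VCM
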