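import Pool.Agent.VCM.Mov2

/-! Section 3.3: the Moving Lemma. -/

open FirstOrder FirstOrder.Language
open scoped Pointwise

namespace Pool.Agent.VCM

variable {L : FirstOrder.Language.{0, 0}} {N : Type} [L.Structure N]

namespace Levels

variable {Λ : Levels L N} {V : VC L N} {A W₀ : Set N}

/-- many translates of finitely many balls -/
theorem exists_many {n : ℕ} (hA : A ⊆ Λ.S n) (Z : Finset (Set N))
    (hZ : ∀ X ∈ Z, V.Ball X ∧ X ∉ V.acl A) (m : ℕ) :
    ∃ h : Fin m → AutG L N, (∀ i, h i ∈ V.Fix A) ∧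
      ∀ i j, i ≠ j → ∀ X ∈ Z, h i • X ≠ h j • X := by
  classical
  induction m with
  | zero => exact ⟨fun i => i.elim0, fun i => i.elim0, fun i => i.elim0⟩
  | succ m ih =>
    obtain ⟨h, h1, h2⟩ := ih
    obtain ⟨g, hg⟩ := neumann (H := V.Fix A) Z (fun X => X)
      (fun X => Set.range fun i => h i • X) (fun X _ => Set.finite_range _)
      (fun X hX => Λ.orbit_Fix_infinite hA (hZ X hX).1 (hZ X hX).2)
    refine ⟨Fin.snoc h (g : AutG L N), ?_, ?_⟩
    · intro i
      refine Fin.lastCases ?_ (fun i => ?_) i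
      · rw [Fin.snoc_last]; exact g.2
      · rw [Fin.snoc_castSucc]; exact h1 i
    · intro i j
      refine Fin.lastCases ?_ (fun i => ?_) i
      · refine Fin.lastCases ?_ (fun j => ?_) j
        · intro hne; exact absurd rfl hne
        · intro _ X hX
          rw [Fin.snoc_last, Fin.snoc_castSucc]
          intro hcon
          exact hg X hX ⟨j, hcon.symm⟩
      · refine Fin.lastCases ?_ (fun j => ?_) j
        · intro _ X hX
          rw [Fin.snoc_last, Fin.snoc_castSucc]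
          intro hcon
          exact hg X hX ⟨i, hcon⟩
        · intro hne X hX
          rw [Fin.snoc_castSucc, Fin.snoc_castSucc]
          exact h2 i j (fun e => hne (by rw [e])) X hX

/-- `g` is good for `Ys`, `Xs` -/
def Good (Vin : Set (Set N)) (Ys Xs : Set (Set N)) (g : AutG L N) : Prop :=
  ∀ Y ∈ Ys, ∀ X ∈ Xs, (X ∈ Vin → g • Y ⊂ X) ∧ (X ∉ Vin → Disjoint (g • Y) X)

/-- the trick with the pairs `Z` -/
theorem move_pairs {n : ℕ} (hA : A ⊆ Λ.S n) {Vin : Set (Set N)}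
    (hinv : ∀ g ∈ V.Fix A, ∀ X, X ∈ Vin → g • X ∈ Vin)
    (hbase : ∀ Ys Xs : Finset (Set N), (∀ Y ∈ Ys, Y ∈ Λ.cell V A W₀) →
      (∀ X ∈ Xs, X ∈ Λ.cell V A W₀) → ∃ g ∈ V.Fix A, Good Vin Ys Xs g)
    (F : Finset (Set N)) (Z : Finset (Set N × Set N))
    (hZ : ∀ p ∈ Z, V.Ball p.1 ∧ p.1 ∉ V.acl A) :
    ∃ g ∈ V.Fix A, (∀ Y ∈ F, Y ∈ Λ.cell V A W₀ → ∀ X ∈ F, X ∈ Λ.cell V A W₀ →
      (X ∈ Vin → g • Y ⊂ X) ∧ (X ∉ Vin → Disjoint (g • Y) X)) ∧ ∀ p ∈ Z, g • p.1 ≠ p.2 := by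
  classical
  let F' := F.filter fun X => X ∈ Λ.cell V A W₀
  let Z' := Z.filter fun p => V.Ball p.2 ∧ p.2 ∉ V.acl A
  obtain ⟨h, h1, h2⟩ := exists_many (Λ := Λ) hA (Z'.image Prod.snd) (by
    intro X hX
    obtain ⟨p, hp, rfl⟩ := Finset.mem_image.1 hX
    exact (Finset.mem_filter.1 hp).2) (Z'.card + 1)
  obtain ⟨g, hg, hgood⟩ := hbase F' (Finset.univ.biUnion fun i => F'.image fun X => h i • X)
    (fun Y hY => (Finset.mem_filter.1 hY).2)
    (by
      intro X hX
      simp only [Finset.mem_biUnion, Finset.mem_univ, true_and, Finset.mem_image] at hX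
      obtain ⟨i, X', hX', rfl⟩ := hX
      exact cell_smul (h1 i) (Finset.mem_filter.1 hX').2)
  have hi : ∀ i, Good Vin (F' : Set (Set N)) (F' : Set (Set N)) ((h i)⁻¹ * g) := by
    intro i Y hY X hX
    have h3 := hgood Y hY (h i • X) (by
      simp only [Finset.coe_biUnion, Set.mem_iUnion]
      exact ⟨i, Finset.mem_coe.2 (Finset.mem_univ _), Finset.mem_coe.2
        (Finset.mem_image_of_mem _ hX)⟩)
    constructor
    · intro hXV
      have h4 := h3.1 (hinv _ (h1 i) X hXV)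
      have h5 := Pool.VCM.smul_ssub_of (g := (h i)⁻¹) h4
      rwa [inv_smul_smul, smul_smul] at h5
    · intro hXV
      have h4 := h3.2 (fun hcon => hXV (by
        have := hinv _ ((V.Fix A).inv_mem (h1 i)) _ hcon
        rwa [inv_smul_smul] at this))
      have h5 := (Set.disjoint_smul_set (a := (h i)⁻¹)).2 h4
      rwa [inv_smul_smul, smul_smul] at h5
  have hex : ∃ i, ∀ p ∈ Z', ((h i)⁻¹ * g) • p.1 ≠ p.2 := by
    by_contra hcon
    push Not at hcon
    choose p hp1 hp2 using hcon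
    obtain ⟨i, -, j, -, hij, hpij⟩ := Finset.exists_ne_map_eq_of_card_lt_of_maps_to
      (s := (Finset.univ : Finset (Fin (Z'.card + 1)))) (t := Z') (f := p)
      (by rw [Finset.card_univ, Fintype.card_fin]; omega) (fun i _ => hp1 i)
    have h3 := hp2 i
    have h4 := hp2 j
    rw [hpij] at h3
    rw [mul_smul, inv_smul_eq_iff] at h3 h4
    exact h2 i j hij _ (Finset.mem_image_of_mem _ (hp1 j)) (h3.symm.trans h4)
  obtain ⟨i, hi'⟩ := hex
  refine ⟨(h i)⁻¹ * g, (V.Fix A).mul_mem ((V.Fix A).inv_mem (h1 i)) hg, ?_, ?_⟩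
  · intro Y hY hYc X hX hXc
    exact hi i Y (Finset.mem_coe.2 (Finset.mem_filter.2 ⟨hY, hYc⟩)) X
      (Finset.mem_coe.2 (Finset.mem_filter.2 ⟨hX, hXc⟩))
  · intro p hp
    by_cases hp2 : V.Ball p.2 ∧ p.2 ∉ V.acl A
    · exact hi' p (Finset.mem_filter.2 ⟨hp, hp2⟩)
    · intro hcon
      apply hp2
      have hmem : (h i)⁻¹ * g ∈ V.Fix A := (V.Fix A).mul_mem ((V.Fix A).inv_mem (h1 i)) hg
      rw [← hcon]
      refine ⟨(hZ p hp).1.smul _, fun hcon2 => (hZ p hp).2 ?_⟩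
      have h5 := hmem.2 _ hcon2
      have h6 : ((h i)⁻¹ * g) • p.1 = p.1 := smul_left_cancel _ h5
      rw [← h6]; exact hcon2

/-- directedness when there is only one class -/
theorem exists_upper (hone : ∀ X ∈ Λ.cell V A W₀, ∀ Y ∈ Λ.cell V A W₀, Λ.Cls V A W₀ X Y)
    {D₀ : Set N} (hD₀ : D₀ ∈ Λ.cell V A W₀) (S : Set (Set N)) (hS : S.Finite)
    (hSc : S ⊆ Λ.cell V A W₀) : ∃ D ∈ Λ.cell V A W₀, D₀ ⊆ D ∧ ∀ Y ∈ S, Y ⊆ D := by
  induction S, hS using Set.Finite.induction_on with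
  | empty => exact ⟨D₀, hD₀, subset_rfl, by simp⟩
  | @insert a S _ _ ih =>
    obtain ⟨D, hD, h1, h2⟩ := ih fun Y hY => hSc (Set.mem_insert_of_mem _ hY)
    obtain ⟨E, hE, h3, h4, h5⟩ := hone D hD a (hSc (Set.mem_insert _ _))
    refine ⟨E, cell_of_le hD hE h3 h5, h1.trans h3, ?_⟩
    rintro Y (rfl | hY)
    · exact h4
    · exact (h2 Y hY).trans h3

/-- the class of a ball -/
def clsSet (Λ : Levels L N) (V : VC L N) (A W₀ Y : Set N) : Set (Set N) :=
  {X | X ∈ Λ.cell V A W₀ ∧ Λ.Cls V A W₀ Y X}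

theorem clsSet_smul {g : AutG L N} (hg : g ∈ V.Fix A) (Y : Set N) :
    g • clsSet Λ V A W₀ Y = clsSet Λ V A W₀ (g • Y) := by
  have key : ∀ g ∈ V.Fix A, ∀ Y, g • clsSet Λ V A W₀ Y ⊆ clsSet Λ V A W₀ (g • Y) := by
    rintro g hg Y _ ⟨X, ⟨h1, h2⟩, rfl⟩
    exact ⟨cell_smul hg h1, h2.smul hg⟩
  apply Set.Subset.antisymm (key g hg Y)
  have h1 := key g⁻¹ ((V.Fix A).inv_mem hg) (g • Y)
  rw [inv_smul_smul] at h1
  have h2 := Set.smul_set_mono (a := g) h1
  rwa [smul_inv_smul] at h2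

/-- 3.3, the Moving Lemma -/
theorem moving {n : ℕ} (hA : A ⊆ Λ.S n) (hW : V.Ball W₀) (hW' : W₀ ∉ V.acl A) :
    Λ.Moving V A W₀ := by
  classical
  by_cases hone : ∀ X ∈ Λ.cell V A W₀, ∀ Y ∈ Λ.cell V A W₀, Λ.Cls V A W₀ X Y
  · by_cases hdisj : ∀ D ∈ Λ.cell V A W₀, ∀ X ∈ Λ.cell V A W₀, ∃ g ∈ V.Fix A,
        Disjoint (g • D) X
    · refine ⟨∅, Set.empty_subset _, by simp, by simp, ?_⟩
      refine move_pairs hA (by simp) ?_
      intro Ys Xs hYs hXs
      obtain ⟨D, hD, h1, h2⟩ := exists_upper hone (D₀ := W₀) ⟨hW, hW', rfl⟩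
        (↑(Ys ∪ Xs)) (Finset.finite_toSet _) (by
          intro Y hY
          rcases Finset.mem_union.1 (Finset.mem_coe.1 hY) with h | h
          exacts [hYs Y h, hXs Y h])
      obtain ⟨g, hg, h3⟩ := hdisj D hD D hD
      refine ⟨g, hg, fun Y hY X hX => ⟨fun h => absurd h (Set.notMem_empty _), fun _ => ?_⟩⟩
      exact h3.mono (Set.smul_set_mono (h2 Y (Finset.mem_coe.2 (Finset.mem_union_left _ hY))))
        (h2 X (Finset.mem_coe.2 (Finset.mem_union_right _ hX)))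
    · push Not at hdisj
      obtain ⟨D, hD, X, hX, hmeet⟩ := hdisj
      obtain ⟨D₀, hD₀, hDD₀, hXD₀'⟩ := exists_upper hone hD {X} (Set.finite_singleton _)
        (by rintro _ rfl; exact hX)
      have hXD₀ := hXD₀' X rfl
      have hmeet' : ∀ g ∈ V.Fix A, ∀ g' ∈ V.Fix A, ¬ Disjoint (g • D₀) (g' • D₀) := by
        intro g hg g' hg' hcon
        apply hmeet (g'⁻¹ * g) ((V.Fix A).mul_mem ((V.Fix A).inv_mem hg') hg)
        have h1 := hcon.mono (Set.smul_set_mono hDD₀) (Set.smul_set_mono hXD₀)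
        have h2 := (Set.disjoint_smul_set (a := g'⁻¹)).2 h1
        rwa [inv_smul_smul, smul_smul] at h2
      let Vin : Set (Set N) := {Y | Y ∈ Λ.cell V A W₀ ∧ ∃ g ∈ V.Fix A, g • D₀ ⊆ Y}
      refine ⟨Vin, fun Y hY => hY.1, ?_, ?_, ?_⟩
      · rintro Y ⟨-, g, hg, h1⟩ Y' hY' h2
        exact ⟨hY', g, hg, h1.trans h2⟩
      · intro _ S hS hSc
        obtain ⟨E, hE, h1, h2⟩ := exists_upper hone hD₀ S hS hSc
        exact ⟨E, ⟨hE, 1, (V.Fix A).one_mem, by rw [one_smul]; exact h1⟩, h2⟩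
      · refine move_pairs hA ?_ ?_
        · rintro g hg Y ⟨hY, g', hg', h1⟩
          refine ⟨cell_smul hg hY, g * g', (V.Fix A).mul_mem hg hg', ?_⟩
          rw [mul_smul]; exact Set.smul_set_mono h1
        · intro Ys Xs hYs hXs
          obtain ⟨E, hE, h1, h2⟩ := exists_upper hone hD₀ (↑Ys) (Finset.finite_toSet _)
            (fun Y hY => hYs Y hY)
          obtain ⟨g, hg, h3⟩ := inner_move hA hE Xs hXs
          refine ⟨g, hg, fun Y hY X hX => ?_⟩
          have hYE : g • Y ⊆ g • E := Set.smul_set_mono (h2 Y hY)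
          have hgE := cell_smul hg hE
          have hXc := hXs X hX
          constructor
          · rintro ⟨-, g', hg', h4⟩
            have h5 : ¬ Disjoint (g • E) X := fun hcon => hmeet' g hg g' hg'
              (hcon.mono (Set.smul_set_mono h1) h4)
            rcases hgE.1.lam hXc.1 with h6 | h6 | h6
            · exact ssubset_of_subset_of_ssubset hYE ⟨h6, h3 X hX⟩
            · exact absurd h6 (h3 X hX)
            · exact absurd h6 h5
          · intro hXV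
            rcases hgE.1.lam hXc.1 with h6 | h6 | h6
            · exfalso
              exact hXV ⟨hXc, g, hg, (Set.smul_set_mono h1).trans h6⟩
            · exact absurd h6 (h3 X hX)
            · exact h6.mono hYE subset_rfl
  · -- at least two classes
    push Not at hone
    obtain ⟨X₁, hX₁, X₂, hX₂, h12⟩ := hone
    -- every class has another class
    have hother : ∀ W ∈ Λ.cell V A W₀, ∃ X ∈ Λ.cell V A W₀, ¬ Λ.Cls V A W₀ W X := by
      intro W hWc
      by_cases h : Λ.Cls V A W₀ W X₁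
      · refine ⟨X₂, hX₂, fun h' => h12 ?_⟩
        exact h.symm.trans hWc.1.nonempty h'
      · exact ⟨X₁, hX₁, h⟩
    have hinf : ∀ W ∈ Λ.cell V A W₀,
        ¬ (MulAction.orbit (V.Fix A) (clsSet Λ V A W₀ W)).Finite := by
      intro W hWc hfin
      obtain ⟨X, hX, hWX⟩ := hother W hWc
      -- representatives
      have hrep : ∀ c : Set (Set N), ∃ D : Set N, c ∈ MulAction.orbit (V.Fix A) (clsSet Λ V A W₀ W) →
          D ∈ Λ.cell V A W₀ ∧ c = clsSet Λ V A W₀ D := by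
        intro c
        by_cases hc : c ∈ MulAction.orbit (V.Fix A) (clsSet Λ V A W₀ W)
        · obtain ⟨g, rfl⟩ := hc
          exact ⟨(g : AutG L N) • W, fun _ => ⟨cell_smul g.2 hWc, clsSet_smul g.2 W⟩⟩
        · exact ⟨∅, fun h => absurd h hc⟩
      choose r hr using hrep
      obtain ⟨g, hg, h⟩ := class_move hA hW hW' hWc hX hWX (hfin.toFinset.image r) (by
        intro D hD
        obtain ⟨c, hc, rfl⟩ := Finset.mem_image.1 hD
        exact (hr c ((Set.Finite.mem_toFinset _).1 hc)).1)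
      have h1 : clsSet Λ V A W₀ (g • W) ∈ MulAction.orbit (V.Fix A) (clsSet Λ V A W₀ W) := by
        refine ⟨⟨g, hg⟩, ?_⟩
        exact clsSet_smul hg W
      have h2 := hr _ h1
      apply h (r (clsSet Λ V A W₀ (g • W)))
        (Finset.mem_image_of_mem _ ((Set.Finite.mem_toFinset _).2 h1))
      have h3 : g • W ∈ clsSet Λ V A W₀ (g • W) := ⟨cell_smul hg hWc, Cls.refl (cell_smul hg hWc)⟩
      rw [h2.2] at h3
      exact h3.2.symm
    refine ⟨∅, Set.empty_subset _, by simp, by simp, ?_⟩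
    refine move_pairs hA (by simp) ?_
    intro Ys Xs hYs hXs
    obtain ⟨g, hg⟩ := neumann (H := V.Fix A) Ys (fun Y => clsSet Λ V A W₀ Y)
      (fun _ => (fun X => clsSet Λ V A W₀ X) '' (Xs : Set (Set N)))
      (fun _ _ => (Finset.finite_toSet _).image _) (fun Y hY => hinf Y (hYs Y hY))
    refine ⟨g, g.2, fun Y hY X hX => ⟨fun h => absurd h (Set.notMem_empty _), fun _ => ?_⟩⟩
    by_contra hcon
    apply hg Y hY
    refine ⟨X, hX, ?_⟩
    show clsSet Λ V A W₀ X = (g : AutG L N) • clsSet Λ V A W₀ Y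
    rw [clsSet_smul g.2]
    have hXc := hXs X hX
    have hYc := cell_smul g.2 (hYs Y hY)
    have h1 : Λ.Cls V A W₀ ((g : AutG L N) • Y) X := Cls.of_meet hYc hXc hcon
    ext E
    constructor
    · rintro ⟨h2, h3⟩
      exact ⟨h2, h1.trans hXc.1.nonempty h3⟩
    · rintro ⟨h2, h3⟩
      exact ⟨h2, h1.symm.trans hYc.1.nonempty h3⟩

/-- the full context of the machine -/
def ctxFull (Λ : Levels L N) (V : VC L N) : Pool.VCM.Ctx N (AutG L N) :=
  Λ.ctx (V := V) (fun {A} hfin {W₀} hW hW' => by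
    have : ∃ n, A ⊆ Λ.S n := by
      have hf : Finite A := hfin
      obtain ⟨n, hn⟩ := Λ.finite_level (fun a : A => (a : N))
      exact ⟨n, fun a ha => hn ⟨a, ha⟩⟩
    obtain ⟨n, hn⟩ := this
    exact moving hn hW hW')

end Levels

end Pool.Agent.VCM
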