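import Pool.Agent.VCM.Machine

/-! S15495, section 5, module S5OV: the context over a finite base. -/

open scoped Pointwise

namespace Pool.VCM

variable {N G : Type} [Group G] [MulAction G N]

section ovr

variable (C : Ctx N G) {A₀ : Set N} {H : Subgroup G} {n₀ : ℕ}

theorem over_sub (hn₀ : A₀ ⊆ C.lv n₀) {c : Set N} {n : ℕ} (hc : c ⊆ C.lv (n + n₀)) : A₀ ∪ c ⊆ C.lv (n + n₀) :=
  Set.union_subset (hn₀.trans (C.lv_mono (Nat.le_add_left _ _))) hc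

theorem over_smul_set (g : H) (W : Set N) : g • W = (g : G) • W := rfl

theorem over_fix (hH : ∀ g : G, g ∈ H ↔ ∀ x ∈ A₀, g • x = x) {c : Set N} {s : G} (hs : s ∈ C.Fix (A₀ ∪ c)) :
    s ∈ H := (hH s).2 fun x hx => hs.1 x (Or.inl hx)

theorem over_union_smul (hH : ∀ g : G, g ∈ H ↔ ∀ x ∈ A₀, g • x = x) (g : H) (c : Set N) :
    (g : G) • (A₀ ∪ c) = A₀ ∪ (g : G) • c := by
  have h1 : (g : G) • A₀ = A₀ := by
    have h := (hH g).1 g.2
    ext x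
    rw [Set.mem_smul_set]
    constructor
    · rintro ⟨y, hy, rfl⟩
      rw [h y hy]; exact hy
    · intro hx
      exact ⟨x, hx, h x hx⟩
  rw [Set.smul_set_union, h1]

end ovr

/-- the basic context over a finite base -/
def Ctx.over0 (C : Ctx N G) (A₀ : Set N) (hA : A₀.Finite) (H : Subgroup G)
    (hH : ∀ g : G, g ∈ H ↔ ∀ x ∈ A₀, g • x = x) (n₀ : ℕ) (hn₀ : A₀ ⊆ C.lv n₀) : Ctx0 N H where
  Ball := C.Ball
  acl := fun c => C.acl (A₀ ∪ c)
  lv := fun n => C.lv (n + n₀)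
  cl := C.cl
  ball_smul := fun g {_} hW => C.ball_smul (g : G) hW
  ball_ne := fun {_} hW => C.ball_ne hW
  lam := fun {_ _} hW hW' => C.lam hW hW'
  acl_ball := fun {_ _} hW => C.acl_ball hW
  acl_mono := fun {_ _} h => C.acl_mono (Set.union_subset_union_right _ h)
  acl_smul := fun g {c W} hW => by
    have h := C.acl_smul (g : G) hW
    rw [over_union_smul hH g c] at h
    exact h
  acl_univ := fun _ => C.acl_univ _
  ball_acl := fun {_} hW => by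
    obtain ⟨d, hd, h⟩ := C.ball_acl hW
    exact ⟨d, hd, C.acl_mono Set.subset_union_right h⟩
  lv_mono := fun _ _ h => C.lv_mono (Nat.add_le_add_right h _)
  lv_cov := fun x => by
    obtain ⟨n, hn⟩ := C.lv_cov x
    exact ⟨n, C.lv_mono (Nat.le_add_right _ _) hn⟩
  lb_fix := fun {_ _} hg {_ _} hf hc hW =>
    C.lb_fix hg (hA.union hf) (over_sub C hn₀ hc) hW
  cl_equiv := C.cl_equiv
  cl_acl := fun {_ _ _} h => C.cl_acl h
  cl_smul := fun g {_ _} h => C.cl_smul (g : G) h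

section lemmas

variable (C : Ctx N G) {A₀ : Set N} (hA : A₀.Finite) {H : Subgroup G}
    (hH : ∀ g : G, g ∈ H ↔ ∀ x ∈ A₀, g • x = x) {n₀ : ℕ} (hn₀ : A₀ ⊆ C.lv n₀)

include hA hH hn₀

theorem over_LB (n : ℕ) : (C.over0 A₀ hA H hH n₀ hn₀).LB n = C.LB (n + n₀) := by
  ext W
  constructor
  · rintro ⟨c, hf, hc, hW⟩
    exact ⟨A₀ ∪ c, hA.union hf, over_sub C hn₀ hc, hW⟩
  · rintro ⟨c, hf, hc, hW⟩
    exact ⟨c, hf, hc, C.acl_mono Set.subset_union_right hW⟩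

theorem over_cell (c W : Set N) : (C.over0 A₀ hA H hH n₀ hn₀).cell c W = C.cell (A₀ ∪ c) W := rfl

theorem over_memFix {c : Set N} {s : G} (hs : s ∈ C.Fix (A₀ ∪ c)) (h : s ∈ H) :
    (⟨s, h⟩ : H) ∈ (C.over0 A₀ hA H hH n₀ hn₀).Fix c :=
  ⟨fun x hx => hs.1 x (Or.inr hx), fun W hW => hs.2 W hW⟩

end lemmas

/-- the context over a finite base `A₀`: group `H` = pointwise stabiliser of `A₀`, `acl' c = acl (A₀ ∪ c)`,
`lv' n = lv (n + n₀)` -/
def Ctx.over (C : Ctx N G) (A₀ : Set N) (hA : A₀.Finite) (H : Subgroup G)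
    (hH : ∀ g : G, g ∈ H ↔ ∀ x ∈ A₀, g • x = x) (n₀ : ℕ) (hn₀ : A₀ ⊆ C.lv n₀) : Ctx N H where
  toCtx0 := C.over0 A₀ hA H hH n₀ hn₀
  vin := fun {c} hc {W₀} hW₀ hW₀' => by
    classical
    obtain ⟨Vin, hV⟩ := C.vin (hA.union hc) hW₀ hW₀'
    refine ⟨Vin, ⟨hV.sub, hV.up, hV.dir, ?_⟩⟩
    obtain ⟨σ, hσ, hτ⟩ := hV.gen
    have key : ∀ n, c ⊆ C.lv (n + n₀) → σ (n + n₀) ∈ H := fun n hn =>
      over_fix C hH (hσ _ (over_sub C hn₀ hn)).fix
    refine ⟨fun n => if h : c ⊆ C.lv (n + n₀) then ⟨σ (n + n₀), key n h⟩ else 1, ?_, ?_⟩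
    · intro n hn
      have hn' : c ⊆ C.lv (n + n₀) := hn
      have hg := hσ _ (over_sub C hn₀ hn')
      have e : (if h : c ⊆ C.lv (n + n₀) then (⟨σ (n + n₀), key n h⟩ : H) else 1) = ⟨σ (n + n₀), key n hn'⟩ :=
        dif_pos hn'
      beta_reduce
      rw [e]
      refine ⟨over_memFix C hA hH hn₀ hg.fix _, ?_, ?_, ?_⟩
      · intro X hX hXl Y hY hYl
        rw [over_LB C hA hH hn₀] at hXl hYl
        exact hg.small X hX hXl Y hY hYl
      · intro X hX hXV hXl Y hY hYl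
        rw [over_LB C hA hH hn₀] at hXl hYl
        exact hg.disj X hX hXV hXl Y hY hYl
      · intro Z hZl hZ hZ'
        rw [over_LB C hA hH hn₀] at hZl hZ'
        exact hg.indep Z hZl hZ hZ'
    · intro n m hn hnm
      have hn' : c ⊆ C.lv (n + n₀) := hn
      have hm' : c ⊆ C.lv (m + n₀) := hn'.trans (C.lv_mono (Nat.add_le_add_right hnm _))
      obtain ⟨τ, hτ1, hτ2⟩ := hτ (n + n₀) (m + n₀) (over_sub C hn₀ hn') (Nat.add_le_add_right hnm _)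
      have hτH : τ ∈ H := (hH τ).2 fun x hx => hτ1 x (hn₀.trans (C.lv_mono (Nat.le_add_left _ _)) hx)
      refine ⟨⟨τ, hτH⟩, fun x hx => hτ1 x hx, fun x hx => ?_⟩
      have e : (if h : c ⊆ C.lv (n + n₀) then (⟨σ (n + n₀), key n h⟩ : H) else 1) = ⟨σ (n + n₀), key n hn'⟩ :=
        dif_pos hn'
      have e' : (if h : c ⊆ C.lv (m + n₀) then (⟨σ (m + n₀), key m h⟩ : H) else 1) = ⟨σ (m + n₀), key m hm'⟩ :=
        dif_pos hm'
      beta_reduce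
      rw [e, e']
      exact hτ2 x hx
  ind := fun {c} hc n hn => by
    have hn' : c ⊆ C.lv (n + n₀) := hn
    obtain ⟨κ, hκ, h⟩ := C.ind (hA.union hc) (n + n₀) (over_sub C hn₀ hn')
    refine ⟨⟨κ, over_fix C hH hκ⟩, over_memFix C hA hH hn₀ hκ _, fun Z hZl hZ hZ' => ?_⟩
    rw [over_LB C hA hH hn₀] at hZl hZ'
    exact h Z hZl hZ hZ'

section api

variable (C : Ctx N G) (A₀ : Set N) (hA : A₀.Finite) (H : Subgroup G)
    (hH : ∀ g : G, g ∈ H ↔ ∀ x ∈ A₀, g • x = x) (n₀ : ℕ) (hn₀ : A₀ ⊆ C.lv n₀)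

@[simp] theorem Ctx.over_Ball : (C.over A₀ hA H hH n₀ hn₀).Ball = C.Ball := rfl

@[simp] theorem Ctx.over_acl (c : Set N) : (C.over A₀ hA H hH n₀ hn₀).acl c = C.acl (A₀ ∪ c) := rfl

@[simp] theorem Ctx.over_lv (n : ℕ) : (C.over A₀ hA H hH n₀ hn₀).lv n = C.lv (n + n₀) := rfl

@[simp] theorem Ctx.over_cl : (C.over A₀ hA H hH n₀ hn₀).cl = C.cl := rfl

theorem Ctx.over_LB (n : ℕ) : (C.over A₀ hA H hH n₀ hn₀).LB n = C.LB (n + n₀) :=
  Pool.VCM.over_LB C hA hH hn₀ n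

theorem Ctx.over_cell (c W : Set N) : (C.over A₀ hA H hH n₀ hn₀).cell c W = C.cell (A₀ ∪ c) W := rfl

theorem Ctx.over_mem_Fix {c : Set N} {s : H} :
    s ∈ (C.over A₀ hA H hH n₀ hn₀).Fix c ↔ (s : G) ∈ C.Fix (A₀ ∪ c) := by
  constructor
  · intro h
    refine ⟨fun x hx => ?_, fun W hW => h.2 W hW⟩
    rcases hx with hx | hx
    · exact (hH s).1 s.2 x hx
    · exact h.1 x hx
  · intro h
    exact ⟨fun x hx => h.1 x (Or.inr hx), fun W hW => h.2 W hW⟩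

end api

end Pool.VCM
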