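import Pool.Agent.VCM.S5Defs

/-! S15495, section 5: calculus of `Val` and `Fac` (no model theory). -/

open FirstOrder FirstOrder.Language
open scoped Pointwise

namespace Pool.Agent.VCM

variable {L : FirstOrder.Language.{0, 0}} {N : Type} [L.Structure N]
variable {α : Type} {p k : ℕ} {V : VC L N} {S : Sys L N (α ⊕ Unit) p k} {a : α → N}
variable {J J' J'' : Type} {z : J → Fin p → N} {y : J' → Fin p → N} {v : J'' → Fin p → N} {W : Set N}

theorem Sys.mem_pt {s : J → Fin p → N} {x : N} {η : J → Prop} :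
    η ∈ S.pt a s x ↔ ∃ w ∈ S.T (ext a x), (fun j => s j ∈ w) = η := Iff.rfl

theorem Sys.pt_finite {s : J → Fin p → N} {x : N} : (S.pt a s x).Finite := (S.fin _).image _

theorem Sys.pt_card {s : J → Fin p → N} {x : N} : (S.pt a s x).ncard ≤ k :=
  (Set.ncard_image_le (S.fin _)).trans (S.card _)

/-- patterns on a subtuple -/
theorem Sys.pt_comp (f : J' → J) (s : J → Fin p → N) (x : N) :
    S.pt a (fun j => s (f j)) x = (fun η j => η (f j)) '' S.pt a s x := by
  unfold Sys.pt Sys.pat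
  rw [Set.image_image]

theorem Val.unique [(V.nearF W).NeBot] {ν μ : Set (J → Prop)} (h : Val V S a z W ν) (h' : Val V S a z W μ) : ν = μ := by
  obtain ⟨x, hx, hx'⟩ := (h.and h').exists
  rw [← hx, ← hx']

theorem Val.card_le [(V.nearF W).NeBot] {ν : Set (J → Prop)} (h : Val V S a z W ν) : ν.ncard ≤ k := by
  obtain ⟨x, hx⟩ := h.exists
  rw [← hx]; exact Sys.pt_card

theorem Val.finite [(V.nearF W).NeBot] {ν : Set (J → Prop)} (h : Val V S a z W ν) : ν.Finite := by
  obtain ⟨x, hx⟩ := h.exists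
  rw [← hx]; exact Sys.pt_finite

theorem Val.comp (f : J' → J) {ν : Set (J → Prop)} (h : Val V S a z W ν) :
    Val V S a (fun j => z (f j)) W ((fun η j => η (f j)) '' ν) := by
  filter_upwards [h] with x hx
  rw [Sys.pt_comp, hx]

theorem Fac.comp (f : J' → J) : Fac V S a z (fun j => z (f j)) W :=
  ⟨fun η j => η (f j), Filter.Eventually.of_forall fun _ _ _ => rfl⟩

theorem Fac.refl : Fac V S a z z W := Fac.comp id

theorem Fac.trans (h : Fac V S a z y W) (h' : Fac V S a y v W) : Fac V S a z v W := by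
  obtain ⟨φ, hφ⟩ := h
  obtain ⟨ψ, hψ⟩ := h'
  refine ⟨fun η => ψ (φ η), ?_⟩
  filter_upwards [hφ, hψ] with x hx hx' w hw
  rw [hx' w hw, hx w hw]

theorem Fac.sum (h : Fac V S a z y W) (h' : Fac V S a z v W) : Fac V S a z (Sum.elim y v) W := by
  obtain ⟨φ, hφ⟩ := h
  obtain ⟨ψ, hψ⟩ := h'
  refine ⟨fun η => Sum.elim (φ η) (ψ η), ?_⟩
  filter_upwards [hφ, hψ] with x hx hx' w hw
  funext j
  rcases j with j | j
  · exact congrFun (hx w hw) j
  · exact congrFun (hx' w hw) j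

/-- factoring through a family of tuples -/
theorem Fac.pi [Finite J'] {y : J' → Fin p → N} (h : ∀ j, Fac V S a z (fun _ : Unit => y j) W) :
    Fac V S a z y W := by
  choose φ hφ using h
  refine ⟨fun η j => φ j η (), ?_⟩
  have := Filter.eventually_all.2 hφ
  filter_upwards [this] with x hx w hw
  funext j
  exact congrFun (hx j w hw) ()

theorem Fac.val (h : Fac V S a z y W) {ν : Set (J → Prop)} (hν : Val V S a z W ν) :
    ∃ μ, Val V S a y W μ ∧ μ.ncard ≤ ν.ncard ∨ ¬ ν.Finite := by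
  by_cases hf : ν.Finite
  · obtain ⟨φ, hφ⟩ := h
    refine ⟨φ '' ν, Or.inl ⟨?_, Set.ncard_image_le hf⟩⟩
    filter_upwards [hφ, hν] with x hx hx'
    rw [← hx']
    ext η
    constructor
    · rintro ⟨w, hw, rfl⟩
      exact ⟨_, ⟨w, hw, rfl⟩, (hx w hw).symm⟩
    · rintro ⟨_, ⟨w, hw, rfl⟩, rfl⟩
      exact ⟨w, hw, hx w hw⟩
  · exact ⟨∅, Or.inr hf⟩

/-- the value of a factor -/
theorem Fac.val' [(V.nearF W).NeBot] (h : Fac V S a z y W) {ν : Set (J → Prop)} (hν : Val V S a z W ν) :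
    ∃ μ, Val V S a y W μ ∧ μ.ncard ≤ ν.ncard := by
  obtain ⟨μ, h | h⟩ := h.val hν
  · exact ⟨μ, h⟩
  · exact absurd hν.finite h

/-- if the joint value has no more elements than the value of `z`, then `y` factors through `z` -/
theorem Fac.of_card [(V.nearF W).NeBot] {ν : Set (J → Prop)} {μ : Set (J ⊕ J' → Prop)} (hν : Val V S a z W ν)
    (hμ : Val V S a (Sum.elim z y) W μ) (hc : μ.ncard ≤ ν.ncard) : Fac V S a z y W := by
  classical
  have h1 : (fun (η : J ⊕ J' → Prop) j => η (Sum.inl j)) '' μ = ν := by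
    have := hμ.comp (Sum.inl : J → J ⊕ J')
    exact this.unique hν
  have hinj : Set.InjOn (fun (η : J ⊕ J' → Prop) j => η (Sum.inl j)) μ := by
    apply Set.injOn_of_ncard_image_eq ?_ hμ.finite
    rw [h1]
    apply le_antisymm _ hc
    rw [← h1]
    exact Set.ncard_image_le hμ.finite
  refine ⟨fun ζ => if h : ∃ η ∈ μ, (fun j => η (Sum.inl j)) = ζ then fun j => h.choose (Sum.inr j) else fun _ => False, ?_⟩
  filter_upwards [hμ] with x hx w hw
  have hmem : (fun j => (Sum.elim z y) j ∈ w) ∈ μ := by rw [← hx]; exact ⟨w, hw, rfl⟩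
  have hex : ∃ η ∈ μ, (fun j => η (Sum.inl j)) = fun j => z j ∈ w := ⟨_, hmem, rfl⟩
  rw [dif_pos hex]
  have := hinj hex.choose_spec.1 hmem hex.choose_spec.2
  funext j
  rw [this]
  rfl

/-- symmetry of `Fac` for values of the same size -/
theorem Fac.symm [(V.nearF W).NeBot] (h : Fac V S a z y W) {ν : Set (J → Prop)} {μ : Set (J' → Prop)}
    (hν : Val V S a z W ν) (hμ : Val V S a y W μ) (hc : ν.ncard ≤ μ.ncard) : Fac V S a y z W := by
  classical
  obtain ⟨φ, hφ⟩ := h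
  have h1 : φ '' ν = μ := by
    obtain ⟨x, hx1, hx2, hx3⟩ := (hφ.and (hν.and hμ)).exists
    rw [← hx2, ← hx3]
    ext η
    constructor
    · rintro ⟨_, ⟨w, hw, rfl⟩, rfl⟩
      exact ⟨w, hw, hx1 w hw⟩
    · rintro ⟨w, hw, rfl⟩
      exact ⟨_, ⟨w, hw, rfl⟩, (hx1 w hw).symm⟩
  have hinj : Set.InjOn φ ν := by
    apply Set.injOn_of_ncard_image_eq ?_ hν.finite
    rw [h1]
    exact le_antisymm (h1 ▸ Set.ncard_image_le hν.finite) hc
  refine ⟨fun ζ => if h : ∃ η ∈ ν, φ η = ζ then h.choose else fun _ => False, ?_⟩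
  filter_upwards [hφ, hν] with x hx hx' w hw
  have hmem : (fun j => z j ∈ w) ∈ ν := by rw [← hx']; exact ⟨w, hw, rfl⟩
  have hex : ∃ η ∈ ν, φ η = fun j => y j ∈ w := ⟨_, hmem, (hx w hw).symm⟩
  rw [dif_pos hex]
  exact (hinj hex.choose_spec.1 hmem (hex.choose_spec.2.trans (hx w hw))).symm

/-- joint value of a factor -/
theorem Fac.val_sum [(V.nearF W).NeBot] (h : Fac V S a z y W) {ν : Set (J → Prop)} (hν : Val V S a z W ν) :
    ∃ μ, Val V S a (Sum.elim z y) W μ ∧ μ.ncard ≤ ν.ncard :=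
  (Fac.refl.sum h).val' hν

/-- subtuple of the joint tuple -/
theorem Val.left {μ : Set (J ⊕ J' → Prop)} (hμ : Val V S a (Sum.elim z y) W μ) :
    Val V S a z W ((fun η j => η (Sum.inl j)) '' μ) := hμ.comp (Sum.inl : J → J ⊕ J')

theorem Val.right {μ : Set (J ⊕ J' → Prop)} (hμ : Val V S a (Sum.elim z y) W μ) :
    Val V S a y W ((fun η j => η (Sum.inr j)) '' μ) := hμ.comp (Sum.inr : J' → J ⊕ J')

end Pool.Agent.VCM
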