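import Pool.Agent.VCM.S5Defs
import Pool.Agent.VCM.Sec2
import Pool.Agent.VCM.ClDfn
import Pool.Agent.VCM.URep

/-! S15495, section 5: definability of the patterns over the line, uniform representation of the pattern function. -/

open FirstOrder FirstOrder.Language
open scoped Pointwise

namespace Pool.Agent.VCM

variable {L : FirstOrder.Language.{0, 0}} {N : Type} [L.Structure N]
variable {α : Type} {p k : ℕ}

/-- a pattern of the system at `x` is a definable condition -/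
theorem dfn_mem_pt {J : Type} [Finite J] (S : Sys L N (α ⊕ Unit) p k) (η : J → Prop) {γ : Type}
    (ia : α → γ) (is : J × Fin p → γ) (ix : γ) :
    Dfn L (fun v : γ → N => η ∈ S.pt (fun i => v (ia i)) (fun j i => v (is (j, i))) (v ix)) := by
  classical
  obtain ⟨n, ⟨e⟩⟩ := Finite.exists_equiv_fin J
  have h := S.dfn n (fun j => η (e.symm j))
  refine (Dfn.comp h (Sum.elim (Sum.elim ia (fun _ => ix)) (fun q => is (e.symm q.1, q.2)))
    (fun v => Sum.elim (ext (fun i => v (ia i)) (v ix)) (fun q => v (is (e.symm q.1, q.2)))) ?_).of_iff ?_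
  · rintro v ((b | b) | b) <;> rfl
  · intro v
    show (∃ w ∈ S.T (ext (fun i => v (ia i)) (v ix)), ∀ j, ((fun i => v (is (e.symm j, i))) ∈ w ↔ η (e.symm j))) ↔ _
    constructor
    · rintro ⟨w, hw, h⟩
      refine ⟨w, hw, ?_⟩
      funext j
      have := h (e j)
      rw [e.symm_apply_apply] at this
      exact propext this
    · rintro ⟨w, hw, h⟩
      refine ⟨w, hw, fun j => ?_⟩
      rw [← h]

theorem dfn_pt_eq {J : Type} [Finite J] (S : Sys L N (α ⊕ Unit) p k) (ν : Set (J → Prop)) {γ : Type}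
    (ia : α → γ) (is : J × Fin p → γ) (ix : γ) :
    Dfn L (fun v : γ → N => S.pt (fun i => v (ia i)) (fun j i => v (is (j, i))) (v ix) = ν) := by
  refine (Dfn.finiteAll (I := J → Prop) fun η => (dfn_mem_pt S η ia is ix).iff (Dfn.const (η ∈ ν))).of_iff
    fun v => ?_
  exact Set.ext_iff.symm

theorem dfn_pt_eq_pt {J : Type} [Finite J] (S : Sys L N (α ⊕ Unit) p k) {γ : Type}
    (ia : α → γ) (is : J × Fin p → γ) (ix iy : γ) :
    Dfn L (fun v : γ → N => S.pt (fun i => v (ia i)) (fun j i => v (is (j, i))) (v ix) =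
      S.pt (fun i => v (ia i)) (fun j i => v (is (j, i))) (v iy)) := by
  refine (Dfn.finiteAll (I := J → Prop) fun η =>
    (dfn_mem_pt S η ia is ix).iff (dfn_mem_pt S η ia is iy)).of_iff fun v => ?_
  exact Set.ext_iff.symm

/-- the sets `{x | pt a s x = ν}` form a definable family -/
theorem exists_theta [Nonempty N] [Finite α] {J : Type} [Finite J] (S : Sys L N (α ⊕ Unit) p k)
    (ν : Set (J → Prop)) :
    ∃ θ : Fm L, ∀ (a : α → N) (s : J → Fin p → N), ∃ v : ℕ → N, ∀ x, x ∈ fib θ v ↔ S.pt a s x = ν := by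
  classical
  obtain ⟨e, he⟩ := exists_injective_nat (α ⊕ (J × Fin p))
  obtain ⟨θ, hθ⟩ := dfn_pt_eq S ν (γ := Unit ⊕ ℕ) (fun i => Sum.inr (e (Sum.inl i)))
    (fun q => Sum.inr (e (Sum.inr q))) (Sum.inl ())
  refine ⟨θ, fun a s => ⟨Function.extend e (Sum.elim a (fun q => s q.1 q.2)) (fun _ => Classical.arbitrary N),
    fun x => ?_⟩⟩
  rw [mem_fib, hθ]
  have e1 : ∀ k, Function.extend e (Sum.elim a (fun q => s q.1 q.2)) (fun _ => Classical.arbitrary N) (e k) =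
      Sum.elim a (fun q => s q.1 q.2) k := fun k => he.extend_apply _ _ _
  simp only [Sum.elim_inr, Sum.elim_inl, e1]

/-- uniform representation of the pattern function by instances -/
theorem exists_rep_pt [Nonempty N] {V : VC L N} (Λ : Levels L N) [Finite α] {J : Type} [Finite J]
    (S : Sys L N (α ⊕ Unit) p k) :
    ∃ (K : ℕ) (Δ : Finset (Fm L)), ↑Δ ⊆ V.Ψ ∧ ∀ (a : α → N) (s : J → Fin p → N), ∃ E : Set (Set N), E.Finite ∧
      E.ncard ≤ K ∧ (∀ D ∈ E, D.Nonempty ∧ ∃ δ ∈ Δ, ∃ u : ℕ → N, D = fib δ u) ∧ AtomConst E (S.pt a s) := by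
  classical
  have h1 : ∀ ν : Set (J → Prop), ∃ (K : ℕ) (Δ : Finset (Fm L)), ↑Δ ⊆ V.Ψ ∧ ∀ (a : α → N) (s : J → Fin p → N),
      ∃ E : Set (Set N), E.Finite ∧ E.ncard ≤ K ∧ (∀ D ∈ E, ∃ δ ∈ Δ, ∃ u : ℕ → N, D = fib δ u) ∧
      ∀ x y, (∀ D ∈ E, (x ∈ D ↔ y ∈ D)) → (S.pt a s x = ν ↔ S.pt a s y = ν) := by
    intro ν
    obtain ⟨θ, hθ⟩ := exists_theta (J := J) S ν
    obtain ⟨K, Δ, h1, h2⟩ := VC.uniform_rep (V := V) Λ θ
    refine ⟨K, Δ, h1, fun a s => ?_⟩
    obtain ⟨v, hv⟩ := hθ a s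
    obtain ⟨E, e1, e2, e3, e4⟩ := h2 v
    refine ⟨E, e1, e2, e3, fun x y hxy => ?_⟩
    rw [← hv, ← hv]
    exact e4 x y hxy
  choose K Δ h2 h3 using h1
  have : Fintype (Set (J → Prop)) := Fintype.ofFinite _
  refine ⟨∑ ν, K ν, Finset.univ.biUnion Δ, ?_, fun a s => ?_⟩
  · intro δ hδ
    rw [Finset.mem_coe, Finset.mem_biUnion] at hδ
    obtain ⟨ν, -, hδ⟩ := hδ
    exact h2 ν hδ
  · choose E e1 e2 e3 e4 using fun ν => h3 ν a s
    have hfin : (⋃ ν, E ν).Finite := Set.finite_iUnion e1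
    refine ⟨{D | D ∈ ⋃ ν, E ν ∧ D.Nonempty}, hfin.subset fun D hD => hD.1, ?_, ?_, ?_⟩
    · calc ({D | D ∈ ⋃ ν, E ν ∧ D.Nonempty}).ncard ≤ (⋃ ν, E ν).ncard :=
            Set.ncard_le_ncard (fun D hD => hD.1) hfin
        _ ≤ ∑ ν, (E ν).ncard := by
            have := Finset.set_ncard_biUnion_le (Finset.univ : Finset (Set (J → Prop))) E
            simpa using this
        _ ≤ ∑ ν, K ν := Finset.sum_le_sum fun ν _ => e2 ν
    · rintro D ⟨hD, hne⟩
      obtain ⟨ν, hν⟩ := Set.mem_iUnion.1 hD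
      obtain ⟨δ, hδ, u, hu⟩ := e3 ν D hν
      exact ⟨hne, δ, Finset.mem_biUnion.2 ⟨ν, Finset.mem_univ _, hδ⟩, u, hu⟩
    · intro x y hxy
      have h5 := e4 (S.pt a s y) x y (fun D hD => by
        by_cases hne : D.Nonempty
        · exact hxy D ⟨Set.mem_iUnion.2 ⟨_, hD⟩, hne⟩
        · rw [Set.not_nonempty_iff_eq_empty] at hne
          subst hne
          exact Iff.rfl)
      exact h5.2 rfl

end Pool.Agent.VCM
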