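import Pool.Agent.VCM.S5A

/-! S15495, section 5: few coordinates suffice. -/

open FirstOrder FirstOrder.Language
open scoped Pointwise

namespace Pool.Agent.VCM

variable {L : FirstOrder.Language.{0, 0}} {N : Type} [L.Structure N]
variable {α : Type} {p k : ℕ} {V : VC L N} {S : Sys L N (α ⊕ Unit) p k} {a : α → N}
variable {J J' J'' : Type} {z : J → Fin p → N} {y : J' → Fin p → N} {v : J'' → Fin p → N} {W : Set N}

theorem exists_sep {J : Type} [Nonempty J] : ∀ (n : ℕ) (ν : Set (J → Prop)), ν.Finite → ν.ncard ≤ n + 1 →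
    ∃ f : Fin n → J, Set.InjOn (fun (η : J → Prop) j => η (f j)) ν := by
  classical
  intro n
  induction n with
  | zero =>
    intro ν hf hν
    refine ⟨Fin.elim0, ?_⟩
    have := (Set.ncard_le_one hf).1 (by simpa using hν)
    intro x hx y hy _
    exact this x hx y hy
  | succ n ih =>
    intro ν hf hν
    by_cases hne : ν.Nonempty
    · obtain ⟨η₀, hη₀⟩ := hne
      have hcard : (ν \ {η₀}).ncard ≤ n + 1 := by
        have := Set.ncard_diff_singleton_add_one hη₀ hf
        omega
      obtain ⟨f', hf'⟩ := ih (ν \ {η₀}) (hf.subset Set.diff_subset) hcard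
      by_cases hex : ∃ η₁ ∈ ν \ {η₀}, (fun j => η₁ (f' j)) = fun j => η₀ (f' j)
      · obtain ⟨η₁, hη₁, he⟩ := hex
        have hne : η₁ ≠ η₀ := fun h => hη₁.2 h
        obtain ⟨j, hj⟩ : ∃ j, η₁ j ≠ η₀ j := Function.ne_iff.1 hne
        refine ⟨Fin.snoc (α := fun _ => J) f' j, ?_⟩
        have key : ∀ x ∈ ν, ∀ y ∈ ν, x = η₀ → y ≠ η₀ →
            (fun i => x (Fin.snoc (α := fun _ => J) f' j i)) = (fun i => y (Fin.snoc (α := fun _ => J) f' j i)) → False := by
          intro x hx y hy hx0 hy0 hxy
          subst hx0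
          have h1 : (fun i => y (f' i)) = fun i => η₁ (f' i) := by
            rw [he]
            funext i
            have := congrFun hxy (Fin.castSucc i)
            simp only [Fin.snoc_castSucc] at this
            exact this.symm
          have h2 : y = η₁ := hf' ⟨hy, hy0⟩ hη₁ h1
          have h3 := congrFun hxy (Fin.last n)
          simp only [Fin.snoc_last] at h3
          rw [h2] at h3
          exact hj h3.symm
        intro x hx y hy hxy
        by_cases hx0 : x = η₀
        · by_cases hy0 : y = η₀
          · rw [hx0, hy0]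
          · exact (key x hx y hy hx0 hy0 hxy).elim
        · by_cases hy0 : y = η₀
          · exact (key y hy x hx hy0 hx0 hxy.symm).elim
          · refine hf' ⟨hx, hx0⟩ ⟨hy, hy0⟩ ?_
            funext i
            have := congrFun hxy (Fin.castSucc i)
            simpa only [Fin.snoc_castSucc] using this
      · refine ⟨Fin.snoc (α := fun _ => J) f' (Classical.arbitrary J), ?_⟩
        intro x hx y hy hxy
        have h1 : (fun i => x (f' i)) = fun i => y (f' i) := by
          funext i
          have := congrFun hxy (Fin.castSucc i)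
          simpa only [Fin.snoc_castSucc] using this
        by_cases hx0 : x = η₀
        · by_cases hy0 : y = η₀
          · rw [hx0, hy0]
          · exact (hex ⟨y, ⟨hy, hy0⟩, by rw [← h1, hx0]⟩).elim
        · by_cases hy0 : y = η₀
          · exact (hex ⟨x, ⟨hx, hx0⟩, by rw [h1, hy0]⟩).elim
          · exact hf' ⟨hx, hx0⟩ ⟨hy, hy0⟩ h1
    · rw [Set.not_nonempty_iff_eq_empty] at hne
      exact ⟨fun _ => Classical.arbitrary J, by rw [hne]; exact Set.injOn_empty _⟩

/-- a subtuple of length `k+1` carries the value -/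
theorem Val.exists_sub [(V.nearF W).NeBot] [Nonempty J] {ν : Set (J → Prop)} (hν : Val V S a z W ν) :
    ∃ (f : Fin (k + 1) → J) (μ : Set (Fin (k + 1) → Prop)), Val V S a (fun j => z (f j)) W μ ∧ μ.ncard = ν.ncard ∧
      Fac V S a (fun j => z (f j)) z W := by
  obtain ⟨f, hf⟩ := exists_sep (k + 1) ν hν.finite (by have := hν.card_le; omega)
  have h1 := hν.comp f
  have hc : ((fun (η : J → Prop) j => η (f j)) '' ν).ncard = ν.ncard := Set.ncard_image_of_injOn hf
  refine ⟨f, _, h1, hc, ?_⟩
  have h2 : Val V S a (Sum.elim (fun j => z (f j)) z) W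
      ((fun (η : J → Prop) (i : Fin (k+1) ⊕ J) => η (Sum.elim f id i)) '' ν) := by
    have := hν.comp (Sum.elim f (id : J → J))
    convert this using 1
    funext i
    rcases i with i | i <;> rfl
  refine Fac.of_card h1 h2 ?_
  rw [hc]
  exact Set.ncard_image_le hν.finite

end Pool.Agent.VCM
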