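import Pool.Agent.VCM.S5B
import Pool.Agent.VCM.BC

/-! S15495, section 5: equivariance, near values of good tuples. -/

open FirstOrder FirstOrder.Language
open scoped Pointwise

namespace Pool.Agent.VCM

variable {L : FirstOrder.Language.{0, 0}} {N : Type} [L.Structure N]
variable {α : Type} {p k : ℕ} {V : VC L N} {S : Sys L N (α ⊕ Unit) p k} {a : α → N}
variable {J J' J'' : Type}

/-- definability of patterns for any finite index type -/
theorem Sys.dfnJC {γ : Type} (S : Sys L N γ p k) [Finite J] (η : J → Prop) :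
    Dfn L (fun v : γ ⊕ (J × Fin p) → N =>
      ∃ w ∈ S.T (fun i => v (Sum.inl i)), ∀ j, ((fun i => v (Sum.inr (j, i))) ∈ w ↔ η j)) := by
  obtain ⟨n, ⟨e⟩⟩ := Finite.exists_equiv_fin J
  have h := S.dfn n (fun i => η (e.symm i))
  refine (h.comp (fun q : γ ⊕ (Fin n × Fin p) => Sum.elim Sum.inl (fun r : Fin n × Fin p => Sum.inr (e.symm r.1, r.2)) q)
    (fun v q => Sum.elim (fun i => v (Sum.inl i)) (fun r : Fin n × Fin p => v (Sum.inr (e.symm r.1, r.2))) q) ?_).of_iff ?_
  · intro v q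
    rcases q with q | q <;> rfl
  · intro v
    constructor
    · rintro ⟨w, hw, h⟩
      refine ⟨w, hw, fun j => ?_⟩
      have := h (e j)
      simpa using this
    · rintro ⟨w, hw, h⟩
      refine ⟨w, hw, fun j => ?_⟩
      have := h (e.symm j)
      simpa using this

/-- the tuple `(a,x,s)` -/
def tupx (a : α → N) (x : N) (s : J → Fin p → N) : (α ⊕ Unit) ⊕ (J × Fin p) → N :=
  Sum.elim (ext a x) (fun q => s q.1 q.2)

theorem Sys.mem_pt_iff (S : Sys L N (α ⊕ Unit) p k) (a : α → N) (s : J → Fin p → N) (x : N) (η : J → Prop) :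
    η ∈ S.pt a s x ↔ (fun v : (α ⊕ Unit) ⊕ (J × Fin p) → N =>
      ∃ w ∈ S.T (fun i => v (Sum.inl i)), ∀ j, ((fun i => v (Sum.inr (j, i))) ∈ w ↔ η j)) (tupx a x s) := by
  rw [Sys.mem_pt]
  constructor
  · rintro ⟨w, hw, rfl⟩
    exact ⟨w, hw, fun j => Iff.rfl⟩
  · rintro ⟨w, hw, h⟩
    exact ⟨w, hw, funext fun j => propext (h j)⟩

/-- equivariance -/
theorem Sys.pt_smul [Finite J] (S : Sys L N (α ⊕ Unit) p k) {a : α → N} (s : J → Fin p → N) (x : N) {g : AutG L N}
    (hg : g ∈ GA L (Set.range a)) : S.pt a (g • s) (g • x) = S.pt a s x := by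
  ext η
  rw [Sys.mem_pt_iff, Sys.mem_pt_iff]
  have e : tupx a (g • x) (g • s) = fun q => (g : N → N) (tupx a x s q) := by
    funext q
    rcases q with (q | q) | q
    · show a q = g • a q
      rw [mem_GA] at hg
      exact (hg _ ⟨q, rfl⟩).symm
    · rfl
    · rfl
  rw [e]
  exact AutG.dfn g (S.dfnJC η) (tupx a x s)

theorem isDef_of_dfn [Nonempty N] {κ : Type} [Countable κ] {R : (κ ⊕ Unit → N) → Prop} (h : Dfn L R) (c : κ → N) :
    IsDef L {x : N | R (Sum.elim c (fun _ => x))} := by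
  classical
  obtain ⟨φ, hφ⟩ := h
  obtain ⟨e, he⟩ := exists_injective_nat κ
  refine ⟨φ.relabel (Sum.elim (fun i => Sum.inr (e i)) (fun _ => Sum.inl ())),
    fun n => if h : ∃ i, e i = n then c h.choose else Classical.arbitrary N, ?_⟩
  ext x
  rw [mem_fib, Formula.realize_relabel, Set.mem_ofPred_eq, ← hφ]
  apply iff_of_eq
  congr 1
  funext q
  rcases q with q | q
  · show c q = _
    simp only [Function.comp_apply, Sum.elim_inl, Sum.elim_inr]
    have hex : ∃ i, e i = e q := ⟨q, rfl⟩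
    rw [dif_pos hex, he hex.choose_spec]
  · rfl

theorem supp_finite [Finite α] [Finite J] (a : α → N) (s : J → Fin p → N) : (supp a s).Finite := by
  refine (Set.finite_range a).union ?_
  have : {y | ∃ j i, y = s j i} = Set.range (fun q : J × Fin p => s q.1 q.2) := by
    ext y
    constructor
    · rintro ⟨j, i, rfl⟩; exact ⟨(j, i), rfl⟩
    · rintro ⟨q, rfl⟩; exact ⟨q.1, q.2, rfl⟩
  rw [this]
  exact Set.finite_range _

theorem isDef_pt [Nonempty N] [Finite α] [Finite J] (S : Sys L N (α ⊕ Unit) p k) (a : α → N) (s : J → Fin p → N)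
    (η : J → Prop) : IsDef L {x : N | η ∈ S.pt a s x} := by
  have h : Dfn L (fun v : (α ⊕ (J × Fin p)) ⊕ Unit → N =>
      ∃ w ∈ S.T (fun i => Sum.elim (fun i => v (Sum.inl (Sum.inl i))) (fun _ => v (Sum.inr ())) i),
        ∀ j, ((fun i => v (Sum.inl (Sum.inr (j, i)))) ∈ w ↔ η j)) := by
    refine ((S.dfnJC η).comp (fun q : (α ⊕ Unit) ⊕ (J × Fin p) =>
      Sum.elim (Sum.elim (fun i => Sum.inl (Sum.inl i)) (fun _ => Sum.inr ())) (fun r => Sum.inl (Sum.inr r)) q)
      (fun v q => Sum.elim (Sum.elim (fun i => v (Sum.inl (Sum.inl i))) (fun _ => v (Sum.inr ())))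
        (fun r => v (Sum.inl (Sum.inr r))) q) ?_)
    intro v q
    rcases q with (q | q) | q <;> rfl
  have h2 := isDef_of_dfn h (Sum.elim a (fun q : J × Fin p => s q.1 q.2))
  convert h2 using 1
  ext x
  rw [Set.mem_ofPred_eq, Set.mem_ofPred_eq, Sys.mem_pt_iff]
  rfl

theorem inv_pt [Finite J] (S : Sys L N (α ⊕ Unit) p k) (a : α → N) (s : J → Fin p → N)
    (η : J → Prop) {g : AutG L N} (hg : g ∈ V.Fix (supp a s)) : g • {x : N | η ∈ S.pt a s x} = {x : N | η ∈ S.pt a s x} := by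
  have hg1 := mem_GA.1 (VC.Fix_le_GA _ hg)
  have ha : g ∈ GA L (Set.range a) := mem_GA.2 fun x hx => hg1 x (Or.inl hx)
  have hs : g • s = s := by
    funext j i
    exact hg1 _ (Or.inr ⟨j, i, rfl⟩)
  ext x
  rw [Set.mem_smul_set_iff_inv_smul_mem, Set.mem_ofPred_eq, Set.mem_ofPred_eq]
  have := S.pt_smul s (g⁻¹ • x) ha
  rw [hs, smul_inv_smul] at this
  rw [this]

/-- near values of good tuples exist -/
theorem near_const [Nonempty N] (Λ : Levels L N) [Finite α] [Finite J] (S : Sys L N (α ⊕ Unit) p k) (a : α → N)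
    (s : J → Fin p → N) {W : Set N} (hW : V.Ball W) (h : W ∉ V.acl (supp a s)) : ∃ ν, Val V S a s W ν := by
  classical
  have h1 : ∀ η : J → Prop, (∀ᶠ x in V.nearF W, η ∈ S.pt a s x) ∨ (∀ᶠ x in V.nearF W, η ∉ S.pt a s x) := fun η =>
    VC.BC_near Λ (supp_finite a s) (isDef_pt S a s η) (fun g hg => inv_pt S a s η hg) hW h
  refine ⟨{η | ∀ᶠ x in V.nearF W, η ∈ S.pt a s x}, ?_⟩
  have h2 : ∀ η : J → Prop, ∀ᶠ x in V.nearF W, (η ∈ S.pt a s x ↔ ∀ᶠ x in V.nearF W, η ∈ S.pt a s x) := by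
    intro η
    by_cases h3 : ∀ᶠ x in V.nearF W, η ∈ S.pt a s x
    · filter_upwards [h3] with x hx
      exact ⟨fun _ => h3, fun _ => hx⟩
    · rcases h1 η with h4 | h4
      · exact absurd h4 h3
      · filter_upwards [h4] with x hx
        exact ⟨fun h => absurd h hx, fun h => absurd h h3⟩
  have h3 := Filter.eventually_all.2 h2
  unfold Val
  filter_upwards [h3] with x hx
  ext η
  exact hx η

/-- near values are constant on cells -/
theorem val_cell [Nonempty N] (Λ : Levels L N) [Finite α] [Finite J] (S : Sys L N (α ⊕ Unit) p k) (a : α → N)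
    (s : J → Fin p → N) {W W' : Set N} (hW : V.Ball W) (h : W ∉ V.acl (supp a s)) (hW' : V.Ball W')
    (h' : W' ∉ V.acl (supp a s)) (hc : ∀ Q ∈ V.acl (supp a s), (W ⊂ Q ↔ W' ⊂ Q)) {ν : Set (J → Prop)}
    (hν : Val V S a s W ν) : Val V S a s W' ν := by
  have h1 : ∀ η ∈ ν, ∀ᶠ x in V.nearF W', η ∈ S.pt a s x := by
    intro η hη
    refine VC.BC_cell Λ (supp_finite a s) (isDef_pt S a s η) (fun g hg => inv_pt S a s η hg) hW h hW' h' hc ?_
    filter_upwards [hν] with x hx
    rw [hx]; exact hη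
  have h2 : ∀ η ∉ ν, ∀ᶠ x in V.nearF W', η ∉ S.pt a s x := by
    intro η hη
    have hd : IsDef L {x : N | η ∉ S.pt a s x} := by
      obtain ⟨θ, w, hw⟩ := isDef_pt S a s η
      refine ⟨θ.not, w, ?_⟩
      ext x
      rw [mem_fib, Formula.realize_not, ← mem_fib, ← hw]
      rfl
    refine VC.BC_cell Λ (supp_finite a s) hd (fun g hg => ?_) hW h hW' h' hc ?_
    · have := inv_pt S a s η hg
      have h3 : {x : N | η ∉ S.pt a s x} = {x : N | η ∈ S.pt a s x}ᶜ := rfl
      rw [h3, Set.smul_set_compl, this]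
    · filter_upwards [hν] with x hx
      rw [hx]; exact hη
  have h3 : ∀ η : J → Prop, ∀ᶠ x in V.nearF W', (η ∈ S.pt a s x ↔ η ∈ ν) := by
    intro η
    by_cases hη : η ∈ ν
    · filter_upwards [h1 η hη] with x hx
      exact ⟨fun _ => hη, fun _ => hx⟩
    · filter_upwards [h2 η hη] with x hx
      exact ⟨fun h => absurd h hx, fun h => absurd h hη⟩
  have h4 := Filter.eventually_all.2 h3
  unfold Val
  filter_upwards [h4] with x hx
  ext η
  exact hx η

theorem Val.smul [Finite J] {s : J → Fin p → N} {W : Set N} {ν : Set (J → Prop)} (h : Val V S a s W ν) {g : AutG L N}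
    (hg : g ∈ GA L (Set.range a)) : Val V S a (g • s) (g • W) ν := by
  have h1 := VC.nearF_smul g h
  refine Filter.mem_of_superset h1 ?_
  rintro _ ⟨x, hx, rfl⟩
  show S.pt a (g • s) (g • x) = ν
  rw [S.pt_smul s x hg]; exact hx

end Pool.Agent.VCM
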