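import Pool.Agent.VCM.S5Aux

/-! S15495, section 5, module S5CV: the values near a ball are closed under limits. -/

open FirstOrder FirstOrder.Language
open scoped Pointwise

namespace Pool.Agent.VCM

variable {L : FirstOrder.Language.{0, 0}} {N : Type} [L.Structure N]
variable {α : Type} {p k : ℕ}

/-- the instances `fib (l j) (u j)` witness the value `ν` near `fib δ w` -/
def Wit (S : Sys L N (α ⊕ Unit) p k) {J : Type} (ν : Set (J → Prop)) (δ : Fm L) {m : ℕ} (l : Fin m → Fm L)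
    (a : α → N) (w : ℕ → N) (s : J → Fin p → N) (u : Fin m → ℕ → N) : Prop :=
  ∀ x, (∀ j, (x ∈ fib (l j) (u j) ↔ fib δ w ⊆ fib (l j) (u j))) → S.pt a s x = ν

theorem dfn_Wit [Nonempty N] {J : Type} [Finite J] (S : Sys L N (α ⊕ Unit) p k) (ν : Set (J → Prop)) (δ : Fm L)
    {m : ℕ} (l : Fin m → Fm L) {γ : Type} (ia : α → γ) (iw : ℕ → γ) (is : J × Fin p → γ) (iu : Fin m → ℕ → γ) :
    Dfn L (fun v : γ → N => Wit S ν δ l (fun i => v (ia i)) (fun i => v (iw i)) (fun j i => v (is (j, i)))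
      (fun j i => v (iu j i))) := by
  refine Dfn.all1 (R := fun (v : γ → N) x => (∀ j, (x ∈ fib (l j) (fun i => v (iu j i)) ↔
    fib δ (fun i => v (iw i)) ⊆ fib (l j) (fun i => v (iu j i)))) →
      S.pt (fun i => v (ia i)) (fun j i => v (is (j, i))) x = ν) ?_
  refine Dfn.imp (Dfn.finiteAll fun j => Dfn.iff ?_ ?_) ?_
  · exact dfn_mem _ (Sum.inr ()) (fun i => Sum.inl (iu j i)) _ _ (fun v => rfl) (fun v i => rfl)
  · exact Dfn.comp (dfn_subset δ (l j)) (Sum.elim (fun i => Sum.inl (iw i)) (fun i => Sum.inl (iu j i)))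
      (fun v => Sum.elim (fun i => v (Sum.inl (iw i))) (fun i => v (Sum.inl (iu j i))))
      (by intro v b; rcases b with b | b <;> rfl)
  · exact dfn_pt_eq S ν (γ := γ ⊕ Unit) (fun i => Sum.inl (ia i)) (fun q => Sum.inl (is q)) (Sum.inr ())

theorem Wit.val {V : VC L N} {S : Sys L N (α ⊕ Unit) p k} {J : Type} {ν : Set (J → Prop)} {δ : Fm L} {m : ℕ}
    {l : Fin m → Fm L} {a : α → N} {w : ℕ → N} {s : J → Fin p → N} {u : Fin m → ℕ → N}
    (h : Wit S ν δ l a w s u) (hl : ∀ j, l j ∈ V.Ψ) (hne : ∀ j, (fib (l j) (u j)).Nonempty)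
    (hcl : ∀ j, ¬ V.cl (fib δ w) (fib (l j) (u j))) : Val V S a s (fib δ w) ν := by
  refine ⟨Set.range (fun j => fib (l j) (u j)), Set.finite_range _, ?_, ?_⟩
  · rintro D ⟨j, rfl⟩
    exact ⟨VC.ball_of_psi (hl j) (hne j), hcl j⟩
  · intro x hx
    exact h x fun j => hx _ ⟨j, rfl⟩

theorem Val.wit [Nonempty N] {V : VC L N} {S : Sys L N (α ⊕ Unit) p k} {J : Type} {ν : Set (J → Prop)} {δ : Fm L}
    {a : α → N} {w : ℕ → N} {s : J → Fin p → N} (hv : Val V S a s (fib δ w) ν) (hb : V.Ball (fib δ w))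
    {K : ℕ} {Δ : Finset (Fm L)} (hΔ : ↑Δ ⊆ V.Ψ) {E : Set (Set N)} (hE : E.Finite) (hK : E.ncard ≤ K)
    (hED : ∀ D ∈ E, D.Nonempty ∧ ∃ δ ∈ Δ, ∃ u : ℕ → N, D = fib δ u) (hEc : AtomConst E (S.pt a s)) :
    ∃ (m : Fin (K + 1)) (l : Fin m → Δ) (u : Fin m → ℕ → N), (∀ j, (fib (l j : Fm L) (u j)).Nonempty) ∧
      (∀ j, ¬ V.cl (fib δ w) (fib (l j : Fm L) (u j))) ∧ Wit S ν δ (fun j => (l j : Fm L)) a w s u := by
  classical
  have hEb : ∀ D ∈ E, V.Ball D := by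
    intro D hD
    obtain ⟨hne, δ', hδ', u, rfl⟩ := hED D hD
    exact VC.ball_of_psi (hΔ hδ') hne
  have hd := VC.dropping' hE hEb hEc hb hv
  obtain ⟨E', hE'⟩ : ∃ E' : Set (Set N), E' = {D | D ∈ E ∧ ¬ V.cl (fib δ w) D} := ⟨_, rfl⟩
  rw [← hE'] at hd
  have hsub : E' ⊆ E := fun D hD => by rw [hE'] at hD; exact hD.1
  have hcl' : ∀ D ∈ E', ¬ V.cl (fib δ w) D := fun D hD => by rw [hE'] at hD; exact hD.2
  have hfin' : E'.Finite := hE.subset hsub
  have hcard : E'.ncard ≤ K := (Set.ncard_le_ncard hsub hE).trans hK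
  -- enumeration
  have : Finite E' := hfin'
  have e : Fin E'.ncard ≃ E' := (Finite.equivFinOfCardEq (Nat.card_coe_set_eq E')).symm
  have hch : ∀ j : Fin E'.ncard, ∃ (d : Δ) (u : ℕ → N), (e j : Set N) = fib (d : Fm L) u := by
    intro j
    obtain ⟨-, δ', hδ', u, hu⟩ := hED _ (hsub (e j).2)
    exact ⟨⟨δ', hδ'⟩, u, hu⟩
  choose l u hlu using hch
  refine ⟨⟨E'.ncard, Nat.lt_succ_of_le hcard⟩, l, u, fun j => ?_, fun j => ?_, ?_⟩
  · rw [← hlu]; exact (hED _ (hsub (e j).2)).1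
  · rw [← hlu]; exact hcl' _ (e j).2
  · intro x hx
    have hx' : ∀ D ∈ E', (x ∈ D ↔ fib δ w ⊆ D) := by
      intro D hD
      have := hx (e.symm ⟨D, hD⟩)
      rw [← hlu, e.apply_symm_apply] at this
      exact this
    have hmem : {x | ∀ D ∈ E', (x ∈ D ↔ fib δ w ⊆ D)} ∈ V.nearF (fib δ w) :=
      ⟨E', hfin', fun D hD => ⟨hEb D (hsub hD), hcl' D hD⟩, subset_rfl⟩
    have := VC.nearF_neBot (V := V) hb
    obtain ⟨x₀, h1, h2⟩ := (hv.and (Filter.eventually_of_mem hmem (fun _ h => h))).exists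
    rw [← h1]
    exact hd x x₀ fun D hD => (hx' D hD).trans (h2 D hD).symm

/-- only finitely many entries of the parameter tuple matter -/
theorem exists_sigma (δ : Fm L) : ∃ (σ : ℕ → ℕ), (Set.range σ).Finite ∧ ∀ w : ℕ → N, fib δ (w ∘ σ) = fib δ w := by
  classical
  obtain ⟨F, ψ, hψ⟩ := fin_supp δ
  let F' : Finset ℕ := F.preimage Sum.inr Sum.inr_injective.injOn
  refine ⟨fun i => if i ∈ F' then i else 0, ?_, fun w => ?_⟩
  · apply (F'.finite_toSet.insert 0).subset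
    rintro _ ⟨i, rfl⟩
    beta_reduce
    split_ifs with h
    · exact Or.inr h
    · exact Or.inl rfl
  · ext x
    rw [mem_fib, mem_fib, hψ, hψ]
    apply iff_of_eq
    congr 1
    funext b
    rcases b with ⟨b | i, hb⟩
    · rfl
    · have hi : i ∈ F' := by simpa [F'] using hb
      show w (if i ∈ F' then i else 0) = w i
      rw [if_pos hi]

/-- a finite choice along an ultrafilter -/
theorem exists_eventually {I C : Type} [Finite C] (U : Ultrafilter I) {P : I → C → Prop}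
    (h : ∀ᶠ i in (U : Filter I), ∃ c, P i c) : ∃ c, ∀ᶠ i in (U : Filter I), P i c := by
  by_contra hcon
  push Not at hcon
  have h2 : ∀ c, ∀ᶠ i in (U : Filter I), ¬ P i c := hcon
  rw [← Filter.eventually_all] at h2
  obtain ⟨i, ⟨c, hc⟩, hi⟩ := (h.and h2).exists
  exact hi c hc

/-- module S5CV: the values near a ball are closed under limits. -/
theorem Val_closed [Nonempty N] {V : VC L N} (Λ : Levels L N) [Finite α] {J : Type} [Finite J]
    (S : Sys L N (α ⊕ Unit) p k) (a : α → N) {I : Type} (U : Ultrafilter I) {δ : Fm L}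
    (w : I → ℕ → N) (s : I → J → Fin p → N) (w' : ℕ → N) (s' : J → Fin p → N) (ν : Set (J → Prop))
    (hlim : ∀ R : ((α ⊕ ℕ) ⊕ (J × Fin p) → N) → Prop, Dfn L R →
        (R (tup3 a w' s') ↔ ∀ᶠ i in (U : Filter I), R (tup3 a (w i) (s i))))
    (hb : ∀ᶠ i in (U : Filter I), V.Ball (fib δ (w i))) (hb' : V.Ball (fib δ w'))
    (hv : ∀ᶠ i in (U : Filter I), Val V S a (s i) (fib δ (w i)) ν) :
    Val V S a s' (fib δ w') ν := by
  classical
  obtain ⟨K, Δ, hΔ, hrep⟩ := exists_rep_pt (V := V) (J := J) Λ S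
  obtain ⟨σ, hσ1, hσ2⟩ := exists_sigma (N := N) δ
  -- the witnesses
  have h1 : ∀ᶠ i in (U : Filter I), ∃ c : (Σ m : Fin (K + 1), (Fin m → Δ)), ∃ u : Fin c.1 → ℕ → N,
      (∀ j, (fib (c.2 j : Fm L) (u j)).Nonempty) ∧
      (∀ j, ¬ V.cl (fib δ (w i ∘ σ)) (fib (c.2 j : Fm L) (u j))) ∧
        Wit S ν δ (fun j => (c.2 j : Fm L)) a (w i ∘ σ) (s i) u := by
    filter_upwards [hb, hv] with i hbi hvi
    obtain ⟨E, e1, e2, e3, e4⟩ := hrep a (s i)
    rw [← hσ2] at hbi hvi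
    obtain ⟨m, l, u, g1, g2, g3⟩ := hvi.wit hbi hΔ e1 e2 e3 e4
    exact ⟨⟨m, l⟩, u, g1, g2, g3⟩
  obtain ⟨⟨m, l⟩, h2⟩ := exists_eventually U h1
  dsimp only at h2
  have h3 : ∃ u : I → Fin m → ℕ → N, ∀ᶠ i in (U : Filter I), (∀ j, (fib (l j : Fm L) (u i j)).Nonempty) ∧
      (∀ j, ¬ V.cl (fib δ (w i ∘ σ)) (fib (l j : Fm L) (u i j))) ∧
        Wit S ν δ (fun j => (l j : Fm L)) a (w i ∘ σ) (s i) (u i) := by
    refine ⟨fun i => if h : ∃ u : Fin m → ℕ → N, (∀ j, (fib (l j : Fm L) (u j)).Nonempty) ∧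
      (∀ j, ¬ V.cl (fib δ (w i ∘ σ)) (fib (l j : Fm L) (u j))) ∧
        Wit S ν δ (fun j => (l j : Fm L)) a (w i ∘ σ) (s i) u then h.choose else fun _ _ => Classical.arbitrary N, ?_⟩
    filter_upwards [h2] with i hi
    rw [dif_pos hi]
    exact hi.choose_spec
  obtain ⟨u, hu⟩ := h3
  -- levels
  obtain ⟨n₁, hn₁⟩ := Λ.finite_level a
  obtain ⟨n₂, hn₂⟩ := Λ.finite_level (fun q : J × Fin p => s' q.1 q.2)
  have : Finite (Set.range σ) := hσ1
  obtain ⟨n₃, hn₃⟩ := Λ.finite_level (fun i : Set.range σ => w' i)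
  -- the limit tuple
  obtain ⟨e, he⟩ := exists_injective_nat ((ℕ ⊕ (J × Fin p)) ⊕ (Fin m × ℕ))
  obtain ⟨r, hr1, hr2⟩ := Λ.lim_tuple (κ := (ℕ ⊕ (J × Fin p)) ⊕ (Fin m × ℕ)) U n₁ a hn₁
    (fun q => (⟨Λ.ne.some, Λ.mono (Nat.zero_le _) Λ.ne.some_mem⟩, e q)) (fun x y h => he (Prod.mk.inj h).2)
    (fun i => Sum.elim (Sum.elim (w i ∘ σ) (fun q => s i q.1 q.2)) (fun q => u i q.1 q.2))
  have htp : TpEq L (Sum.elim (Sum.elim a (fun i => r (Sum.inl (Sum.inl i)))) (fun q => r (Sum.inl (Sum.inr q))))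
      (tup3 a (w' ∘ σ) s') := by
    intro φ
    have g1 := hr2 (φ.relabel (Sum.elim (Sum.elim (fun i => Sum.inl i) (fun i => Sum.inr (Sum.inl (Sum.inl i))))
      (fun q => Sum.inr (Sum.inl (Sum.inr q)))))
    have g2 := hlim (fun v => φ.Realize (Sum.elim (Sum.elim (fun i => v (Sum.inl (Sum.inl i)))
      (fun i => v (Sum.inl (Sum.inr (σ i))))) (fun q => v (Sum.inr q))))
      (Dfn.real φ (Sum.elim (Sum.elim (fun i => Sum.inl (Sum.inl i)) (fun i => Sum.inl (Sum.inr (σ i))))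
        (fun q => Sum.inr q)) _ (by rintro v ((b | b) | b) <;> rfl))
    simp only [Formula.realize_relabel] at g1
    have e1 : (Sum.elim (Sum.elim a (fun i => r (Sum.inl (Sum.inl i)))) (fun q => r (Sum.inl (Sum.inr q)))) =
        (Sum.elim a r) ∘ (Sum.elim (Sum.elim (fun i => Sum.inl i) (fun i => Sum.inr (Sum.inl (Sum.inl i))))
      (fun q => Sum.inr (Sum.inl (Sum.inr q)))) := by
      funext b; rcases b with (b | b) | b <;> rfl
    rw [e1, g1]
    refine Iff.trans ?_ (g2.symm.trans ?_)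
    · apply iff_of_eq
      congr 1
      funext i
      congr 1
      funext b
      rcases b with (b | b) | b <;> rfl
    · apply iff_of_eq
      congr 1
  obtain ⟨n, hn1, hn2, hn3⟩ : ∃ n, n₁ + 1 ≤ n ∧ n₂ ≤ n ∧ n₃ ≤ n :=
    ⟨max (n₁ + 1) (max n₂ n₃), le_max_left _ _, (le_max_left _ _).trans (le_max_right _ _),
      (le_max_right _ _).trans (le_max_right _ _)⟩
  obtain ⟨g, hg⟩ := Λ.hom (n := n) _ _ (by
    rintro ((b | b) | b)
    · exact Λ.mono (by omega) (hn₁ b)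
    · exact Λ.mono (by omega) (hr1 _)
    · exact Λ.mono (by omega) (hr1 _)) (by
    rintro ((b | b) | b)
    · exact Λ.mono (by omega) (hn₁ b)
    · exact Λ.mono (by omega) (hn₃ ⟨σ b, b, rfl⟩)
    · exact Λ.mono (by omega) (hn₂ b)) htp
  -- transfer
  have key : ∀ R : (α ⊕ ((ℕ ⊕ (J × Fin p)) ⊕ (Fin m × ℕ)) → N) → Prop, Dfn L R →
      (R (Sum.elim a (Sum.elim (Sum.elim (w' ∘ σ) (fun q => s' q.1 q.2))
        (fun q => (g : Equiv.Perm N) (r (Sum.inr q))))) ↔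
        ∀ᶠ i in (U : Filter I), R (Sum.elim a (Sum.elim (Sum.elim (w i ∘ σ) (fun q => s i q.1 q.2))
          (fun q => u i q.1 q.2)))) := by
    intro R hR
    have g1 := AutG.dfn g hR (Sum.elim a r)
    have e1 : (fun i => (g : Equiv.Perm N) ((Sum.elim a r : α ⊕ _ → N) i)) =
        (Sum.elim a (Sum.elim (Sum.elim (w' ∘ σ) (fun q => s' q.1 q.2))
        (fun q => (g : Equiv.Perm N) (r (Sum.inr q))))) := by
      funext b
      rcases b with b | (b | b) | b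
      · exact hg (Sum.inl (Sum.inl b))
      · exact hg (Sum.inl (Sum.inr b))
      · exact hg (Sum.inr b)
      · rfl
    rw [e1] at g1
    rw [g1]
    obtain ⟨φ, hφ⟩ := hR
    rw [← hφ, hr2 φ]
    simp only [hφ]
  have hW : Wit S ν δ (fun j => (l j : Fm L)) a (w' ∘ σ) s' (fun j i => (g : Equiv.Perm N) (r (Sum.inr (j, i)))) := by
    have := (key _ (dfn_Wit S ν δ (fun j => (l j : Fm L)) (γ := α ⊕ ((ℕ ⊕ (J × Fin p)) ⊕ (Fin m × ℕ)))
      (fun i => Sum.inl i) (fun i => Sum.inr (Sum.inl (Sum.inl i))) (fun q => Sum.inr (Sum.inl (Sum.inr q)))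
      (fun j i => Sum.inr (Sum.inr (j, i))))).2 (by
        filter_upwards [hu] with i hi
        exact hi.2.2)
    exact this
  rw [← hσ2 w']
  refine hW.val (fun j => hΔ (l j).2) (fun j => ?_) (fun j => ?_)
  · have h4 : Dfn L (fun v : α ⊕ ((ℕ ⊕ (J × Fin p)) ⊕ (Fin m × ℕ)) → N =>
        (fib (l j : Fm L) (fun i => v (Sum.inr (Sum.inr (j, i))))).Nonempty) :=
      Dfn.comp (dfn_nonempty (l j : Fm L)) (fun i => Sum.inr (Sum.inr (j, i)))
        (fun v i => v (Sum.inr (Sum.inr (j, i)))) (fun v b => rfl)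
    exact (key _ h4).2 (by
      filter_upwards [hu] with i hi
      exact hi.1 j)
  · intro hcon
    obtain ⟨R, hR1, hR2, hR3⟩ := VC.cl_dfn (V := V) (by rw [hσ2]; exact hb') hcon
    have h4 : Dfn L (fun v : α ⊕ ((ℕ ⊕ (J × Fin p)) ⊕ (Fin m × ℕ)) → N =>
        R (fun i => v (Sum.inr (Sum.inl (Sum.inl i)))) (fun i => v (Sum.inr (Sum.inr (j, i))))) :=
      Dfn.comp hR1 (Sum.elim (fun i => Sum.inr (Sum.inl (Sum.inl i))) (fun i => Sum.inr (Sum.inr (j, i))))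
        (fun v => Sum.elim (fun i => v (Sum.inr (Sum.inl (Sum.inl i)))) (fun i => v (Sum.inr (Sum.inr (j, i)))))
        (by intro v b; rcases b with b | b <;> rfl)
    have h5 := (key _ h4).1 hR2
    obtain ⟨i, hi1, hi2⟩ := (hu.and h5).exists
    exact hi1.2.1 j (hR3 _ _ hi2)

end Pool.Agent.VCM
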