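import Pool.Agent.VCM.S5C
import Pool.Agent.VCM.Machine

/-! S15495, section 5: good tuples, the maximal number of classes, equivariance. -/

open FirstOrder FirstOrder.Language
open scoped Pointwise

namespace Pool.Agent.VCM

variable {L : FirstOrder.Language.{0, 0}} {N : Type} [L.Structure N]
variable {α : Type} {p k : ℕ} {V : VC L N} {S : Sys L N (α ⊕ Unit) p k} {a : α → N}
variable {J J' J'' : Type}

/-- the parameters of a tuple -/
def pts (s : J → Fin p → N) : Set N := {y | ∃ j i, y = s j i}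

theorem supp_eq (a : α → N) (s : J → Fin p → N) : supp a s = Set.range a ∪ pts s := rfl

theorem pts_finite [Finite J] (s : J → Fin p → N) : (pts s).Finite :=
  (supp_finite (fun i : Empty => i.elim) s).subset Set.subset_union_right

theorem pts_sum (s : J → Fin p → N) (s' : J' → Fin p → N) : pts (Sum.elim s s') = pts s ∪ pts s' := by
  ext y
  constructor
  · rintro ⟨j | j, i, rfl⟩
    · exact Or.inl ⟨j, i, rfl⟩
    · exact Or.inr ⟨j, i, rfl⟩
  · rintro (⟨j, i, rfl⟩ | ⟨j, i, rfl⟩)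
    · exact ⟨Sum.inl j, i, rfl⟩
    · exact ⟨Sum.inr j, i, rfl⟩

theorem pts_comp (f : J' → J) (s : J → Fin p → N) : pts (fun j => s (f j)) ⊆ pts s := by
  rintro y ⟨j, i, rfl⟩
  exact ⟨f j, i, rfl⟩

theorem pts_smul {G : Type} [Group G] [MulAction G N] (g : G) (s : J → Fin p → N) : pts (g • s) = g • pts s := by
  ext y
  constructor
  · rintro ⟨j, i, rfl⟩
    exact ⟨s j i, ⟨j, i, rfl⟩, rfl⟩
  · rintro ⟨_, ⟨j, i, rfl⟩, rfl⟩
    exact ⟨j, i, rfl⟩

theorem smul_eq_of_pts {G : Type} [Group G] [MulAction G N] (g : G) (s : J → Fin p → N)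
    (h : ∀ x ∈ pts s, g • x = x) : g • s = s := by
  funext j i
  exact h _ ⟨j, i, rfl⟩

/-- `s` is good for `W` -/
def Gd (V : VC L N) (a : α → N) (s : J → Fin p → N) (W : Set N) : Prop := V.Ball W ∧ W ∉ V.acl (supp a s)

/-- the value near `W` exists and has `m` elements -/
def Cd (V : VC L N) (S : Sys L N (α ⊕ Unit) p k) (a : α → N) (s : J → Fin p → N) (W : Set N) (m : ℕ) : Prop :=
  ∃ ν, Val V S a s W ν ∧ ν.ncard = m

/-- `t` is the maximal number of classes of good `k+1`-tuples near `W` -/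
def TM (V : VC L N) (S : Sys L N (α ⊕ Unit) p k) (a : α → N) (W : Set N) (t : ℕ) : Prop :=
  (∃ u : Fin (k + 1) → Fin p → N, Gd V a u W ∧ Cd V S a u W t) ∧
    ∀ u : Fin (k + 1) → Fin p → N, Gd V a u W → ∀ m, Cd V S a u W m → m ≤ t

theorem Gd.comp {s : J → Fin p → N} {W : Set N} (h : Gd V a s W) (f : J' → J) : Gd V a (fun j => s (f j)) W :=
  ⟨h.1, fun h' => h.2 (VC.acl_mono (Set.union_subset_union_right _ (pts_comp f s)) h')⟩

theorem Gd.left {s : J → Fin p → N} {s' : J' → Fin p → N} {W : Set N} (h : Gd V a (Sum.elim s s') W) :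
    Gd V a s W := h.comp Sum.inl

theorem Gd.right {s : J → Fin p → N} {s' : J' → Fin p → N} {W : Set N} (h : Gd V a (Sum.elim s s') W) :
    Gd V a s' W := h.comp Sum.inr

theorem smul_range (g : AutG L N) (hg : g ∈ GA L (Set.range a)) : g • Set.range a = Set.range a := by
  rw [mem_GA] at hg
  exact Pool.VCM.Ctx0.smul_eq_of_fix hg

theorem Gd.smul {s : J → Fin p → N} {W : Set N} (h : Gd V a s W) {g : AutG L N} (hg : g ∈ GA L (Set.range a)) :
    Gd V a (g • s) (g • W) := by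
  refine ⟨h.1.smul g, fun h' => h.2 ?_⟩
  rw [supp_eq, pts_smul, ← smul_range g hg, ← Set.smul_set_union, VC.smul_mem_acl] at h'
  exact h'

theorem Cd.smul [Finite J] {s : J → Fin p → N} {W : Set N} {m : ℕ} (h : Cd V S a s W m) {g : AutG L N}
    (hg : g ∈ GA L (Set.range a)) : Cd V S a (g • s) (g • W) m := by
  obtain ⟨ν, h1, h2⟩ := h
  exact ⟨ν, h1.smul hg, h2⟩

theorem Cd.unique {s : J → Fin p → N} {W : Set N} (hW : V.Ball W) {m m' : ℕ} (h : Cd V S a s W m)
    (h' : Cd V S a s W m') : m = m' := by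
  have := VC.nearF_neBot hW
  obtain ⟨ν, h1, rfl⟩ := h
  obtain ⟨μ, h2, rfl⟩ := h'
  rw [h1.unique h2]

theorem Cd.le {s : J → Fin p → N} {W : Set N} (hW : V.Ball W) {m : ℕ} (h : Cd V S a s W m) : m ≤ k := by
  have := VC.nearF_neBot hW
  obtain ⟨ν, h1, rfl⟩ := h
  exact h1.card_le

theorem Gd.cd [Nonempty N] (Λ : Levels L N) [Finite α] [Finite J] {s : J → Fin p → N} {W : Set N}
    (h : Gd V a s W) : ∃ m, Cd V S a s W m := by
  obtain ⟨ν, hν⟩ := near_const Λ S a s h.1 h.2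
  exact ⟨_, ν, hν, rfl⟩

theorem TM.exists [Nonempty N] (Λ : Levels L N) [Finite α] {W : Set N}
    (h : ∃ u : Fin (k + 1) → Fin p → N, Gd V a u W) : ∃ t, TM V S a W t ∧ t ≤ k := by
  classical
  obtain ⟨u, hu⟩ := h
  obtain ⟨m, hm⟩ := hu.cd (S := S) Λ
  let P : ℕ → Prop := fun t => ∃ u : Fin (k + 1) → Fin p → N, Gd V a u W ∧ Cd V S a u W t
  have hP : P m := ⟨u, hu, hm⟩
  have hmk : m ≤ k := hm.le hu.1
  have hg := Nat.findGreatest_spec (P := P) hmk hP
  refine ⟨Nat.findGreatest P k, ⟨hg, fun v hv m' hm' => ?_⟩, Nat.findGreatest_le k⟩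
  exact Nat.le_findGreatest (hm'.le hv.1) ⟨v, hv, hm'⟩

theorem TM.unique {W : Set N} {t t' : ℕ} (h : TM V S a W t) (h' : TM V S a W t') : t = t' := by
  obtain ⟨u, hu, hc⟩ := h.1
  obtain ⟨u', hu', hc'⟩ := h'.1
  exact le_antisymm (h'.2 u hu t hc) (h.2 u' hu' t' hc')

theorem TM.le' {W : Set N} {t : ℕ} (h : TM V S a W t) : t ≤ k := by
  obtain ⟨u, hu, hc⟩ := h.1
  exact hc.le hu.1

/-- the general bound -/
theorem TM.le [Nonempty J] {W : Set N} {t : ℕ} (h : TM V S a W t) {s : J → Fin p → N} (hs : Gd V a s W)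
    {m : ℕ} (hm : Cd V S a s W m) : m ≤ t := by
  have := VC.nearF_neBot hs.1
  obtain ⟨ν, hν, rfl⟩ := hm
  obtain ⟨f, μ, h1, h2, -⟩ := hν.exists_sub
  exact h.2 _ (hs.comp f) _ ⟨μ, h1, h2⟩

theorem TM.smul {W : Set N} {t : ℕ} (h : TM V S a W t) {g : AutG L N} (hg : g ∈ GA L (Set.range a)) :
    TM V S a (g • W) t := by
  refine ⟨?_, fun u hu m hm => ?_⟩
  · obtain ⟨u, hu, hc⟩ := h.1
    exact ⟨g • u, hu.smul hg, hc.smul hg⟩
  · have hg' := (GA L (Set.range a)).inv_mem hg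
    have h1 := hu.smul hg'
    have h2 := hm.smul hg'
    rw [inv_smul_smul] at h1 h2
    exact h.2 _ h1 m h2

/-- transfer along cells -/
theorem Cd.cell [Nonempty N] (Λ : Levels L N) [Finite α] [Finite J] {s : J → Fin p → N} {W W' : Set N}
    (hs : Gd V a s W) (hs' : Gd V a s W') (hc : ∀ Q ∈ V.acl (supp a s), (W ⊂ Q ↔ W' ⊂ Q)) {m : ℕ}
    (h : Cd V S a s W m) : Cd V S a s W' m := by
  obtain ⟨ν, h1, h2⟩ := h
  exact ⟨ν, val_cell Λ S a s hs.1 hs.2 hs'.1 hs'.2 hc h1, h2⟩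

theorem Fac.smul [Finite J] [Finite J'] {z : J → Fin p → N} {y : J' → Fin p → N} {W : Set N} (h : Fac V S a z y W)
    {g : AutG L N} (hg : g ∈ GA L (Set.range a)) : Fac V S a (g • z) (g • y) (g • W) := by
  classical
  obtain ⟨φ, hφ⟩ := h
  refine ⟨φ, ?_⟩
  have h1 := VC.nearF_smul g hφ
  refine Filter.mem_of_superset h1 ?_
  rintro _ ⟨x, hx, rfl⟩
  intro w hw
  have h2 : (fun j => (Sum.elim (g • z) (g • y)) j ∈ w) ∈ S.pt a (g • Sum.elim z y) (g • x) := by
    refine ⟨w, hw, ?_⟩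
    funext j
    rcases j with j | j <;> rfl
  rw [S.pt_smul _ _ hg] at h2
  obtain ⟨w', hw', h3⟩ := h2
  have h4 : (fun j => z j ∈ w') = fun j => (g • z) j ∈ w := by
    funext j
    exact congrFun h3 (Sum.inl j)
  have h5 : (fun j => y j ∈ w') = fun j => (g • y) j ∈ w := by
    funext j
    exact congrFun h3 (Sum.inr j)
  have h6 : (fun j => y j ∈ w') = φ (fun j => z j ∈ w') := hx w' hw'
  rw [h4, h5] at h6
  exact h6

theorem Fac.smul_iff [Finite J] [Finite J'] {z : J → Fin p → N} {y : J' → Fin p → N} {W : Set N}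
    {g : AutG L N} (hg : g ∈ GA L (Set.range a)) : Fac V S a (g • z) (g • y) (g • W) ↔ Fac V S a z y W := by
  refine ⟨fun h => ?_, fun h => h.smul hg⟩
  have := h.smul ((GA L (Set.range a)).inv_mem hg)
  rwa [inv_smul_smul, inv_smul_smul, inv_smul_smul] at this

end Pool.Agent.VCM
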