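import Pool.Agent.VCM.Sys

/-! S15495, section 5: definitions. -/

open FirstOrder FirstOrder.Language
open scoped Pointwise

namespace Pool.Agent.VCM

variable {L : FirstOrder.Language.{0, 0}} {N : Type} [L.Structure N]
variable {α : Type} {p k : ℕ}

/-- patterns of the system over the line (base tuple `a`) at `x` on the points `s` -/
def Sys.pt (S : Sys L N (α ⊕ Unit) p k) (a : α → N) {J : Type} (s : J → Fin p → N) (x : N) : Set (J → Prop) :=
  S.pat (ext a x) s

/-- the value near `W` -/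
def Val (V : VC L N) (S : Sys L N (α ⊕ Unit) p k) (a : α → N) {J : Type} (s : J → Fin p → N) (W : Set N)
    (ν : Set (J → Prop)) : Prop := ∀ᶠ x in V.nearF W, S.pt a s x = ν

/-- `y` factors through `z` near `W` -/
def Fac (V : VC L N) (S : Sys L N (α ⊕ Unit) p k) (a : α → N) {J J' : Type} (z : J → Fin p → N)
    (y : J' → Fin p → N) (W : Set N) : Prop :=
  ∃ φ : (J → Prop) → (J' → Prop), ∀ᶠ x in V.nearF W, ∀ w ∈ S.T (ext a x), (fun j => y j ∈ w) = φ (fun j => z j ∈ w)

/-- the tuple `(a,w,s)` -/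
def tup3 {J : Type} (a : α → N) (w : ℕ → N) (s : J → Fin p → N) : (α ⊕ ℕ) ⊕ (J × Fin p) → N :=
  Sum.elim (Sum.elim a w) (fun q => s q.1 q.2)

end Pool.Agent.VCM
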