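import Pool.Agent.VCM.S5Defs
import Pool.Agent.VCM.URep
import Pool.Agent.VCM.Sec2

/-! S15495, section 5, module S5NC: a uniform bound for the number of clusters near which
`x ↦ pt a s x` is not constant. -/

open FirstOrder FirstOrder.Language
open scoped Pointwise

namespace Pool.Agent.VCM

variable {L : FirstOrder.Language.{0, 0}} {N : Type} [L.Structure N]
variable {α : Type} {p k : ℕ}

namespace NC5

/-- the patterns as fibres: for every `η` there is a formula `θ` such that for all `(a, s)` there is a code `w` -/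
theorem exists_fib [Nonempty N] [Finite α] {J : Type} [Finite J] (S : Sys L N (α ⊕ Unit) p k) (η : J → Prop) :
    ∃ θ : Fm L, ∀ (a : α → N) (s : J → Fin p → N), ∃ w : ℕ → N, ∀ x,
      (x ∈ fib θ w ↔ η ∈ S.pt a s x) := by
  classical
  obtain ⟨n, ⟨e⟩⟩ := Finite.exists_equiv_fin J
  obtain ⟨m, ⟨f⟩⟩ := Finite.exists_equiv_fin (α ⊕ (J × Fin p))
  obtain ⟨φ, hφ⟩ := S.dfn n (fun i => η (e.symm i))
  -- the code of a variable
  let c : (α ⊕ Unit) ⊕ (Fin n × Fin p) → Unit ⊕ ℕ := fun q =>
    match q with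
    | Sum.inl (Sum.inl i) => Sum.inr (f (Sum.inl i) : ℕ)
    | Sum.inl (Sum.inr _) => Sum.inl ()
    | Sum.inr (j, i) => Sum.inr (f (Sum.inr (e.symm j, i)) : ℕ)
  refine ⟨φ.relabel c, fun a s => ?_⟩
  let t : α ⊕ (J × Fin p) → N := Sum.elim a (fun q => s q.1 q.2)
  refine ⟨fun r => if h : r < m then t (f.symm ⟨r, h⟩) else Classical.arbitrary N, fun x => ?_⟩
  rw [mem_fib, Formula.realize_relabel, hφ]
  have h1 : (fun i => (Sum.elim (fun _ => x) (fun r => if h : r < m then t (f.symm ⟨r, h⟩) else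
      Classical.arbitrary N) ∘ c) (Sum.inl i) : α ⊕ Unit → N) = ext a x := by
    funext i
    rcases i with i | i
    · show (if h : (f (Sum.inl i) : ℕ) < m then t (f.symm ⟨_, h⟩) else _) = a i
      rw [dif_pos (f (Sum.inl i)).2]
      simp [t]
    · rfl
  have h2 : ∀ j : Fin n, (fun i => (Sum.elim (fun _ => x) (fun r => if h : r < m then t (f.symm ⟨r, h⟩) else
      Classical.arbitrary N) ∘ c) (Sum.inr (j, i)) : Fin p → N) = s (e.symm j) := by
    intro j
    funext i
    show (if h : (f (Sum.inr (e.symm j, i)) : ℕ) < m then t (f.symm ⟨_, h⟩) else _) = s (e.symm j) i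
    rw [dif_pos (f (Sum.inr (e.symm j, i))).2]
    simp [t]
  beta_reduce
  rw [h1]
  simp only [h2]
  constructor
  · rintro ⟨w, hw, h⟩
    refine ⟨w, hw, ?_⟩
    funext j
    have := h (e j)
    rw [e.symm_apply_apply] at this
    exact propext this
  · rintro ⟨w, hw, h⟩
    refine ⟨w, hw, fun j => ?_⟩
    have := congrFun h (e.symm j)
    exact iff_of_eq this

end NC5

open NC5 in
/-- module S5NC: a uniform bound for the number of clusters near which `x ↦ pt a s x` is not constant. -/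
theorem nonconst_bound [Nonempty N] {V : VC L N} (Λ : Levels L N) [Finite α] {J : Type} [Finite J]
    (S : Sys L N (α ⊕ Unit) p k) :
    ∃ K : ℕ, ∀ (a : α → N) (s : J → Fin p → N) (T : Finset (Set N)),
      (∀ W ∈ T, V.Ball W ∧ ∀ ν, ¬ Val V S a s W ν) →
      (∀ W ∈ T, ∀ W' ∈ T, V.cl W W' → W = W') → T.card ≤ K := by
  classical
  have : Fintype (J → Prop) := Fintype.ofFinite _
  choose θ hθ using fun η : J → Prop => exists_fib S η
  choose K Δ hΔ hrep using fun η : J → Prop => VC.uniform_rep (V := V) Λ (θ η)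
  refine ⟨∑ η, K η, fun a s T hT hinj => ?_⟩
  choose w hw using fun η => hθ η a s
  choose E hEf hEc hED hEr using fun η => hrep η (w η)
  -- all the balls
  let F : Finset (Set N) := Finset.univ.biUnion fun η => (hEf η).toFinset
  have hFcard : F.card ≤ ∑ η, K η := by
    refine Finset.card_biUnion_le.trans (Finset.sum_le_sum fun η _ => ?_)
    rw [← Set.ncard_eq_toFinset_card _ (hEf η)]
    exact hEc η
  have hconst : ∀ x y, (∀ D ∈ F, D.Nonempty → (x ∈ D ↔ y ∈ D)) → S.pt a s x = S.pt a s y := by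
    intro x y hxy
    ext η
    rw [← hw η x, ← hw η y]
    apply hEr η
    intro D hD
    by_cases hne : D.Nonempty
    · exact hxy D (Finset.mem_biUnion.2 ⟨η, Finset.mem_univ _, (Set.Finite.mem_toFinset _).2 hD⟩) hne
    · rw [Set.not_nonempty_iff_eq_empty] at hne
      rw [hne]
      simp
  have hball : ∀ D ∈ F, D.Nonempty → V.Ball D := by
    intro D hD hne
    obtain ⟨η, -, hη⟩ := Finset.mem_biUnion.1 hD
    obtain ⟨δ, hδ, u, rfl⟩ := hED η D ((Set.Finite.mem_toFinset _).1 hη)
    exact VC.ball_of_psi (hΔ η hδ) hne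
  have key : ∀ W ∈ T, ∃ D ∈ F, V.cl W D := by
    intro W hW
    obtain ⟨hWb, hWv⟩ := hT W hW
    by_contra hcon
    push Not at hcon
    have hmem : {x : N | ∀ D ∈ {D | D ∈ F ∧ D.Nonempty}, (x ∈ D ↔ W ⊆ D)} ∈ V.nearF W := by
      rw [VC.mem_nearF]
      refine ⟨{D | D ∈ F ∧ D.Nonempty}, ?_, ?_, subset_rfl⟩
      · exact F.finite_toSet.subset fun D hD => hD.1
      · rintro D ⟨h1, h2⟩
        exact ⟨hball D h1 h2, hcon D h1⟩
    have := VC.nearF_neBot hWb
    obtain ⟨x₀, hx₀⟩ := this.nonempty_of_mem hmem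
    refine hWv (S.pt a s x₀) ?_
    unfold Val
    filter_upwards [hmem] with x hx
    apply hconst
    intro D hD hne
    exact (hx D ⟨hD, hne⟩).trans (hx₀ D ⟨hD, hne⟩).symm
  choose! g hgF hgc using key
  refine le_trans (Finset.card_le_card_of_injOn g (fun W hW => hgF W hW) ?_) hFcard
  intro W hW W' hW' heq
  have hW := Finset.mem_coe.1 hW
  have hW' := Finset.mem_coe.1 hW'
  apply hinj W hW W' hW'
  have h1 := hgc W hW
  have h2 := hgc W' hW'
  rw [← heq] at h2
  exact VC.cl_trans h1 (VC.cl_symm h2)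

end Pool.Agent.VCM
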