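import Pool.Agent.VCM.Lim
import Pool.Agent.VCM.Sec2

/-! S15495, section 5, module S5OR: limits stay in the orbit; limits of non-algebraicity.
(Replace the import of `Stubs` by the file of `VC.acl_dfn`.) -/

open FirstOrder FirstOrder.Language
open scoped Pointwise

namespace Pool.Agent.VCM

variable {L : FirstOrder.Language.{0, 0}} {N : Type} [L.Structure N]
variable {α : Type}

/-- the fibres of `δ` depend on finitely many coordinates only -/
theorem fib_fin_supp (δ : Fm L) : ∃ K : Finset ℕ, ∀ w w' : ℕ → N, (∀ j ∈ K, w j = w' j) →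
    fib δ w = fib δ w' := by
  classical
  obtain ⟨F, ψ, hψ⟩ := fin_supp δ
  refine ⟨F.preimage Sum.inr (Sum.inr_injective.injOn), fun w w' h => ?_⟩
  ext x
  rw [mem_fib, mem_fib, hψ, hψ]
  apply iff_of_eq
  congr 1
  funext q
  obtain ⟨q, hq⟩ := q
  rcases q with q | q
  · rfl
  · exact h q (Finset.mem_preimage.2 hq)

/-- module S5OR: limits stay in the orbit (homogeneity, finite support of `δ`) -/
theorem orbit_limit (Λ : Levels L N) [Finite α] (a : α → N) {δ : Fm L} {w₀ w' : ℕ → N}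
    (h : ∀ R : (α ⊕ ℕ → N) → Prop, Dfn L R → R (Sum.elim a w₀) → R (Sum.elim a w')) :
    ∃ g ∈ GA L (Set.range a), g • fib δ w₀ = fib δ w' := by
  classical
  obtain ⟨K, hK⟩ := fib_fin_supp (N := N) δ
  let p : α ⊕ K → N := Sum.elim a (fun j => w₀ j)
  let q : α ⊕ K → N := Sum.elim a (fun j => w' j)
  obtain ⟨n, hn⟩ := Λ.finite_level p
  obtain ⟨m, hm⟩ := Λ.finite_level q
  have himp : ∀ φ : L.Formula (α ⊕ K), φ.Realize p → φ.Realize q := by
    intro φ hφ
    let s : α ⊕ K → α ⊕ ℕ := Sum.map id Subtype.val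
    have h1 := h (fun v => φ.Realize (v ∘ s)) (Dfn.real φ s (fun v => v ∘ s) (fun v b => rfl))
    have e1 : (Sum.elim a w₀ ∘ s : α ⊕ K → N) = p := by
      funext i; rcases i with i | i <;> rfl
    have e2 : (Sum.elim a w' ∘ s : α ⊕ K → N) = q := by
      funext i; rcases i with i | i <;> rfl
    beta_reduce at h1
    rw [e1, e2] at h1
    exact h1 hφ
  have htp : TpEq L p q := by
    intro φ
    refine ⟨himp φ, fun hq => ?_⟩
    by_contra hp
    have := himp φ.not (by rw [Formula.realize_not]; exact hp)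
    rw [Formula.realize_not] at this
    exact this hq
  obtain ⟨g, hg⟩ := Λ.hom (n := max n m) p q (fun i => Λ.mono (le_max_left _ _) (hn i))
    (fun i => Λ.mono (le_max_right _ _) (hm i)) htp
  refine ⟨g, mem_GA.2 ?_, ?_⟩
  · rintro _ ⟨i, rfl⟩
    exact hg (Sum.inl i)
  · rw [← fib_smul]
    apply hK
    intro j hj
    exact hg (Sum.inr ⟨j, hj⟩)

/-- module S5OR, second part: limits of non-algebraicity (from `acl_dfn`) -/
theorem lim_notin_acl {V : VC L N} (Λ : Levels L N) {κ : Type} [Finite κ] {I : Type} (U : Ultrafilter I) {δ : Fm L}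
    (c : I → κ → N) (w : I → ℕ → N) (c' : κ → N) (w' : ℕ → N)
    (hlim : ∀ R : (κ ⊕ ℕ → N) → Prop, Dfn L R → R (Sum.elim c' w') → ∀ᶠ i in (U : Filter I), R (Sum.elim (c i) (w i)))
    (h : ∀ᶠ i in (U : Filter I), fib δ (w i) ∉ V.acl (Set.range (c i))) : fib δ w' ∉ V.acl (Set.range c') := by
  intro hcon
  obtain ⟨R, K, hR1, hR2, -, hR3⟩ := VC.acl_dfn Λ hcon
  obtain ⟨i, hi1, hi2⟩ := ((hlim R hR1 hR2).and h).exists
  exact hi2 (hR3 _ _ hi1)

end Pool.Agent.VCM
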