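import Pool.Agent.VCM.S5D
import Pool.Agent.VCM.Over
import Pool.Agent.VCM.S5NC
import Pool.Agent.VCM.S5OR
import Pool.Agent.VCM.S5CV

/-! S15495, section 5, Step 1 (5.2): all maximal good tuples factor through each other. -/

open FirstOrder FirstOrder.Language
open scoped Pointwise

namespace Pool.Agent.VCM

variable {L : FirstOrder.Language.{0, 0}} {N : Type} [L.Structure N]
variable {α : Type} {p k : ℕ} {V : VC L N} {S : Sys L N (α ⊕ Unit) p k} {a : α → N}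
variable {J J' J'' : Type}

/-- the Moving Lemma for all cells over finite sets -/
def MovH (Λ : Levels L N) (V : VC L N) : Prop :=
  ∀ (A : Set N), A.Finite → ∀ (W₀ : Set N), V.Ball W₀ → W₀ ∉ V.acl A → Λ.Moving V A W₀

section ctx

variable (Λ : Levels L N) (hmov : MovH Λ V) (a) [Finite α]

/-- the full context -/
noncomputable def ctxN : Pool.VCM.Ctx N (AutG L N) := Λ.ctx (V := V) (fun {A} hA {W₀} h1 h2 => hmov A hA W₀ h1 h2)

theorem exists_lvA : ∃ n, Set.range a ⊆ (ctxN Λ hmov).lv n :=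
  (ctxN Λ hmov).toCtx0.exists_lv (Set.finite_range a)

/-- the context over the finite base `a` -/
noncomputable def ctxA : Pool.VCM.Ctx N (GA L (Set.range a)) :=
  (ctxN Λ hmov).over (Set.range a) (Set.finite_range a) (GA L (Set.range a)) (fun _ => mem_GA)
    (exists_lvA a Λ hmov).choose (exists_lvA a Λ hmov).choose_spec

theorem ctxA_acl (c : Set N) : (ctxA a Λ hmov).acl c = V.acl (Set.range a ∪ c) := rfl
theorem ctxA_Ball : (ctxA a Λ hmov).Ball = {W | V.Ball W} := rfl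
theorem ctxA_cl : (ctxA a Λ hmov).cl = V.cl := rfl

end ctx

/-- an ultrafilter picks one of finitely many cases -/
theorem uf_exists {I ι : Type} [Finite ι] (U : Ultrafilter I) {P : ι → I → Prop}
    (h : ∀ᶠ i in (U : Filter I), ∃ j, P j i) : ∃ j, ∀ᶠ i in (U : Filter I), P j i := by
  by_contra hcon
  push Not at hcon
  have h1 : ∀ j, ∀ᶠ i in (U : Filter I), ¬ P j i := hcon
  have h2 := Filter.eventually_all.2 h1
  obtain ⟨i, ⟨j, hj⟩, hi⟩ := (h.and h2).exists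
  exact hi j hj

/-- reindexing of limits -/
theorem lim_comp {κ κ' I : Type} (U : Ultrafilter I) {x' : κ → N} {x : I → κ → N}
    (h : ∀ R : (κ → N) → Prop, Dfn L R → (R x' ↔ ∀ᶠ i in (U : Filter I), R (x i))) (f : κ' → κ)
    {y' : κ' → N} {y : I → κ' → N} (hy' : ∀ q, y' q = x' (f q)) (hy : ∀ i q, y i q = x i (f q)) :
    ∀ R : (κ' → N) → Prop, Dfn L R → (R y' ↔ ∀ᶠ i in (U : Filter I), R (y i)) := by
  intro R hR
  have h1 := h (fun v => R (fun q => v (f q))) (hR.comp f (fun v q => v (f q)) fun _ _ => rfl)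
  have e1 : y' = fun q => x' (f q) := funext hy'
  have e2 : ∀ i, y i = fun q => x i (f q) := fun i => funext (hy i)
  rw [e1, h1]
  simp only [e2]

/-- same type over `a` for translates -/
theorem dfn_translate {w₀ : ℕ → N} {g : AutG L N} (hg : g ∈ GA L (Set.range a)) {R : (α ⊕ ℕ → N) → Prop}
    (hR : Dfn L R) : R (Sum.elim a (fun n => g • w₀ n)) ↔ R (Sum.elim a w₀) := by
  have h1 := AutG.dfn g hR (Sum.elim a w₀)
  rw [← h1]
  apply iff_of_eq
  congr 1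
  funext q
  rcases q with q | q
  · rw [mem_GA] at hg
    exact (hg _ ⟨q, rfl⟩).symm
  · rfl

/-- the bound on the number of clusters meeting `F(u,v)`, Step 1 -/
theorem step1_bound [Nonempty N] (Λ : Levels L N) [Finite α] (S : Sys L N (α ⊕ Unit) p k) (a : α → N)
    {W : Set N} (hW : V.Ball W) {t : ℕ} (hT : TM V S a W t) :
    ∃ K : ℕ, ∀ (u v : Fin (k + 1) → Fin p → N) (T : Finset (Set N)),
      (∀ Z ∈ T, (∃ g ∈ GA L (Set.range a), Z = g • W) ∧ Cd V S a u Z t ∧ ¬ Fac V S a u v Z) →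
      (∀ Z ∈ T, ∀ Z' ∈ T, V.cl Z Z' → Z = Z') → T.card ≤ K := by
  classical
  by_contra hcon
  push Not at hcon
  obtain ⟨δ₀, w₀, hδ₀⟩ := hW.1
  obtain ⟨K₁, hK₁⟩ := nonconst_bound (V := V) Λ (J := Fin (k + 1) ⊕ Fin (k + 1)) S
  have horb : ∀ Z, (∃ g ∈ GA L (Set.range a), Z = g • W) → V.Ball Z := by
    rintro _ ⟨g, -, rfl⟩
    exact hW.smul g
  obtain ⟨δ, hδ, I, U, w, s, y, w', s', y', hQ, hR, hn⟩ := VC.exists_limit (V := V) Λ
    (J := Fin (k + 1) ⊕ Fin (k + 1)) (κ' := Empty) (p := p) a {δ₀}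
    (fun δ w s _ => (∃ g ∈ GA L (Set.range a), w = fun n => g • w₀ n) ∧
      ∃ ν, Val V S a s (fib δ w) ν ∧ t < ν.ncard) (by
    intro K
    obtain ⟨u, v, T, h1, h2, h3⟩ := hcon (K₁ + K)
    refine ⟨Sum.elim u v, T.filter (fun Z => ∃ ν, Val V S a (Sum.elim u v) Z ν), ?_, ?_⟩
    · have h4 := hK₁ a (Sum.elim u v) (T.filter (fun Z => ¬ ∃ ν, Val V S a (Sum.elim u v) Z ν))
        (fun Z hZ => ⟨horb Z (h1 Z (Finset.mem_filter.1 hZ).1).1, fun ν hν => (Finset.mem_filter.1 hZ).2 ⟨ν, hν⟩⟩)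
        (fun Z hZ Z' hZ' h => h2 Z (Finset.mem_filter.1 hZ).1 Z' (Finset.mem_filter.1 hZ').1 h)
      have h5 := Finset.card_filter_add_card_filter_not (s := T)
        (fun Z => ∃ ν, Val V S a (Sum.elim u v) Z ν)
      omega
    · intro Z hZ
      obtain ⟨hZ, ν, hν⟩ := Finset.mem_filter.1 hZ
      obtain ⟨⟨g, hg, rfl⟩, ⟨μ, hμ, hμt⟩, hnf⟩ := h1 Z hZ
      have e : g • W = fib δ₀ (fun n => g • w₀ n) := by rw [fib_smul, hδ₀]
      refine ⟨δ₀, Finset.mem_singleton_self _, fun n => g • w₀ n, Empty.elim, e, ⟨g, hg, rfl⟩, ν, ?_, ?_⟩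
      · rw [← e]; exact hν
      · by_contra hlt
        push Not at hlt
        have := VC.nearF_neBot (hW.smul g)
        exact hnf (Fac.of_card hμ hν (by omega)))
  have hδ' : δ = δ₀ := Finset.mem_singleton.1 hδ
  subst hδ'
  have hne := U.neBot
  -- the limit ball is in the orbit
  obtain ⟨g, hg, hgW⟩ := orbit_limit Λ a (δ := δ) (w₀ := w₀) (w' := w') (by
    intro R hR' h0
    have h1 := lim_comp U hR (κ' := α ⊕ ℕ) (fun q => Sum.inl (Sum.inl q)) (y' := Sum.elim a w')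
      (y := fun i => Sum.elim a (w i)) (fun q => rfl) (fun i q => rfl) R hR'
    rw [h1]
    filter_upwards [hQ] with i hi
    obtain ⟨⟨g, hg, e⟩, -⟩ := hi
    rw [e, dfn_translate hg hR']
    exact h0)
  rw [← hδ₀] at hgW
  -- the value
  obtain ⟨ν, hν⟩ := uf_exists U (P := fun ν i => Val V S a (s i) (fib δ (w i)) ν ∧ t < ν.ncard) (by
    filter_upwards [hQ] with i hi using hi.2)
  have hb' : V.Ball (fib δ w') := by rw [← hgW]; exact hW.smul g
  have hval := Val_closed Λ S a U w s w' s' ν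
    (lim_comp U hR (fun q => Sum.inl q) (y' := tup3 a w' s') (y := fun i => tup3 a (w i) (s i))
      (fun q => rfl) (fun i q => rfl))
    (by
      filter_upwards [hQ] with i hi
      obtain ⟨⟨g, hg, e⟩, -⟩ := hi
      rw [e, fib_smul, ← hδ₀]
      exact hW.smul g) hb' (by filter_upwards [hν] with i hi using hi.1)
  obtain ⟨i, hi⟩ := hν.exists
  have hT' : TM V S a (fib δ w') t := by rw [← hgW]; exact hT.smul hg
  have := hT'.le (s := s') ⟨hb', hn⟩ ⟨ν, hval, rfl⟩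
  omega

/-- the flip structure of Step 1 -/
noncomputable def flip1 [Nonempty N] (Λ : Levels L N) (hmov : MovH Λ V) [Finite α] (S : Sys L N (α ⊕ Unit) p k)
    (a : α → N) {W : Set N} (hW : V.Ball W) {t : ℕ} (hT : TM V S a W t) :
    Pool.VCM.Flip (ctxA a Λ hmov).toCtx0 (Fin (k + 1) → Fin p → N) where
  sp := pts
  sp_fin := pts_finite
  sp_smul := fun g u => pts_smul g u
  sp_fix := fun g u h => smul_eq_of_pts g u h
  RR := {Z | ∃ g ∈ GA L (Set.range a), Z = g • W}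
  Act := fun u => {Z | (∃ g ∈ GA L (Set.range a), Z = g • W) ∧ Gd V a u Z ∧ Cd V S a u Z t}
  F := fun u v => {Z | (∃ g ∈ GA L (Set.range a), Z = g • W) ∧ (Gd V a u Z ∧ Cd V S a u Z t) ∧
    (Gd V a v Z ∧ Cd V S a v Z t) ∧ ¬ Fac V S a u v Z}
  RR_ball := by
    rintro _ ⟨g, -, rfl⟩
    exact hW.smul g
  act_acl := fun h => h.2.1.2
  act_smul := by
    rintro g u W' ⟨⟨h, hh, rfl⟩, h1, h2⟩
    exact ⟨⟨g.1 * h, (GA L (Set.range a)).mul_mem g.2 hh, (mul_smul g.1 h W).symm⟩, h1.smul g.2, h2.smul g.2⟩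
  act_cell := by
    rintro u W₁ W₂ ⟨-, h1, h2⟩ h3 h4
    have h5 : Gd V a u W₂ := ⟨h3.1, h3.2.1⟩
    refine ⟨h4, h5, h2.cell Λ h1 h5 fun Q hQ => ?_⟩
    have h6 := h3.2.2
    constructor
    · intro h7
      have : Q ∈ (ctxA a Λ hmov).toCtx0.QQ (pts u) W₁ := ⟨hQ, h7⟩
      rw [← h6] at this
      exact this.2
    · intro h7
      have : Q ∈ (ctxA a Λ hmov).toCtx0.QQ (pts u) W₂ := ⟨hQ, h7⟩
      rw [h6] at this
      exact this.2
  F_symm := by
    have key : ∀ u v : Fin (k + 1) → Fin p → N, ∀ Z, ((∃ g ∈ GA L (Set.range a), Z = g • W) ∧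
        (Gd V a u Z ∧ Cd V S a u Z t) ∧ (Gd V a v Z ∧ Cd V S a v Z t) ∧ ¬ Fac V S a u v Z) →
        ((∃ g ∈ GA L (Set.range a), Z = g • W) ∧
        (Gd V a v Z ∧ Cd V S a v Z t) ∧ (Gd V a u Z ∧ Cd V S a u Z t) ∧ ¬ Fac V S a v u Z) := by
      rintro u v Z ⟨h1, ⟨h2, ν, h3, h4⟩, ⟨h5, μ, h6, h7⟩, h8⟩
      refine ⟨h1, ⟨h5, μ, h6, h7⟩, ⟨h2, ν, h3, h4⟩, fun h9 => h8 ?_⟩
      have := VC.nearF_neBot h2.1
      exact h9.symm h6 h3 (by omega)
    intro u v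
    ext Z
    exact ⟨key u v Z, key v u Z⟩
  F_smul := by
    rintro g u v W' ⟨⟨h, hh, rfl⟩, ⟨h1, h2⟩, ⟨h3, h4⟩, h5⟩
    refine ⟨⟨g.1 * h, (GA L (Set.range a)).mul_mem g.2 hh, (mul_smul g.1 h W).symm⟩, ⟨h1.smul g.2, h2.smul g.2⟩,
      ⟨h3.smul g.2, h4.smul g.2⟩, fun h6 => h5 ((Fac.smul_iff g.2).1 h6)⟩
  F_act := fun h => ⟨h.1, h.2.1⟩
  F_RR := fun h => h.1
  F_acl := by
    rintro u v W' ⟨⟨h, hh, rfl⟩, ⟨h1, ν, h2, h2'⟩, ⟨h3, h4⟩, h5⟩
    by_contra hcon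
    have h6 : Gd V a (Sum.elim u v) (h • W) := by
      refine ⟨h1.1, ?_⟩
      rw [supp_eq, pts_sum]
      exact hcon
    obtain ⟨m, μ, h7, h8⟩ := h6.cd (S := S) Λ
    have h9 := (hT.smul hh).le h6 ⟨μ, h7, h8⟩
    have := VC.nearF_neBot h1.1
    exact h5 (Fac.of_card h2 h7 (by omega))
  F_tri := by
    rintro u v s Z ⟨h1, h2, h3, h4⟩ ⟨-, h5, h6⟩
    by_cases h7 : Fac V S a u s Z
    · right
      exact ⟨h1, ⟨h5, h6⟩, h3, fun h8 => h4 (h7.trans h8)⟩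
    · left
      exact ⟨h1, h2, ⟨h5, h6⟩, h7⟩
  K := (step1_bound Λ S a hW hT).choose
  F_bound := by
    intro u v T h1 h2
    exact (step1_bound Λ S a hW hT).choose_spec u v T (fun Z hZ => ⟨(h1 Z hZ).1, (h1 Z hZ).2.1.2, (h1 Z hZ).2.2.2⟩)
      (fun Z hZ Z' hZ' h => h2 Z hZ Z' hZ' h)

/-- (MC) -/
theorem MC [Nonempty N] (Λ : Levels L N) (hmov : MovH Λ V) [Finite α] {W : Set N} {t : ℕ}
    (hT : TM V S a W t) {u v : Fin (k + 1) → Fin p → N} (hu : Gd V a u W) (hcu : Cd V S a u W t)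
    (hv : Gd V a v W) (hcv : Cd V S a v W t) : Fac V S a u v W := by
  by_contra hcon
  have h1 := (flip1 Λ hmov S a hu.1 hT).machine u v
  have h2 : W ∈ (flip1 Λ hmov S a hu.1 hT).F u v :=
    ⟨⟨1, Subgroup.one_mem _, (one_smul _ _).symm⟩, ⟨hu, hcu⟩, ⟨hv, hcv⟩, hcon⟩
  rw [h1] at h2
  exact h2

/-- (MC) for tuples of arbitrary finite length -/
theorem MCJ [Nonempty N] (Λ : Levels L N) (hmov : MovH Λ V) [Finite α] [Nonempty J]
    {W : Set N} {t : ℕ} (hT : TM V S a W t) {u : J → Fin p → N} (hu : Gd V a u W) (hcu : Cd V S a u W t)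
    {v : Fin (k + 1) → Fin p → N} (hv : Gd V a v W) (hcv : Cd V S a v W t) : Fac V S a v u W := by
  have := VC.nearF_neBot hu.1
  obtain ⟨ν, h1, h2⟩ := hcu
  obtain ⟨f, μ, h3, h4, h5⟩ := h1.exists_sub
  exact (MC Λ hmov hT hv hcv (hu.comp f) ⟨μ, h3, h4.trans h2⟩).trans h5

end Pool.Agent.VCM
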