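import Pool.Agent.VCM.S5E

/-! S15495, section 5.3: compatible tuples. -/

open FirstOrder FirstOrder.Language
open scoped Pointwise

namespace Pool.Agent.VCM

variable {L : FirstOrder.Language.{0, 0}} {N : Type} [L.Structure N]
variable {α : Type} {p k : ℕ} {V : VC L N} {S : Sys L N (α ⊕ Unit) p k} {a : α → N}
variable {J J' J'' : Type}

/-- `y` is compatible at `W`: it factors through some maximal good tuple -/
def Comp (V : VC L N) (S : Sys L N (α ⊕ Unit) p k) (a : α → N) (y : J → Fin p → N) (W : Set N) : Prop :=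
  ∃ (t : ℕ) (z : Fin (k + 1) → Fin p → N), TM V S a W t ∧ Gd V a z W ∧ Cd V S a z W t ∧ Fac V S a z y W

theorem Comp.fac [Nonempty N] (Λ : Levels L N) (hmov : MovH Λ V) [Finite α] {W : Set N} {t : ℕ}
    (hT : TM V S a W t) {z : Fin (k + 1) → Fin p → N} (hz : Gd V a z W) (hcz : Cd V S a z W t)
    {y : J → Fin p → N} (hy : Comp V S a y W) : Fac V S a z y W := by
  obtain ⟨t', z', h1, h2, h3, h4⟩ := hy
  have := hT.unique h1
  subst this
  exact (MC Λ hmov hT hz hcz h2 h3).trans h4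

theorem Comp.trans {W : Set N} {y : J → Fin p → N} {v : J' → Fin p → N} (hy : Comp V S a y W)
    (h : Fac V S a y v W) : Comp V S a v W := by
  obtain ⟨t', z', h1, h2, h3, h4⟩ := hy
  exact ⟨t', z', h1, h2, h3, h4.trans h⟩

theorem Comp.smul [Finite J] {W : Set N} {y : J → Fin p → N} (hy : Comp V S a y W) {g : AutG L N}
    (hg : g ∈ GA L (Set.range a)) : Comp V S a (g • y) (g • W) := by
  obtain ⟨t', z', h1, h2, h3, h4⟩ := hy
  exact ⟨t', g • z', h1.smul hg, h2.smul hg, h3.smul hg, h4.smul hg⟩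

theorem Comp.smul_iff [Finite J] {W : Set N} {y : J → Fin p → N} {g : AutG L N}
    (hg : g ∈ GA L (Set.range a)) : Comp V S a (g • y) (g • W) ↔ Comp V S a y W := by
  refine ⟨fun h => ?_, fun h => h.smul hg⟩
  have := h.smul ((GA L (Set.range a)).inv_mem hg)
  rwa [inv_smul_smul, inv_smul_smul] at this

/-- 5.3.1 and its mirror: moving `y` by a generic element over the base `x` of type 1 -/
theorem gen_move [Nonempty N] (Λ : Levels L N) (hmov : MovH Λ V) [Finite α]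
    {W : Set N} {x y : Fin (k + 1) → Fin p → N} (hx : Gd V a x W) (hy : Gd V a y W)
    (hT1 : (ctxA a Λ hmov).toCtx0.T1 (pts x) (pts y) W) :
    ∃ g ∈ GA L (Set.range a), Gd V a (g • y) W ∧ (∀ m, Cd V S a y W m → Cd V S a (g • y) W m) ∧
      Gd V a (Sum.elim x (g • y)) W := by
  set C := ctxA a Λ hmov with hC
  have hWb : W ∈ C.Ball := hx.1
  obtain ⟨Vin, hV⟩ := C.vin (pts_finite x) hWb hx.2
  obtain ⟨σ, hσ, -⟩ := hV.gen
  obtain ⟨n₁, hn₁⟩ := C.toCtx0.exists_lv ((pts_finite x).union (pts_finite y))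
  obtain ⟨n₂, hn₂⟩ := C.toCtx0.ball_LB hWb
  set n := max n₁ n₂
  have hxy : pts x ∪ pts y ⊆ C.lv n := hn₁.trans (C.lv_mono (le_max_left _ _))
  have hWn : W ∈ C.toCtx0.LB n := C.toCtx0.LB_mono (le_max_right _ _) hn₂
  have hs := hσ n (Set.subset_union_left.trans hxy)
  set s := σ n
  have h1 : W ∈ C.toCtx0.cell (s • pts y) (s • W) :=
    C.toCtx0.star hWb hx.2 hs (pts_finite y) (Set.subset_union_right.trans hxy) hT1 hWn
      (C.toCtx0.cell_self hWb hx.2)
  have h2 : W ∉ C.acl (s • (pts x ∪ pts y)) :=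
    C.toCtx0.gen_notin hs ((pts_finite x).union (pts_finite y)) hxy hWn hx.2
  have hsx : s • pts x = pts x := Pool.VCM.Ctx0.smul_eq_of_fix hs.fix.1
  rw [Set.smul_set_union, hsx] at h2
  have hgy : Gd V a ((s : AutG L N) • y) W := by
    refine ⟨hx.1, ?_⟩
    rw [supp_eq, pts_smul]
    exact h1.2.1
  refine ⟨s, s.2, hgy, fun m hm => ?_, hx.1, ?_⟩
  · have h3 : Cd V S a ((s : AutG L N) • y) ((s : AutG L N) • W) m := hm.smul s.2
    have h4 : Gd V a ((s : AutG L N) • y) ((s : AutG L N) • W) := hy.smul s.2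
    refine h3.cell Λ h4 hgy fun Q hQ => ?_
    rw [supp_eq, pts_smul] at hQ
    have h5 := h1.2.2
    constructor
    · intro h7
      have : Q ∈ C.toCtx0.QQ (s • pts y) (s • W) := ⟨hQ, h7⟩
      rw [← h5] at this
      exact this.2
    · intro h7
      have : Q ∈ C.toCtx0.QQ (s • pts y) W := ⟨hQ, h7⟩
      rw [h5] at this
      exact this.2
  · rw [supp_eq, pts_sum, pts_smul]
    exact h2

/-- 5.3.1: if the base `y` is of type 1 for a maximal good tuple `z`, then `y` is compatible -/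
theorem comp_of_T1 [Nonempty N] (Λ : Levels L N) (hmov : MovH Λ V) [Finite α]
    {W : Set N} {t : ℕ} (hT : TM V S a W t) {y z : Fin (k + 1) → Fin p → N} (hy : Gd V a y W) (hz : Gd V a z W)
    (hcz : Cd V S a z W t) (hT1 : (ctxA a Λ hmov).toCtx0.T1 (pts y) (pts z) W) : Comp V S a y W := by
  obtain ⟨g, hg, h1, h2, h3⟩ := gen_move (S := S) Λ hmov hy hz hT1
  obtain ⟨ν, h4, h5⟩ := h2 t hcz
  have h6 : Gd V a (Sum.elim (g • z) y) W := by
    refine ⟨h3.1, ?_⟩
    have := h3.2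
    rw [supp_eq, pts_sum] at this ⊢
    rwa [Set.union_comm (pts (g • z))]
  obtain ⟨m, μ, h7, h8⟩ := h6.cd (S := S) Λ
  have h9 := hT.le h6 ⟨μ, h7, h8⟩
  have := VC.nearF_neBot hy.1
  exact ⟨t, g • z, hT, h1, ⟨ν, h4, h5⟩, Fac.of_card h4 h7 (by omega)⟩

/-- one of two bases is of type 1 -/
theorem T1_or [Nonempty N] (Λ : Levels L N) (hmov : MovH Λ V) [Finite α] {W : Set N} (hW : V.Ball W) (c c' : Set N)
    (h : ¬ (ctxA a Λ hmov).toCtx0.T1 c c' W) : (ctxA a Λ hmov).toCtx0.T1 c' c W := by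
  unfold Pool.VCM.Ctx0.T1 at h
  push Not at h
  obtain ⟨Q', hQ', h1⟩ := h
  intro Q hQ
  refine ⟨Q', hQ', ?_⟩
  rcases (ctxA a Λ hmov).toCtx0.comp ((ctxA a Λ hmov).acl_ball hQ'.1) ((ctxA a Λ hmov).acl_ball hQ.1) hW hQ'.2.1 hQ.2.1 with h2 | h2
  · exact h2
  · exact absurd h2 (h1 Q hQ)

end Pool.Agent.VCM
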