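import Pool.Agent.VCM.S5Defs
import Pool.Agent.VCM.URep
import Pool.Agent.VCM.Sec2

/-! S15495, module S5MR: minimal representations. -/

open FirstOrder FirstOrder.Language
open scoped Pointwise

namespace Pool.Agent.VCM

variable {L : FirstOrder.Language.{0, 0}} {N : Type} [L.Structure N]

/-- definability of patterns, any finite index type -/
theorem Sys.dfnJ {β : Type} {p k : ℕ} (S : Sys L N β p k) {J : Type} [Finite J] (η : J → Prop) :
    Dfn L (fun v : β ⊕ (J × Fin p) → N =>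
      η ∈ S.pat (fun i => v (Sum.inl i)) (fun j i => v (Sum.inr (j, i)))) := by
  obtain ⟨n, ⟨e⟩⟩ := Finite.exists_equiv_fin J
  have h := S.dfn n (fun i => η (e.symm i))
  have h' := h.comp (Sum.map id (Prod.map e.symm id) : β ⊕ (Fin n × Fin p) → β ⊕ (J × Fin p))
    (fun v q => v (Sum.map id (Prod.map e.symm id) q)) (fun v b => rfl)
  refine h'.of_iff fun v => ?_
  constructor
  · rintro ⟨w, hw, h1⟩
    refine ⟨w, hw, ?_⟩
    funext j
    have := h1 (e j)
    simp only [Equiv.symm_apply_apply, Sum.map_inr, Prod.map_apply, id] at this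
    exact propext this
  · rintro ⟨w, hw, h1⟩
    refine ⟨w, hw, fun j => ?_⟩
    have := congrFun h1 (e.symm j)
    simp only [Sum.map_inr, Prod.map_apply, id]
    exact iff_of_eq this

variable {α : Type} {p k : ℕ}

/-- `{x | η ∈ pt a s x}` is a uniformly definable family of subsets of the line -/
theorem Sys.pt_fib [Nonempty N] [Finite α] {J : Type} [Finite J] (S : Sys L N (α ⊕ Unit) p k) (η : J → Prop) :
    ∃ θ : Fm L, ∀ (a : α → N) (s : J → Fin p → N), ∃ w : ℕ → N, ∀ x, x ∈ fib θ w ↔ η ∈ S.pt a s x := by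
  classical
  obtain ⟨c, hc⟩ := exists_injective_nat (α ⊕ (J × Fin p))
  obtain ⟨φ, hφ⟩ := S.dfnJ η
  let ρ : (α ⊕ Unit) ⊕ (J × Fin p) → Unit ⊕ ℕ :=
    Sum.elim (Sum.elim (fun i => Sum.inr (c (Sum.inl i))) (fun _ => Sum.inl ())) (fun q => Sum.inr (c (Sum.inr q)))
  refine ⟨φ.relabel ρ, fun a s => ⟨Function.extend c (Sum.elim a (fun q => s q.1 q.2))
    (fun _ => Classical.arbitrary N), fun x => ?_⟩⟩
  rw [mem_fib, Formula.realize_relabel, hφ]
  have e1 : (fun i => (Sum.elim (fun _ => x) (Function.extend c (Sum.elim a (fun q => s q.1 q.2))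
      (fun _ => Classical.arbitrary N)) ∘ ρ) (Sum.inl i)) = ext a x := by
    funext i
    rcases i with i | i
    · exact hc.extend_apply (Sum.elim a (fun q => s q.1 q.2)) (fun _ => Classical.arbitrary N) (Sum.inl i)
    · rfl
  have e2 : (fun (j : J) (i : Fin p) => (Sum.elim (fun _ => x) (Function.extend c (Sum.elim a (fun q => s q.1 q.2))
      (fun _ => Classical.arbitrary N)) ∘ ρ) (Sum.inr (j, i))) = s := by
    funext j i
    exact hc.extend_apply (Sum.elim a (fun q => s q.1 q.2)) (fun _ => Classical.arbitrary N) (Sum.inr (j, i))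
  beta_reduce
  rw [e1, e2]
  rfl

/-- uniform representation of the functions `x ↦ pt a s x` -/
theorem rep_pt [Nonempty N] {V : VC L N} (Λ : Levels L N) [Finite α] {J : Type} [Finite J]
    (S : Sys L N (α ⊕ Unit) p k) :
    ∃ (K : ℕ) (Δ : Finset (Fm L)), ↑Δ ⊆ V.Ψ ∧ ∀ (a : α → N) (s : J → Fin p → N), ∃ E : Set (Set N),
      E.Finite ∧ E.ncard ≤ K ∧ (∀ D ∈ E, ∃ δ ∈ Δ, ∃ u : ℕ → N, D = fib δ u) ∧ AtomConst E (S.pt a s) := by
  classical
  haveI : Fintype (J → Prop) := Fintype.ofFinite _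
  choose θ hθ using fun η : J → Prop => S.pt_fib η
  choose K Δ hΔ hE using fun η : J → Prop => V.uniform_rep Λ (θ η)
  refine ⟨∑ η, K η, Finset.univ.biUnion Δ, ?_, fun a s => ?_⟩
  · intro δ hδ
    rw [Finset.mem_coe, Finset.mem_biUnion] at hδ
    obtain ⟨η, -, h⟩ := hδ
    exact hΔ η h
  · choose w hw using fun η : J → Prop => hθ η a s
    choose E hE1 hE2 hE3 hE4 using fun η : J → Prop => hE η (w η)
    refine ⟨⋃ η, E η, Set.finite_iUnion hE1, ?_, ?_, ?_⟩
    · have h1 : (⋃ η, E η) = ((Finset.univ.biUnion fun η => (hE1 η).toFinset : Finset (Set N)) : Set (Set N)) := by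
        ext D; simp
      rw [h1, Set.ncard_coe_finset]
      refine Finset.card_biUnion_le.trans (Finset.sum_le_sum fun η _ => ?_)
      rw [← Set.ncard_eq_toFinset_card _ (hE1 η)]
      exact hE2 η
    · intro D hD
      obtain ⟨η, hη⟩ := Set.mem_iUnion.1 hD
      obtain ⟨δ, hδ, u, rfl⟩ := hE3 η D hη
      exact ⟨δ, Finset.mem_biUnion.2 ⟨η, Finset.mem_univ _, hδ⟩, u, rfl⟩
    · intro x y hxy
      ext η
      rw [← hw η x, ← hw η y]
      exact hE4 η x y fun D hD => hxy D (Set.mem_iUnion.2 ⟨η, hD⟩)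

/-- a finite set of `Δ`-instances as a family -/
theorem exists_fam {Δ : Finset (Fm L)} {E : Set (Set N)} {r : ℕ} (hE : E.Finite) (hr : E.ncard = r)
    (h : ∀ D ∈ E, ∃ δ ∈ Δ, ∃ u : ℕ → N, D = fib δ u) :
    ∃ (l : Fin r → Δ) (u : Fin r × ℕ → N), Set.range (fun j => fib (l j : Fm L) (fun i => u (j, i))) = E := by
  classical
  subst hr
  haveI := hE.fintype
  have e : Fin E.ncard ≃ E := by
    rw [Set.ncard_eq_toFinset_card' E, Set.toFinset_card]
    exact (Fintype.equivFin E).symm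
  choose δ hδ u hu using fun D : E => h D.1 D.2
  refine ⟨fun j => ⟨δ (e j), hδ (e j)⟩, fun q => u (e q.1) q.2, ?_⟩
  ext D
  constructor
  · rintro ⟨j, rfl⟩
    have := (hu (e j)).symm
    show fib (δ (e j)) (fun i => u (e j) i) ∈ E
    rw [show (fun i => u (e j) i) = u (e j) from rfl, this]
    exact (e j).2
  · intro hD
    refine ⟨e.symm ⟨D, hD⟩, ?_⟩
    show fib (δ (e (e.symm ⟨D, hD⟩))) (fun i => u (e (e.symm ⟨D, hD⟩)) i) = D
    rw [Equiv.apply_symm_apply]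
    exact (hu ⟨D, hD⟩).symm

/-- the function `pt a s` is represented by `r` `Δ`-instances -/
def RepN (Δ : Finset (Fm L)) (S : Sys L N (α ⊕ Unit) p k) {J : Type} (a : α → N) (s : J → Fin p → N) (r : ℕ) : Prop :=
  ∃ (l : Fin r → Δ) (u : Fin r × ℕ → N),
    AtomConst (Set.range (fun j => fib (l j : Fm L) (fun i => u (j, i)))) (S.pt a s)

/-- the same, and `fib δ w` is one of the instances -/
def RepW (Δ : Finset (Fm L)) (S : Sys L N (α ⊕ Unit) p k) {J : Type} (a : α → N) (s : J → Fin p → N)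
    (δ : Fm L) (w : ℕ → N) (r : ℕ) : Prop :=
  ∃ (l : Fin r → Δ) (u : Fin r × ℕ → N),
    (∃ j, fib (l j : Fm L) (fun i => u (j, i)) = fib δ w) ∧
    AtomConst (Set.range (fun j => fib (l j : Fm L) (fun i => u (j, i)))) (S.pt a s)

theorem repN_of_set {Δ : Finset (Fm L)} {S : Sys L N (α ⊕ Unit) p k} {J : Type} {a : α → N} {s : J → Fin p → N}
    {E : Set (Set N)} (hE : E.Finite) (h : ∀ D ∈ E, ∃ δ ∈ Δ, ∃ u : ℕ → N, D = fib δ u)
    (hc : AtomConst E (S.pt a s)) : RepN Δ S a s E.ncard := by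
  obtain ⟨l, u, hlu⟩ := exists_fam hE rfl h
  exact ⟨l, u, by rw [hlu]; exact hc⟩

theorem dfn_atomConst [Nonempty N] [Finite α] {J : Type} [Finite J] (S : Sys L N (α ⊕ Unit) p k)
    {r : ℕ} (l : Fin r → Fm L) {κ : Type} (ia : α → κ) (is : J × Fin p → κ) (iu : Fin r × ℕ → κ)
    : Dfn L (fun v : κ → N => AtomConst (Set.range (fun j => fib (l j) (fun i => v (iu (j, i)))))
        (S.pt (fun i => v (ia i)) (fun j i => v (is (j, i))))) := by
  have h : Dfn L (fun v : κ → N => ∀ x y : N,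
      (∀ j, (x ∈ fib (l j) (fun i => v (iu (j, i))) ↔ y ∈ fib (l j) (fun i => v (iu (j, i))))) →
      ∀ η : J → Prop, (η ∈ S.pt (fun i => v (ia i)) (fun j i => v (is (j, i))) x ↔
        η ∈ S.pt (fun i => v (ia i)) (fun j i => v (is (j, i))) y)) := by
    refine Dfn.all1 (R := fun (v : κ → N) x => ∀ y : N,
      (∀ j, (x ∈ fib (l j) (fun i => v (iu (j, i))) ↔ y ∈ fib (l j) (fun i => v (iu (j, i))))) →
      ∀ η : J → Prop, (η ∈ S.pt (fun i => v (ia i)) (fun j i => v (is (j, i))) x ↔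
        η ∈ S.pt (fun i => v (ia i)) (fun j i => v (is (j, i))) y)) ?_
    refine Dfn.all1 (R := fun (v : κ ⊕ Unit → N) y =>
      (∀ j, (v (Sum.inr ()) ∈ fib (l j) (fun i => v (Sum.inl (iu (j, i)))) ↔
        y ∈ fib (l j) (fun i => v (Sum.inl (iu (j, i)))))) →
      ∀ η : J → Prop, (η ∈ S.pt (fun i => v (Sum.inl (ia i))) (fun j i => v (Sum.inl (is (j, i)))) (v (Sum.inr ())) ↔
        η ∈ S.pt (fun i => v (Sum.inl (ia i))) (fun j i => v (Sum.inl (is (j, i)))) y)) ?_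
    refine Dfn.imp (Dfn.finiteAll fun j => Dfn.iff ?_ ?_) (Dfn.finiteAll fun η => Dfn.iff ?_ ?_)
    · exact dfn_mem _ (Sum.inl (Sum.inr ())) (fun i => Sum.inl (Sum.inl (iu (j, i)))) _ _
        (fun v => rfl) (fun v i => rfl)
    · exact dfn_mem _ (Sum.inr ()) (fun i => Sum.inl (Sum.inl (iu (j, i)))) _ _
        (fun v => rfl) (fun v i => rfl)
    · refine ((S.dfnJ η).comp (α := (κ ⊕ Unit) ⊕ Unit)
        (Sum.elim (Sum.elim (fun i => Sum.inl (Sum.inl (ia i))) (fun _ => Sum.inl (Sum.inr ())))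
          (fun q => Sum.inl (Sum.inl (is q)))) _ (fun v b => rfl)).of_iff fun v => ?_
      apply iff_of_eq
      have e1 : (fun i : α ⊕ Unit => v (Sum.elim (Sum.elim (fun i => Sum.inl (Sum.inl (ia i)))
          (fun _ => Sum.inl (Sum.inr ()))) (fun q : J × Fin p => Sum.inl (Sum.inl (is q))) (Sum.inl i))) =
          ext (fun i => v (Sum.inl (Sum.inl (ia i)))) (v (Sum.inl (Sum.inr ()))) := by
        funext i; rcases i with i | i <;> rfl
      show (η ∈ S.pat (fun i : α ⊕ Unit => v (Sum.elim (Sum.elim (fun i => Sum.inl (Sum.inl (ia i)))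
          (fun _ => Sum.inl (Sum.inr ()))) (fun q : J × Fin p => Sum.inl (Sum.inl (is q))) (Sum.inl i))) _) = _
      rw [e1]
      rfl
    · refine ((S.dfnJ η).comp (α := (κ ⊕ Unit) ⊕ Unit)
        (Sum.elim (Sum.elim (fun i => Sum.inl (Sum.inl (ia i))) (fun _ => Sum.inr ()))
          (fun q => Sum.inl (Sum.inl (is q)))) _ (fun v b => rfl)).of_iff fun v => ?_
      apply iff_of_eq
      have e1 : (fun i : α ⊕ Unit => v (Sum.elim (Sum.elim (fun i => Sum.inl (Sum.inl (ia i)))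
          (fun _ => Sum.inr ())) (fun q : J × Fin p => Sum.inl (Sum.inl (is q))) (Sum.inl i))) =
          ext (fun i => v (Sum.inl (Sum.inl (ia i)))) (v (Sum.inr ())) := by
        funext i; rcases i with i | i <;> rfl
      show (η ∈ S.pat (fun i : α ⊕ Unit => v (Sum.elim (Sum.elim (fun i => Sum.inl (Sum.inl (ia i)))
          (fun _ => Sum.inr ())) (fun q : J × Fin p => Sum.inl (Sum.inl (is q))) (Sum.inl i))) _) = _
      rw [e1]
      rfl
  refine h.of_iff fun v => ?_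
  constructor
  · intro H x y hxy
    ext η
    exact H x y (fun j => hxy _ ⟨j, rfl⟩) η
  · intro H x y hxy η
    rw [H x y (by rintro D ⟨j, rfl⟩; exact hxy j)]

theorem dfn_repN [Nonempty N] [Finite α] {J : Type} [Finite J] (Δ : Finset (Fm L)) (S : Sys L N (α ⊕ Unit) p k) (r : ℕ) :
    Dfn L (fun v : (α ⊕ ℕ) ⊕ (J × Fin p) → N =>
      RepN Δ S (fun i => v (Sum.inl (Sum.inl i))) (fun j i => v (Sum.inr (j, i))) r) := by
  refine Dfn.finiteEx fun l => Dfn.exT ?_
  exact dfn_atomConst S (fun j => (l j : Fm L)) (fun i => Sum.inl (Sum.inl (Sum.inl i)))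
    (fun q => Sum.inl (Sum.inr q)) (fun q => Sum.inr q)

theorem dfn_repW [Nonempty N] [Finite α] {J : Type} [Finite J] (Δ : Finset (Fm L)) (S : Sys L N (α ⊕ Unit) p k)
    (δ : Fm L) (r : ℕ) :
    Dfn L (fun v : (α ⊕ ℕ) ⊕ (J × Fin p) → N =>
      RepW Δ S (fun i => v (Sum.inl (Sum.inl i))) (fun j i => v (Sum.inr (j, i))) δ
        (fun i => v (Sum.inl (Sum.inr i))) r) := by
  refine Dfn.finiteEx fun l => Dfn.exT ?_
  refine Dfn.and (Dfn.finiteEx fun j => ?_) ?_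
  · exact Dfn.comp (dfn_eq (l j : Fm L) δ) (Sum.elim (fun i => Sum.inr (j, i)) (fun i => Sum.inl (Sum.inl (Sum.inr i))))
      _ (fun v b => rfl)
  · exact dfn_atomConst S (fun j => (l j : Fm L)) (fun i => Sum.inl (Sum.inl (Sum.inl i)))
      (fun q => Sum.inl (Sum.inr q)) (fun q => Sum.inr q)

/-- minimal representations; `hdrop` is the Dropping Lemma 2.6 for `nearF` -/
theorem exists_MR_aux [Nonempty N] {V : VC L N} (Λ : Levels L N) [Finite α] {J : Type} [Finite J]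
    (S : Sys L N (α ⊕ Unit) p k)
    (hdrop : ∀ {f : N → Set (J → Prop)} {E : Set (Set N)}, E.Finite → (∀ D ∈ E, V.Ball D) →
      AtomConst E f → ∀ {W : Set N}, V.Ball W → ∀ {b : Set (J → Prop)}, (∀ᶠ x in V.nearF W, f x = b) →
      AtomConst {D | D ∈ E ∧ ¬ V.cl W D} f) :
    ∃ (Δ : Finset (Fm L)) (MR : Fm L → ((α ⊕ ℕ) ⊕ (J × Fin p) → N) → Prop),
      ↑Δ ⊆ V.Ψ ∧ (∀ δ ∈ Δ, Dfn L (MR δ)) ∧
      (∀ (a : α → N) (s : J → Fin p → N) (w : ℕ → N), ∀ δ ∈ Δ, MR δ (tup3 a w s) →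
        (fib δ w).Nonempty ∧ ∀ ν, ¬ Val V S a s (fib δ w) ν) ∧
      (∀ (a : α → N) (s : J → Fin p → N) (W : Set N), V.Ball W → (∀ ν, ¬ Val V S a s W ν) →
        ∃ δ ∈ Δ, ∃ w : ℕ → N, MR δ (tup3 a w s) ∧ V.cl W (fib δ w)) := by
  classical
  obtain ⟨K, Δ, hΔ, hrep⟩ := rep_pt (V := V) Λ (J := J) S
  let MR : Fm L → ((α ⊕ ℕ) ⊕ (J × Fin p) → N) → Prop := fun δ v =>
    ∃ r ∈ Finset.range (K + 1),
      RepW Δ S (fun i => v (Sum.inl (Sum.inl i))) (fun j i => v (Sum.inr (j, i))) δ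
        (fun i => v (Sum.inl (Sum.inr i))) r ∧
      ∀ r' ∈ Finset.range r, ¬ RepN Δ S (fun i => v (Sum.inl (Sum.inl i))) (fun j i => v (Sum.inr (j, i))) r'
  refine ⟨Δ, MR, hΔ, ?_, ?_, ?_⟩
  · intro δ _
    exact Dfn.finsetEx _ fun r _ => (dfn_repW Δ S δ r).and
      (Dfn.finsetAll _ fun r' _ => (dfn_repN Δ S r').not)
  · rintro a s w δ hδ ⟨r, hr, ⟨l, u, ⟨j₀, hj₀⟩, hat⟩, hmin⟩
    change AtomConst _ (S.pt a s) at hat
    change fib (l j₀ : Fm L) (fun i => u (j₀, i)) = fib δ w at hj₀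
    have hmin' : ∀ r' < r, ¬ RepN Δ S a s r' := fun r' h => hmin r' (Finset.mem_range.2 h)
    set E : Set (Set N) := Set.range (fun j => fib (l j : Fm L) (fun i => u (j, i))) with hEdef
    have hEfin : E.Finite := Set.finite_range _
    have hEcard : E.ncard ≤ r := by
      calc E.ncard ≤ (Set.univ : Set (Fin r)).ncard := by
            rw [hEdef, ← Set.image_univ]
            exact Set.ncard_image_le Set.finite_univ
        _ = r := by rw [Set.ncard_univ, Nat.card_eq_fintype_card, Fintype.card_fin]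
    have hWE : fib δ w ∈ E := ⟨j₀, hj₀⟩
    have hinst : ∀ D ∈ E, ∃ δ ∈ Δ, ∃ u : ℕ → N, D = fib δ u := by
      rintro D ⟨j, rfl⟩
      exact ⟨l j, (l j).2, _, rfl⟩
    -- no proper subset of `E` missing `fib δ w` represents
    have hno : ∀ E' ⊆ E, fib δ w ∉ E' → ¬ AtomConst E' (S.pt a s) := by
      intro E' hE' hW hc
      have hlt : E'.ncard < r := by
        refine lt_of_lt_of_le ?_ hEcard
        exact Set.ncard_lt_ncard ((Set.ssubset_iff_of_subset hE').2 ⟨_, hWE, hW⟩) hEfin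
      exact hmin' _ hlt (repN_of_set (hEfin.subset hE') (fun D hD => hinst D (hE' hD)) hc)
    -- nonempty members represent
    have hE1 : AtomConst {D | D ∈ E ∧ D.Nonempty} (S.pt a s) := by
      intro x y hxy
      apply hat x y
      intro D hD
      by_cases hne : D.Nonempty
      · exact hxy D ⟨hD, hne⟩
      · rw [Set.not_nonempty_iff_eq_empty.1 hne]
        simp
    have hWne : (fib δ w).Nonempty := by
      by_contra hne
      exact hno _ (fun D hD => hD.1) (fun h => hne h.2) hE1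
    refine ⟨hWne, fun ν hν => ?_⟩
    have hball : ∀ D ∈ {D | D ∈ E ∧ D.Nonempty}, V.Ball D := by
      rintro D ⟨hD, hne⟩
      obtain ⟨δ', hδ', u', rfl⟩ := hinst D hD
      exact VC.ball_of_psi (hΔ hδ') hne
    have hWball : V.Ball (fib δ w) := VC.ball_of_psi (hΔ hδ) hWne
    have hfin1 : Set.Finite {D | D ∈ E ∧ D.Nonempty} := hEfin.subset (fun D hD => hD.1)
    have := hdrop hfin1 hball hE1 hWball hν
    refine hno _ (fun D hD => hD.1.1) (fun h => h.2 ?_) this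
    exact Relation.EqvGen.refl _
  · intro a s W hW hval
    obtain ⟨E₀, hE₀1, hE₀2, hE₀3, hE₀4⟩ := hrep a s
    have hex : ∃ r, RepN Δ S a s r := ⟨_, repN_of_set hE₀1 hE₀3 hE₀4⟩
    set r := Nat.find hex with hrdef
    have hr : RepN Δ S a s r := Nat.find_spec hex
    have hmin : ∀ r' < r, ¬ RepN Δ S a s r' := fun r' h => Nat.find_min hex h
    have hrK : r ≤ K := (Nat.find_min' hex (repN_of_set hE₀1 hE₀3 hE₀4)).trans hE₀2
    obtain ⟨l, u, hat⟩ := hr
    by_cases hcl : ∃ j, V.cl W (fib (l j : Fm L) (fun i => u (j, i)))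
    · obtain ⟨j, hj⟩ := hcl
      exact ⟨l j, (l j).2, fun i => u (j, i),
        ⟨r, Finset.mem_range.2 (Nat.lt_succ_of_le hrK), ⟨l, u, ⟨j, rfl⟩, hat⟩,
          fun r' h => hmin r' (Finset.mem_range.1 h)⟩, hj⟩
    · exfalso
      push Not at hcl
      set E : Set (Set N) := Set.range (fun j => fib (l j : Fm L) (fun i => u (j, i))) with hEdef
      have hX : {x | ∀ D ∈ {D | D ∈ E ∧ D.Nonempty}, (x ∈ D ↔ W ⊆ D)} ∈ V.nearF W := by
        refine ⟨{D | D ∈ E ∧ D.Nonempty}, (Set.finite_range _).subset (fun D hD => hD.1), ?_, subset_rfl⟩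
        rintro D ⟨⟨j, rfl⟩, hne⟩
        exact ⟨VC.ball_of_psi (hΔ (l j).2) hne, hcl j⟩
      have hconst : ∀ x y, x ∈ {x | ∀ D ∈ {D | D ∈ E ∧ D.Nonempty}, (x ∈ D ↔ W ⊆ D)} →
          y ∈ {x | ∀ D ∈ {D | D ∈ E ∧ D.Nonempty}, (x ∈ D ↔ W ⊆ D)} → S.pt a s x = S.pt a s y := by
        intro x y hx hy
        apply hat x y
        intro D hD
        by_cases hne : D.Nonempty
        · exact (hx D ⟨hD, hne⟩).trans (hy D ⟨hD, hne⟩).symm
        · rw [Set.not_nonempty_iff_eq_empty.1 hne]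
          simp
      by_cases hne : ∃ x₀, x₀ ∈ {x | ∀ D ∈ {D | D ∈ E ∧ D.Nonempty}, (x ∈ D ↔ W ⊆ D)}
      · obtain ⟨x₀, hx₀⟩ := hne
        exact hval (S.pt a s x₀) (Filter.mem_of_superset hX fun x hx => hconst x x₀ hx hx₀)
      · exact hval ∅ (Filter.mem_of_superset hX fun x hx => absurd ⟨x, hx⟩ hne)

/-- module S5MR: minimal representations. -/
theorem exists_MR [Nonempty N] {V : VC L N} (Λ : Levels L N) [Finite α] {J : Type} [Finite J]
    (S : Sys L N (α ⊕ Unit) p k) :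
    ∃ (Δ : Finset (Fm L)) (MR : Fm L → ((α ⊕ ℕ) ⊕ (J × Fin p) → N) → Prop),
      ↑Δ ⊆ V.Ψ ∧ (∀ δ ∈ Δ, Dfn L (MR δ)) ∧
      (∀ (a : α → N) (s : J → Fin p → N) (w : ℕ → N), ∀ δ ∈ Δ, MR δ (tup3 a w s) →
        (fib δ w).Nonempty ∧ ∀ ν, ¬ Val V S a s (fib δ w) ν) ∧
      (∀ (a : α → N) (s : J → Fin p → N) (W : Set N), V.Ball W → (∀ ν, ¬ Val V S a s W ν) →
        ∃ δ ∈ Δ, ∃ w : ℕ → N, MR δ (tup3 a w s) ∧ V.cl W (fib δ w)) :=
  exists_MR_aux Λ S fun hE hb hc _ hW _ hv => VC.dropping' hE hb hc hW hv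

end Pool.Agent.VCM
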