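import Pool.Agent.VCM.S5F
import Pool.Agent.VCM.S5MR

/-! S15495, section 5.4: every good tuple is compatible. -/

open FirstOrder FirstOrder.Language
open scoped Pointwise

namespace Pool.Agent.VCM

variable {L : FirstOrder.Language.{0, 0}} {N : Type} [L.Structure N]
variable {α : Type} {p k : ℕ} {V : VC L N} {S : Sys L N (α ⊕ Unit) p k} {a : α → N}
variable {J J' J'' : Type}

/-- the extremal choices in the proof of 5.4 -/
structure Max54 (V : VC L N) (S : Sys L N (α ⊕ Unit) p k) (a : α → N) (t t' : ℕ) : Prop where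
  m1 : ∀ (W : Set N) (y : Fin (k + 1) → Fin p → N), Gd V a y W → ¬ Comp V S a y W → ∀ s, TM V S a W s → s ≤ t
  m2 : ∀ (W : Set N) (y : Fin (k + 1) → Fin p → N) (m : ℕ), Gd V a y W → ¬ Comp V S a y W → TM V S a W t →
    Cd V S a y W m → m ≤ t'

theorem Max54.m2' [Nonempty J] {t t' : ℕ} (h : Max54 V S a t t') {W : Set N} {y : J → Fin p → N} {m : ℕ}
    (hy : Gd V a y W) (hc : ¬ Comp V S a y W) (hT : TM V S a W t) (hm : Cd V S a y W m) : m ≤ t' := by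
  have := VC.nearF_neBot hy.1
  obtain ⟨ν, h1, rfl⟩ := hm
  obtain ⟨f, μ, h2, h3, h4⟩ := h1.exists_sub
  exact h.m2 W _ _ (hy.comp f) (fun h5 => hc (h5.trans h4)) hT ⟨μ, h2, h3⟩

theorem step2_fac [Nonempty N] (Λ : Levels L N) [Finite α] {t t' : ℕ} (h : Max54 V S a t t') {W : Set N}
    {y y' : Fin (k + 1) → Fin p → N} (hT : TM V S a W t) (hcy : Cd V S a y W t') (hy : Comp V S a y W)
    (hy' : ¬ Comp V S a y' W) (hg : Gd V a (Sum.elim y y') W) : False := by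
  have := VC.nearF_neBot hg.1
  obtain ⟨ν, h1, h2⟩ := hcy
  obtain ⟨m, μ, h3, h4⟩ := hg.cd (S := S) Λ
  have h5 : ¬ Comp V S a (Sum.elim y y') W := fun h6 => hy' (h6.trans (Fac.comp (Sum.inr)))
  have h7 := h.m2' hg h5 hT ⟨μ, h3, h4⟩
  exact hy' (hy.trans (Fac.of_card h1 h3 (by omega)))

/-- the limit argument of Step 2, one-sided -/
theorem step2_bound' [Nonempty N] (Λ : Levels L N) (hmov : MovH Λ V) [Finite α] {t t' : ℕ} (h : Max54 V S a t t')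
    {W : Set N} (hW : V.Ball W) (hT : TM V S a W t) :
    ∃ K : ℕ, ∀ (y y' : Fin (k + 1) → Fin p → N) (T : Finset (Set N)),
      (∀ Z ∈ T, (∃ g ∈ GA L (Set.range a), Z = g • W) ∧ Cd V S a y Z t' ∧ Comp V S a y Z ∧ ¬ Comp V S a y' Z) →
      (∀ Z ∈ T, ∀ Z' ∈ T, V.cl Z Z' → Z = Z') → T.card ≤ K := by
  classical
  by_contra hcon
  push Not at hcon
  obtain ⟨δ₀, w₀, hδ₀⟩ := hW.1
  obtain ⟨K₁, hK₁⟩ := nonconst_bound (V := V) Λ (J := Fin (k + 1) ⊕ Fin (k + 1)) S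
  obtain ⟨Δ, MR, hΔ, hMRd, hMR1, hMR2⟩ := exists_MR (V := V) Λ (J := Fin (k + 1) ⊕ Fin (k + 1)) S
  have horb : ∀ Z, (∃ g ∈ GA L (Set.range a), Z = g • W) → V.Ball Z := by
    rintro _ ⟨g, -, rfl⟩
    exact hW.smul g
  let Q : Fm L → (ℕ → N) → (Fin (k + 1) ⊕ Fin (k + 1) → Fin p → N) → (Fin (k + 1) × Fin p → N) → Prop :=
    fun δ w s x => V.Ball (fib δ w) ∧ Gd V a (fun j i => x (j, i)) (fib δ w) ∧
      (∃ ν, Val V S a (fun j i => x (j, i)) (fib δ w) ν ∧ ν.ncard = t) ∧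
      (∃ ν, Val V S a s (fib δ w) ν ∧ t' < ν.ncard) ∧
      ((δ ∈ Δ ∧ MR δ (tup3 a w (Sum.elim (fun j i => x (j, i)) (fun j => s (Sum.inr j))))) ∨
        (δ = δ₀ ∧ (∃ g ∈ GA L (Set.range a), w = fun n => g • w₀ n) ∧
          ∃ μ, Val V S a (Sum.elim (fun j i => x (j, i)) (fun j => s (Sum.inr j))) (fib δ w) μ ∧ t < μ.ncard))
  obtain ⟨δ, hδ, I, U, w, s, x, w', s', x', hQ, hR, hn⟩ := VC.exists_limit (V := V) Λ
    (J := Fin (k + 1) ⊕ Fin (k + 1)) (κ' := Fin (k + 1) × Fin p) (p := p) a (insert δ₀ Δ) Q (by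
    intro K
    obtain ⟨y, y', T, h1, h2, h3⟩ := hcon (K₁ + K)
    let T' := T.filter (fun Z => ∃ ν, Val V S a (Sum.elim y y') Z ν)
    have hT' : K < T'.card := by
      have h4 := hK₁ a (Sum.elim y y') (T.filter (fun Z => ¬ ∃ ν, Val V S a (Sum.elim y y') Z ν))
        (fun Z hZ => ⟨horb Z (h1 Z (Finset.mem_filter.1 hZ).1).1, fun ν hν => (Finset.mem_filter.1 hZ).2 ⟨ν, hν⟩⟩)
        (fun Z hZ Z' hZ' h => h2 Z (Finset.mem_filter.1 hZ).1 Z' (Finset.mem_filter.1 hZ').1 h)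
      have h5 := Finset.card_filter_add_card_filter_not (s := T)
        (fun Z => ∃ ν, Val V S a (Sum.elim y y') Z ν)
      show K < (T.filter (fun Z => ∃ ν, Val V S a (Sum.elim y y') Z ν)).card
      omega
    have key : ∀ Z ∈ T', ∃ Z', V.cl Z Z' ∧ ∃ δ ∈ insert δ₀ Δ, ∃ w x, Z' = fib δ w ∧ Q δ w (Sum.elim y y') x := by
      intro Z hZ
      obtain ⟨hZ, ν, hν⟩ := Finset.mem_filter.1 hZ
      obtain ⟨⟨g, hg, rfl⟩, ⟨μ, hμ, hμt⟩, hcy, hcy'⟩ := h1 Z hZ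
      have hb : V.Ball (g • W) := hW.smul g
      have := VC.nearF_neBot hb
      have hνt : t' < ν.ncard := by
        by_contra hlt
        push Not at hlt
        exact hcy' (hcy.trans (Fac.of_card hμ hν (by omega)))
      have hTZ := hT.smul hg
      obtain ⟨z, hz, κ, hκ, hκt⟩ := hTZ.1
      by_cases hab : ∃ μ, Val V S a (Sum.elim z y') (g • W) μ
      · obtain ⟨μ', hμ'⟩ := hab
        have hμt' : t < μ'.ncard := by
          by_contra hlt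
          push Not at hlt
          exact hcy' ⟨t, z, hTZ, hz, ⟨κ, hκ, hκt⟩, Fac.of_card hκ hμ' (by omega)⟩
        have e : g • W = fib δ₀ (fun n => g • w₀ n) := by rw [fib_smul, hδ₀]
        refine ⟨g • W, VC.cl_refl _, δ₀, Finset.mem_insert_self _ _, fun n => g • w₀ n, fun q => z q.1 q.2, e, ?_⟩
        rw [e] at hb hz hκ hν hμ'
        exact ⟨hb, hz, ⟨κ, hκ, hκt⟩, ⟨ν, hν, hνt⟩, Or.inr ⟨rfl, ⟨g, hg, rfl⟩, μ', hμ', hμt'⟩⟩
      · push Not at hab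
        obtain ⟨δ, hδ, w, hw, hcl⟩ := hMR2 a (Sum.elim z y') (g • W) hb hab
        have e := VC.nearF_cl hb hcl
        refine ⟨fib δ w, hcl, δ, Finset.mem_insert_of_mem hδ, w, fun q => z q.1 q.2, rfl, ?_⟩
        refine ⟨(VC.cl_ball hcl).1 hb, ⟨(VC.cl_ball hcl).1 hb, fun h' => hz.2 ((VC.cl_acl hcl).2 h')⟩,
          ⟨κ, ?_, hκt⟩, ⟨ν, ?_, hνt⟩, Or.inl ⟨hδ, hw⟩⟩
        · unfold Val at hκ ⊢
          rw [← e]; exact hκ
        · unfold Val at hν ⊢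
          rw [← e]; exact hν
    choose! f hf1 hf2 using key
    refine ⟨Sum.elim y y', T'.image f, ?_, ?_⟩
    · rw [Finset.card_image_of_injOn]
      · exact hT'
      · intro Z hZ Z' hZ' e
        have hZm := (Finset.mem_filter.1 (Finset.mem_coe.1 hZ)).1
        have hZm' := (Finset.mem_filter.1 (Finset.mem_coe.1 hZ')).1
        refine h2 Z hZm Z' hZm' ((hf1 Z hZ).trans _ _ _ ?_)
        have e' : f Z = f Z' := e
        rw [e']
        exact VC.cl_symm (hf1 Z' hZ')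
    · intro Z hZ
      obtain ⟨Z₁, hZ₁, rfl⟩ := Finset.mem_image.1 hZ
      exact hf2 Z₁ hZ₁)
  have hne := U.neBot
  -- the limit tuples
  set z' : Fin (k + 1) → Fin p → N := fun j i => x' (j, i) with hz'
  set y' : Fin (k + 1) → Fin p → N := fun j => s' (Sum.inr j) with hy'
  have lz : ∀ R : ((α ⊕ ℕ) ⊕ (Fin (k + 1) × Fin p) → N) → Prop, Dfn L R →
      (R (tup3 a w' z') ↔ ∀ᶠ i in (U : Filter I), R (tup3 a (w i) (fun j i' => x i (j, i')))) :=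
    lim_comp U hR (fun q => Sum.elim (fun r => Sum.inl (Sum.inl r)) (fun r => Sum.inr r) q)
      (fun q => by rcases q with q | q <;> rfl) (fun i q => by rcases q with q | q <;> rfl)
  have ls : ∀ R : ((α ⊕ ℕ) ⊕ ((Fin (k + 1) ⊕ Fin (k + 1)) × Fin p) → N) → Prop, Dfn L R →
      (R (tup3 a w' s') ↔ ∀ᶠ i in (U : Filter I), R (tup3 a (w i) (s i))) :=
    lim_comp U hR (fun q => Sum.inl q) (fun q => rfl) (fun i q => rfl)
  have lzy : ∀ R : ((α ⊕ ℕ) ⊕ ((Fin (k + 1) ⊕ Fin (k + 1)) × Fin p) → N) → Prop, Dfn L R →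
      (R (tup3 a w' (Sum.elim z' y')) ↔ ∀ᶠ i in (U : Filter I),
        R (tup3 a (w i) (Sum.elim (fun j i' => x i (j, i')) (fun j => s i (Sum.inr j))))) :=
    lim_comp U hR (fun q => Sum.elim (fun r => Sum.inl (Sum.inl r))
      (fun r : (Fin (k + 1) ⊕ Fin (k + 1)) × Fin p => Sum.elim (fun j => Sum.inr (j, r.2))
        (fun j => Sum.inl (Sum.inr (Sum.inr j, r.2))) r.1) q)
      (fun q => by rcases q with q | ⟨q | q, i⟩ <;> rfl) (fun i q => by rcases q with q | ⟨q | q, i⟩ <;> rfl)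
  -- `w'` is a ball, in both cases
  have hcase : (δ ∈ Δ ∧ MR δ (tup3 a w' (Sum.elim z' y'))) ∨
      ((∃ g ∈ GA L (Set.range a), g • W = fib δ w') ∧
        ∃ μ : Set (Fin (k + 1) ⊕ Fin (k + 1) → Prop), t < μ.ncard ∧
          ∀ᶠ i in (U : Filter I), Val V S a (Sum.elim (fun j i' => x i (j, i')) (fun j => s i (Sum.inr j)))
            (fib δ (w i)) μ) := by
    have h1 : ∀ᶠ i in (U : Filter I),
      ((δ ∈ Δ ∧ MR δ (tup3 a (w i) (Sum.elim (fun j i' => x i (j, i')) (fun j => s i (Sum.inr j))))) ∨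
        (δ = δ₀ ∧ (∃ g ∈ GA L (Set.range a), w i = fun n => g • w₀ n) ∧
          ∃ μ, Val V S a (Sum.elim (fun j i' => x i (j, i')) (fun j => s i (Sum.inr j))) (fib δ (w i)) μ ∧
            t < μ.ncard)) := by
      filter_upwards [hQ] with i hi using hi.2.2.2.2
    rw [Ultrafilter.eventually_or] at h1
    rcases h1 with h1 | h1
    · left
      obtain ⟨i, hi⟩ := h1.exists
      refine ⟨hi.1, ?_⟩
      rw [lzy _ (hMRd δ hi.1)]
      filter_upwards [h1] with i hi using hi.2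
    · right
      obtain ⟨i, hi⟩ := h1.exists
      have hδe := hi.1
      subst hδe
      refine ⟨?_, ?_⟩
      · obtain ⟨g, hg, hgW⟩ := orbit_limit Λ a (δ := δ) (w₀ := w₀) (w' := w') (by
          intro R hR' h0
          have h1' := lim_comp U hR (κ' := α ⊕ ℕ) (fun q => Sum.inl (Sum.inl q)) (y' := Sum.elim a w')
            (y := fun i => Sum.elim a (w i)) (fun q => rfl) (fun i q => rfl) R hR'
          rw [h1']
          filter_upwards [h1] with i hi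
          obtain ⟨-, ⟨g, hg, e⟩, -⟩ := hi
          rw [e, dfn_translate hg hR']
          exact h0)
        rw [← hδ₀] at hgW
        exact ⟨g, hg, hgW⟩
      · obtain ⟨μ, hμ⟩ := uf_exists U (P := fun μ i =>
          Val V S a (Sum.elim (fun j i' => x i (j, i')) (fun j => s i (Sum.inr j))) (fib δ (w i)) μ ∧
            t < μ.ncard) (by filter_upwards [h1] with i hi using hi.2.2)
        obtain ⟨i, hi⟩ := hμ.exists
        exact ⟨μ, hi.2, by filter_upwards [hμ] with i hi using hi.1⟩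
  have hb' : V.Ball (fib δ w') := by
    rcases hcase with ⟨h1, h2⟩ | ⟨⟨g, hg, h1⟩, -⟩
    · exact VC.ball_of_psi (hΔ h1) (hMR1 a _ w' δ h1 h2).1
    · rw [← h1]; exact hW.smul g
  have hbi : ∀ᶠ i in (U : Filter I), V.Ball (fib δ (w i)) := by
    filter_upwards [hQ] with i hi using hi.1
  have := VC.nearF_neBot hb'
  -- `z'` is good with `t` classes
  have hgz : Gd V a z' (fib δ w') := by
    refine ⟨hb', ?_⟩
    have key : ∀ x : Fin (k + 1) × Fin p → N, supp a (fun j i => x (j, i)) = Set.range (Sum.elim a x) := by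
      intro x
      rw [Set.Sum.elim_range]
      ext y
      constructor
      · rintro (h | ⟨j, i, rfl⟩)
        · exact Or.inl h
        · exact Or.inr ⟨(j, i), rfl⟩
      · rintro (h | ⟨q, rfl⟩)
        · exact Or.inl h
        · exact Or.inr ⟨q.1, q.2, rfl⟩
    rw [hz', key]
    refine lim_notin_acl Λ U (fun i => Sum.elim a (x i)) w (Sum.elim a x') w' ?_ ?_
    · intro R hR' h0
      have h1 := lim_comp U hR (κ' := (α ⊕ (Fin (k + 1) × Fin p)) ⊕ ℕ)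
        (fun q => Sum.elim (fun r : α ⊕ (Fin (k + 1) × Fin p) => Sum.elim (fun i => Sum.inl (Sum.inl (Sum.inl i)))
          (fun r => Sum.inr r) r) (fun n => Sum.inl (Sum.inl (Sum.inr n))) q)
        (y' := Sum.elim (Sum.elim a x') w') (y := fun i => Sum.elim (Sum.elim a (x i)) (w i))
        (fun q => by rcases q with (q | q) | q <;> rfl) (fun i q => by rcases q with (q | q) | q <;> rfl) R hR'
      exact h1.1 h0
    · filter_upwards [hQ] with i hi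
      have := hi.2.1.2
      rwa [key] at this
  have hcz : Cd V S a z' (fib δ w') t := by
    obtain ⟨ν, hν⟩ := uf_exists U (P := fun ν i => Val V S a (fun j i' => x i (j, i')) (fib δ (w i)) ν ∧ ν.ncard = t)
      (by filter_upwards [hQ] with i hi using hi.2.2.1)
    obtain ⟨i, hi⟩ := hν.exists
    exact ⟨ν, Val_closed Λ S a U w _ w' z' ν lz hbi hb' (by filter_upwards [hν] with i hi using hi.1), hi.2⟩
  -- the value of `s'`
  obtain ⟨ν, hν, hνt⟩ : ∃ ν, Val V S a s' (fib δ w') ν ∧ t' < ν.ncard := by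
    obtain ⟨ν, hν⟩ := uf_exists U (P := fun ν i => Val V S a (s i) (fib δ (w i)) ν ∧ t' < ν.ncard)
      (by filter_upwards [hQ] with i hi using hi.2.2.2.1)
    obtain ⟨i, hi⟩ := hν.exists
    exact ⟨ν, Val_closed Λ S a U w _ w' s' ν ls hbi hb' (by filter_upwards [hν] with i hi using hi.1), hi.2⟩
  have hgs : Gd V a s' (fib δ w') := ⟨hb', hn⟩
  have hgy : Gd V a y' (fib δ w') := hgs.comp Sum.inr
  -- enough: `y'` is incompatible and `t` is maximal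
  have fin : TM V S a (fib δ w') t → ¬ Comp V S a y' (fib δ w') → False := by
    intro h1 h2
    have h3 := h.m2' hgs (fun h4 => h2 (h4.trans (Fac.comp Sum.inr))) h1 ⟨ν, hν, rfl⟩
    omega
  rcases hcase with ⟨h1, h2⟩ | ⟨⟨g, hg, h1⟩, μ, hμt, hμ⟩
  · have hnv := (hMR1 a _ w' δ h1 h2).2
    obtain ⟨T₀, hT₀, -⟩ := TM.exists (S := S) Λ ⟨z', hgz⟩
    have hle : t ≤ T₀ := hT₀.2 z' hgz t hcz
    rcases hle.eq_or_lt with he | hlt
    · subst he
      refine fin hT₀ fun h3 => ?_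
      obtain ⟨κ, hκ, hκt⟩ := hcz
      obtain ⟨μ, hμ, -⟩ := (h3.fac Λ hmov hT₀ hgz ⟨κ, hκ, hκt⟩).val_sum hκ
      exact hnv μ hμ
    · have hc : ∀ u : Fin (k + 1) → Fin p → N, Gd V a u (fib δ w') → Comp V S a u (fib δ w') := by
        intro u hu
        by_contra hcu
        have := h.m1 _ u hu hcu T₀ hT₀
        omega
      obtain ⟨z₁, hz₁, κ, hκ, hκt⟩ := hT₀.1
      have h3 := (hc z' hgz).fac Λ hmov hT₀ hz₁ ⟨κ, hκ, hκt⟩
      have h4 := (hc y' hgy).fac Λ hmov hT₀ hz₁ ⟨κ, hκ, hκt⟩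
      obtain ⟨μ, hμ, -⟩ := (h3.sum h4).val' hκ
      exact hnv μ hμ
  · have hTW : TM V S a (fib δ w') t := by rw [← h1]; exact hT.smul hg
    refine fin hTW fun h3 => ?_
    have h4 := Val_closed Λ S a U w _ w' (Sum.elim z' y') μ lzy hbi hb' hμ
    obtain ⟨κ, hκ, hκt⟩ := hcz
    obtain ⟨μ', hμ', hμt'⟩ := (h3.fac Λ hmov hTW hgz ⟨κ, hκ, hκt⟩).val_sum hκ
    have h5 := h4.unique hμ'
    rw [h5] at hμt
    omega

/-- two-sided -/
theorem step2_bound [Nonempty N] (Λ : Levels L N) (hmov : MovH Λ V) [Finite α] {t t' : ℕ} (h : Max54 V S a t t')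
    {W : Set N} (hW : V.Ball W) (hT : TM V S a W t) :
    ∃ K : ℕ, ∀ (y y' : Fin (k + 1) → Fin p → N) (T : Finset (Set N)),
      (∀ Z ∈ T, (∃ g ∈ GA L (Set.range a), Z = g • W) ∧ Cd V S a y Z t' ∧ Cd V S a y' Z t' ∧
        ((Comp V S a y Z ∧ ¬ Comp V S a y' Z) ∨ (¬ Comp V S a y Z ∧ Comp V S a y' Z))) →
      (∀ Z ∈ T, ∀ Z' ∈ T, V.cl Z Z' → Z = Z') → T.card ≤ K := by
  classical
  obtain ⟨K, hK⟩ := step2_bound' Λ hmov h hW hT
  refine ⟨K + K, fun y y' T h1 h2 => ?_⟩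
  have h3 := hK y y' (T.filter fun Z => Comp V S a y Z) (fun Z hZ => by
    obtain ⟨hZ, hc⟩ := Finset.mem_filter.1 hZ
    obtain ⟨h3, h4, h5, h6 | h6⟩ := h1 Z hZ
    · exact ⟨h3, h4, h6.1, h6.2⟩
    · exact absurd hc h6.1)
    (fun Z hZ Z' hZ' h => h2 Z (Finset.mem_filter.1 hZ).1 Z' (Finset.mem_filter.1 hZ').1 h)
  have h4 := hK y' y (T.filter fun Z => ¬ Comp V S a y Z) (fun Z hZ => by
    obtain ⟨hZ, hc⟩ := Finset.mem_filter.1 hZ
    obtain ⟨h3, h4, h5, h6 | h6⟩ := h1 Z hZ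
    · exact absurd h6.1 hc
    · exact ⟨h3, h5, h6.2, h6.1⟩)
    (fun Z hZ Z' hZ' h => h2 Z (Finset.mem_filter.1 hZ).1 Z' (Finset.mem_filter.1 hZ').1 h)
  have h5 := Finset.card_filter_add_card_filter_not (s := T) (fun Z => Comp V S a y Z)
  omega

/-- the flip structure of Step 2 -/
noncomputable def flip2 [Nonempty N] (Λ : Levels L N) (hmov : MovH Λ V) [Finite α] (S : Sys L N (α ⊕ Unit) p k)
    (a : α → N) {t t' : ℕ} (h : Max54 V S a t t') {W : Set N} (hW : V.Ball W) (hT : TM V S a W t) :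
    Pool.VCM.Flip (ctxA a Λ hmov).toCtx0 (Fin (k + 1) → Fin p → N) where
  sp := pts
  sp_fin := pts_finite
  sp_smul := fun g u => pts_smul g u
  sp_fix := fun g u h => smul_eq_of_pts g u h
  RR := {Z | ∃ g ∈ GA L (Set.range a), Z = g • W}
  Act := fun u => {Z | (∃ g ∈ GA L (Set.range a), Z = g • W) ∧ Gd V a u Z ∧ Cd V S a u Z t'}
  F := fun u v => {Z | (∃ g ∈ GA L (Set.range a), Z = g • W) ∧ (Gd V a u Z ∧ Cd V S a u Z t') ∧
    (Gd V a v Z ∧ Cd V S a v Z t') ∧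
    ((Comp V S a u Z ∧ ¬ Comp V S a v Z) ∨ (¬ Comp V S a u Z ∧ Comp V S a v Z))}
  RR_ball := by
    rintro _ ⟨g, -, rfl⟩
    exact hW.smul g
  act_acl := fun h => h.2.1.2
  act_smul := by
    rintro g u W' ⟨⟨h, hh, rfl⟩, h1, h2⟩
    exact ⟨⟨g.1 * h, (GA L (Set.range a)).mul_mem g.2 hh, (mul_smul g.1 h W).symm⟩, h1.smul g.2, h2.smul g.2⟩
  act_cell := by
    rintro u W₁ W₂ ⟨-, h1, h2⟩ h3 h4
    have h5 : Gd V a u W₂ := ⟨h3.1, h3.2.1⟩
    refine ⟨h4, h5, h2.cell Λ h1 h5 fun Q hQ => ?_⟩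
    have h6 := h3.2.2
    constructor
    · intro h7
      have : Q ∈ (ctxA a Λ hmov).toCtx0.QQ (pts u) W₁ := ⟨hQ, h7⟩
      rw [← h6] at this
      exact this.2
    · intro h7
      have : Q ∈ (ctxA a Λ hmov).toCtx0.QQ (pts u) W₂ := ⟨hQ, h7⟩
      rw [h6] at this
      exact this.2
  F_symm := by
    intro u v
    ext Z
    constructor
    · rintro ⟨h1, h2, h3, h4⟩
      exact ⟨h1, h3, h2, h4.symm.imp And.symm And.symm⟩
    · rintro ⟨h1, h2, h3, h4⟩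
      exact ⟨h1, h3, h2, h4.symm.imp And.symm And.symm⟩
  F_smul := by
    rintro g u v W' ⟨⟨h, hh, rfl⟩, ⟨h1, h2⟩, ⟨h3, h4⟩, h5⟩
    refine ⟨⟨g.1 * h, (GA L (Set.range a)).mul_mem g.2 hh, (mul_smul g.1 h W).symm⟩, ⟨h1.smul g.2, h2.smul g.2⟩,
      ⟨h3.smul g.2, h4.smul g.2⟩, ?_⟩
    rcases h5 with ⟨h5, h6⟩ | ⟨h5, h6⟩
    · exact Or.inl ⟨(Comp.smul_iff g.2).2 h5, fun h7 => h6 ((Comp.smul_iff g.2).1 h7)⟩
    · exact Or.inr ⟨fun h7 => h5 ((Comp.smul_iff g.2).1 h7), (Comp.smul_iff g.2).2 h6⟩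
  F_act := fun h => ⟨h.1, h.2.1⟩
  F_RR := fun h => h.1
  F_acl := by
    rintro u v W' ⟨⟨g, hg, rfl⟩, ⟨h1, h2⟩, ⟨h3, h4⟩, h5⟩
    by_contra hcon
    have h6 : Gd V a (Sum.elim u v) (g • W) := by
      refine ⟨h1.1, ?_⟩
      rw [supp_eq, pts_sum]
      exact hcon
    have h6' : Gd V a (Sum.elim v u) (g • W) := by
      refine ⟨h1.1, ?_⟩
      rw [supp_eq, pts_sum, Set.union_comm (pts v)]
      exact hcon
    rcases h5 with ⟨h5, h7⟩ | ⟨h5, h7⟩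
    · exact step2_fac Λ h (hT.smul hg) h2 h5 h7 h6
    · exact step2_fac Λ h (hT.smul hg) h4 h7 h5 h6'
  F_tri := by
    rintro u v s Z ⟨h1, h2, h3, h4⟩ ⟨-, h5⟩
    by_cases h7 : Comp V S a s Z
    · rcases h4 with ⟨h8, h9⟩ | ⟨h8, h9⟩
      · exact Or.inr ⟨h1, h5, h3, Or.inl ⟨h7, h9⟩⟩
      · exact Or.inl ⟨h1, h2, h5, Or.inr ⟨h8, h7⟩⟩
    · rcases h4 with ⟨h8, h9⟩ | ⟨h8, h9⟩
      · exact Or.inl ⟨h1, h2, h5, Or.inl ⟨h8, h7⟩⟩
      · exact Or.inr ⟨h1, h5, h3, Or.inr ⟨h7, h9⟩⟩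
  K := (step2_bound Λ hmov h hW hT).choose
  F_bound := by
    intro u v T h1 h2
    exact (step2_bound Λ hmov h hW hT).choose_spec u v T
      (fun Z hZ => ⟨(h1 Z hZ).1, (h1 Z hZ).2.1.2, (h1 Z hZ).2.2.1.2, (h1 Z hZ).2.2.2⟩)
      (fun Z hZ Z' hZ' h => h2 Z hZ Z' hZ' h)

/-- 5.4 -/
theorem good_comp [Nonempty N] (Λ : Levels L N) (hmov : MovH Λ V) [Finite α] (S : Sys L N (α ⊕ Unit) p k)
    (a : α → N) (W : Set N) (y : Fin (k + 1) → Fin p → N) (hy : Gd V a y W) : Comp V S a y W := by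
  classical
  by_contra hcon
  -- the maximal `t`
  let P : ℕ → Prop := fun t => ∃ (W : Set N) (y : Fin (k + 1) → Fin p → N), Gd V a y W ∧ ¬ Comp V S a y W ∧
    TM V S a W t
  obtain ⟨t₁, ht₁, ht₁k⟩ := TM.exists (S := S) Λ ⟨y, hy⟩
  have hP : P (Nat.findGreatest P k) := Nat.findGreatest_spec (P := P) ht₁k ⟨W, y, hy, hcon, ht₁⟩
  set t := Nat.findGreatest P k with ht
  -- the maximal `t'`
  let P' : ℕ → Prop := fun m => ∃ (W : Set N) (y : Fin (k + 1) → Fin p → N), Gd V a y W ∧ ¬ Comp V S a y W ∧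
    TM V S a W t ∧ Cd V S a y W m
  obtain ⟨W₁, y₁, h1, h2, h3⟩ := hP
  obtain ⟨m₁, hm₁⟩ := h1.cd (S := S) Λ
  have hP' : P' (Nat.findGreatest P' k) :=
    Nat.findGreatest_spec (P := P') (hm₁.le h1.1) ⟨W₁, y₁, h1, h2, h3, hm₁⟩
  set t' := Nat.findGreatest P' k with ht'
  have hmax : Max54 V S a t t' := by
    refine ⟨fun W y hy hc s hs => ?_, fun W y m hy hc hT hm => ?_⟩
    · exact Nat.le_findGreatest hs.le' ⟨W, y, hy, hc, hs⟩
    · exact Nat.le_findGreatest (hm.le hy.1) ⟨W, y, hy, hc, hT, hm⟩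
  obtain ⟨W₀, y₀, hy₀, hc₀, hT₀, hm₀⟩ := hP'
  obtain ⟨z₀, hz₀, hcz₀⟩ := hT₀.1
  -- the base `z₀` is of type 1
  have hT1 : (ctxA a Λ hmov).toCtx0.T1 (pts z₀) (pts y₀) W₀ := by
    apply T1_or Λ hmov hy₀.1
    intro h4
    exact hc₀ (comp_of_T1 Λ hmov hT₀ hy₀ hz₀ hcz₀ h4)
  obtain ⟨g, hg, h4, h5, h6⟩ := gen_move (S := S) Λ hmov hz₀ hy₀ hT1
  have h7 := h5 t' hm₀
  have h8 : Comp V S a (g • y₀) W₀ := by
    obtain ⟨ν, h9, h10⟩ := hcz₀
    obtain ⟨m, μ, h11, h12⟩ := h6.cd (S := S) Λ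
    have h13 := hT₀.le h6 ⟨μ, h11, h12⟩
    have := VC.nearF_neBot hy₀.1
    exact ⟨t, z₀, hT₀, hz₀, ⟨ν, h9, h10⟩, Fac.of_card h9 h11 (by omega)⟩
  have h9 := (flip2 Λ hmov S a hmax hy₀.1 hT₀).machine y₀ (g • y₀)
  have h10 : W₀ ∈ (flip2 Λ hmov S a hmax hy₀.1 hT₀).F y₀ (g • y₀) :=
    ⟨⟨1, Subgroup.one_mem _, (one_smul _ _).symm⟩, ⟨hy₀, hm₀⟩, ⟨h4, h7⟩, Or.inr ⟨hc₀, h8⟩⟩
  rw [h9] at h10
  exact h10

/-- 5.5 -/
theorem val_of_owners [Nonempty N] (Λ : Levels L N) (hmov : MovH Λ V) [Finite α] (S : Sys L N (α ⊕ Unit) p k)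
    (a : α → N) [Finite J] [Nonempty J] (s : J → Fin p → N) {W : Set N} (hW : V.Ball W)
    (h : ∀ j, W ∉ V.acl (Set.range a ∪ Set.range (s j))) : ∃ ν, Val V S a s W ν := by
  have h1 : ∀ j, Gd V a (fun _ : Fin (k + 1) => s j) W := by
    intro j
    refine ⟨hW, fun h' => h j (VC.acl_mono (Set.union_subset_union_right _ ?_) h')⟩
    rintro _ ⟨_, i, rfl⟩
    exact ⟨i, rfl⟩
  have h2 : ∀ j, Comp V S a (fun _ : Fin (k + 1) => s j) W := fun j => good_comp Λ hmov S a W _ (h1 j)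
  obtain ⟨t, z, hT, hz, hcz, -⟩ := h2 (Classical.arbitrary J)
  have h3 : Fac V S a z s W := Fac.pi fun j =>
    ((h2 j).fac Λ hmov hT hz hcz).trans (Fac.comp (fun _ : Unit => (0 : Fin (k + 1))))
  have := VC.nearF_neBot hW
  obtain ⟨κ, hκ, -⟩ := hcz
  obtain ⟨μ, hμ, -⟩ := h3.val' hκ
  exact ⟨μ, hμ⟩

end Pool.Agent.VCM
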