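import Pool.Agent.VCM.S5G
import Pool.Agent.VCM.S5Aux
import Pool.Agent.VCM.OUni
import Pool.Agent.VCM.Lim
import Pool.Agent.VCM.Mov3

/-! S15495, section 5: the owner theorem. -/

open FirstOrder FirstOrder.Language
open scoped Pointwise

namespace Pool.Agent.VCM

variable {L : FirstOrder.Language.{0, 0}} {N : Type} [L.Structure N]
variable {α : Type} {p k : ℕ} {V : VC L N}

/-- drop all clusters satisfying `P` -/
theorem drop_all [Nonempty N] {β : Type} {f : N → β} (P : Set N → Prop)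
    (hP : ∀ W W', V.cl W W' → P W → P W') (hf : ∀ W, V.Ball W → P W → ∃ b, ∀ᶠ x in V.nearF W, f x = b) :
    ∀ (n : ℕ) (E : Set (Set N)), E.Finite → E.ncard ≤ n → (∀ D ∈ E, V.Ball D) → AtomConst E f →
      AtomConst {D | D ∈ E ∧ ¬ P D} f := by
  classical
  intro n
  induction n with
  | zero =>
    intro E hE hn _ h
    have : E = ∅ := by
      rw [← Set.ncard_eq_zero hE]; omega
    rw [this] at h ⊢
    intro x y hxy
    exact h x y (by simp)
  | succ n ih =>
    intro E hE hn hb h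
    by_cases hex : ∃ W ∈ E, P W
    · obtain ⟨W, hW, hPW⟩ := hex
      obtain ⟨b, hfb⟩ := hf W (hb W hW) hPW
      have h1 := VC.dropping' hE hb h (hb W hW) hfb
      have hsub : {D | D ∈ E ∧ ¬ V.cl W D} ⊆ E \ {W} := by
        rintro D ⟨hD, hn⟩
        refine ⟨hD, fun he => hn ?_⟩
        rw [Set.mem_singleton_iff.1 he]
        exact VC.cl_refl W
      have hc : {D | D ∈ E ∧ ¬ V.cl W D}.ncard ≤ n := by
        have h2 := Set.ncard_le_ncard hsub (hE.subset Set.diff_subset)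
        have h3 := Set.ncard_diff_singleton_add_one hW hE
        omega
      have h4 := ih {D | D ∈ E ∧ ¬ V.cl W D} (hE.subset fun D hD => hD.1) hc (fun D hD => hb D hD.1) h1
      have h5 : {D | D ∈ {D | D ∈ E ∧ ¬ V.cl W D} ∧ ¬ P D} = {D | D ∈ E ∧ ¬ P D} := by
        ext D
        constructor
        · rintro ⟨⟨h1, h2⟩, h3⟩
          exact ⟨h1, h3⟩
        · rintro ⟨h1, h3⟩
          exact ⟨⟨h1, fun h2 => h3 (hP W D h2 hPW)⟩, h3⟩
      rwa [h5] at h4
    · have : {D | D ∈ E ∧ ¬ P D} = E := by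
        ext D
        exact ⟨fun h => h.1, fun h => ⟨h, fun h' => hex ⟨D, h, h'⟩⟩⟩
      rwa [this]

/-- the owner theorem -/
theorem owner [Nonempty N] (Λ : Levels L N) (hmov : MovH Λ V) [Finite α] (S : Sys L N (α ⊕ Unit) p k)
    {n : ℕ} (hn : 0 < n) (a : α → N) (s : Fin n → Fin p → N) (u v : N)
    (h : ∀ j, ∀ W ∈ V.acl (Set.range a ∪ Set.range (s j)), (u ∈ W ↔ v ∈ W)) :
    S.pat (ext a u) s = S.pat (ext a v) s := by
  classical
  have : Nonempty (Fin n) := ⟨⟨0, hn⟩⟩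
  obtain ⟨K, Δ, hΔ, hrep⟩ := exists_rep_pt (V := V) Λ (J := Fin n) S
  obtain ⟨E, hE, -, hEb, hEc⟩ := hrep a s
  have hb : ∀ D ∈ E, V.Ball D := by
    intro D hD
    obtain ⟨hne, δ, hδ, w, rfl⟩ := hEb D hD
    exact VC.ball_of_psi (hΔ hδ) hne
  have h1 := drop_all (V := V) (f := S.pt a s) (fun W => ∀ j, W ∉ V.acl (Set.range a ∪ Set.range (s j)))
    (fun W W' hcl hW j h' => hW j ((VC.cl_acl hcl).2 h'))
    (fun W hW hP => val_of_owners Λ hmov S a s hW hP) E.ncard E hE le_rfl hb hEc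
  refine h1 u v ?_
  rintro D ⟨hD, hnP⟩
  push Not at hnP
  obtain ⟨j, hj⟩ := hnP
  exact h j D hj

/-- Theorem O for all systems -/
theorem theoremO [Nonempty N] (Λ : Levels L N) (hmov : MovH Λ V) [Finite α] (S : Sys L N (α ⊕ Unit) p k)
    {n : ℕ} (hn : 0 < n) : V.OConc S n :=
  OUni.main Λ (fun h => VC.acl_dfn Λ h) S n fun a s u v h => owner Λ hmov S hn a s u v h

end Pool.Agent.VCM
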