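import Pool.Agent.VCM.Balls

/-! Saturation for families of definable relations. -/

open FirstOrder FirstOrder.Language
open scoped Pointwise

namespace Pool.Agent.VCM

variable {L : FirstOrder.Language.{0, 0}} {N : Type} [L.Structure N]

/-- `ρ` is definable over the parameter set `B` -/
def DfnO (L : FirstOrder.Language.{0, 0}) {N : Type} [L.Structure N] (B : Set N) {κ : Type}
    (ρ : (κ → N) → Prop) : Prop :=
  ∃ φ : L.Formula (B ⊕ κ), ∀ x, φ.Realize (Sum.elim (fun b => (b : N)) x) ↔ ρ x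

namespace DfnO

variable {B : Set N} {κ : Type} {ρ ρ' : (κ → N) → Prop}

theorem of_iff (h : DfnO L B ρ) (e : ∀ x, ρ x ↔ ρ' x) : DfnO L B ρ' := by
  obtain ⟨φ, hφ⟩ := h
  exact ⟨φ, fun x => (hφ x).trans (e x)⟩

theorem mono {B' : Set N} (hB : B ⊆ B') (h : DfnO L B ρ) : DfnO L B' ρ := by
  obtain ⟨φ, hφ⟩ := h
  refine ⟨φ.relabel (Sum.map (Set.inclusion hB) id), fun x => ?_⟩
  rw [Formula.realize_relabel, ← hφ]
  apply iff_of_eq
  congr 1
  funext k
  rcases k with k | k <;> rfl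

/-- the basic way of producing relations definable over `B` -/
theorem of_dfn {β : Type} {R : (β ⊕ κ → N) → Prop} (h : Dfn L R) (p : β → N)
    (hp : ∀ b, p b ∈ B) : DfnO L B (fun x => R (Sum.elim p x)) := by
  obtain ⟨φ, hφ⟩ := h
  refine ⟨φ.relabel (Sum.map (fun b => ⟨p b, hp b⟩) id), fun x => ?_⟩
  beta_reduce
  rw [Formula.realize_relabel, ← hφ]
  apply iff_of_eq
  congr 1
  funext k
  rcases k with k | k <;> rfl

theorem of_dfn0 {R : (κ → N) → Prop} (h : Dfn L R) : DfnO L B R := by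
  obtain ⟨φ, hφ⟩ := h
  refine ⟨φ.relabel Sum.inr, fun x => ?_⟩
  rw [Formula.realize_relabel, ← hφ]
  rfl

/-- a relation definable over `B` comes from a `∅`-definable relation with parameters in `B` -/
theorem exists_dfn (h : DfnO L B ρ) : ∃ R : (B ⊕ κ → N) → Prop, Dfn L R ∧
    ∀ x, R (Sum.elim (fun b => (b : N)) x) ↔ ρ x := by
  obtain ⟨φ, hφ⟩ := h
  exact ⟨fun v => φ.Realize v, Dfn.formula φ, hφ⟩

theorem comp {κ' : Type} (h : DfnO L B ρ) (s : κ → κ') (g : (κ' → N) → (κ → N))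
    (hg : ∀ x k, g x k = x (s k)) : DfnO L B (fun x : κ' → N => ρ (g x)) := by
  obtain ⟨φ, hφ⟩ := h
  refine ⟨φ.relabel (Sum.map id s), fun x => ?_⟩
  beta_reduce
  rw [Formula.realize_relabel, ← hφ]
  apply iff_of_eq
  congr 1
  funext k
  rcases k with k | k
  · rfl
  · exact (hg x k).symm

theorem not (h : DfnO L B ρ) : DfnO L B (fun x => ¬ ρ x) := by
  obtain ⟨φ, hφ⟩ := h
  exact ⟨φ.not, fun x => by rw [Formula.realize_not, hφ]⟩

theorem and (h : DfnO L B ρ) (h' : DfnO L B ρ') : DfnO L B (fun x => ρ x ∧ ρ' x) := by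
  obtain ⟨φ, hφ⟩ := h
  obtain ⟨ψ, hψ⟩ := h'
  exact ⟨φ ⊓ ψ, fun x => by rw [Formula.realize_inf, hφ, hψ]⟩

theorem or (h : DfnO L B ρ) (h' : DfnO L B ρ') : DfnO L B (fun x => ρ x ∨ ρ' x) :=
  ((h.not.and h'.not).not).of_iff fun x => by tauto

theorem imp (h : DfnO L B ρ) (h' : DfnO L B ρ') : DfnO L B (fun x => ρ x → ρ' x) :=
  ((h.and h'.not).not).of_iff fun x => by tauto

theorem finsetAll {I : Type} (F : Finset I) {ρ : I → (κ → N) → Prop}
    (h : ∀ i ∈ F, DfnO L B (ρ i)) : DfnO L B (fun x => ∀ i ∈ F, ρ i x) := by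
  classical
  induction F using Finset.induction_on with
  | empty => exact (of_dfn0 Dfn.true').of_iff fun v => by simp
  | insert a F _ ih =>
    have h1 := h a (Finset.mem_insert_self _ _)
    have h2 := ih fun i hi => h i (Finset.mem_insert_of_mem hi)
    exact (h1.and h2).of_iff fun v => by simp

theorem finsetEx {I : Type} (F : Finset I) {ρ : I → (κ → N) → Prop}
    (h : ∀ i ∈ F, DfnO L B (ρ i)) : DfnO L B (fun x => ∃ i ∈ F, ρ i x) :=
  (finsetAll F (ρ := fun i v => ¬ ρ i v) fun i hi => (h i hi).not).not.of_iff fun v => by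
    push Not; rfl

theorem exT [Nonempty N] {κ' : Type} {ρ : (κ → N) → (κ' → N) → Prop}
    (h : DfnO L B (fun u : κ ⊕ κ' → N => ρ (u ∘ Sum.inl) (u ∘ Sum.inr))) :
    DfnO L B (fun x => ∃ y : κ' → N, ρ x y) := by
  obtain ⟨φ, hφ⟩ := h
  obtain ⟨ψ, hψ⟩ := exists_ex (φ.relabel (Equiv.sumAssoc B κ κ').symm)
  refine ⟨ψ, fun x => ?_⟩
  rw [hψ]
  apply exists_congr
  intro y
  rw [Formula.realize_relabel]
  have := hφ (Sum.elim x y)
  simp only [Sum.elim_comp_inl, Sum.elim_comp_inr] at this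
  rw [← this]
  apply iff_of_eq
  congr 1
  funext k
  rcases k with k | k | k <;> rfl

theorem allT [Nonempty N] {κ' : Type} {ρ : (κ → N) → (κ' → N) → Prop}
    (h : DfnO L B (fun u : κ ⊕ κ' → N => ρ (u ∘ Sum.inl) (u ∘ Sum.inr))) :
    DfnO L B (fun x => ∀ y : κ' → N, ρ x y) :=
  (exT (ρ := fun v x => ¬ ρ v x) h.not).not.of_iff fun v => by push Not; rfl

/-- invariance of a relation over `B` under automorphisms fixing `B` -/
theorem smul_iff (h : DfnO L B ρ) (g : AutG L N) (hg : ∀ b ∈ B, g • b = b) (x : κ → N) :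
    ρ (fun k => g • x k) ↔ ρ x := by
  obtain ⟨φ, hφ⟩ := h
  rw [← hφ, ← hφ]
  have := AutG.realize g (Sum.elim (fun b : B => (b : N)) x) φ
  rw [← this]
  apply iff_of_eq
  congr 1
  funext k
  rcases k with k | k
  · exact (hg k k.2).symm
  · rfl

end DfnO

namespace Levels

variable (Λ : Levels L N)

/-- saturation for families of relations definable over a level -/
theorem sat_rel (m : ℕ) {κ I : Type} (j : κ → Λ.S m × ℕ) (hj : Function.Injective j)
    (ρ : I → (κ → N) → Prop) (hρ : ∀ i, DfnO L (Λ.S m) (ρ i))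
    (hfin : ∀ F : Finset I, ∃ x : κ → N, ∀ i ∈ F, ρ i x) :
    ∃ x : κ → N, (∀ k, x k ∈ Λ.S (m + 1)) ∧ ∀ i, ρ i x := by
  classical
  choose φ hφ using hρ
  obtain ⟨x, hx1, hx2⟩ := Λ.satK m (fun b : Λ.S m => (b : N)) (fun b => b.2) j hj (Set.range φ) (by
    intro T₀ hT₀
    have hch : ∀ ψ : L.Formula (Λ.S m ⊕ κ), ∃ i : Option I, ψ ∈ T₀ → ∃ i', i = some i' ∧ φ i' = ψ := by
      intro ψ
      by_cases h : ψ ∈ T₀
      · obtain ⟨i, hi⟩ := hT₀ h
        exact ⟨some i, fun _ => ⟨i, rfl, hi⟩⟩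
      · exact ⟨none, fun h' => absurd h' h⟩
    choose pre hpre using hch
    obtain ⟨x, hx⟩ := hfin (T₀.image pre).eraseNone
    refine ⟨x, fun ψ hψ => ?_⟩
    obtain ⟨i', h1, h2⟩ := hpre ψ hψ
    rw [← h2, hφ]
    apply hx
    rw [Finset.mem_eraseNone, Finset.mem_image]
    exact ⟨ψ, hψ, h1⟩)
  exact ⟨x, hx1, fun i => (hφ i x).1 (hx2 _ ⟨i, rfl⟩)⟩

/-- a satisfiable relation definable over a level has a solution in the level -/
theorem elem_rel (n : ℕ) {κ : Type} (ρ : (κ → N) → Prop) (hρ : DfnO L (Λ.S n) ρ)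
    (x : κ → N) (hx : ρ x) : ∃ y : κ → N, (∀ k, y k ∈ Λ.S n) ∧ ρ y := by
  obtain ⟨φ, hφ⟩ := hρ
  obtain ⟨y, h1, h2⟩ := Λ.elem n κ φ x ((hφ x).2 hx)
  exact ⟨y, h1, (hφ y).1 h2⟩

end Levels

end Pool.Agent.VCM
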