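import Mathlib

/-! One step of the construction of the monster model: an elementary extension realising all
finitely satisfiable sets of formulas over `M` in `M × ℕ` many variables (an ultrapower). -/

open FirstOrder FirstOrder.Language

namespace Pool.Agent.VCM

variable (L : FirstOrder.Language.{0, 0}) (M : Type) [L.Structure M] [Nonempty M]

/-- formulas over `M` in variables indexed by `M × ℕ` -/
abbrev Fml := L.Formula (M ⊕ (M × ℕ))

/-- finitely satisfiable sets of formulas over `M` -/
def FinSat (T : Set (Fml L M)) : Prop :=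
  ∀ T₀ : Finset (Fml L M), ↑T₀ ⊆ T → ∃ x : M × ℕ → M, ∀ φ ∈ T₀, φ.Realize (Sum.elim id x)

/-- index set of the ultrapower -/
abbrev Idx := Finset (Set (Fml L M) × Fml L M)

noncomputable def uf : Ultrafilter (Idx L M) := Ultrafilter.of Filter.atTop

abbrev UPow : Type := ((uf L M : Ultrafilter (Idx L M)) : Filter (Idx L M)).Product (fun _ => M)

theorem exists_step :
    ∃ (N : Type) (_ : L.Structure N) (f : M ↪ₑ[L] N),
      ∀ T : Set (Fml L M), FinSat L M T →
        ∃ x : M × ℕ → N, ∀ φ ∈ T, φ.Realize (Sum.elim f x) := by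
  classical
  refine ⟨UPow L M, inferInstance, ⟨fun m => ((fun _ => m : Idx L M → M) : UPow L M), ?_⟩, ?_⟩
  · intro n φ x
    have h := Ultraproduct.realize_formula_cast (u := uf L M) (M := fun _ => M) φ
      (fun (i : Fin n) (_ : Idx L M) => x i)
    have h2 : (∀ᶠ a : Idx L M in (uf L M : Filter (Idx L M)), φ.Realize fun i => x i) ↔
        φ.Realize x := Filter.eventually_const
    exact h.trans h2
  · intro T hT
    have hch : ∀ i : Idx L M, ∃ x : M × ℕ → M, ∀ φ ∈ T, (T, φ) ∈ i →
        φ.Realize (Sum.elim id x) := by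
      intro i
      obtain ⟨x, hx⟩ := hT ((i.image Prod.snd).filter (fun φ => φ ∈ T)) (by
        intro φ hφ
        simp only [Finset.coe_filter, Set.mem_setOf_eq] at hφ
        exact hφ.2)
      refine ⟨x, fun φ hφ hi => hx φ ?_⟩
      simp only [Finset.mem_filter, Finset.mem_image]
      exact ⟨⟨(T, φ), hi, rfl⟩, hφ⟩
    choose X hX using hch
    refine ⟨fun k => ((fun i => X i k : Idx L M → M) : UPow L M), fun φ hφ => ?_⟩
    have h := Ultraproduct.realize_formula_cast (u := uf L M) (M := fun _ => M) φ
      (fun (k : M ⊕ (M × ℕ)) (i : Idx L M) => (Sum.elim id (X i) k))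
    have h3 : (Sum.elim (fun m : M => ((fun _ => m : Idx L M → M) : UPow L M))
        (fun k => ((fun i => X i k : Idx L M → M) : UPow L M))) =
        fun k : M ⊕ (M × ℕ) => ((fun i => (Sum.elim id (X i) k) : Idx L M → M) : UPow L M) := by
      funext k
      cases k <;> rfl
    show φ.Realize (Sum.elim (fun m : M => ((fun _ => m : Idx L M → M) : UPow L M))
        (fun k => ((fun i => X i k : Idx L M → M) : UPow L M)))
    rw [h3]
    refine h.2 ?_
    have h4 : ∀ᶠ i : Idx L M in Filter.atTop, (T, φ) ∈ i := by
      filter_upwards [Filter.eventually_ge_atTop ({(T, φ)} : Idx L M)] with i hi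
      exact hi (Finset.mem_singleton_self _)
    have h5 : ∀ᶠ i : Idx L M in (uf L M : Filter (Idx L M)), (T, φ) ∈ i :=
      (Ultrafilter.of_le (Filter.atTop : Filter (Idx L M))) h4
    filter_upwards [h5] with i hi
    exact hX i φ hφ hi

end Pool.Agent.VCM
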