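import Pool.Agent.VCM.S5H

/-! S15495: Theorem O for every monster model (sections 0-5). -/

open FirstOrder FirstOrder.Language
open scoped Pointwise

namespace Pool.Agent.VCM

variable {L : FirstOrder.Language.{0, 0}} {N : Type} [L.Structure N]

/-- the Moving Lemma holds -/
theorem movH (Λ : Levels L N) (V : VC L N) : MovH Λ V := by
  intro A hA W₀ h1 h2
  have hf : Finite A := hA
  obtain ⟨n, hn⟩ := Λ.finite_level (fun a : A => (a : N))
  exact Λ.moving (fun x hx => hn ⟨x, hx⟩) h1 h2

/-- Theorem O -/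
theorem thmO [Nonempty N] (V : VC L N) (Λ : Levels L N) {α : Type} [Finite α] {p k : ℕ} (S : Sys L N (α ⊕ Unit) p k)
    {n : ℕ} (hn : 0 < n) : V.OConc S n := theoremO Λ (movH Λ V) S hn

end Pool.Agent.VCM
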